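import Pool.Agent.Lib.MP_42948a_nt.TQ.A1
import Pool.Agent.Lib.MP_42948a_nt.OA.SO

/-!
# The sieve weights (job A2)

`b0` from `prec τ`, `K = 4 b0 + 6`, `u = um z b0`, `l = lam z b0`.
* `u_abs`: `SK_prod_abs`, `SK_cc_abs`; `l_abs`: `lam_abs_le`.
* `u_sup`: if `um z b0 T ≠ 0` every factor `cc (b0+j) |T ∩ Pj z j|` is nonzero, so `|T ∩ Pj z j| ≤ 2 (b0+j) ≤ 2 (b0+j) + 1`
  (`SK_cc_zero`) and `level` applies; `l_sup`: `lam_support`, `level`.
* `l_pt`: `SO_point`.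
* `u_pt`: with `g_n p = if p ∣ n then 1 else 0`: `∏_{PP z} (1 - g_n p) = ∏_{j<z} ∏_{Pj z j} (1 - g_n p) ≤ ∏_{j<z} bon .. = UU z b0 g_n`
  (`prod_PP`, `bon_ge`, `prod_le_prod`), and `SO_one`, `SO_all` and the expansion `UU z b0 g = ∑_{T ⊆ PP z} um z b0 T ∏_T g`, which is
  `SJ_A` (by `rfl` on both sides).
* `u_sum`, `l_sum`: `prec` with `SJ_A` and `FF_expand`.
-/

namespace Pool.Agent.Lib.MP_42948a_nt.TQ

open Finset Pool.Agent.Lib.MP_42948a_nt.OA Pool.Agent.Lib.MP_42948a_nt.AC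

private theorem A2_sup (z b0 : ℕ) (T : Finset ℕ) (h : um z b0 T ≠ 0) :
    ∀ j < z, (T ∩ Pj z j).card ≤ 2 * (b0 + j) + 1 := by
  intro j hj
  by_contra hcon
  push Not at hcon
  apply h
  unfold um
  refine Finset.prod_eq_zero (mem_range.2 hj) ?_
  exact SK_cc_zero _ _ (by omega)

private theorem A2_expand (z b0 : ℕ) (g : ℕ → ℝ) :
    UU z b0 g = ∑ T ∈ (PP z).powerset, um z b0 T * ∏ p ∈ T, g p := SJ_A z b0 g

private theorem A2_ge (z b0 : ℕ) (g : ℕ → ℝ) (h0 : ∀ p, 0 ≤ g p) (h1 : ∀ p, g p ≤ 1) :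
    ∏ p ∈ PP z, (1 - g p) ≤ UU z b0 g := by
  unfold UU
  rw [prod_PP]
  refine Finset.prod_le_prod ?_ ?_
  · intro j _
    exact Finset.prod_nonneg fun p _ => by linarith [h1 p]
  · intro j _
    exact bon_ge _ g (fun p _ => h0 p) (fun p _ => h1 p) _

private theorem A2_point (z b0 n : ℕ) : (if ∀ p ∈ PP z, ¬ p ∣ n then (1 : ℝ) else 0) ≤
    ∑ T ∈ (PP z).powerset, um z b0 T * (if ∀ p ∈ T, p ∣ n then (1 : ℝ) else 0) := by
  have h := A2_ge z b0 (fun p => if p ∣ n then (1 : ℝ) else 0)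
    (fun p => by split_ifs <;> norm_num) (fun p => by split_ifs <;> norm_num)
  rw [A2_expand, SO_one] at h
  simp only [SO_all] at h
  exact h

theorem fund (τ : ℝ) (hτ : 0 < τ) (hτ1 : τ ≤ 1) : ∃ K : ℕ, ∀ z : ℕ, 2 ≤ z → ∃ u l : Finset ℕ → ℝ, Fund τ K z u l := by
  obtain ⟨b0, hb0⟩ := prec τ hτ hτ1
  refine ⟨4 * b0 + 6, ?_⟩
  intro z hz
  refine ⟨um z b0, lam z b0, ?_, ?_, ?_, ?_, ?_, ?_, ?_, ?_⟩
  · intro T
    unfold um
    exact SK_prod_abs _ fun j _ => SK_cc_abs _ _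
  · exact lam_abs_le z b0
  · intro T hT h
    exact level z b0 (by omega) T hT (A2_sup z b0 T h)
  · intro T hT h
    exact level z b0 (by omega) T hT (lam_support z b0 T h)
  · exact A2_point z b0
  · exact SO_point z b0
  · intro g hg
    rw [← A2_expand]
    exact (hb0 z g hg).2
  · intro g hg
    rw [← FF_expand]
    exact (hb0 z g hg).1

end Pool.Agent.Lib.MP_42948a_nt.TQ
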