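import Pool.Agent.Lib.MP_42948a_nt.TQ.Defs

/-!
# The two sided sieve (job A3)

Put `W T = ∑_{n ∈ A, T | n} w n`, `S = ∑_{n ∈ A rough} w n`, `V = ∏_{PP z} (1 - g)`. Multiply `u_pt` (resp. `l_pt`) by `w n ≥ 0`, sum over
`n ∈ A` and exchange the sums (as `h1` in the proof of `sieve`, `OA/SO.lean`):
`∑_T l T * W T ≤ S ≤ ∑_T u T * W T` (sums over `T ∈ (PP z).powerset`). For every `T ⊆ PP z`:
`|u T * (W T - X ∏_T g)| ≤ if T ∈ TT z K then R T else 0` (if `u T ≠ 0` then `T ∈ TT z K` by `u_sup`; `0 ≤ R T` for `T ∈ TT z K` because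
of `hR` and `abs_nonneg`), so `∑_T u T * W T ≤ X ∑_T u T ∏_T g + ∑_{TT} R T ≤ (1 + τ) X V + ∑_{TT} R T` (`u_sum`, `X ≥ 0`). In the same
way `S ≥ (1 - τ) X V - ∑_{TT} R T`.
-/

namespace Pool.Agent.Lib.MP_42948a_nt.TQ

open Finset Pool.Agent.Lib.MP_42948a_nt.OA Pool.Agent.Lib.MP_42948a_nt.AC

theorem A3_rough (z : ℕ) (A : Finset ℕ) (w : ℕ → ℝ) :
    ∑ n ∈ A, w n * (if ∀ p ∈ PP z, ¬ p ∣ n then (1 : ℝ) else 0) =
      ∑ n ∈ A.filter (fun n : ℕ => ∀ p ∈ PP z, ¬ p ∣ n), w n := by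
  rw [Finset.sum_filter]
  refine Finset.sum_congr rfl fun n _ => ?_
  split_ifs <;> simp

theorem A3_exch (z : ℕ) (A : Finset ℕ) (w : ℕ → ℝ) (c : Finset ℕ → ℝ) :
    ∑ n ∈ A, w n * ∑ T ∈ (PP z).powerset, c T * (if ∀ p ∈ T, p ∣ n then (1 : ℝ) else 0) =
      ∑ T ∈ (PP z).powerset, c T * ∑ n ∈ A.filter (fun n : ℕ => ∀ p ∈ T, p ∣ n), w n := by
  simp only [Finset.mul_sum]
  rw [Finset.sum_comm]
  refine Finset.sum_congr rfl fun T _ => ?_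
  rw [Finset.sum_filter]
  refine Finset.sum_congr rfl fun n _ => ?_
  split_ifs <;> ring

theorem A3_err (z K : ℕ) (A : Finset ℕ) (w g : ℕ → ℝ) (X : ℝ) (R c : Finset ℕ → ℝ)
    (hc : ∀ T, |c T| ≤ 1) (hs : ∀ T, T ⊆ PP z → c T ≠ 0 → ∏ p ∈ T, p ≤ z ^ K)
    (hR : ∀ T ∈ TT z K, |∑ n ∈ A.filter (fun n : ℕ => ∀ p ∈ T, p ∣ n), w n - X * ∏ p ∈ T, g p| ≤ R T) :
    |∑ T ∈ (PP z).powerset, c T * ∑ n ∈ A.filter (fun n : ℕ => ∀ p ∈ T, p ∣ n), w n -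
      X * ∑ T ∈ (PP z).powerset, c T * ∏ p ∈ T, g p| ≤ ∑ T ∈ TT z K, R T := by
  rw [Finset.mul_sum, ← Finset.sum_sub_distrib]
  refine (Finset.abs_sum_le_sum_abs _ _).trans ?_
  unfold TT
  rw [Finset.sum_filter]
  refine Finset.sum_le_sum fun T hT => ?_
  have e : c T * ∑ n ∈ A.filter (fun n : ℕ => ∀ p ∈ T, p ∣ n), w n - X * (c T * ∏ p ∈ T, g p) =
      c T * (∑ n ∈ A.filter (fun n : ℕ => ∀ p ∈ T, p ∣ n), w n - X * ∏ p ∈ T, g p) := by ring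
  rw [e, abs_mul]
  by_cases h0 : ∏ p ∈ T, p ≤ z ^ K
  · rw [if_pos h0]
    have h1 := hR T (Finset.mem_filter.2 ⟨hT, h0⟩)
    calc |c T| * |∑ n ∈ A.filter (fun n : ℕ => ∀ p ∈ T, p ∣ n), w n - X * ∏ p ∈ T, g p|
        ≤ 1 * R T := mul_le_mul (hc T) h1 (abs_nonneg _) zero_le_one
      _ = R T := one_mul _
  · rw [if_neg h0]
    have h1 : c T = 0 := by
      by_contra h2
      exact h0 (hs T (Finset.mem_powerset.1 hT) h2)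
    rw [h1, abs_zero, zero_mul]

theorem sieve2 {τ : ℝ} {K z : ℕ} {u l : Finset ℕ → ℝ} (hF : Fund τ K z u l) (A : Finset ℕ) (w g : ℕ → ℝ) (X : ℝ)
    (R : Finset ℕ → ℝ) (hw : ∀ n ∈ A, 0 ≤ w n) (hg : Adm z g) (hX : 0 ≤ X)
    (hR : ∀ T ∈ TT z K, |∑ n ∈ A.filter (fun n : ℕ => ∀ p ∈ T, p ∣ n), w n - X * ∏ p ∈ T, g p| ≤ R T) :
    |∑ n ∈ A.filter (fun n : ℕ => ∀ p ∈ PP z, ¬ p ∣ n), w n - X * ∏ p ∈ PP z, (1 - g p)| ≤
      τ * (X * ∏ p ∈ PP z, (1 - g p)) + ∑ T ∈ TT z K, R T := by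
  have hS := A3_rough z A w
  have hV0 : 0 ≤ ∏ p ∈ PP z, (1 - g p) :=
    prod_nonneg fun p hp => sub_nonneg.mpr ((hg p hp).2.1.trans (by norm_num))
  -- upper bound
  have hu1 : ∑ n ∈ A.filter (fun n : ℕ => ∀ p ∈ PP z, ¬ p ∣ n), w n ≤
      ∑ T ∈ (PP z).powerset, u T * ∑ n ∈ A.filter (fun n : ℕ => ∀ p ∈ T, p ∣ n), w n := by
    rw [← A3_exch, ← hS]
    exact Finset.sum_le_sum fun n hn => mul_le_mul_of_nonneg_left (hF.u_pt n) (hw n hn)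
  have hl1 : ∑ T ∈ (PP z).powerset, l T * ∑ n ∈ A.filter (fun n : ℕ => ∀ p ∈ T, p ∣ n), w n ≤
      ∑ n ∈ A.filter (fun n : ℕ => ∀ p ∈ PP z, ¬ p ∣ n), w n := by
    rw [← A3_exch, ← hS]
    exact Finset.sum_le_sum fun n hn => mul_le_mul_of_nonneg_left (hF.l_pt n) (hw n hn)
  have hu2 := A3_err z K A w g X R u hF.u_abs hF.u_sup hR
  have hl2 := A3_err z K A w g X R l hF.l_abs hF.l_sup hR
  have hu3 := mul_le_mul_of_nonneg_left (hF.u_sum g hg) hX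
  have hl3 := mul_le_mul_of_nonneg_left (hF.l_sum g hg) hX
  have hu4 := (abs_le.1 hu2).2
  have hl4 := (abs_le.1 hl2).1
  rw [abs_le]
  constructor
  · nlinarith
  · nlinarith

end Pool.Agent.Lib.MP_42948a_nt.TQ
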