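import Pool.Agent.Lib.MP_42948a_nt.TQ.Defs
import Pool.Agent.Lib.MP_42948a_nt.OA.SN
import Pool.Agent.Lib.MP_42948a_nt.OA.SM

/-!
# The density `VV d z` (job A4)

`gd d p ∈ {0, 1/p}`; for a prime `p`: `0 ≤ gd d p ≤ 1/p ≤ 1/2 ≤ 3/4`, `1/p ≤ 2/p` (members of `PP z` are primes). `prod_ge`
(`OA/SN.lean`) gives the lower bound for `VV`; the upper bound is `prod_le_one`. `card_TT`: `count_sets` (`OA/SM.lean`).
`gd_prod`: if some `p ∈ T` divides `d` both sides vanish, otherwise `gd d p = 1/p` on `T`.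
-/

namespace Pool.Agent.Lib.MP_42948a_nt.TQ

open Finset Pool.Agent.Lib.MP_42948a_nt.OA Pool.Agent.Lib.MP_42948a_nt.AC

theorem adm_gd (d z : ℕ) : Adm z (gd d) := by
  intro p hp
  have hpp : p.Prime := (mem_filter.1 hp).2
  have h2 : (2 : ℝ) ≤ p := by exact_mod_cast hpp.two_le
  have h0 : (0 : ℝ) < p := by linarith
  unfold gd
  split_ifs with h
  · refine ⟨le_rfl, by norm_num, by positivity⟩
  · refine ⟨by positivity, ?_, ?_⟩
    · rw [div_le_div_iff₀ h0 (by norm_num)]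
      linarith
    · exact div_le_div_of_nonneg_right (by norm_num) h0.le

theorem VV_ge (d z : ℕ) (hz : 2 ≤ z) : 1 / (2 * (z : ℝ) ^ 2) ≤ VV d z :=
  prod_ge z hz (gd d) (adm_gd d z)

theorem VV_pos (d z : ℕ) : 0 < VV d z := by
  refine prod_pos fun p hp => ?_
  have h := (adm_gd d z p hp).2.1
  linarith

theorem VV_le (d z : ℕ) : VV d z ≤ 1 := by
  refine prod_le_one (fun p hp => ?_) (fun p hp => ?_)
  · have h := (adm_gd d z p hp).2.1
    linarith
  · have h := (adm_gd d z p hp).1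
    linarith

theorem card_TT (z K : ℕ) : ((TT z K).card : ℝ) ≤ (z : ℝ) ^ K := by
  have h := count_sets z (z ^ K)
  exact_mod_cast h

theorem gd_prod (d : ℕ) (T : Finset ℕ) :
    ∏ p ∈ T, gd d p = if (∀ p ∈ T, ¬ p ∣ d) then 1 / ∏ p ∈ T, (p : ℝ) else 0 := by
  split_ifs with h
  · rw [one_div, ← prod_inv_distrib]
    refine prod_congr rfl fun p hp => ?_
    unfold gd
    rw [if_neg (h p hp), one_div]
  · push Not at h
    obtain ⟨p, hp, hpd⟩ := h
    refine prod_eq_zero hp ?_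
    unfold gd
    rw [if_pos hpd]

end Pool.Agent.Lib.MP_42948a_nt.TQ
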