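import Pool.Agent.Lib.MP_42948a_nt.TQ.B1

/-!
# Parseval and inversion on `G` (job B2)

All from `sum_ev` (orthogonality over `χ`), `ev_mul`, `conj_ev`.
`SF f χ = ∑_c f c * conj (ev χ c)`, so `conj (SF f χ) = ∑_{c'} f c' * ev χ c'` and
`‖SF f χ‖^2 * ev χ u = SF f χ * conj (SF f χ) * ev χ u = ∑_{c, c'} f c * f c' * ev χ (c' * c⁻¹ * u)`; sum over `χ`: only the terms with
`c' * c⁻¹ * u = 1`, i.e. `c' = c * u⁻¹`, survive, each with the factor `card G`. This is `corr`; `parseval_SF` is the case `u = 1`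
(take real parts / `Complex.ofReal_inj`). `inversion`: `∑_χ SF f χ * ev χ c = ∑_{c'} f c' ∑_χ ev χ (c'⁻¹ * c) = card G * f c`.
`parseval_gen`: for complex coefficients `r`: `∑_χ ‖∑_c r c * ev χ c‖^2 = card G * ∑_c ‖r c‖^2` (same computation).
-/

namespace Pool.Agent.Lib.MP_42948a_nt.TQ

open Finset Pool.Agent.Lib.MP_42948a_nt.OA Pool.Agent.Lib.MP_42948a_nt.AC

variable {d : ℕ}

private theorem B2_core [NeZero d] (a b : (ZMod d)ˣ → ℂ) (u : (ZMod d)ˣ) :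
    ∑ χ : DirichletCharacter ℂ d, (∑ c : (ZMod d)ˣ, a c * ev χ c) * (∑ c : (ZMod d)ˣ, b c * ev χ c⁻¹) * ev χ u =
      (Fintype.card (ZMod d)ˣ : ℂ) * ∑ c : (ZMod d)ˣ, a c * b (c * u) := by
  classical
  have h1 : ∀ χ : DirichletCharacter ℂ d,
      (∑ c : (ZMod d)ˣ, a c * ev χ c) * (∑ c : (ZMod d)ˣ, b c * ev χ c⁻¹) * ev χ u =
        ∑ c : (ZMod d)ˣ, ∑ c' : (ZMod d)ˣ, a c * b c' * ev χ (c * c'⁻¹ * u) := by
    intro χ
    rw [Finset.sum_mul_sum, Finset.sum_mul]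
    refine Finset.sum_congr rfl fun c _ => ?_
    rw [Finset.sum_mul]
    refine Finset.sum_congr rfl fun c' _ => ?_
    rw [ev_mul, ev_mul]
    ring
  rw [Finset.sum_congr rfl fun χ _ => h1 χ, Finset.sum_comm, Finset.mul_sum]
  refine Finset.sum_congr rfl fun c _ => ?_
  rw [Finset.sum_comm]
  have h2 : ∀ c' : (ZMod d)ˣ, ∑ χ : DirichletCharacter ℂ d, a c * b c' * ev χ (c * c'⁻¹ * u) =
      if c' = c * u then a c * b c' * (Fintype.card (ZMod d)ˣ : ℂ) else 0 := by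
    intro c'
    rw [← Finset.mul_sum, sum_ev]
    have h3 : c * c'⁻¹ * u = 1 ↔ c' = c * u := by
      constructor
      · intro h
        have h4 : c * u = c' := by
          calc c * u = (c * c'⁻¹ * u) * c' := by
                rw [mul_assoc, mul_assoc, mul_comm u c', inv_mul_cancel_left]
            _ = c' := by rw [h, one_mul]
        exact h4.symm
      · intro h
        rw [h, mul_inv, mul_assoc, mul_assoc, inv_mul_cancel, mul_one, mul_inv_cancel]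
    by_cases h5 : c' = c * u
    · rw [if_pos (h3.2 h5), if_pos h5]
    · rw [if_neg fun h => h5 (h3.1 h), if_neg h5, mul_zero]
  rw [Finset.sum_congr rfl fun c' _ => h2 c', Finset.sum_ite_eq' Finset.univ (c * u), if_pos (Finset.mem_univ _)]
  ring

private theorem B2_conj_SF [NeZero d] (f : (ZMod d)ˣ → ℝ) (χ : DirichletCharacter ℂ d) :
    (starRingEnd ℂ) (SF f χ) = ∑ c : (ZMod d)ˣ, (f c : ℂ) * ev χ c := by
  unfold SF
  rw [map_sum]
  refine Finset.sum_congr rfl fun c _ => ?_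
  rw [map_mul, Complex.conj_ofReal, Complex.conj_conj]

private theorem B2_SF [NeZero d] (f : (ZMod d)ˣ → ℝ) (χ : DirichletCharacter ℂ d) :
    SF f χ = ∑ c : (ZMod d)ˣ, (f c : ℂ) * ev χ c⁻¹ := by
  unfold SF
  refine Finset.sum_congr rfl fun c _ => ?_
  rw [conj_ev]

theorem corr [NeZero d] (f : (ZMod d)ˣ → ℝ) (u : (ZMod d)ˣ) :
    ∑ χ : DirichletCharacter ℂ d, ((‖SF f χ‖ ^ 2 : ℝ) : ℂ) * ev χ u =
      (Fintype.card (ZMod d)ˣ : ℂ) * ((∑ c : (ZMod d)ˣ, f c * f (c * u⁻¹) : ℝ) : ℂ) := by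
  have h1 : ∀ χ : DirichletCharacter ℂ d, ((‖SF f χ‖ ^ 2 : ℝ) : ℂ) * ev χ u =
      (∑ c : (ZMod d)ˣ, (f c : ℂ) * ev χ c) * (∑ c : (ZMod d)ˣ, (f c : ℂ) * ev χ c⁻¹) * ev χ u := by
    intro χ
    rw [← B2_conj_SF, ← B2_SF, Complex.ofReal_pow, ← Complex.conj_mul']
  rw [Finset.sum_congr rfl fun χ _ => h1 χ, B2_core]
  congr 1
  push_cast
  refine Fintype.sum_equiv (Equiv.mulRight u) _ _ fun c => ?_
  rw [Equiv.coe_mulRight, mul_inv_cancel_right, mul_comm]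

theorem parseval_SF [NeZero d] (f : (ZMod d)ˣ → ℝ) :
    ∑ χ : DirichletCharacter ℂ d, ‖SF f χ‖ ^ 2 = (Fintype.card (ZMod d)ˣ : ℝ) * ∑ c : (ZMod d)ˣ, f c ^ 2 := by
  have h := corr f 1
  simp only [ev_one, mul_one, inv_one] at h
  have h2 : ((∑ χ : DirichletCharacter ℂ d, ‖SF f χ‖ ^ 2 : ℝ) : ℂ) =
      (((Fintype.card (ZMod d)ˣ : ℝ) * ∑ c : (ZMod d)ˣ, f c ^ 2 : ℝ) : ℂ) := by
    rw [Complex.ofReal_sum, h, Complex.ofReal_mul, Complex.ofReal_natCast]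
    congr 3
    funext c
    ring
  exact Complex.ofReal_injective h2

theorem inversion [NeZero d] (f : (ZMod d)ˣ → ℝ) (c : (ZMod d)ˣ) :
    ∑ χ : DirichletCharacter ℂ d, SF f χ * ev χ c = (Fintype.card (ZMod d)ˣ : ℂ) * (f c : ℂ) := by
  classical
  have h1 : ∀ χ : DirichletCharacter ℂ d, SF f χ * ev χ c =
      ∑ c' : (ZMod d)ˣ, (f c' : ℂ) * ev χ (c'⁻¹ * c) := by
    intro χ
    rw [B2_SF, Finset.sum_mul]
    refine Finset.sum_congr rfl fun c' _ => ?_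
    rw [ev_mul, mul_assoc]
  rw [Finset.sum_congr rfl fun χ _ => h1 χ, Finset.sum_comm]
  have h2 : ∀ c' : (ZMod d)ˣ, ∑ χ : DirichletCharacter ℂ d, (f c' : ℂ) * ev χ (c'⁻¹ * c) =
      if c' = c then (f c' : ℂ) * (Fintype.card (ZMod d)ˣ : ℂ) else 0 := by
    intro c'
    rw [← Finset.mul_sum, sum_ev]
    by_cases h5 : c' = c
    · rw [if_pos (by rw [h5, inv_mul_cancel]), if_pos h5]
    · rw [if_neg fun h => h5 (inv_mul_eq_one.1 h), if_neg h5, mul_zero]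
  rw [Finset.sum_congr rfl fun c' _ => h2 c', Finset.sum_ite_eq' Finset.univ c, if_pos (Finset.mem_univ _)]
  ring

theorem parseval_gen [NeZero d] (r : (ZMod d)ˣ → ℂ) :
    ∑ χ : DirichletCharacter ℂ d, ‖∑ c : (ZMod d)ˣ, r c * ev χ c‖ ^ 2 =
      (Fintype.card (ZMod d)ˣ : ℝ) * ∑ c : (ZMod d)ˣ, ‖r c‖ ^ 2 := by
  have h := B2_core r (fun c => (starRingEnd ℂ) (r c)) 1
  simp only [ev_one, mul_one] at h
  have h1 : ∀ χ : DirichletCharacter ℂ d, ((‖∑ c : (ZMod d)ˣ, r c * ev χ c‖ ^ 2 : ℝ) : ℂ) =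
      (∑ c : (ZMod d)ˣ, r c * ev χ c) * ∑ c : (ZMod d)ˣ, (starRingEnd ℂ) (r c) * ev χ c⁻¹ := by
    intro χ
    rw [Complex.ofReal_pow, ← Complex.mul_conj', map_sum]
    congr 1
    refine Finset.sum_congr rfl fun c _ => ?_
    rw [map_mul, conj_ev]
  have h2 : ((∑ χ : DirichletCharacter ℂ d, ‖∑ c : (ZMod d)ˣ, r c * ev χ c‖ ^ 2 : ℝ) : ℂ) =
      (((Fintype.card (ZMod d)ˣ : ℝ) * ∑ c : (ZMod d)ˣ, ‖r c‖ ^ 2 : ℝ) : ℂ) := by
    rw [Complex.ofReal_sum, Finset.sum_congr rfl fun χ _ => h1 χ, h, Complex.ofReal_mul, Complex.ofReal_natCast,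
      Complex.ofReal_sum]
    congr 1
    refine Finset.sum_congr rfl fun c _ => ?_
    rw [Complex.mul_conj', Complex.ofReal_pow]
  exact Complex.ofReal_injective h2

/-- the dual version: coefficients on a set of characters -/
theorem parseval_dual [NeZero d] (Ξ : Finset (DirichletCharacter ℂ d)) (s : DirichletCharacter ℂ d → ℂ) :
    ∑ c : (ZMod d)ˣ, ‖∑ χ ∈ Ξ, s χ * ev χ c‖ ^ 2 = (Fintype.card (ZMod d)ˣ : ℝ) * ∑ χ ∈ Ξ, ‖s χ‖ ^ 2 := by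
  classical
  have h1 : ∀ c : (ZMod d)ˣ, ((‖∑ χ ∈ Ξ, s χ * ev χ c‖ ^ 2 : ℝ) : ℂ) =
      ∑ χ ∈ Ξ, ∑ ψ ∈ Ξ, s χ * (starRingEnd ℂ) (s ψ) * ev (χ * ψ⁻¹) c := by
    intro c
    rw [Complex.ofReal_pow, ← Complex.mul_conj', map_sum, Finset.sum_mul_sum]
    refine Finset.sum_congr rfl fun χ _ => Finset.sum_congr rfl fun ψ _ => ?_
    rw [map_mul, conj_ev', ev_mul_char]
    ring
  have h2 : ((∑ c : (ZMod d)ˣ, ‖∑ χ ∈ Ξ, s χ * ev χ c‖ ^ 2 : ℝ) : ℂ) =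
      (((Fintype.card (ZMod d)ˣ : ℝ) * ∑ χ ∈ Ξ, ‖s χ‖ ^ 2 : ℝ) : ℂ) := by
    rw [Complex.ofReal_sum, Finset.sum_congr rfl fun c _ => h1 c, Finset.sum_comm, Complex.ofReal_mul,
      Complex.ofReal_natCast, Complex.ofReal_sum, Finset.mul_sum]
    refine Finset.sum_congr rfl fun χ hχ => ?_
    rw [Finset.sum_comm]
    have h3 : ∀ ψ ∈ Ξ, ∑ c : (ZMod d)ˣ, s χ * (starRingEnd ℂ) (s ψ) * ev (χ * ψ⁻¹) c =
        if ψ = χ then s χ * (starRingEnd ℂ) (s ψ) * (Fintype.card (ZMod d)ˣ : ℂ) else 0 := by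
      intro ψ _
      rw [← Finset.mul_sum, sum_ev_unit]
      by_cases h5 : ψ = χ
      · rw [if_pos (by rw [h5, mul_inv_cancel]), if_pos h5]
      · rw [if_neg fun h => h5 (mul_inv_eq_one.1 h).symm, if_neg h5, mul_zero]
    rw [Finset.sum_congr rfl h3, Finset.sum_ite_eq' Ξ χ, if_pos hχ, Complex.mul_conj', Complex.ofReal_pow]
    ring
  exact Complex.ofReal_injective h2

end Pool.Agent.Lib.MP_42948a_nt.TQ
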