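import Pool.Agent.Lib.MP_42948a_nt.TQ.Defs

/-!
# Characters of `G = (ZMod d)ˣ` (job B1)

`ev χ c = χ (c : ZMod d)` has norm `1` (`DirichletCharacter.unit_norm_eq_one`), is multiplicative in `c` (`map_mul`, `Units.val_mul`) and in
`χ` (`MulChar.mul_apply`), and `conj (ev χ c) = ev χ c⁻¹ = ev χ⁻¹ c` (norm one and `ev χ c * ev χ c⁻¹ = ev χ 1 = 1`;
`MulChar.inv_apply`). `sum_ev`: `DirichletCharacter.sum_characters_eq` (`Mathlib/NumberTheory/DirichletCharacter/Orthogonality.lean`),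
`(c : ZMod d) = 1 ↔ c = 1`, `ZMod.card_units_eq_totient`. `sum_ev_unit`: for `χ ≠ 1` choose a unit `b` with `ev χ b ≠ 1`
(`MulChar.ext`); `c ↦ b c` shows `ev χ b * S = S`, so `S = 0`.
`ev_inj`: `MulChar.ext`.
-/

namespace Pool.Agent.Lib.MP_42948a_nt.TQ

open Finset Pool.Agent.Lib.MP_42948a_nt.OA Pool.Agent.Lib.MP_42948a_nt.AC

variable {d : ℕ}

theorem ev_mul (χ : DirichletCharacter ℂ d) (a b : (ZMod d)ˣ) : ev χ (a * b) = ev χ a * ev χ b := by
  unfold ev
  rw [Units.val_mul, map_mul]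

theorem ev_one (χ : DirichletCharacter ℂ d) : ev χ 1 = 1 := by
  unfold ev
  rw [Units.val_one, map_one]

theorem ev_mul_char (χ ψ : DirichletCharacter ℂ d) (a : (ZMod d)ˣ) : ev (χ * ψ) a = ev χ a * ev ψ a := by
  unfold ev
  rw [MulChar.mul_apply]

theorem norm_ev (χ : DirichletCharacter ℂ d) (a : (ZMod d)ˣ) : ‖ev χ a‖ = 1 := by
  unfold ev
  exact DirichletCharacter.unit_norm_eq_one χ a

theorem conj_ev (χ : DirichletCharacter ℂ d) (a : (ZMod d)ˣ) : (starRingEnd ℂ) (ev χ a) = ev χ a⁻¹ := by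
  have h1 : ev χ a * ev χ a⁻¹ = 1 := by
    rw [← ev_mul, mul_inv_cancel, ev_one]
  rw [← Complex.inv_eq_conj (norm_ev χ a)]
  exact inv_eq_of_mul_eq_one_right h1

theorem conj_ev' (χ : DirichletCharacter ℂ d) (a : (ZMod d)ˣ) : (starRingEnd ℂ) (ev χ a) = ev χ⁻¹ a := by
  rw [← Complex.inv_eq_conj (norm_ev χ a)]
  unfold ev
  rw [MulChar.inv_apply_eq_inv']

theorem ev_inj (χ ψ : DirichletCharacter ℂ d) (h : ∀ a : (ZMod d)ˣ, ev χ a = ev ψ a) : χ = ψ := by
  exact MulChar.ext fun a => h a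

theorem sum_ev [NeZero d] (c : (ZMod d)ˣ) :
    ∑ χ : DirichletCharacter ℂ d, ev χ c = if c = 1 then (Fintype.card (ZMod d)ˣ : ℂ) else 0 := by
  unfold ev
  rw [DirichletCharacter.sum_characters_eq]
  by_cases hc : c = 1
  · rw [if_pos hc, if_pos (by rw [hc, Units.val_one]), ZMod.card_units_eq_totient]
  · rw [if_neg hc, if_neg (fun h => hc (Units.ext (by rw [h, Units.val_one])))]

theorem sum_ev_unit [NeZero d] (χ : DirichletCharacter ℂ d) :
    ∑ c : (ZMod d)ˣ, ev χ c = if χ = 1 then (Fintype.card (ZMod d)ˣ : ℂ) else 0 := by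
  by_cases hχ : χ = 1
  · rw [if_pos hχ]
    have h1 : ∀ c : (ZMod d)ˣ, ev χ c = 1 := by
      intro c
      rw [hχ]
      unfold ev
      exact MulChar.one_apply_coe c
    simp [h1]
  · rw [if_neg hχ]
    obtain ⟨b, hb⟩ : ∃ b : (ZMod d)ˣ, ev χ b ≠ 1 := by
      by_contra h
      push Not at h
      apply hχ
      apply ev_inj
      intro a
      rw [h a]
      unfold ev
      exact (MulChar.one_apply_coe a).symm
    have h2 : ev χ b * ∑ c : (ZMod d)ˣ, ev χ c = ∑ c : (ZMod d)ˣ, ev χ c := by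
      rw [Finset.mul_sum]
      have h3 := Equiv.sum_comp (Equiv.mulLeft b) (fun c => ev χ c)
      rw [← h3]
      refine Finset.sum_congr rfl fun c _ => ?_
      rw [Equiv.coe_mulLeft, ev_mul]
    have h4 : (ev χ b - 1) * ∑ c : (ZMod d)ˣ, ev χ c = 0 := by
      rw [sub_mul, one_mul, h2, sub_self]
    exact (mul_eq_zero.1 h4).resolve_left (sub_ne_zero.2 hb)

end Pool.Agent.Lib.MP_42948a_nt.TQ
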