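import Pool.Agent.Lib.MP_42948a_nt.TQ.B2

/-!
# The bilinear sum (job M1)

`φ = card G`, `p = #Q/φ ≤ 1`, `r c = rp d R R c`. Every pair `(a, b) ∈ R × R` has exactly one class, so `∑_c r c = #R^2` and, for
every function `h`, `∑_{(a,b)} h (ucl d (a b)) = ∑_c r c * h c`. Cauchy-Schwarz: `∑ Er ≤ √φ √(∑ Er^2) ≤ τ m φ`. So
(1) `(1 - 2τ) m φ ≤ #R^2 ≤ (1 + 2τ) m φ`.
(2) `B := ∑_{(a,b)} lio a * lio b * F (ucl d (a b)) = ∑_{c ∈ Q} r c` (`hFR`, `F = 0` off `Q`, `lio^2 = 1`)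
`≥ (1-τ) m #Q - τ m φ ≥ #R^2 (p - 4 τ)` (if `(1-τ) p - τ ≤ 0` then `p - 4τ ≤ 0`; otherwise divide by `#R^2 ≤ (1+2τ) m φ` and use
`((1-τ) p - τ)/(1+2τ) ≥ (1 - 3τ) p - τ ≥ p - 4τ`).
(3) `inversion`: `φ F c = ∑_χ SF F χ * ev χ c`. Split over `Ξ` and its complement: with `e c = (1/φ) ∑_{χ ∉ Ξ} SF F χ * ev χ c`,
`∑_c ‖e c‖^2 = (1/φ) ∑_{χ ∉ Ξ} ‖SF F χ‖^2 ≤ ζ^2 φ` (`parseval_dual`), so
`‖∑_{(a,b)} lio a lio b e(ucl d (a b))‖ ≤ ∑_c r c ‖e c‖ ≤ ∑_c ((1+τ) m + Er c) ‖e c‖ ≤ (1+2τ) m √φ √(∑ ‖e‖^2) ≤ (1 + 2τ) m φ ζ ≤ 2 ζ #R^2`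
(`(1+2τ)/(1-2τ) ≤ 2` for `τ ≤ 1/10`).
(4) `∑_{(a,b)} lio a lio b ev χ (ucl d (a b)) = (AR R lio χ)^2` (`ucl_mul`, `ev_mul`, `ev χ (ucl d a) = χ(a)`). So, with
`μ χ = ‖AR R lio χ‖^2/#R^2` and `s χ = ‖SF F χ‖/φ ≤ p`: `∑_{χ ∈ Ξ} s χ * μ χ ≥ p - 4τ - 2ζ` (divide `φ B` by `φ #R^2`).
Second claim: `p ∑_Ξ μ ≥ p - 4τ - 2ζ`; multiply by `φ`. First claim: let `θ χ` be a complex number of norm one with
`θ χ * SF F χ = ‖SF F χ‖` (`θ = conj(SF)/‖SF‖`, or `1` if `SF = 0`). For `c ∈ Q`: `‖ev χ c - F c θ χ‖^2 = 1 + 1 - 2 Re (F c * θ χ * conj (ev χ c))`,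
so the sum over `c ∈ Q` is `2 #Q - 2 Re(θ χ * SF F χ) = 2 φ (p - s χ)` (`SF F χ = ∑_{c ∈ Q} F c conj(ev χ c)`). Hence
`∑_Ξ μ χ ∑_{c ∈ Q} .. = 2 φ (p ∑ μ - ∑ μ s) ≤ 2 φ (p (1+3τ) - p + 4τ + 2ζ) ≤ 2 (8τ + 2ζ) φ` (`hB`: `∑_Ξ μ ≤ 1 + 3τ`).
-/

namespace Pool.Agent.Lib.MP_42948a_nt.TQ

open Finset Pool.Agent.Lib.MP_42948a_nt.OA Pool.Agent.Lib.MP_42948a_nt.AC

open Classical in
/-- Every pair has exactly one class. -/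
theorem M1_sum {A : Type*} [Semiring A] {d : ℕ} [NeZero d] (R : Finset ℕ) (hR : ∀ a ∈ R, 0 < a ∧ a.Coprime d)
    (h : (ZMod d)ˣ → A) :
    ∑ q ∈ R ×ˢ R, h (ucl d (q.1 * q.2)) = ∑ c, (rp d R R c : A) * h c := by
  rw [← Finset.sum_fiberwise (R ×ˢ R) (fun q => ucl d (q.1 * q.2)) (fun q => h (ucl d (q.1 * q.2)))]
  apply Finset.sum_congr rfl
  intro c _
  have h1 : ∑ q ∈ (R ×ˢ R).filter (fun q => ucl d (q.1 * q.2) = c), h (ucl d (q.1 * q.2)) =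
      ∑ q ∈ (R ×ˢ R).filter (fun q => ucl d (q.1 * q.2) = c), h c := by
    apply Finset.sum_congr rfl
    intro q hq
    rw [(Finset.mem_filter.1 hq).2]
  have h2 : (R ×ˢ R).filter (fun q => ucl d (q.1 * q.2) = c) =
      (R ×ˢ R).filter (fun q : ℕ × ℕ => ((q.1 * q.2 : ℕ) : ZMod d) = (c : ZMod d)) := by
    apply Finset.filter_congr
    intro q hq
    have hq1 := Finset.mem_product.1 hq
    have hc : (q.1 * q.2).Coprime d := Nat.Coprime.mul_left (hR _ hq1.1).2 (hR _ hq1.2).2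
    constructor
    · intro h3
      rw [← h3, ucl_val hc]
    · intro h3
      exact ucl_eq hc h3
  rw [h1, Finset.sum_const, nsmul_eq_mul, h2]
  rfl

theorem M1_sq {d : ℕ} [NeZero d] (R : Finset ℕ) (hR : ∀ a ∈ R, 0 < a ∧ a.Coprime d)
    (χ : DirichletCharacter ℂ d) :
    ∑ q ∈ R ×ˢ R, ((lio q.1 : ℂ) * (lio q.2 : ℂ)) * ev χ (ucl d (q.1 * q.2)) = (AR R lio χ) ^ 2 := by
  rw [sq, AR, Finset.sum_mul_sum, Finset.sum_product]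
  apply Finset.sum_congr rfl
  intro a ha
  apply Finset.sum_congr rfl
  intro b hb
  have hc : (a * b).Coprime d := Nat.Coprime.mul_left (hR _ ha).2 (hR _ hb).2
  have h1 : ev χ (ucl d (a * b)) = χ (a : ZMod d) * χ (b : ZMod d) := by
    rw [ev, ucl_val hc, Nat.cast_mul, map_mul]
  rw [h1]
  ring

/-- Cauchy-Schwarz with explicit bounds. -/
theorem M1_cs {ι : Type*} (s : Finset ι) (f g : ι → ℝ) (A B C : ℝ) (hf : ∑ i ∈ s, f i ^ 2 ≤ A)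
    (hg : ∑ i ∈ s, g i ^ 2 ≤ B) (hC : 0 ≤ C) (h : A * B ≤ C ^ 2) : ∑ i ∈ s, f i * g i ≤ C := by
  have h1 := Finset.sum_mul_sq_le_sq_mul_sq s f g
  have h2 : (∑ i ∈ s, f i * g i) ^ 2 ≤ C ^ 2 := by
    refine h1.trans (le_trans ?_ h)
    apply mul_le_mul hf hg (Finset.sum_nonneg fun i _ => sq_nonneg _)
    exact le_trans (Finset.sum_nonneg fun i _ => sq_nonneg _) hf
  exact (le_abs_self _).trans (abs_le_of_sq_le_sq h2 hC)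

theorem M1_SF {d : ℕ} [NeZero d] (F : (ZMod d)ˣ → ℝ) (Q : Finset (ZMod d)ˣ) (hF0 : ∀ c, c ∉ Q → F c = 0)
    (χ : DirichletCharacter ℂ d) : SF F χ = ∑ c ∈ Q, (F c : ℂ) * (starRingEnd ℂ) (ev χ c) := by
  unfold SF
  symm
  apply Finset.sum_subset (Finset.subset_univ _)
  intro c _ hc
  rw [hF0 c hc]
  simp

theorem M1_abs {x : ℝ} (h : x ^ 2 = 1) : |x| = 1 := by
  have h1 : |x| ^ 2 = 1 := by rw [sq_abs, h]
  have h2 := abs_nonneg x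
  nlinarith

theorem M1_SF_le {d : ℕ} [NeZero d] (F : (ZMod d)ˣ → ℝ) (Q : Finset (ZMod d)ˣ) (hF0 : ∀ c, c ∉ Q → F c = 0)
    (hF1 : ∀ c ∈ Q, F c ^ 2 = 1) (χ : DirichletCharacter ℂ d) : ‖SF F χ‖ ≤ (Q.card : ℝ) := by
  rw [M1_SF F Q hF0]
  refine (norm_sum_le _ _).trans ?_
  have h1 : ∑ c ∈ Q, ‖(F c : ℂ) * (starRingEnd ℂ) (ev χ c)‖ = ∑ c ∈ Q, (1 : ℝ) := by
    apply Finset.sum_congr rfl
    intro c hc
    rw [norm_mul, RCLike.norm_conj, norm_ev, Complex.norm_real, Real.norm_eq_abs, M1_abs (hF1 c hc), mul_one]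
  rw [h1]
  simp

/-- The defect of `F` against a character. -/
theorem M1_dist {d : ℕ} [NeZero d] (F : (ZMod d)ˣ → ℝ) (Q : Finset (ZMod d)ˣ) (hF0 : ∀ c, c ∉ Q → F c = 0)
    (hF1 : ∀ c ∈ Q, F c ^ 2 = 1) (χ : DirichletCharacter ℂ d) (θ : ℂ) (hθ : ‖θ‖ = 1) (hθ1 : θ * SF F χ = (‖SF F χ‖ : ℂ)) :
    ∑ c ∈ Q, ‖ev χ c - (F c : ℂ) * θ‖ ^ 2 = 2 * (Q.card : ℝ) - 2 * ‖SF F χ‖ := by
  have h1 : ∀ c ∈ Q, ‖ev χ c - (F c : ℂ) * θ‖ ^ 2 = 2 - 2 * (θ * ((F c : ℂ) * (starRingEnd ℂ) (ev χ c))).re := by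
    intro c hc
    have hz : ‖ev χ c‖ ^ 2 = 1 := by rw [norm_ev]; norm_num
    have hw : ‖(F c : ℂ) * θ‖ ^ 2 = 1 := by
      rw [norm_mul, hθ, mul_one, Complex.norm_real, Real.norm_eq_abs, M1_abs (hF1 c hc)]
      norm_num
    have h3 := Complex.sq_norm_sub_sq_re
    rw [← Complex.normSq_eq_norm_sq] at hz hw ⊢
    rw [Complex.normSq_sub, hz, hw]
    have h4 : (ev χ c * (starRingEnd ℂ) ((F c : ℂ) * θ)).re = (θ * ((F c : ℂ) * (starRingEnd ℂ) (ev χ c))).re := by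
      rw [← Complex.conj_re (ev χ c * (starRingEnd ℂ) ((F c : ℂ) * θ))]
      congr 1
      rw [map_mul, Complex.conj_conj]
      ring
    rw [h4]
    ring
  rw [Finset.sum_congr rfl h1, Finset.sum_sub_distrib, ← Finset.mul_sum, ← Complex.re_sum, ← Finset.mul_sum,
    ← M1_SF F Q hF0, hθ1, Complex.ofReal_re]
  simp [mul_comm]

theorem M1_theta (z : ℂ) : ∃ θ : ℂ, ‖θ‖ = 1 ∧ θ * z = (‖z‖ : ℂ) := by
  by_cases hz : z = 0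
  · exact ⟨1, by simp, by simp [hz]⟩
  · have h0 : ‖z‖ ≠ 0 := norm_ne_zero_iff.2 hz
    have h0' : (‖z‖ : ℂ) ≠ 0 := by exact_mod_cast h0
    refine ⟨(starRingEnd ℂ) z / (‖z‖ : ℂ), ?_, ?_⟩
    · rw [norm_div, RCLike.norm_conj, Complex.norm_real, norm_norm, div_self h0]
    · rw [div_mul_eq_mul_div, mul_comm ((starRingEnd ℂ) z), Complex.mul_conj, Complex.normSq_eq_norm_sq,
        div_eq_iff h0', Complex.ofReal_pow]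
      ring

open Classical in
theorem core_mass {d : ℕ} [NeZero d] (R : Finset ℕ) (hR : ∀ a ∈ R, 0 < a ∧ a.Coprime d) (hR0 : R.Nonempty)
    (F : (ZMod d)ˣ → ℝ) (Q : Finset (ZMod d)ˣ) (hF0 : ∀ c, c ∉ Q → F c = 0) (hF1 : ∀ c ∈ Q, F c ^ 2 = 1)
    (hFR : ∀ a ∈ R, ∀ b ∈ R, ucl d (a * b) ∈ Q → F (ucl d (a * b)) = lio a * lio b)
    (Ξ : Finset (DirichletCharacter ℂ d)) (m τ ζ : ℝ) (Er : (ZMod d)ˣ → ℝ) (hm : 0 < m) (hτ : 0 < τ) (hτ1 : τ ≤ 1 / 10)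
    (hζ : 0 ≤ ζ) (hEr0 : ∀ c, 0 ≤ Er c) (hr : ∀ c, |(rp d R R c : ℝ) - m| ≤ τ * m + Er c)
    (hEr : ∑ c, Er c ^ 2 ≤ (τ * m) ^ 2 * (Fintype.card (ZMod d)ˣ : ℝ))
    (hΞ : ∑ χ ∈ (univ : Finset (DirichletCharacter ℂ d)) \ Ξ, ‖SF F χ‖ ^ 2 ≤ ζ ^ 2 * (Fintype.card (ZMod d)ˣ : ℝ) ^ 2)
    (hB : ∑ χ ∈ Ξ, ‖AR R lio χ‖ ^ 2 ≤ (1 + 3 * τ) * (R.card : ℝ) ^ 2) :
    ∃ θ : DirichletCharacter ℂ d → ℂ, (∀ χ, ‖θ χ‖ = 1) ∧
      ∑ χ ∈ Ξ, ‖AR R lio χ‖ ^ 2 / (R.card : ℝ) ^ 2 * ∑ c ∈ Q, ‖ev χ c - (F c : ℂ) * θ χ‖ ^ 2 ≤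
        2 * (8 * τ + 2 * ζ) * (Fintype.card (ZMod d)ˣ : ℝ) ∧
      (Q.card : ℝ) - (5 * τ + 2 * ζ) * (Fintype.card (ZMod d)ˣ : ℝ) ≤
        (Q.card : ℝ) * ∑ χ ∈ Ξ, ‖AR R lio χ‖ ^ 2 / (R.card : ℝ) ^ 2 := by
  set φ : ℝ := (Fintype.card (ZMod d)ˣ : ℝ) with hφdef
  set N : ℝ := (R.card : ℝ) with hNdef
  set q : ℝ := (Q.card : ℝ) with hqdef
  have hφ : 0 < φ := by
    rw [hφdef]
    exact_mod_cast Fintype.card_pos
  have hN : 0 < N := by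
    rw [hNdef]
    exact_mod_cast Finset.card_pos.2 hR0
  have hq0 : 0 ≤ q := Nat.cast_nonneg _
  have hqφ : q ≤ φ := by
    rw [hqdef, hφdef]
    exact_mod_cast Finset.card_le_univ Q
  have hcardu : ((univ : Finset (ZMod d)ˣ).card : ℝ) = φ := by
    rw [Finset.card_univ]
  have hmφ : 0 < m * φ := mul_pos hm hφ
  -- sums of Er
  have hE1 : ∑ c, Er c ≤ τ * m * φ := by
    have h1 := M1_cs (univ : Finset (ZMod d)ˣ) Er (fun _ => 1) ((τ * m) ^ 2 * φ) φ (τ * m * φ) hEr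
      (by simp [hφdef]) (by positivity) (by nlinarith [sq_nonneg (τ * m * φ)])
    simpa using h1
  -- total
  have hsum : ∑ c, (rp d R R c : ℝ) = N ^ 2 := by
    have h1 := M1_sum R hR (fun _ => (1 : ℝ))
    simp only [mul_one] at h1
    rw [← h1, Finset.sum_const, Finset.card_product, nsmul_eq_mul, Nat.cast_mul, mul_one, sq]
  have hrl : ∀ c, m - τ * m - Er c ≤ (rp d R R c : ℝ) := by
    intro c
    have := (abs_le.1 (hr c)).1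
    linarith
  have hru : ∀ c, (rp d R R c : ℝ) ≤ (1 + τ) * m + Er c := by
    intro c
    have := (abs_le.1 (hr c)).2
    linarith
  have hN1 : N ^ 2 ≤ (1 + 2 * τ) * (m * φ) := by
    rw [← hsum]
    have h1 : ∑ c, (rp d R R c : ℝ) ≤ ∑ c, ((1 + τ) * m + Er c) := Finset.sum_le_sum fun c _ => hru c
    rw [Finset.sum_add_distrib, Finset.sum_const, nsmul_eq_mul, hcardu] at h1
    linarith
  have hN2 : (1 - 2 * τ) * (m * φ) ≤ N ^ 2 := by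
    rw [← hsum]
    have h1 : ∑ c, (m - τ * m - Er c) ≤ ∑ c, (rp d R R c : ℝ) := Finset.sum_le_sum fun c _ => hrl c
    rw [Finset.sum_sub_distrib, Finset.sum_const, nsmul_eq_mul, hcardu] at h1
    linarith
  have hrnn : ∀ c, (0 : ℝ) ≤ (rp d R R c : ℝ) := fun c => Nat.cast_nonneg _
  -- the bilinear sum
  set B : ℝ := ∑ x ∈ R ×ˢ R, (lio x.1 * lio x.2) * F (ucl d (x.1 * x.2)) with hBdef
  have hl2 : ∀ n, lio n ^ 2 = 1 := by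
    intro n
    rcases lio_val n with h | h <;> rw [h] <;> norm_num
  have hB1 : B = ∑ c ∈ Q, (rp d R R c : ℝ) := by
    have h1 : B = ∑ x ∈ R ×ˢ R, (fun c => if c ∈ Q then (1 : ℝ) else 0) (ucl d (x.1 * x.2)) := by
      rw [hBdef]
      apply Finset.sum_congr rfl
      intro x hx
      have hx1 := Finset.mem_product.1 hx
      beta_reduce
      by_cases hc : ucl d (x.1 * x.2) ∈ Q
      · rw [hFR _ hx1.1 _ hx1.2 hc, if_pos hc]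
        have e1 := hl2 x.1
        have e2 := hl2 x.2
        calc lio x.1 * lio x.2 * (lio x.1 * lio x.2) = lio x.1 ^ 2 * lio x.2 ^ 2 := by ring
          _ = 1 := by rw [e1, e2, one_mul]
      · rw [hF0 _ hc, if_neg hc, mul_zero]
    rw [h1, M1_sum R hR (fun c => if c ∈ Q then (1 : ℝ) else 0)]
    simp only [mul_ite, mul_one, mul_zero]
    rw [Finset.sum_ite_mem, Finset.univ_inter]
  have hB2 : (1 - τ) * m * q - τ * m * φ ≤ B := by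
    rw [hB1]
    have h1 : ∑ c ∈ Q, (m - τ * m - Er c) ≤ ∑ c ∈ Q, (rp d R R c : ℝ) := Finset.sum_le_sum fun c _ => hrl c
    rw [Finset.sum_sub_distrib, Finset.sum_const, nsmul_eq_mul] at h1
    have h2 : ∑ c ∈ Q, Er c ≤ ∑ c, Er c :=
      Finset.sum_le_sum_of_subset_of_nonneg (Finset.subset_univ _) fun c _ _ => hEr0 c
    have h3 : (1 - τ) * m * q = (Q.card : ℝ) * (m - τ * m) := by rw [← hqdef]; ring
    linarith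
  have hB3 : 0 ≤ B := by
    rw [hB1]
    exact Finset.sum_nonneg fun c _ => hrnn c
  -- φ B ≥ N² (q - 4 τ φ)
  have hB4 : N ^ 2 * (q - 4 * τ * φ) ≤ φ * B := by
    by_cases hc : q - 4 * τ * φ ≤ 0
    · have h1 : N ^ 2 * (q - 4 * τ * φ) ≤ 0 := mul_nonpos_of_nonneg_of_nonpos (sq_nonneg _) hc
      have h2 : 0 ≤ φ * B := mul_nonneg hφ.le hB3
      linarith
    · push Not at hc
      have h1 : N ^ 2 * (q - 4 * τ * φ) ≤ (1 + 2 * τ) * (m * φ) * (q - 4 * τ * φ) :=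
        mul_le_mul_of_nonneg_right hN1 hc.le
      have h2 : φ * ((1 - τ) * m * q - τ * m * φ) ≤ φ * B := mul_le_mul_of_nonneg_left hB2 hφ.le
      have h3 : 0 ≤ (m * φ) * (3 * τ * (φ - q) + 8 * τ ^ 2 * φ) := by
        apply mul_nonneg hmφ.le
        have := mul_nonneg hτ.le (sub_nonneg.2 hqφ)
        positivity
      nlinarith
  -- splitting
  set S1 : (ZMod d)ˣ → ℂ := fun c => ∑ χ ∈ Ξ, SF F χ * ev χ c with hS1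
  set S2 : (ZMod d)ˣ → ℂ := fun c => ∑ χ ∈ (univ : Finset (DirichletCharacter ℂ d)) \ Ξ, SF F χ * ev χ c with hS2
  have hS : ∀ c, (φ : ℂ) * (F c : ℂ) = S1 c + S2 c := by
    intro c
    have h1 := inversion F c
    rw [← Finset.sum_sdiff (Finset.subset_univ Ξ)] at h1
    have h2 : (φ : ℂ) = (Fintype.card (ZMod d)ˣ : ℂ) := by rw [hφdef]; exact Complex.ofReal_natCast _
    rw [h2, ← h1, hS1, hS2]
    exact add_comm _ _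
  have hS2n : ∑ c, ‖S2 c‖ ^ 2 ≤ ζ ^ 2 * φ ^ 3 := by
    have h1 := parseval_dual ((univ : Finset (DirichletCharacter ℂ d)) \ Ξ) (fun χ => SF F χ)
    have h2 : ∑ c, ‖S2 c‖ ^ 2 = φ * ∑ χ ∈ (univ : Finset (DirichletCharacter ℂ d)) \ Ξ, ‖SF F χ‖ ^ 2 := h1
    rw [h2]
    have h3 := mul_le_mul_of_nonneg_left hΞ hφ.le
    linarith
  have hC1 : ∑ c, ‖S2 c‖ ≤ ζ * φ ^ 2 := by
    have h1 := M1_cs (univ : Finset (ZMod d)ˣ) (fun c => ‖S2 c‖) (fun _ => 1) (ζ ^ 2 * φ ^ 3) φ (ζ * φ ^ 2) hS2n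
      (by simp [hφdef]) (by positivity) (le_of_eq (by ring))
    simpa using h1
  have hC2 : ∑ c, Er c * ‖S2 c‖ ≤ τ * m * ζ * φ ^ 2 := by
    exact M1_cs (univ : Finset (ZMod d)ˣ) Er (fun c => ‖S2 c‖) ((τ * m) ^ 2 * φ) (ζ ^ 2 * φ ^ 3) (τ * m * ζ * φ ^ 2)
      hEr hS2n (by positivity) (le_of_eq (by ring))
  have hln : ∀ n, ‖(lio n : ℂ)‖ = 1 := by
    intro n
    rw [Complex.norm_real, Real.norm_eq_abs, M1_abs (hl2 n)]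
  have hT2 : ‖∑ x ∈ R ×ˢ R, ((lio x.1 : ℂ) * (lio x.2 : ℂ)) * S2 (ucl d (x.1 * x.2))‖ ≤ 2 * ζ * N ^ 2 * φ := by
    have h1 : ‖∑ x ∈ R ×ˢ R, ((lio x.1 : ℂ) * (lio x.2 : ℂ)) * S2 (ucl d (x.1 * x.2))‖ ≤
        ∑ x ∈ R ×ˢ R, ‖S2 (ucl d (x.1 * x.2))‖ := by
      refine (norm_sum_le _ _).trans (le_of_eq ?_)
      apply Finset.sum_congr rfl
      intro x _
      rw [norm_mul, norm_mul, hln, hln, one_mul, one_mul]
    rw [M1_sum R hR (fun c => ‖S2 c‖)] at h1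
    have h2 : ∑ c, (rp d R R c : ℝ) * ‖S2 c‖ ≤ ∑ c, ((1 + τ) * m * ‖S2 c‖ + Er c * ‖S2 c‖) := by
      apply Finset.sum_le_sum
      intro c _
      have := mul_le_mul_of_nonneg_right (hru c) (norm_nonneg (S2 c))
      linarith
    rw [Finset.sum_add_distrib, ← Finset.mul_sum] at h2
    have h3 : (1 + τ) * m * ∑ c, ‖S2 c‖ ≤ (1 + τ) * m * (ζ * φ ^ 2) :=
      mul_le_mul_of_nonneg_left hC1 (by positivity)
    have h4 : (1 + 2 * τ) * (m * φ) ≤ 2 * N ^ 2 := by nlinarith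
    have h5 : (1 + 2 * τ) * (m * φ) * (ζ * φ) ≤ 2 * N ^ 2 * (ζ * φ) :=
      mul_le_mul_of_nonneg_right h4 (mul_nonneg hζ hφ.le)
    have h6 : (1 + τ) * m * (ζ * φ ^ 2) + τ * m * ζ * φ ^ 2 = (1 + 2 * τ) * (m * φ) * (ζ * φ) := by ring
    have h7 : 2 * N ^ 2 * (ζ * φ) = 2 * ζ * N ^ 2 * φ := by ring
    linarith
  have hT1 : ∑ x ∈ R ×ˢ R, ((lio x.1 : ℂ) * (lio x.2 : ℂ)) * S1 (ucl d (x.1 * x.2)) =
      ∑ χ ∈ Ξ, SF F χ * (AR R lio χ) ^ 2 := by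
    simp only [hS1, Finset.mul_sum]
    rw [Finset.sum_comm]
    apply Finset.sum_congr rfl
    intro χ _
    rw [← M1_sq R hR χ, Finset.mul_sum]
    apply Finset.sum_congr rfl
    intro x _
    ring
  have hT : ((φ * B : ℝ) : ℂ) = ∑ χ ∈ Ξ, SF F χ * (AR R lio χ) ^ 2 +
      ∑ x ∈ R ×ˢ R, ((lio x.1 : ℂ) * (lio x.2 : ℂ)) * S2 (ucl d (x.1 * x.2)) := by
    rw [← hT1, ← Finset.sum_add_distrib, hBdef, Finset.mul_sum, Complex.ofReal_sum]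
    apply Finset.sum_congr rfl
    intro x _
    rw [← mul_add, ← hS, Complex.ofReal_mul, Complex.ofReal_mul, Complex.ofReal_mul]
    ring
  have hM0 : φ * B ≤ ∑ χ ∈ Ξ, ‖SF F χ‖ * ‖AR R lio χ‖ ^ 2 + 2 * ζ * N ^ 2 * φ := by
    have h1 : ‖((φ * B : ℝ) : ℂ)‖ = φ * B := by
      rw [Complex.norm_real, Real.norm_eq_abs, abs_of_nonneg (mul_nonneg hφ.le hB3)]
    rw [← h1, hT]
    refine (norm_add_le _ _).trans (add_le_add ?_ hT2)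
    refine (norm_sum_le _ _).trans (le_of_eq ?_)
    apply Finset.sum_congr rfl
    intro χ _
    rw [norm_mul, norm_pow]
  have hN2pos : 0 < N ^ 2 := by positivity
  set μ : DirichletCharacter ℂ d → ℝ := fun χ => ‖AR R lio χ‖ ^ 2 / N ^ 2 with hμ
  have hμ0 : ∀ χ, 0 ≤ μ χ := fun χ => by rw [hμ]; positivity
  have hμN : ∀ χ, ‖AR R lio χ‖ ^ 2 = N ^ 2 * μ χ := by
    intro χ
    simp only [hμ]
    field_simp
  have hM1 : q - 4 * τ * φ - 2 * ζ * φ ≤ ∑ χ ∈ Ξ, ‖SF F χ‖ * μ χ := by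
    have h1 : ∑ χ ∈ Ξ, ‖SF F χ‖ * ‖AR R lio χ‖ ^ 2 = N ^ 2 * ∑ χ ∈ Ξ, ‖SF F χ‖ * μ χ := by
      rw [Finset.mul_sum]
      apply Finset.sum_congr rfl
      intro χ _
      rw [hμN]
      ring
    rw [h1] at hM0
    have h2 : N ^ 2 * (q - 4 * τ * φ - 2 * ζ * φ) ≤ N ^ 2 * ∑ χ ∈ Ξ, ‖SF F χ‖ * μ χ := by nlinarith
    exact le_of_mul_le_mul_left h2 hN2pos
  have hM2 : ∑ χ ∈ Ξ, μ χ ≤ 1 + 3 * τ := by
    have h1 : ∑ χ ∈ Ξ, ‖AR R lio χ‖ ^ 2 = N ^ 2 * ∑ χ ∈ Ξ, μ χ := by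
      rw [Finset.mul_sum]
      apply Finset.sum_congr rfl
      intro χ _
      rw [hμN]
    rw [h1] at hB
    have h2 : N ^ 2 * ∑ χ ∈ Ξ, μ χ ≤ N ^ 2 * (1 + 3 * τ) := by linarith
    exact le_of_mul_le_mul_left h2 hN2pos
  choose θ hθ1 hθ2 using fun χ : DirichletCharacter ℂ d => M1_theta (SF F χ)
  refine ⟨θ, hθ1, ?_, ?_⟩
  · have h1 : ∑ χ ∈ Ξ, ‖AR R lio χ‖ ^ 2 / N ^ 2 * ∑ c ∈ Q, ‖ev χ c - (F c : ℂ) * θ χ‖ ^ 2 =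
        2 * q * ∑ χ ∈ Ξ, μ χ - 2 * ∑ χ ∈ Ξ, ‖SF F χ‖ * μ χ := by
      rw [Finset.mul_sum, Finset.mul_sum, ← Finset.sum_sub_distrib]
      apply Finset.sum_congr rfl
      intro χ _
      rw [M1_dist F Q hF0 hF1 χ (θ χ) (hθ1 χ) (hθ2 χ)]
      simp only [hμ]
      ring
    rw [h1]
    have h2 : 2 * q * ∑ χ ∈ Ξ, μ χ ≤ 2 * q * (1 + 3 * τ) :=
      mul_le_mul_of_nonneg_left hM2 (mul_nonneg zero_le_two hq0)
    have h3 : q * τ ≤ φ * τ := mul_le_mul_of_nonneg_right hqφ hτ.le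
    have h4 : 0 < φ * τ := mul_pos hφ hτ
    nlinarith
  · have h1 : ∑ χ ∈ Ξ, ‖SF F χ‖ * μ χ ≤ q * ∑ χ ∈ Ξ, μ χ := by
      rw [Finset.mul_sum]
      apply Finset.sum_le_sum
      intro χ _
      exact mul_le_mul_of_nonneg_right (M1_SF_le F Q hF0 hF1 χ) (hμ0 χ)
    have h4 : 0 < τ * φ := mul_pos hτ hφ
    have h5 : q * ∑ χ ∈ Ξ, ‖AR R lio χ‖ ^ 2 / N ^ 2 = q * ∑ χ ∈ Ξ, μ χ := rfl
    rw [h5]
    nlinarith
end Pool.Agent.Lib.MP_42948a_nt.TQ
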