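import Pool.Agent.Lib.MP_42948a_nt.TQ.A4
import Pool.Agent.Lib.MP_42948a_nt.TQ.B4
import Pool.Agent.Lib.MP_42948a_nt.OA.EG

/-!
# Sums of the majorant `rho z u` (job B5)

`rho_nonneg`, `rho_ge_one`: `u_pt` (a rough `n` has no divisor in `PP z`). `rho_char`: exchange the sums; `u T = 0` unless
`T ∈ TT z K` (`u_sup`), `|u T| ≤ 1`; the `n ≤ N` divisible by all `p ∈ T` are `n = P m`, `P = ∏ T`, `m ≤ N / P` (`EG_dvd_iff`), and
`χ(P m) = χ(P) χ(m)`, `‖χ(P)‖ ≤ 1`, `polya`; `card_TT`. `rho_mass`: exchange the sums; for `T ∈ TT z K` without `p ∣ d` the number of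
`n ≤ N` coprime to `d` and divisible by `T` is `card (cls N T (cosetSet ⊤ 1))` and `coset_count_mul` with `H = ⊤` (`Nat.card ⊤ = φ`) gives
`|# - φ N/(d ∏ T)| ≤ 1 + BB d`; if some `p ∈ T` divides `d` the number is `0`; in both cases `|# - (φ N/d) ∏_T gd d p| ≤ 1 + BB d`
(`gd_prod`). So the sum is `≤ (φ N/d) ∑_T u T ∏_T gd + z^K (1 + BB d) ≤ (φ N / d) (1 + τ) VV d z + z^K (1 + BB d)` (`u_sum` with
`adm_gd`). `RC_card_lower`: `RC d z N` is `(Icc 1 N)` filtered by rough and coprime; the number of rough `n ≤ N` coprime to `d` is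
`∑_{n ≤ N coprime} [n rough] ≥ ∑_{n ≤ N coprime} ∑_T l T [T | n]` (`l_pt`), same computation with `l_sum`.
-/

namespace Pool.Agent.Lib.MP_42948a_nt.TQ

open Finset Pool.Agent.Lib.MP_42948a_nt.OA Pool.Agent.Lib.MP_42948a_nt.AC

variable {τ : ℝ} {K z : ℕ} {u l : Finset ℕ → ℝ}

private theorem B5_prime {z : ℕ} {T : Finset ℕ} (hT : T ⊆ PP z) : ∀ p ∈ T, p.Prime := by
  intro p hp
  have h := hT hp
  unfold PP at h
  rw [mem_filter] at h
  exact h.2

private theorem B5_rough {z n : ℕ} (hn : 0 < n) : (∀ p ∈ PP z, ¬ p ∣ n) ↔ Rough z n := by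
  constructor
  · intro h
    refine ⟨hn, fun p hp hpn => ?_⟩
    by_contra hz
    push Not at hz
    exact h p (by unfold PP; rw [mem_filter, mem_Icc]; exact ⟨⟨hp.one_lt.le, hz⟩, hp⟩) hpn
  · intro h p hp hpn
    unfold PP at hp
    rw [mem_filter, mem_Icc] at hp
    have := h.2 p hp.2 hpn
    omega

private theorem B5_count (d : ℕ) [NeZero d] (N : ℕ) {z : ℕ} {T : Finset ℕ} (hT : T ⊆ PP z) :
    |((((Icc 1 N).filter (fun n : ℕ => n.Coprime d)).filter (fun n : ℕ => ∀ p ∈ T, p ∣ n)).card : ℝ) -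
      ((Fintype.card (ZMod d)ˣ : ℝ) * N / d) * ∏ p ∈ T, gd d p| ≤ 1 + BB d := by
  classical
  have hBB : 0 ≤ BB d := by
    have h := abs_nonneg (α := ℝ) (((cls N ∅ (cosetSet (⊤ : Subgroup (ZMod d)ˣ) 1)).card : ℝ) -
      (N : ℝ) * (Nat.card (⊤ : Subgroup (ZMod d)ˣ) : ℝ) / d)
    exact h.trans (coset_count d ⊤ 1 N)
  rw [gd_prod]
  by_cases h : ∀ p ∈ T, ¬ p ∣ d
  · rw [if_pos h]
    have e1 := coset_count_mul d ⊤ 1 T (B5_prime hT) h N
    have e2 : ((Icc 1 N).filter (fun n : ℕ => n.Coprime d)).filter (fun n : ℕ => ∀ p ∈ T, p ∣ n) =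
        cls N T (cosetSet (⊤ : Subgroup (ZMod d)ˣ) 1) := by
      ext n
      unfold cls
      rw [mem_filter, mem_filter, mem_filter]
      constructor
      · rintro ⟨⟨h1, h2⟩, h3⟩
        refine ⟨h1, h3, ZMod.unitOfCoprime n h2, Subgroup.mem_top _, ?_⟩
        rw [one_mul, ZMod.coe_unitOfCoprime]
      · rintro ⟨h1, h3, x, _, hx⟩
        refine ⟨⟨h1, ?_⟩, h3⟩
        rw [← ZMod.isUnit_iff_coprime, hx]
        exact Units.isUnit _
    rw [e2]
    have e3 : (Nat.card (⊤ : Subgroup (ZMod d)ˣ) : ℝ) = (Fintype.card (ZMod d)ˣ : ℝ) := by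
      rw [Subgroup.card_top, Nat.card_eq_fintype_card]
    rw [e3] at e1
    have e4 : (Fintype.card (ZMod d)ˣ : ℝ) * N / d * (1 / ∏ p ∈ T, (p : ℝ)) =
        (N : ℝ) * (Fintype.card (ZMod d)ˣ : ℝ) / (d * ∏ p ∈ T, (p : ℝ)) := by
      rw [div_mul_div_comm, mul_one, mul_comm (Fintype.card (ZMod d)ˣ : ℝ) (N : ℝ)]
    rw [e4]
    exact e1
  · rw [if_neg h]
    push Not at h
    obtain ⟨p, hp, hpd⟩ := h
    have e1 : ((Icc 1 N).filter (fun n : ℕ => n.Coprime d)).filter (fun n : ℕ => ∀ p ∈ T, p ∣ n) = ∅ := by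
      rw [Finset.filter_eq_empty_iff]
      intro n hn hall
      rw [mem_filter] at hn
      have hpp := B5_prime hT p hp
      have := Nat.dvd_gcd (hall p hp) hpd
      rw [hn.2] at this
      exact hpp.one_lt.ne' (Nat.dvd_one.mp this)
    rw [e1, card_empty, Nat.cast_zero, mul_zero, sub_zero, abs_zero]
    linarith

private theorem B5_main (d : ℕ) [NeZero d] (N : ℕ) (z K : ℕ) (v : Finset ℕ → ℝ) (hv : ∀ T, |v T| ≤ 1)
    (hsup : ∀ T, T ⊆ PP z → v T ≠ 0 → ∏ p ∈ T, p ≤ z ^ K) :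
    |(∑ n ∈ (Icc 1 N).filter (fun n : ℕ => n.Coprime d),
        ∑ T ∈ (PP z).powerset, v T * (if ∀ p ∈ T, p ∣ n then (1 : ℝ) else 0)) -
      ((Fintype.card (ZMod d)ˣ : ℝ) * N / d) * ∑ T ∈ (PP z).powerset, v T * ∏ p ∈ T, gd d p| ≤
      (z : ℝ) ^ K * (1 + BB d) := by
  rw [Finset.sum_comm, Finset.mul_sum, ← Finset.sum_sub_distrib]
  have e1 : ∀ T ∈ (PP z).powerset,
      (∑ n ∈ (Icc 1 N).filter (fun n : ℕ => n.Coprime d), v T * (if ∀ p ∈ T, p ∣ n then (1 : ℝ) else 0)) -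
        ((Fintype.card (ZMod d)ˣ : ℝ) * N / d) * (v T * ∏ p ∈ T, gd d p) =
      v T * (((((Icc 1 N).filter (fun n : ℕ => n.Coprime d)).filter (fun n : ℕ => ∀ p ∈ T, p ∣ n)).card : ℝ) -
        ((Fintype.card (ZMod d)ˣ : ℝ) * N / d) * ∏ p ∈ T, gd d p) := by
    intro T _
    rw [← Finset.mul_sum, ← Finset.sum_filter, Finset.sum_const, nsmul_eq_mul, mul_one]
    ring
  rw [Finset.sum_congr rfl e1]
  have e2 : ∑ T ∈ (PP z).powerset, v T * (((((Icc 1 N).filter (fun n : ℕ => n.Coprime d)).filter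
        (fun n : ℕ => ∀ p ∈ T, p ∣ n)).card : ℝ) - ((Fintype.card (ZMod d)ˣ : ℝ) * N / d) * ∏ p ∈ T, gd d p) =
      ∑ T ∈ TT z K, v T * (((((Icc 1 N).filter (fun n : ℕ => n.Coprime d)).filter
        (fun n : ℕ => ∀ p ∈ T, p ∣ n)).card : ℝ) - ((Fintype.card (ZMod d)ˣ : ℝ) * N / d) * ∏ p ∈ T, gd d p) := by
    unfold TT
    symm
    apply Finset.sum_filter_of_ne
    intro T hT hne
    rw [mem_powerset] at hT
    exact hsup T hT (fun h => hne (by rw [h, zero_mul]))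
  rw [e2]
  have hBB : 0 ≤ 1 + BB d := (abs_nonneg _).trans (B5_count d N (z := z) (T := ∅) (empty_subset _))
  refine (Finset.abs_sum_le_sum_abs _ _).trans ?_
  refine (Finset.sum_le_sum (g := fun _ => 1 + BB d) ?_).trans ?_
  · intro T hT
    unfold TT at hT
    rw [mem_filter, mem_powerset] at hT
    rw [abs_mul]
    calc |v T| * _ ≤ 1 * (1 + BB d) :=
          mul_le_mul (hv T) (B5_count d N hT.1) (abs_nonneg _) zero_le_one
      _ = 1 + BB d := one_mul _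
  · rw [Finset.sum_const, nsmul_eq_mul]
    exact mul_le_mul_of_nonneg_right (card_TT z K) hBB

theorem rho_nonneg (hF : Fund τ K z u l) (n : ℕ) : 0 ≤ rho z u n := by
  refine le_trans ?_ (hF.u_pt n)
  split_ifs
  · exact zero_le_one
  · exact le_rfl

theorem rho_ge_one (hF : Fund τ K z u l) {n : ℕ} (hn : Rough z n) : 1 ≤ rho z u n := by
  refine le_trans ?_ (hF.u_pt n)
  rw [if_pos ((B5_rough hn.pos).2 hn)]

theorem rho_char (hF : Fund τ K z u l) (d : ℕ) [NeZero d] (χ : DirichletCharacter ℂ d) (hχ : χ ≠ 1) (N : ℕ) :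
    ‖∑ n ∈ Icc 1 N, (rho z u n : ℂ) * χ (n : ZMod d)‖ ≤ (z : ℝ) ^ K * BB d := by
  have hBB : 0 ≤ BB d := (norm_nonneg _).trans (polya d χ hχ N)
  have e0 : ∀ n ∈ Icc 1 N, (rho z u n : ℂ) * χ (n : ZMod d) =
      ∑ T ∈ (PP z).powerset, (u T : ℂ) * (if ∀ p ∈ T, p ∣ n then χ (n : ZMod d) else 0) := by
    intro n _
    unfold rho
    push_cast
    rw [Finset.sum_mul]
    apply Finset.sum_congr rfl
    intro T _
    rw [mul_assoc]
    congr 1
    split_ifs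
    · rw [Complex.ofReal_one, one_mul]
    · rw [Complex.ofReal_zero, zero_mul]
  rw [Finset.sum_congr rfl e0, Finset.sum_comm]
  have e1 : ∑ T ∈ (PP z).powerset, ∑ n ∈ Icc 1 N, (u T : ℂ) * (if ∀ p ∈ T, p ∣ n then χ (n : ZMod d) else 0) =
      ∑ T ∈ TT z K, ∑ n ∈ Icc 1 N, (u T : ℂ) * (if ∀ p ∈ T, p ∣ n then χ (n : ZMod d) else 0) := by
    unfold TT
    symm
    apply Finset.sum_filter_of_ne
    intro T hT hne
    rw [mem_powerset] at hT
    refine hF.u_sup T hT (fun h => hne ?_)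
    rw [h]
    simp
  rw [e1]
  refine (norm_sum_le _ _).trans ?_
  refine (Finset.sum_le_sum (g := fun _ => BB d) ?_).trans ?_
  · intro T hT
    unfold TT at hT
    rw [mem_filter, mem_powerset] at hT
    have hpr := B5_prime hT.1
    set δ := ∏ p ∈ T, p with hδ
    have hδ0 : 0 < δ := Finset.prod_pos (fun p hp => (hpr p hp).pos)
    rw [← Finset.mul_sum, ← Finset.sum_filter, norm_mul, Complex.norm_real]
    have e2 : (Icc 1 N).filter (fun n : ℕ => ∀ p ∈ T, p ∣ n) = (Icc 1 (N / δ)).image (fun m => δ * m) := by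
      ext n
      rw [mem_filter, mem_image, mem_Icc, EG_dvd_iff T hpr]
      constructor
      · rintro ⟨⟨h1, h2⟩, m, rfl⟩
        refine ⟨m, ?_, rfl⟩
        rw [mem_Icc]
        constructor
        · rcases Nat.eq_zero_or_pos m with h | h
          · subst h; simp at h1
          · exact h
        · rw [Nat.le_div_iff_mul_le hδ0, mul_comm]; exact h2
      · rintro ⟨m, hm, rfl⟩
        rw [mem_Icc] at hm
        refine ⟨⟨Nat.mul_pos hδ0 hm.1, ?_⟩, Dvd.intro _ rfl⟩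
        have := hm.2
        rw [Nat.le_div_iff_mul_le hδ0, mul_comm] at this
        exact this
    rw [e2, Finset.sum_image (fun a _ b _ h => Nat.eq_of_mul_eq_mul_left hδ0 h)]
    have e3 : ∑ m ∈ Icc 1 (N / δ), χ ((δ * m : ℕ) : ZMod d) =
        χ (δ : ZMod d) * ∑ m ∈ Icc 1 (N / δ), χ (m : ZMod d) := by
      rw [Finset.mul_sum]
      apply Finset.sum_congr rfl
      intro m _
      rw [Nat.cast_mul, map_mul]
    rw [e3, norm_mul]
    calc ‖u T‖ * (‖χ (δ : ZMod d)‖ * ‖∑ m ∈ Icc 1 (N / δ), χ (m : ZMod d)‖)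
        ≤ 1 * (1 * BB d) := by
          apply mul_le_mul (hF.u_abs T) _ (by positivity) zero_le_one
          apply mul_le_mul (DirichletCharacter.norm_le_one χ _) (polya d χ hχ _) (norm_nonneg _) zero_le_one
      _ = BB d := by ring
  · rw [Finset.sum_const, nsmul_eq_mul]
    exact mul_le_mul_of_nonneg_right (card_TT z K) hBB

theorem rho_mass (hF : Fund τ K z u l) (d : ℕ) [NeZero d] (N : ℕ) :
    ∑ n ∈ (Icc 1 N).filter (fun n : ℕ => n.Coprime d), rho z u n ≤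
      (1 + τ) * (VV d z * ((Fintype.card (ZMod d)ˣ : ℝ) * N / d)) + (z : ℝ) ^ K * (1 + BB d) := by
  have h1 := B5_main d N z K u hF.u_abs hF.u_sup
  have h2 := hF.u_sum (gd d) (adm_gd d z)
  have h3 : (0 : ℝ) ≤ (Fintype.card (ZMod d)ˣ : ℝ) * N / d := by positivity
  have h4 := mul_le_mul_of_nonneg_left h2 h3
  have h5 := (abs_le.1 h1).2
  unfold rho
  have h6 : (Fintype.card (ZMod d)ˣ : ℝ) * N / d * ((1 + τ) * ∏ p ∈ PP z, (1 - gd d p)) =
      (1 + τ) * (VV d z * ((Fintype.card (ZMod d)ˣ : ℝ) * N / d)) := by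
    unfold VV
    ring
  rw [h6] at h4
  linarith

theorem RC_card_lower (hF : Fund τ K z u l) (d : ℕ) [NeZero d] (N : ℕ) :
    (1 - τ) * (VV d z * ((Fintype.card (ZMod d)ˣ : ℝ) * N / d)) - (z : ℝ) ^ K * (1 + BB d) ≤
      ((RC d z N).card : ℝ) := by
  classical
  have h1 := B5_main d N z K l hF.l_abs hF.l_sup
  have h2 := hF.l_sum (gd d) (adm_gd d z)
  have h3 : (0 : ℝ) ≤ (Fintype.card (ZMod d)ˣ : ℝ) * N / d := by positivity
  have h4 := mul_le_mul_of_nonneg_left h2 h3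
  have h5 := (abs_le.1 h1).1
  have h6 : (Fintype.card (ZMod d)ˣ : ℝ) * N / d * ((1 - τ) * ∏ p ∈ PP z, (1 - gd d p)) =
      (1 - τ) * (VV d z * ((Fintype.card (ZMod d)ˣ : ℝ) * N / d)) := by
    unfold VV
    ring
  rw [h6] at h4
  have h7 : ∑ n ∈ (Icc 1 N).filter (fun n : ℕ => n.Coprime d),
      ∑ T ∈ (PP z).powerset, l T * (if ∀ p ∈ T, p ∣ n then (1 : ℝ) else 0) ≤ ((RC d z N).card : ℝ) := by
    refine (Finset.sum_le_sum (fun n _ => hF.l_pt n)).trans ?_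
    rw [← Finset.sum_filter, Finset.sum_const, nsmul_eq_mul, mul_one]
    apply le_of_eq
    congr 2
    unfold RC
    ext n
    rw [mem_filter, mem_filter, mem_filter, mem_Icc]
    constructor
    · rintro ⟨⟨h8, h9⟩, h10⟩
      exact ⟨h8, (B5_rough (by omega)).1 h10, h9⟩
    · rintro ⟨h8, h9, h10⟩
      exact ⟨⟨h8, h10⟩, (B5_rough (by omega)).2 h9⟩
  linarith

end Pool.Agent.Lib.MP_42948a_nt.TQ
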