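import Pool.Agent.Lib.MP_42948a_nt.TQ.B5

/-!
# Bessel's inequality for few characters (job B6)

Write `a_χ = AR (RC d z N) f χ = ∑_{n ∈ RC} f n χ(n)`, `S = ∑_{χ ∈ Ξ} ‖a_χ‖^2` and `g n = ∑_{χ ∈ Ξ} conj(a_χ) χ(n)`. Then
`S = ∑_{n ∈ RC} f n * g n`, so `S^2 ≤ (∑_{RC} f^2) (∑_{n ∈ RC} ‖g n‖^2) ≤ #RC * ∑_{n ≤ N, (n,d)=1} rho z u n * ‖g n‖^2`
(`rho_ge_one`, `rho_nonneg`, `|f| ≤ 1`). Expand `‖g n‖^2 = ∑_{χ, ψ ∈ Ξ} conj(a_χ) a_ψ χ(n) conj(ψ(n))`. For `χ = ψ`: `‖χ(n)‖ = 1` for `n` coprime to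
`d`: the contribution is `M0 * S`, `M0 = ∑_{n ≤ N coprime} rho ≤ ` the bound of `rho_mass`. For `χ ≠ ψ`: `χ(n) conj(ψ(n)) = (χ ψ⁻¹)(n)`
(`MulChar.inv_apply`, norm one at units; it is `0` for `n` not coprime to `d`, so the sum may be taken over all `n ≤ N`), at most
`‖a_χ‖ ‖a_ψ‖ z^K BB d` by `rho_char`; `∑_{χ,ψ} ‖a_χ‖ ‖a_ψ‖ = (∑ ‖a_χ‖)^2 ≤ #Ξ * S`. So
`S^2 ≤ #RC * (M0 + #Ξ z^K BB d) * S`; divide by `S` (if `S = 0` the claim holds since the right side is `≥ 0`; note `0 ≤ M0`).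
-/

namespace Pool.Agent.Lib.MP_42948a_nt.TQ

open Finset Pool.Agent.Lib.MP_42948a_nt.OA Pool.Agent.Lib.MP_42948a_nt.AC

private theorem B6_BB_nonneg (d : ℕ) : 0 ≤ BB d := by
  unfold BB
  have := Real.log_natCast_nonneg d
  positivity

private theorem B6_char {d : ℕ} (χ ψ : DirichletCharacter ℂ d) (n : ℕ) (hn : n.Coprime d) :
    χ (n : ZMod d) * (starRingEnd ℂ) (ψ (n : ZMod d)) = (χ * ψ⁻¹) (n : ZMod d) := by
  have hu : IsUnit (n : ZMod d) := (ZMod.isUnit_iff_coprime n d).2 hn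
  obtain ⟨v, hv⟩ := hu
  rw [← hv, MulChar.mul_apply]
  congr 1
  have h1 : ‖ψ (v : ZMod d)‖ = 1 := DirichletCharacter.unit_norm_eq_one ψ v
  have h2 : ψ⁻¹ (v : ZMod d) * ψ (v : ZMod d) = 1 := by
    rw [← MulChar.mul_apply, inv_mul_cancel, MulChar.one_apply_coe]
  have h3 : (starRingEnd ℂ) (ψ (v : ZMod d)) * ψ (v : ZMod d) = 1 := by
    rw [mul_comm, Complex.mul_conj, Complex.normSq_eq_norm_sq, h1]
    simp
  have h4 : ψ (v : ZMod d) ≠ 0 := by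
    intro h
    rw [h, norm_zero] at h1
    exact zero_ne_one h1
  exact mul_right_cancel₀ h4 (h3.trans h2.symm)

private theorem B6_pair {τ : ℝ} {K z : ℕ} {u l : Finset ℕ → ℝ} (hF : Fund τ K z u l) (d : ℕ) [NeZero d] (N : ℕ)
    [DecidableEq (DirichletCharacter ℂ d)] (χ ψ : DirichletCharacter ℂ d) :
    ‖∑ n ∈ (Icc 1 N).filter (fun n : ℕ => n.Coprime d),
        (rho z u n : ℂ) * (χ (n : ZMod d) * (starRingEnd ℂ) (ψ (n : ZMod d)))‖ ≤
      (if χ = ψ then ∑ n ∈ (Icc 1 N).filter (fun n : ℕ => n.Coprime d), rho z u n else 0) +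
        (z : ℝ) ^ K * BB d := by
  have hBB := B6_BB_nonneg d
  split_ifs with h
  · subst h
    refine (norm_sum_le _ _).trans ?_
    have h1 : ∀ n ∈ (Icc 1 N).filter (fun n : ℕ => n.Coprime d),
        ‖(rho z u n : ℂ) * (χ (n : ZMod d) * (starRingEnd ℂ) (χ (n : ZMod d)))‖ ≤ rho z u n := by
      intro n _
      rw [norm_mul, norm_mul, Complex.norm_real, Real.norm_of_nonneg (rho_nonneg hF n), RCLike.norm_conj]
      have h2 := DirichletCharacter.norm_le_one χ (n : ZMod d)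
      calc rho z u n * (‖χ (n : ZMod d)‖ * ‖χ (n : ZMod d)‖) ≤ rho z u n * (1 * 1) :=
            mul_le_mul_of_nonneg_left (mul_le_mul h2 h2 (norm_nonneg _) zero_le_one) (rho_nonneg hF n)
        _ = rho z u n := by ring
    have h3 := Finset.sum_le_sum h1
    have h4 : 0 ≤ (z : ℝ) ^ K * BB d := by positivity
    linarith
  · rw [zero_add]
    have h1 : ∑ n ∈ (Icc 1 N).filter (fun n : ℕ => n.Coprime d),
        (rho z u n : ℂ) * (χ (n : ZMod d) * (starRingEnd ℂ) (ψ (n : ZMod d))) =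
        ∑ n ∈ Icc 1 N, (rho z u n : ℂ) * (χ * ψ⁻¹) (n : ZMod d) := by
      rw [Finset.sum_filter]
      apply Finset.sum_congr rfl
      intro n _
      split_ifs with h2
      · rw [B6_char χ ψ n h2]
      · rw [MulChar.map_nonunit, mul_zero]
        rw [ZMod.isUnit_iff_coprime]
        exact h2
    rw [h1]
    apply rho_char hF d _ _ N
    intro h5
    exact h (by rw [mul_inv_eq_one] at h5; exact h5)

theorem bessel {τ : ℝ} {K z : ℕ} {u l : Finset ℕ → ℝ} (hF : Fund τ K z u l) (d : ℕ) [NeZero d] (N : ℕ) (f : ℕ → ℝ)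
    (hf : ∀ n, |f n| ≤ 1) (Ξ : Finset (DirichletCharacter ℂ d)) :
    ∑ χ ∈ Ξ, ‖AR (RC d z N) f χ‖ ^ 2 ≤ ((RC d z N).card : ℝ) *
      ((1 + τ) * (VV d z * ((Fintype.card (ZMod d)ˣ : ℝ) * N / d)) + (z : ℝ) ^ K * (1 + BB d) +
        (Ξ.card : ℝ) * ((z : ℝ) ^ K * BB d)) := by
  classical
  have hBB := B6_BB_nonneg d
  set R := RC d z N with hR
  set a : DirichletCharacter ℂ d → ℂ := fun χ => AR R f χ with ha
  set S : ℝ := ∑ χ ∈ Ξ, ‖a χ‖ ^ 2 with hS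
  set C := (Icc 1 N).filter (fun n : ℕ => n.Coprime d) with hC
  set M0 : ℝ := ∑ n ∈ C, rho z u n with hM0
  set g : ℕ → ℂ := fun n => ∑ χ ∈ Ξ, (starRingEnd ℂ) (a χ) * χ (n : ZMod d) with hg
  have hS0 : 0 ≤ S := Finset.sum_nonneg fun _ _ => by positivity
  have hM0' : 0 ≤ M0 := Finset.sum_nonneg fun n _ => rho_nonneg hF n
  have hmass := rho_mass hF d N
  rw [← hC, ← hM0] at hmass
  have e1 : (S : ℂ) = ∑ n ∈ R, (f n : ℂ) * g n := by
    have e2 : ∀ n ∈ R, (f n : ℂ) * g n = ∑ χ ∈ Ξ, (starRingEnd ℂ) (a χ) * ((f n : ℂ) * χ (n : ZMod d)) := by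
      intro n _
      rw [hg]
      simp only
      rw [Finset.mul_sum]
      apply Finset.sum_congr rfl
      intro χ _
      ring
    rw [Finset.sum_congr rfl e2, Finset.sum_comm, hS]
    push_cast
    apply Finset.sum_congr rfl
    intro χ _
    rw [← Finset.mul_sum]
    have e3 : ∑ n ∈ R, (f n : ℂ) * χ (n : ZMod d) = a χ := rfl
    rw [e3, mul_comm, Complex.mul_conj, Complex.normSq_eq_norm_sq]
    push_cast
    rfl
  have e4 : S ≤ ∑ n ∈ R, ‖g n‖ := by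
    have h1 : S = ‖∑ n ∈ R, (f n : ℂ) * g n‖ := by
      rw [← e1, Complex.norm_real, Real.norm_of_nonneg hS0]
    rw [h1]
    refine (norm_sum_le _ _).trans (Finset.sum_le_sum fun n _ => ?_)
    rw [norm_mul, Complex.norm_real, Real.norm_eq_abs]
    calc |f n| * ‖g n‖ ≤ 1 * ‖g n‖ := mul_le_mul_of_nonneg_right (hf n) (norm_nonneg _)
      _ = ‖g n‖ := one_mul _
  have e5 : S ^ 2 ≤ (R.card : ℝ) * ∑ n ∈ R, ‖g n‖ ^ 2 := by
    refine (pow_le_pow_left₀ hS0 e4 2).trans ?_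
    exact sq_sum_le_card_mul_sum_sq
  have e6 : ∑ n ∈ R, ‖g n‖ ^ 2 ≤ ∑ n ∈ C, rho z u n * ‖g n‖ ^ 2 := by
    have h1 : R ⊆ C := by
      intro n hn
      rw [hR] at hn
      unfold RC at hn
      rw [mem_filter] at hn
      rw [hC, mem_filter]
      exact ⟨hn.1, hn.2.2⟩
    calc ∑ n ∈ R, ‖g n‖ ^ 2 ≤ ∑ n ∈ R, rho z u n * ‖g n‖ ^ 2 := by
          apply Finset.sum_le_sum
          intro n hn
          rw [hR] at hn
          unfold RC at hn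
          rw [mem_filter] at hn
          have := rho_ge_one hF hn.2.1
          nlinarith [sq_nonneg ‖g n‖]
      _ ≤ _ := Finset.sum_le_sum_of_subset_of_nonneg h1
          (fun n _ _ => mul_nonneg (rho_nonneg hF n) (sq_nonneg _))
  have e7 : ∑ n ∈ C, rho z u n * ‖g n‖ ^ 2 ≤ M0 * S + (Ξ.card : ℝ) * ((z : ℝ) ^ K * BB d) * S := by
    have h1 : ((∑ n ∈ C, rho z u n * ‖g n‖ ^ 2 : ℝ) : ℂ) = ∑ χ ∈ Ξ, ∑ ψ ∈ Ξ,
        ((starRingEnd ℂ) (a χ) * a ψ) * ∑ n ∈ C,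
          (rho z u n : ℂ) * (χ (n : ZMod d) * (starRingEnd ℂ) (ψ (n : ZMod d))) := by
      have h2 : ∀ n ∈ C, (rho z u n : ℂ) * ((‖g n‖ ^ 2 : ℝ) : ℂ) = ∑ χ ∈ Ξ, ∑ ψ ∈ Ξ,
          ((starRingEnd ℂ) (a χ) * a ψ) *
            ((rho z u n : ℂ) * (χ (n : ZMod d) * (starRingEnd ℂ) (ψ (n : ZMod d)))) := by
        intro n _
        have h3 : ((‖g n‖ ^ 2 : ℝ) : ℂ) = g n * (starRingEnd ℂ) (g n) := by
          rw [Complex.mul_conj, Complex.normSq_eq_norm_sq]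
        rw [h3, hg]
        simp only [map_sum, map_mul, Complex.conj_conj]
        rw [Finset.sum_mul_sum, Finset.mul_sum]
        apply Finset.sum_congr rfl
        intro χ _
        rw [Finset.mul_sum]
        apply Finset.sum_congr rfl
        intro ψ _
        ring
      push_cast at h2 ⊢
      rw [Finset.sum_congr rfl h2, Finset.sum_comm]
      apply Finset.sum_congr rfl
      intro χ _
      rw [Finset.sum_comm]
      apply Finset.sum_congr rfl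
      intro ψ _
      rw [Finset.mul_sum]
    have h3 : 0 ≤ ∑ n ∈ C, rho z u n * ‖g n‖ ^ 2 :=
      Finset.sum_nonneg fun n _ => mul_nonneg (rho_nonneg hF n) (sq_nonneg _)
    have h4 : ∑ n ∈ C, rho z u n * ‖g n‖ ^ 2 = ‖((∑ n ∈ C, rho z u n * ‖g n‖ ^ 2 : ℝ) : ℂ)‖ := by
      rw [Complex.norm_real, Real.norm_of_nonneg h3]
    rw [h4, h1]
    refine (norm_sum_le _ _).trans ?_
    have h5 : ∀ χ ∈ Ξ, ‖∑ ψ ∈ Ξ, ((starRingEnd ℂ) (a χ) * a ψ) * ∑ n ∈ C,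
          (rho z u n : ℂ) * (χ (n : ZMod d) * (starRingEnd ℂ) (ψ (n : ZMod d)))‖ ≤
        M0 * ‖a χ‖ ^ 2 + ((z : ℝ) ^ K * BB d) * (‖a χ‖ * ∑ ψ ∈ Ξ, ‖a ψ‖) := by
      intro χ hχ
      refine (norm_sum_le _ _).trans ?_
      have h6 : ∀ ψ ∈ Ξ, ‖((starRingEnd ℂ) (a χ) * a ψ) * ∑ n ∈ C,
          (rho z u n : ℂ) * (χ (n : ZMod d) * (starRingEnd ℂ) (ψ (n : ZMod d)))‖ ≤
          (if χ = ψ then M0 * (‖a χ‖ * ‖a ψ‖) else 0) + ((z : ℝ) ^ K * BB d) * (‖a χ‖ * ‖a ψ‖) := by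
        intro ψ _
        rw [norm_mul, norm_mul, RCLike.norm_conj]
        have h7 := B6_pair hF d N χ ψ
        rw [← hC, ← hM0] at h7
        have h8 : (0 : ℝ) ≤ ‖a χ‖ * ‖a ψ‖ := by positivity
        have h9 := mul_le_mul_of_nonneg_left h7 h8
        refine h9.trans (le_of_eq ?_)
        split_ifs
        · ring
        · ring
      refine (Finset.sum_le_sum h6).trans (le_of_eq ?_)
      rw [Finset.sum_add_distrib, Finset.sum_ite_eq, if_pos hχ, ← Finset.mul_sum, ← Finset.mul_sum]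
      ring
    refine (Finset.sum_le_sum h5).trans ?_
    rw [Finset.sum_add_distrib, ← Finset.mul_sum, ← Finset.mul_sum, ← Finset.sum_mul]
    have h10 : (∑ χ ∈ Ξ, ‖a χ‖) * ∑ ψ ∈ Ξ, ‖a ψ‖ ≤ (Ξ.card : ℝ) * S := by
      rw [← pow_two]
      exact sq_sum_le_card_mul_sum_sq
    have h11 : (0 : ℝ) ≤ (z : ℝ) ^ K * BB d := by positivity
    have h12 := mul_le_mul_of_nonneg_left h10 h11
    linarith
  have e8 : S ^ 2 ≤ (R.card : ℝ) * (M0 + (Ξ.card : ℝ) * ((z : ℝ) ^ K * BB d)) * S := by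
    have h1 := mul_le_mul_of_nonneg_left (e6.trans e7) (Nat.cast_nonneg (α := ℝ) R.card)
    linarith
  have e9 : (R.card : ℝ) * (M0 + (Ξ.card : ℝ) * ((z : ℝ) ^ K * BB d)) ≤ (R.card : ℝ) *
      ((1 + τ) * (VV d z * ((Fintype.card (ZMod d)ˣ : ℝ) * N / d)) + (z : ℝ) ^ K * (1 + BB d) +
        (Ξ.card : ℝ) * ((z : ℝ) ^ K * BB d)) := by
    apply mul_le_mul_of_nonneg_left _ (Nat.cast_nonneg _)
    linarith
  have e10 : 0 ≤ (R.card : ℝ) * (M0 + (Ξ.card : ℝ) * ((z : ℝ) ^ K * BB d)) := by positivity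
  refine le_trans ?_ e9
  rcases hS0.lt_or_eq with h | h
  · rw [pow_two] at e8
    exact le_of_mul_le_mul_right e8 h
  · rw [← h]
    exact e10

end Pool.Agent.Lib.MP_42948a_nt.TQ
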