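import Pool.Agent.Lib.MP_42948a_nt.TQ.D4
import Pool.Agent.Lib.MP_42948a_nt.OA.EG

/-!
# Dispersion with divisibility conditions (job D5)

Let `P = ∏ p ∈ T, p` (coprime to `d`), `s` the unit `ucl d P`, `M = N / P` (floor). The `b ≤ N` divisible by all `p ∈ T` are `b = P b1`,
`b1 ≤ M` (`EG_dvd_iff`), and `a b = b1 * (s * ucl d a)` in `ZMod d`; so `cnt d A N T c = ∑_{a ∈ A} #{b1 ∈ Icc 1 M : b1 * (s * ucl d a) = c}`
(`Finset.card_filter`, `sum_product`). With `(x + y)^2 ≤ 2 x^2 + 2 y^2`,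
`|#A M/d - #A N/(d P)| ≤ #A / d ≤ N/d` (`N/P - 1 ≤ M ≤ N/P`, `#A ≤ N`) and `card G ≤ d`, `1 ≤ d`:
the sum is `≤ 2 * 8 (log2 N + 2)^2 N^2 τm + 2 d (N/d)^2 ≤ 16 (log2 N + 2)^2 N^2 τm + 2 N^2 ≤ 18 (log2 N + 2)^2 N^2 τm`
(`τm ≥ 1`: take `v = 1`).
-/

namespace Pool.Agent.Lib.MP_42948a_nt.TQ

open Finset Pool.Agent.Lib.MP_42948a_nt.OA Pool.Agent.Lib.MP_42948a_nt.AC

open Classical in
private theorem D5_cnt (d : ℕ) [NeZero d] (N : ℕ) (A : Finset ℕ) (hA : ∀ a ∈ A, a.Coprime d)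
    (T : Finset ℕ) (hT : ∀ p ∈ T, p.Prime) (hco : ∀ p ∈ T, ¬ p ∣ d) (c : (ZMod d)ˣ) :
    (cnt d A N T c : ℝ) = ∑ a ∈ A, (((Icc 1 (N / ∏ p ∈ T, p)).filter
      (fun b : ℕ => (b : ZMod d) * ((ucl d (∏ p ∈ T, p) * ucl d a : (ZMod d)ˣ) : ZMod d) = (c : ZMod d))).card : ℝ) := by
  set P := ∏ p ∈ T, p with hP
  have hP0 : 0 < P := Finset.prod_pos (fun p hp => (hT p hp).pos)
  have hPd : P.Coprime d := Nat.Coprime.prod_left (fun p hp => ((hT p hp).coprime_iff_not_dvd).mpr (hco p hp))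
  unfold cnt
  rw [Finset.card_filter, Finset.sum_product]
  push_cast
  apply Finset.sum_congr rfl
  intro a ha
  have had := hA a ha
  rw [← Finset.sum_filter, Finset.sum_const, nsmul_eq_mul, mul_one]
  congr 1
  symm
  apply Finset.card_bij (fun b _ => P * b)
  · intro b hb
    rw [mem_filter, mem_Icc] at hb
    rw [mem_filter, mem_Icc]
    refine ⟨⟨Nat.mul_pos hP0 hb.1.1, ?_⟩, ?_, ?_⟩
    · have h1 := hb.1.2
      rw [Nat.le_div_iff_mul_le hP0, mul_comm] at h1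
      exact h1
    · rw [EG_dvd_iff T hT]
      exact Dvd.intro _ rfl
    · rw [← hb.2, ucl_val hPd, ucl_val had, Nat.cast_mul]
      ring
  · intro b _ b' _ h
    exact Nat.eq_of_mul_eq_mul_left hP0 h
  · intro n hn
    rw [mem_filter, mem_Icc] at hn
    obtain ⟨⟨h1, h2⟩, h3, h4⟩ := hn
    rw [EG_dvd_iff T hT] at h3
    obtain ⟨b, rfl⟩ := h3
    refine ⟨b, ?_, rfl⟩
    rw [mem_filter, mem_Icc]
    refine ⟨⟨?_, ?_⟩, ?_⟩
    · rcases Nat.eq_zero_or_pos b with h | h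
      · subst h; simp at h1
      · exact h
    · rw [Nat.le_div_iff_mul_le hP0, mul_comm]; exact h2
    · rw [← h4, ucl_val hPd, ucl_val had, Nat.cast_mul]
      ring

theorem variance_T (d : ℕ) [NeZero d] (N τm : ℕ) (hN : 1 ≤ N) (A : Finset ℕ)
    (hA : ∀ a ∈ A, 1 ≤ a ∧ a ≤ N ∧ a.Coprime d)
    (hτ : ∀ v : ℕ, 0 < v → v ≤ 4 * N * d → v.divisors.card ≤ τm)
    (T : Finset ℕ) (hT : ∀ p ∈ T, p.Prime) (hco : ∀ p ∈ T, ¬ p ∣ d) :
    ∑ c : (ZMod d)ˣ, ((cnt d A N T c : ℝ) - (A.card : ℝ) * N / d * (1 / ∏ p ∈ T, (p : ℝ))) ^ 2 ≤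
      18 * ((Nat.log 2 N : ℝ) + 2) ^ 2 * (N : ℝ) ^ 2 * τm := by
  classical
  set P := ∏ p ∈ T, p with hP
  have hP0 : 0 < P := Finset.prod_pos (fun p hp => (hT p hp).pos)
  have hPR : (0 : ℝ) < (P : ℝ) := by exact_mod_cast hP0
  have hd0 : 0 < d := Nat.pos_of_ne_zero (NeZero.ne d)
  have hd : (0 : ℝ) < d := by exact_mod_cast hd0
  have hd1 : (1 : ℝ) ≤ d := by exact_mod_cast hd0
  set M := N / P with hM
  have hMN : M ≤ N := Nat.div_le_self _ _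
  have e2 : (∏ p ∈ T, (p : ℝ)) = (P : ℝ) := by rw [hP]; push_cast; rfl
  rw [e2]
  have h1 := variance_units d N M τm hN hMN A hA hτ (ucl d P)
  have hcnt := D5_cnt d N A (fun a ha => (hA a ha).2.2) T hT hco
  rw [← hP, ← hM] at hcnt
  have h2 : ∑ c : (ZMod d)ˣ, ((cnt d A N T c : ℝ) - (A.card : ℝ) * M / d) ^ 2 ≤
      8 * ((Nat.log 2 N : ℝ) + 2) ^ 2 * (N : ℝ) ^ 2 * τm := by
    refine le_trans (le_of_eq ?_) h1
    apply Finset.sum_congr rfl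
    intro c _
    rw [hcnt c]
  have hAc : (A.card : ℝ) ≤ N := by
    have h3 : A ⊆ Icc 1 N := by
      intro a ha
      rw [mem_Icc]
      exact ⟨(hA a ha).1, (hA a ha).2.1⟩
    have h4 := Finset.card_le_card h3
    rw [Nat.card_Icc, Nat.add_sub_cancel] at h4
    exact_mod_cast h4
  have hMP : |(M : ℝ) - (N : ℝ) / P| ≤ 1 := by
    have h3 : ((N / P : ℕ) : ℝ) ≤ (N : ℝ) / P := Nat.cast_div_le
    have h4 : (N : ℝ) / P < ((N / P : ℕ) : ℝ) + 1 := by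
      rw [div_lt_iff₀ hPR]
      have := Nat.lt_div_mul_add hP0 (a := N)
      have h5 : (N : ℝ) < ((N / P * P + P : ℕ) : ℝ) := by exact_mod_cast this
      push_cast at h5
      nlinarith
    rw [abs_le]; constructor <;> linarith
  set y : ℝ := (A.card : ℝ) * M / d - (A.card : ℝ) * N / d * (1 / (P : ℝ)) with hy
  have hy1 : |y| ≤ (N : ℝ) / d := by
    have h3 : y = (A.card : ℝ) / d * ((M : ℝ) - (N : ℝ) / P) := by
      rw [hy]
      field_simp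
    rw [h3, abs_mul, abs_of_nonneg (by positivity)]
    calc (A.card : ℝ) / d * |(M : ℝ) - (N : ℝ) / P| ≤ (N : ℝ) / d * 1 :=
          mul_le_mul (div_le_div_of_nonneg_right hAc hd.le) hMP (abs_nonneg _) (by positivity)
      _ = (N : ℝ) / d := mul_one _
  have hy2 : y ^ 2 ≤ (N : ℝ) ^ 2 / d ^ 2 := by
    rw [← sq_abs, ← div_pow]
    exact pow_le_pow_left₀ (abs_nonneg _) hy1 2
  have hcard : (Fintype.card (ZMod d)ˣ : ℝ) ≤ d := by
    have h3 : Fintype.card (ZMod d)ˣ ≤ Fintype.card (ZMod d) :=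
      Fintype.card_le_of_injective _ Units.val_injective
    rw [ZMod.card] at h3
    exact_mod_cast h3
  have hτ1 : (1 : ℝ) ≤ τm := by
    have h3 := hτ 1 one_pos (by
      have : 0 < 4 * N * d := by positivity
      omega)
    rw [Nat.divisors_one, card_singleton] at h3
    exact_mod_cast h3
  have hsum : ∑ c : (ZMod d)ˣ, ((cnt d A N T c : ℝ) - (A.card : ℝ) * N / d * (1 / (P : ℝ))) ^ 2 ≤
      2 * (8 * ((Nat.log 2 N : ℝ) + 2) ^ 2 * (N : ℝ) ^ 2 * τm) + 2 * (N : ℝ) ^ 2 := by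
    calc ∑ c : (ZMod d)ˣ, ((cnt d A N T c : ℝ) - (A.card : ℝ) * N / d * (1 / (P : ℝ))) ^ 2
        ≤ ∑ c : (ZMod d)ˣ, (2 * ((cnt d A N T c : ℝ) - (A.card : ℝ) * M / d) ^ 2 + 2 * ((N : ℝ) ^ 2 / d ^ 2)) := by
          apply Finset.sum_le_sum
          intro c _
          have h3 : (cnt d A N T c : ℝ) - (A.card : ℝ) * N / d * (1 / (P : ℝ)) =
              ((cnt d A N T c : ℝ) - (A.card : ℝ) * M / d) + y := by rw [hy]; ring
          rw [h3]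
          nlinarith [sq_nonneg (((cnt d A N T c : ℝ) - (A.card : ℝ) * M / d) - y)]
      _ = 2 * ∑ c : (ZMod d)ˣ, ((cnt d A N T c : ℝ) - (A.card : ℝ) * M / d) ^ 2 +
            (Fintype.card (ZMod d)ˣ : ℝ) * (2 * ((N : ℝ) ^ 2 / d ^ 2)) := by
          rw [Finset.sum_add_distrib, ← Finset.mul_sum, Finset.sum_const, nsmul_eq_mul, Finset.card_univ]
      _ ≤ 2 * (8 * ((Nat.log 2 N : ℝ) + 2) ^ 2 * (N : ℝ) ^ 2 * τm) + 2 * (N : ℝ) ^ 2 := by
          apply add_le_add (by linarith)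
          calc (Fintype.card (ZMod d)ˣ : ℝ) * (2 * ((N : ℝ) ^ 2 / d ^ 2)) ≤ (d : ℝ) * (2 * ((N : ℝ) ^ 2 / d ^ 2)) :=
                mul_le_mul_of_nonneg_right hcard (by positivity)
            _ = 2 * (N : ℝ) ^ 2 / d := by field_simp
            _ ≤ 2 * (N : ℝ) ^ 2 := div_le_self (by positivity) hd1
  refine hsum.trans ?_
  have h6 : (1 : ℝ) ≤ ((Nat.log 2 N : ℝ) + 2) ^ 2 * τm := by
    have h7 : (0 : ℝ) ≤ (Nat.log 2 N : ℝ) := Nat.cast_nonneg _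
    have h8 : (1 : ℝ) ≤ ((Nat.log 2 N : ℝ) + 2) ^ 2 := by nlinarith
    nlinarith
  have h9 : (N : ℝ) ^ 2 ≤ ((Nat.log 2 N : ℝ) + 2) ^ 2 * (N : ℝ) ^ 2 * τm := by
    have h10 := mul_le_mul_of_nonneg_left h6 (sq_nonneg (N : ℝ))
    linarith
  linarith

end Pool.Agent.Lib.MP_42948a_nt.TQ
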