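import Pool.Agent.Lib.MP_42948a_nt.TQ.A3
import Pool.Agent.Lib.MP_42948a_nt.TQ.A4
import Pool.Agent.Lib.MP_42948a_nt.TQ.D5

/-!
# Products of two numbers, one of them rough, in residue classes (job D6)

For `c : G` apply `sieve2` to `A' = Icc 1 N`, weights `w b = #{a ∈ A : a b = c in ZMod d}`, `g = gd d`, `X = #A N/d`,
`R T = |cnt d A N T c - X ∏_T gd d p|`: `∑_{b ≤ N, T | b} w b = cnt d A N T c` (`card_filter`, `sum_product`), and
`∑_{b ≤ N, b rough} w b = rp d A (RC d z N) c` (a `b` with `w b ≠ 0` is coprime to `d` because `a b = c` is a unit; rough means no divisor in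
`PP z`, `b ≥ 1`). So `|rp - X VV| ≤ τ X VV + Er c` with `Er c = ∑_{T ∈ TT z K} R T`. If some `p ∈ T` divides `d` then `cnt = 0` (again `b` is
coprime to `d`) and `∏ gd = 0`, so `R T = 0`; otherwise `∏ gd = 1/∏ p` (`gd_prod`). By Cauchy-Schwarz
`Er c ^2 ≤ #TT * ∑_T (R T)^2`, so `∑_c Er c^2 ≤ z^K * ∑_{T ∈ TT} 18 (..) ≤ z^K * z^K * 18 (log2 N + 2)^2 N^2 τm` (`card_TT`, `variance_T`).
-/

namespace Pool.Agent.Lib.MP_42948a_nt.TQ

open Finset Pool.Agent.Lib.MP_42948a_nt.OA Pool.Agent.Lib.MP_42948a_nt.AC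

open Classical in
/-- the weight of `b` -/
private noncomputable def D6_w (d : ℕ) (A : Finset ℕ) (c : (ZMod d)ˣ) (b : ℕ) : ℝ :=
  ((A.filter (fun a : ℕ => ((a * b : ℕ) : ZMod d) = (c : ZMod d))).card : ℝ)

private theorem D6_cnt (d : ℕ) (A : Finset ℕ) (N : ℕ) (T : Finset ℕ) (c : (ZMod d)ˣ) :
    ∑ b ∈ (Icc 1 N).filter (fun b : ℕ => ∀ p ∈ T, p ∣ b), D6_w d A c b = (cnt d A N T c : ℝ) := by
  classical
  unfold cnt D6_w
  rw [Finset.card_filter, Finset.sum_product_right, Finset.sum_filter]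
  push_cast
  apply Finset.sum_congr rfl
  intro b _
  split_ifs with h
  · rw [Finset.card_filter]
    push_cast
    apply Finset.sum_congr rfl
    intro a _
    congr 1
    apply propext
    exact ⟨fun h1 => ⟨h, h1⟩, fun h1 => h1.2⟩
  · symm
    apply Finset.sum_eq_zero
    intro a _
    rw [if_neg (fun h1 => h h1.1)]

private theorem D6_unit {d a b : ℕ} {c : (ZMod d)ˣ} (h : ((a * b : ℕ) : ZMod d) = (c : ZMod d)) : b.Coprime d := by
  rw [← ZMod.isUnit_iff_coprime]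
  have h1 : IsUnit ((a : ZMod d) * (b : ZMod d)) := by
    rw [← Nat.cast_mul, h]
    exact Units.isUnit c
  exact (isUnit_of_mul_isUnit_right h1)

private theorem D6_rough {z n : ℕ} (hn : 0 < n) : (∀ p ∈ PP z, ¬ p ∣ n) ↔ Rough z n := by
  constructor
  · intro h
    refine ⟨hn, fun p hp hpn => ?_⟩
    by_contra hz
    push Not at hz
    exact h p (by unfold PP; rw [mem_filter, mem_Icc]; exact ⟨⟨hp.one_lt.le, hz⟩, hp⟩) hpn
  · intro h p hp hpn
    unfold PP at hp
    rw [mem_filter, mem_Icc] at hp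
    have := h.2 p hp.2 hpn
    omega

private theorem D6_rp (d : ℕ) (A : Finset ℕ) (N z : ℕ) (c : (ZMod d)ˣ) :
    ∑ b ∈ (Icc 1 N).filter (fun b : ℕ => ∀ p ∈ PP z, ¬ p ∣ b), D6_w d A c b = (rp d A (RC d z N) c : ℝ) := by
  classical
  have h1 : (rp d A (RC d z N) c : ℝ) = ∑ b ∈ RC d z N, D6_w d A c b := by
    unfold rp D6_w
    rw [Finset.card_filter, Finset.sum_product_right]
    push_cast
    apply Finset.sum_congr rfl
    intro b _
    rw [Finset.card_filter]
    push_cast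
    rfl
  rw [h1]
  symm
  apply Finset.sum_subset
  · intro b hb
    unfold RC at hb
    rw [mem_filter, mem_Icc] at hb
    rw [mem_filter, mem_Icc]
    exact ⟨hb.1, (D6_rough (by omega)).2 hb.2.1⟩
  · intro b hb hb'
    rw [mem_filter, mem_Icc] at hb
    unfold D6_w
    rw [Nat.cast_eq_zero, Finset.card_eq_zero, Finset.filter_eq_empty_iff]
    intro a _ h
    apply hb'
    unfold RC
    rw [mem_filter, mem_Icc]
    exact ⟨hb.1, (D6_rough (by omega)).1 hb.2, D6_unit h⟩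

theorem pair_count {τ : ℝ} {K z : ℕ} {u l : Finset ℕ → ℝ} (hF : Fund τ K z u l) (d : ℕ) [NeZero d] (N τm : ℕ)
    (hN : 1 ≤ N) (A : Finset ℕ) (hA : ∀ a ∈ A, 1 ≤ a ∧ a ≤ N ∧ a.Coprime d)
    (hτ : ∀ v : ℕ, 0 < v → v ≤ 4 * N * d → v.divisors.card ≤ τm) :
    ∃ Er : (ZMod d)ˣ → ℝ, (∀ c, 0 ≤ Er c) ∧
      (∀ c, |(rp d A (RC d z N) c : ℝ) - (A.card : ℝ) * N / d * VV d z| ≤ τ * ((A.card : ℝ) * N / d * VV d z) + Er c) ∧
      ∑ c, Er c ^ 2 ≤ (z : ℝ) ^ (2 * K) * (18 * ((Nat.log 2 N : ℝ) + 2) ^ 2 * (N : ℝ) ^ 2 * τm) := by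
  classical
  set X : ℝ := (A.card : ℝ) * N / d with hX
  have hX0 : 0 ≤ X := by positivity
  set Rf : (ZMod d)ˣ → Finset ℕ → ℝ := fun c T => |(cnt d A N T c : ℝ) - X * ∏ p ∈ T, gd d p| with hRf
  refine ⟨fun c => ∑ T ∈ TT z K, Rf c T, ?_, ?_, ?_⟩
  · intro c
    exact Finset.sum_nonneg fun T _ => abs_nonneg _
  · intro c
    have h1 := sieve2 hF (Icc 1 N) (D6_w d A c) (gd d) X (Rf c)
      (fun n _ => Nat.cast_nonneg _) (adm_gd d z) hX0 (fun T _ => by rw [D6_cnt])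
    rw [D6_rp] at h1
    exact h1
  · set V : ℝ := 18 * ((Nat.log 2 N : ℝ) + 2) ^ 2 * (N : ℝ) ^ 2 * τm with hV
    have hV0 : 0 ≤ V := by positivity
    have h1 : ∀ T ∈ TT z K, ∑ c : (ZMod d)ˣ, (Rf c T) ^ 2 ≤ V := by
      intro T hT
      unfold TT at hT
      rw [mem_filter, mem_powerset] at hT
      have hpr : ∀ p ∈ T, p.Prime := by
        intro p hp
        have h := hT.1 hp
        unfold PP at h
        rw [mem_filter] at h
        exact h.2
      by_cases hco : ∀ p ∈ T, ¬ p ∣ d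
      · have h2 := variance_T d N τm hN A hA hτ T hpr hco
        refine le_trans (le_of_eq ?_) h2
        apply Finset.sum_congr rfl
        intro c _
        rw [hRf]
        simp only
        rw [sq_abs, gd_prod, if_pos hco]
      · have h3 : ∀ c : (ZMod d)ˣ, (Rf c T) ^ 2 = 0 := by
          intro c
          rw [hRf]
          simp only
          rw [gd_prod, if_neg hco]
          push Not at hco
          obtain ⟨p, hp, hpd⟩ := hco
          have h4 : cnt d A N T c = 0 := by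
            unfold cnt
            rw [Finset.card_eq_zero, Finset.filter_eq_empty_iff]
            rintro ⟨a, b⟩ _ ⟨h5, h6⟩
            have h7 := D6_unit h6
            have h8 := Nat.dvd_gcd (h5 p hp) hpd
            rw [h7] at h8
            exact (hpr p hp).one_lt.ne' (Nat.dvd_one.mp h8)
          rw [h4]
          simp
        rw [Finset.sum_congr rfl (fun c _ => h3 c), Finset.sum_const_zero]
        exact hV0
    have hc := card_TT z K
    calc ∑ c : (ZMod d)ˣ, (∑ T ∈ TT z K, Rf c T) ^ 2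
        ≤ ∑ c : (ZMod d)ˣ, ((TT z K).card : ℝ) * ∑ T ∈ TT z K, (Rf c T) ^ 2 :=
          Finset.sum_le_sum fun c _ => sq_sum_le_card_mul_sum_sq
      _ = ((TT z K).card : ℝ) * ∑ T ∈ TT z K, ∑ c : (ZMod d)ˣ, (Rf c T) ^ 2 := by
          rw [← Finset.mul_sum, Finset.sum_comm]
      _ ≤ ((TT z K).card : ℝ) * ∑ T ∈ TT z K, V :=
          mul_le_mul_of_nonneg_left (Finset.sum_le_sum h1) (Nat.cast_nonneg _)
      _ = ((TT z K).card : ℝ) * (((TT z K).card : ℝ) * V) := by
          rw [Finset.sum_const, nsmul_eq_mul]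
      _ ≤ (z : ℝ) ^ K * ((z : ℝ) ^ K * V) :=
          mul_le_mul hc (mul_le_mul_of_nonneg_right hc hV0) (by positivity) (by positivity)
      _ = (z : ℝ) ^ (2 * K) * V := by
          rw [two_mul, pow_add]; ring

end Pool.Agent.Lib.MP_42948a_nt.TQ
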