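import Pool.Agent.Lib.MP_42948a_nt.TQ.Z2
import Pool.Agent.Lib.MP_42948a_nt.TQ.D6
import Pool.Agent.Lib.MP_42948a_nt.TQ.B6
import Pool.Agent.Lib.MP_42948a_nt.AC.N4

/-!
# Pair count, lower bound, Bessel for large `d` (job Z3)

`z = ⌊d^c⌋ ≥ 2` (`num_E1`), `N = ⌊d^(1/2+256η)⌋`, `R = RC d z N`. `pair_good`: `pair_count` with `τm = ⌊d^η⌋` (`num_tau`), `m = #A N/d VV d z`; `m > 0`
since `#A ≥ N d^(-64η) > 0`, `N ≥ 1`, `VV_pos`; `num_pair` with `α = #A`. `RC_good`: `RC_lower η` (`z ≤ d^(η/2)`, `N ≤ d ≤ d^2`), `d^(-2η) ≥ d^(-64η)`,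
and `N d^(-64η) > 0` for nonemptiness. `bessel_good`: with `W = VV d z * (φ N/d)` and `num_bessel`: `bessel` (with `f = lio`, `|lio| = 1`) gives
`∑ ≤ #R ((1+τ) W + (τ/20) W)` (`#Ξ ≤ d^η`), and `RC_card_lower` gives `#R ≥ (1-τ) W - (τ/20) W` (`num_bessel`, `BB ≥ 0`). As `τ ≤ 1/10`:
`(1 + 21τ/20) ≤ (1+3τ)(1 - 21τ/20)`, so `∑ ≤ (1+3τ) #R^2`.
-/

namespace Pool.Agent.Lib.MP_42948a_nt.TQ

open Finset Pool.Agent.Lib.MP_42948a_nt.OA Pool.Agent.Lib.MP_42948a_nt.AC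

private theorem Z3_N (d : ℕ) (η : ℝ) (hη : 0 < η) (hd : 1 ≤ d) : 1 ≤ ⌊(d : ℝ) ^ (1 / 2 + 256 * η)⌋₊ := by
  refine Nat.le_floor ?_
  have hx1 : (1 : ℝ) ≤ d := by exact_mod_cast hd
  rw [Nat.cast_one]
  exact Real.one_le_rpow hx1 (by positivity)

private theorem Z3_c (K : ℕ) (η c : ℝ) (hη : 0 < η) (hc : c * (16 * (3 * K + 4)) = η) : c ≤ η / 2 := by
  have hK0 : (0:ℝ) ≤ K := Nat.cast_nonneg K
  have hden : (0:ℝ) < 16 * (3 * K + 4) := by positivity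
  have hc0 : 0 < c := by
    by_contra hcon
    push Not at hcon
    have : c * (16 * (3 * K + 4)) ≤ 0 := mul_nonpos_of_nonpos_of_nonneg hcon hden.le
    linarith
  have h1 : 0 ≤ c * K := mul_nonneg hc0.le hK0
  have h2 : 48 * (c * K) + 64 * c = η := by rw [← hc]; ring
  linarith

theorem pair_good (τ : ℝ) (hτ : 0 < τ) (K : ℕ) (hF : ∀ z : ℕ, 2 ≤ z → ∃ u l : Finset ℕ → ℝ, Fund τ K z u l)
    (η c : ℝ) (hη : 0 < η) (hη1 : η ≤ 1 / 1024) (hc : c * (16 * (3 * K + 4)) = η) :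
    ∃ d0 : ℕ, ∀ d : ℕ, d0 ≤ d → ∀ [NeZero d], ∀ A : Finset ℕ,
      (∀ a ∈ A, 1 ≤ a ∧ a ≤ ⌊(d : ℝ) ^ (1 / 2 + 256 * η)⌋₊ ∧ a.Coprime d) →
      (⌊(d : ℝ) ^ (1 / 2 + 256 * η)⌋₊ : ℝ) * (d : ℝ) ^ (-(64 * η)) ≤ (A.card : ℝ) →
      ∃ (m : ℝ) (Er : (ZMod d)ˣ → ℝ), 0 < m ∧ (∀ x, 0 ≤ Er x) ∧
        (∀ x, |(rp d A (RC d ⌊(d : ℝ) ^ c⌋₊ ⌊(d : ℝ) ^ (1 / 2 + 256 * η)⌋₊) x : ℝ) - m| ≤ τ * m + Er x) ∧
        ∑ x, Er x ^ 2 ≤ (τ * m) ^ 2 * (Fintype.card (ZMod d)ˣ : ℝ) := by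
  obtain ⟨d1, hd1⟩ := num_E1 K η c hη hc
  obtain ⟨d2, hd2⟩ := num_tau η hη hη1
  obtain ⟨d3, hd3⟩ := num_pair τ hτ K η c hη hη1 hc
  refine ⟨max (max d1 d2) (max d3 1), fun d hd _ A hA hAc => ?_⟩
  have hda : d1 ≤ d := (le_max_left _ _).trans ((le_max_left _ _).trans hd)
  have hdb : d2 ≤ d := (le_max_right _ _).trans ((le_max_left _ _).trans hd)
  have hdc : d3 ≤ d := (le_max_left _ _).trans ((le_max_right _ _).trans hd)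
  have hde : 1 ≤ d := (le_max_right _ _).trans ((le_max_right _ _).trans hd)
  have hz := (hd1 d hda).1
  have hN := Z3_N d η hη hde
  have ht := hd2 d hdb
  have hp := hd3 d hdc (A.card : ℝ) hAc
  have hx0 : (0 : ℝ) < d := by exact_mod_cast hde
  obtain ⟨z, hzd⟩ : ∃ z : ℕ, ⌊(d : ℝ) ^ c⌋₊ = z := ⟨_, rfl⟩
  obtain ⟨N, hNe⟩ : ∃ N : ℕ, ⌊(d : ℝ) ^ (1 / 2 + 256 * η)⌋₊ = N := ⟨_, rfl⟩
  rw [hzd] at hz hp ⊢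
  rw [hNe] at hN ht hp hA hAc ⊢
  obtain ⟨u, l, hul⟩ := hF z hz
  obtain ⟨Er, h0, h1, h2⟩ := pair_count hul d N ⌊(d : ℝ) ^ η⌋₊ hN A hA ht
  have hNpos : (0 : ℝ) < N := by exact_mod_cast hN
  have hApos : (0 : ℝ) < A.card := lt_of_lt_of_le (by positivity) hAc
  have hV := VV_pos d z
  refine ⟨(A.card : ℝ) * N / d * VV d z, Er, by positivity, h0, h1, h2.trans hp⟩

theorem RC_good (K : ℕ) (η c : ℝ) (hη : 0 < η) (hη1 : η ≤ 1 / 1024) (hc : c * (16 * (3 * K + 4)) = η) :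
    ∃ d0 : ℕ, ∀ d : ℕ, d0 ≤ d →
      (⌊(d : ℝ) ^ (1 / 2 + 256 * η)⌋₊ : ℝ) * (d : ℝ) ^ (-(64 * η)) ≤
        ((RC d ⌊(d : ℝ) ^ c⌋₊ ⌊(d : ℝ) ^ (1 / 2 + 256 * η)⌋₊).card : ℝ) ∧
      (RC d ⌊(d : ℝ) ^ c⌋₊ ⌊(d : ℝ) ^ (1 / 2 + 256 * η)⌋₊).Nonempty := by
  obtain ⟨d1, hd1⟩ := RC_lower η hη (by linarith)
  refine ⟨max d1 1, fun d hd => ?_⟩
  have hda : d1 ≤ d := (le_max_left _ _).trans hd
  have hde : 1 ≤ d := (le_max_right _ _).trans hd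
  have hx1 : (1 : ℝ) ≤ d := by exact_mod_cast hde
  have hx0 : (0 : ℝ) < d := by linarith
  have hN := Z3_N d η hη hde
  have hz : (⌊(d : ℝ) ^ c⌋₊ : ℝ) ≤ (d : ℝ) ^ (η / 2) :=
    (Nat.floor_le (by positivity)).trans (Real.rpow_le_rpow_of_exponent_le hx1 (Z3_c K η c hη hc))
  have hN2 : (⌊(d : ℝ) ^ (1 / 2 + 256 * η)⌋₊ : ℝ) ≤ (d : ℝ) ^ (2 : ℝ) :=
    (Nat.floor_le (by positivity)).trans (Real.rpow_le_rpow_of_exponent_le hx1 (by linarith))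
  have h := hd1 d hda _ hz _ hN hN2
  have hNpos : (0 : ℝ) < (⌊(d : ℝ) ^ (1 / 2 + 256 * η)⌋₊ : ℝ) := by exact_mod_cast hN
  have h2 : (⌊(d : ℝ) ^ (1 / 2 + 256 * η)⌋₊ : ℝ) * (d : ℝ) ^ (-(64 * η)) ≤
      (⌊(d : ℝ) ^ (1 / 2 + 256 * η)⌋₊ : ℝ) * (d : ℝ) ^ (-(2 * η)) := by
    refine mul_le_mul_of_nonneg_left (Real.rpow_le_rpow_of_exponent_le hx1 (by linarith)) hNpos.le
  refine ⟨h2.trans h, ?_⟩
  have h3 : (0 : ℝ) < ((RC d ⌊(d : ℝ) ^ c⌋₊ ⌊(d : ℝ) ^ (1 / 2 + 256 * η)⌋₊).card : ℝ) :=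
    lt_of_lt_of_le (by positivity) h
  exact Finset.card_pos.1 (by exact_mod_cast h3)

theorem bessel_good (τ : ℝ) (hτ : 0 < τ) (hτ1 : τ ≤ 1 / 10) (K : ℕ)
    (hF : ∀ z : ℕ, 2 ≤ z → ∃ u l : Finset ℕ → ℝ, Fund τ K z u l) (η c : ℝ) (hη : 0 < η) (hη1 : η ≤ 1 / 1024)
    (hc : c * (16 * (3 * K + 4)) = η) :
    ∃ d0 : ℕ, ∀ d : ℕ, d0 ≤ d → ∀ [NeZero d], ∀ Ξ : Finset (DirichletCharacter ℂ d), (Ξ.card : ℝ) ≤ (d : ℝ) ^ η →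
      ∑ χ ∈ Ξ, ‖AR (RC d ⌊(d : ℝ) ^ c⌋₊ ⌊(d : ℝ) ^ (1 / 2 + 256 * η)⌋₊) lio χ‖ ^ 2 ≤
        (1 + 3 * τ) * ((RC d ⌊(d : ℝ) ^ c⌋₊ ⌊(d : ℝ) ^ (1 / 2 + 256 * η)⌋₊).card : ℝ) ^ 2 := by
  obtain ⟨d1, hd1⟩ := num_E1 K η c hη hc
  obtain ⟨d2, hd2⟩ := num_bessel τ hτ K η c hη hη1 hc
  refine ⟨max d1 (max d2 1), fun d hd _ Ξ hΞ => ?_⟩
  have hda : d1 ≤ d := (le_max_left _ _).trans hd
  have hdb : d2 ≤ d := (le_max_left _ _).trans ((le_max_right _ _).trans hd)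
  have hde : 1 ≤ d := (le_max_right _ _).trans ((le_max_right _ _).trans hd)
  have hx1 : (1 : ℝ) ≤ d := by exact_mod_cast hde
  have hx0 : (0 : ℝ) < d := by linarith
  have hz := (hd1 d hda).1
  have hb := hd2 d hdb
  obtain ⟨z, hzd⟩ : ∃ z : ℕ, ⌊(d : ℝ) ^ c⌋₊ = z := ⟨_, rfl⟩
  obtain ⟨N, hNe⟩ : ∃ N : ℕ, ⌊(d : ℝ) ^ (1 / 2 + 256 * η)⌋₊ = N := ⟨_, rfl⟩
  rw [hzd] at hz hb ⊢
  rw [hNe] at hb ⊢
  obtain ⟨u, l, hul⟩ := hF z hz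
  have hlio : ∀ n, |lio n| ≤ 1 := by
    intro n
    rcases lio_val n with h | h <;> rw [h] <;> norm_num
  have h1 := bessel hul d N lio hlio Ξ
  have h2 := RC_card_lower hul d N
  have hBB0 : 0 ≤ BB d := by
    unfold BB
    have := Real.log_natCast_nonneg d
    positivity
  have hV := VV_pos d z
  have hR0 : (0 : ℝ) ≤ ((RC d z N).card : ℝ) := Nat.cast_nonneg _
  obtain ⟨W, hW⟩ : ∃ W : ℝ, VV d z * ((Fintype.card (ZMod d)ˣ : ℝ) * (N : ℝ) / d) = W := ⟨_, rfl⟩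
  have hW0 : 0 ≤ W := by
    rw [← hW]
    positivity
  rw [hW] at hb h1 h2
  obtain ⟨r, hr⟩ : ∃ r : ℝ, ((RC d z N).card : ℝ) = r := ⟨_, rfl⟩
  rw [hr] at h1 h2 hR0 ⊢
  have hzB : 0 ≤ (z : ℝ) ^ K * BB d := by positivity
  have h3 : (Ξ.card : ℝ) * ((z : ℝ) ^ K * BB d) ≤ (d : ℝ) ^ η * ((z : ℝ) ^ K * BB d) :=
    mul_le_mul_of_nonneg_right hΞ hzB
  have h4 : 0 ≤ (d : ℝ) ^ η * ((z : ℝ) ^ K * BB d) := by positivity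
  have h5 : (1 + τ) * W + (z : ℝ) ^ K * (1 + BB d) + (Ξ.card : ℝ) * ((z : ℝ) ^ K * BB d) ≤ (1 + 21 * τ / 20) * W := by
    linarith
  have h6 : (1 - 21 * τ / 20) * W ≤ r := by linarith
  have h7 : (1 + 21 * τ / 20) * W ≤ (1 + 3 * τ) * r := by
    have h8 : (1 + 21 * τ / 20) * W ≤ (1 + 3 * τ) * ((1 - 21 * τ / 20) * W) := by
      have h9 : 0 ≤ τ * (18 - 63 * τ) := mul_nonneg hτ.le (by linarith)
      have h10 : 0 ≤ τ * (18 - 63 * τ) * W := mul_nonneg h9 hW0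
      linarith
    exact h8.trans (mul_le_mul_of_nonneg_left h6 (by linarith))
  calc ∑ χ ∈ Ξ, ‖AR (RC d z N) lio χ‖ ^ 2 ≤ _ := h1
    _ ≤ r * ((1 + 21 * τ / 20) * W) := mul_le_mul_of_nonneg_left h5 hR0
    _ ≤ r * ((1 + 3 * τ) * r) := mul_le_mul_of_nonneg_left h7 hR0
    _ = (1 + 3 * τ) * r ^ 2 := by ring

end Pool.Agent.Lib.MP_42948a_nt.TQ
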