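import Pool.Agent.Lib.MP_42948a_nt.TQ.Defs
import Pool.Agent.Lib.MP_42948a_nt.OA.FB
import Pool.Agent.Lib.MP_42948a_nt.OA.DV
import Pool.Agent.Lib.MP_42948a_nt.OA.ZC
import Pool.Agent.Lib.MP_42948a_nt.OA.EH

/-!
# Size of `φ(d)`, divisor bound, classes with rough numbers (job Z1)

`phi_lower`: `many_primes` with `k = 1`, `z = 0`: `#primesOff d 0 ⌊d^(1/1)⌋ ≥ d^(1-κ)`; `⌊d⌋ = d`; a prime `p ≤ d` not dividing `d` is `< d` and coprime to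
`d`, so the set is contained in the set of the `a < d` coprime to `d`, whose cardinality is `φ(d)` (`ZMod.card_units_eq_totient`,
`Nat.totient`). `num_tau`: `divisor_bound (η/4)`: `τ(v) ≤ C v^(η/4)`; `v ≤ 4 d^(3/4) d ≤ d^2` for large `d` (`256 η ≤ 1/4`), so
`τ(v) ≤ C d^(η/2) ≤ d^η` for large `d`, `Nat.le_floor`. `full_large`: `exists_rough_class` with `N = ⌊d^(1+η)⌋` and `num_E1`.
-/

namespace Pool.Agent.Lib.MP_42948a_nt.TQ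

open Finset Pool.Agent.Lib.MP_42948a_nt.OA Pool.Agent.Lib.MP_42948a_nt.AC

theorem phi_lower (κ : ℝ) (hκ : 0 < κ) (hκ1 : κ < 1) : ∃ d0 : ℕ, ∀ d : ℕ, d0 ≤ d → ∀ [NeZero d],
    (d : ℝ) ^ (1 - κ) ≤ (Fintype.card (ZMod d)ˣ : ℝ) := by
  obtain ⟨d0, hd0⟩ := many_primes 1 le_rfl κ hκ hκ1
  refine ⟨max d0 1, fun d hd _ => ?_⟩
  have hd1 : 1 ≤ d := (le_max_right _ _).trans hd
  have h := hd0 d ((le_max_left _ _).trans hd) 0 (by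
    rw [Nat.cast_zero]
    exact Real.rpow_nonneg (Nat.cast_nonneg _) _)
  rw [Nat.cast_one, one_mul, div_one, div_one, Real.rpow_one, Nat.floor_natCast] at h
  refine h.trans ?_
  have h2 : (primesOff d 0 d).card ≤ Fintype.card (ZMod d)ˣ := by
    rw [ZMod.card_units_eq_totient, Nat.totient_eq_card_coprime]
    refine Finset.card_le_card ?_
    intro p hp
    unfold primesOff at hp
    rw [mem_filter, mem_Icc] at hp
    obtain ⟨⟨_, hp2⟩, hp3, _, hp5⟩ := hp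
    rw [mem_filter, mem_range]
    refine ⟨?_, ((Nat.Prime.coprime_iff_not_dvd hp3).2 hp5).symm⟩
    rcases hp2.lt_or_eq with h3 | h3
    · exact h3
    · exact absurd (h3 ▸ dvd_refl p) hp5
  exact_mod_cast h2

theorem num_tau (η : ℝ) (hη : 0 < η) (hη1 : η ≤ 1 / 1024) : ∃ d0 : ℕ, ∀ d : ℕ, d0 ≤ d → ∀ v : ℕ, 0 < v →
    v ≤ 4 * ⌊(d : ℝ) ^ (1 / 2 + 256 * η)⌋₊ * d → v.divisors.card ≤ ⌊(d : ℝ) ^ η⌋₊ := by
  obtain ⟨C, hC1, hC⟩ := divisor_bound (η / 4) (by positivity)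
  have h1 : ∀ᶠ x : ℝ in Filter.atTop, C ≤ x ^ (η / 2) :=
    (tendsto_rpow_atTop (by positivity : 0 < η / 2)).eventually_ge_atTop _
  have h2 : ∀ᶠ x : ℝ in Filter.atTop, (4 : ℝ) ≤ x ^ (1 / 4 : ℝ) :=
    (tendsto_rpow_atTop (by norm_num : (0 : ℝ) < 1 / 4)).eventually_ge_atTop _
  have h3 : ∀ᶠ d : ℕ in Filter.atTop, 1 ≤ d ∧ C ≤ (d : ℝ) ^ (η / 2) ∧ (4 : ℝ) ≤ (d : ℝ) ^ (1 / 4 : ℝ) := by
    have := tendsto_natCast_atTop_atTop (R := ℝ)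
    filter_upwards [Filter.eventually_ge_atTop 1, this.eventually h1, this.eventually h2] with d a b c
    exact ⟨a, b, c⟩
  obtain ⟨d0, hd0⟩ := Filter.eventually_atTop.mp h3
  refine ⟨d0, fun d hd v hv hvd => ?_⟩
  obtain ⟨hd1, hl, hr⟩ := hd0 d hd
  have hd1' : (1 : ℝ) ≤ d := by exact_mod_cast hd1
  have hdpos : (0:ℝ) < d := by linarith
  refine Nat.le_floor ?_
  have hv1 : (v : ℝ) ≤ (d : ℝ) ^ (2 : ℝ) := by
    have h4 : (v : ℝ) ≤ 4 * (⌊(d : ℝ) ^ (1 / 2 + 256 * η)⌋₊ : ℝ) * d := by exact_mod_cast hvd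
    have h5 : (⌊(d : ℝ) ^ (1 / 2 + 256 * η)⌋₊ : ℝ) ≤ (d : ℝ) ^ (3 / 4 : ℝ) :=
      (Nat.floor_le (by positivity)).trans (Real.rpow_le_rpow_of_exponent_le hd1' (by linarith))
    have h6 : (d : ℝ) ^ (2 : ℝ) = (d : ℝ) ^ (1 / 4 : ℝ) * (d : ℝ) ^ (3 / 4 : ℝ) * d := by
      have h7 : (d : ℝ) ^ (1 / 4 : ℝ) * (d : ℝ) ^ (3 / 4 : ℝ) = d := by
        rw [← Real.rpow_add hdpos]
        norm_num
      rw [h7, Real.rpow_two]
      ring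
    rw [h6]
    refine h4.trans ?_
    gcongr
  calc (v.divisors.card : ℝ) ≤ C * (v : ℝ) ^ (η / 4) := hC v hv
    _ ≤ C * ((d : ℝ) ^ (2 : ℝ)) ^ (η / 4) := by gcongr
    _ = C * (d : ℝ) ^ (η / 2) := by
        rw [← Real.rpow_mul hdpos.le]
        congr 2
        ring
    _ ≤ (d : ℝ) ^ (η / 2) * (d : ℝ) ^ (η / 2) := by gcongr
    _ = (d : ℝ) ^ η := by
        rw [← Real.rpow_add hdpos]
        congr 1
        ring

theorem full_large (K : ℕ) (hK : SieveProp K) (η c : ℝ) (hη : 0 < η) (hc : c * (16 * (3 * K + 4)) = η) :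
    ∃ d0 : ℕ, ∀ d : ℕ, d0 ≤ d → ∀ X : ℕ, ⌊(d : ℝ) ^ (1 + η)⌋₊ ≤ X → Full d ⌊(d : ℝ) ^ c⌋₊ X := by
  obtain ⟨d0, hd0⟩ := num_E1 K η c hη hc
  refine ⟨max d0 1, fun d hd X hX a => ?_⟩
  obtain ⟨h1, h2⟩ := hd0 d ((le_max_left _ _).trans hd)
  obtain ⟨n, hn1, hn2, hn3⟩ := exists_rough_class K hK _ d _ h1 ((le_max_right _ _).trans hd) h2 a
  exact ⟨n, hn1, hn2.trans hX, hn3⟩

end Pool.Agent.Lib.MP_42948a_nt.TQ
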