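import Pool.Agent.Lib.MP_42948a_nt.TQ.G1

/-!
# The model function (job G2)

`φ = card G`, `hH = Nat.card H`. For a coset `x : G ⧸ H` let `r = x.out` and `S x = ∑_{a ∈ R, (ucl a : G ⧸ H) = x} lio a * rhoE ρ (r⁻¹ * ucl a)`
(there `r⁻¹ * ucl a ∈ H`, `QuotientGroup.eq`). For `a, b` in the same coset `rhoE ((ucl a)⁻¹ ucl b) = rhoE (r⁻¹ ucl a) rhoE (r⁻¹ ucl b)` (`rhoE_mul`, `rhoE_inv`),
otherwise it is `0`, so the double sum in `ext_mass` (`f = lio`) is `∑_x (S x)^2`, and `h` gives `(1-ω) #R^2 hH ≤ φ ∑_x (S x)^2`. Let `σ x = 1` if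
`S x ≥ 0`, `-1` otherwise, and `Λ g = σ x * rhoE ρ (r⁻¹ * g)` with `x` the coset of `g`, `r = x.out`: values `±1`, `Λ (g h) = Λ g ρ h` for `h ∈ H`. Let
`R x = {a ∈ R in coset x}`. All terms of `S x` are `±1` and `lio a = Λ (ucl a)` iff the term is `σ x`, so
`|S x| = #R x - 2 #{a ∈ R x : Λ (ucl a) ≠ lio a}`; sum: `2 #E = #R - ∑_x |S x|`. As `|S x| ≤ #R x ≤ M := (1+θ) #R hH/φ` (`hθ`, with `g = r`) we have
`∑_x |S x| ≥ (1/M) ∑_x (S x)^2 ≥ (1-ω) #R^2 hH / (φ M) = (1-ω) #R/(1+θ) ≥ (1-ω-θ) #R` (if `1 - ω ≤ 0` the last bound is trivial; else use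
`1/(1+θ) ≥ 1 - θ`). If `R` is empty everything is trivial.
-/

namespace Pool.Agent.Lib.MP_42948a_nt.TQ

open Finset Pool.Agent.Lib.MP_42948a_nt.OA Pool.Agent.Lib.MP_42948a_nt.AC

private theorem G2_alg (φ c r w θ : ℝ) (h : φ ≠ 0) :
    φ * ((1 + θ) * (c / φ) * r * w) = c * ((1 + θ) * r * w) := by
  field_simp

open Classical in
theorem model {d : ℕ} [NeZero d] (R : Finset ℕ) (hR : ∀ a ∈ R, 0 < a ∧ a.Coprime d)
    (H : Subgroup (ZMod d)ˣ) (ρ : H →* ℤˣ) (ω θ : ℝ) (hω : 0 ≤ ω) (hθ0 : 0 ≤ θ)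
    (h : (1 - ω) * (R.card : ℝ) ^ 2 ≤ ∑ χ ∈ (univ : Finset (DirichletCharacter ℂ d)).filter
        (fun χ => ∀ h : H, ev χ (h : (ZMod d)ˣ) = (((ρ h : ℤˣ) : ℤ) : ℂ)), ‖AR R lio χ‖ ^ 2)
    (hθ : ∀ g : (ZMod d)ˣ, ((R.filter (fun a : ℕ => g⁻¹ * ucl d a ∈ H)).card : ℝ) ≤
      (1 + θ) * ((Nat.card H : ℝ) / (Fintype.card (ZMod d)ˣ : ℝ)) * (R.card : ℝ)) :
    ∃ Λ : (ZMod d)ˣ → ℝ, (∀ g, Λ g = 1 ∨ Λ g = -1) ∧ (∀ g, ∀ h ∈ H, Λ (g * h) = Λ g * rhoE ρ h) ∧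
      2 * ((R.filter (fun a : ℕ => Λ (ucl d a) ≠ lio a)).card : ℝ) ≤ (ω + θ) * (R.card : ℝ) := by
  obtain ⟨κ, hκ⟩ : ∃ κ : (ZMod d)ˣ → ℝ, κ = fun g =>
      rhoE ρ (((QuotientGroup.mk g : (ZMod d)ˣ ⧸ H).out)⁻¹ * g) := ⟨_, rfl⟩
  have hmem : ∀ g : (ZMod d)ˣ, ((QuotientGroup.mk g : (ZMod d)ˣ ⧸ H).out)⁻¹ * g ∈ H := by
    intro g
    rw [← QuotientGroup.eq]
    exact QuotientGroup.out_eq' _
  have hκ1 : ∀ g, κ g = 1 ∨ κ g = -1 := by
    intro g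
    rw [hκ]
    exact rhoE_of_mem ρ (hmem g)
  have hκ2 : ∀ g, κ g * κ g = 1 := by
    intro g
    rcases hκ1 g with h1 | h1
    · rw [h1]
      norm_num
    · rw [h1]
      norm_num
  have hκm : ∀ g k : (ZMod d)ˣ, k ∈ H → κ (g * k) = κ g * rhoE ρ k := by
    intro g k hk
    simp only [hκ]
    rw [QuotientGroup.mk_mul_of_mem g hk, ← mul_assoc, rhoE_mul ρ (hmem g) hk]
  have hκc : ∀ g₁ g₂ : (ZMod d)ˣ, rhoE ρ (g₁⁻¹ * g₂) =
      if (QuotientGroup.mk g₁ : (ZMod d)ˣ ⧸ H) = QuotientGroup.mk g₂ then κ g₁ * κ g₂ else 0 := by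
    intro g₁ g₂
    split_ifs with h0
    · have h1 : g₁⁻¹ * g₂ ∈ H := QuotientGroup.eq.mp h0
      have h2 := hκm g₁ _ h1
      rw [mul_inv_cancel_left] at h2
      rw [h2, ← mul_assoc, hκ2, one_mul]
    · exact rhoE_of_not_mem ρ fun h1 => h0 (QuotientGroup.eq.mpr h1)
  obtain ⟨S, hS⟩ : ∃ S : (ZMod d)ˣ ⧸ H → ℝ, S = fun x =>
      ∑ a ∈ R.filter (fun a => (QuotientGroup.mk (ucl d a) : (ZMod d)ˣ ⧸ H) = x),
        lio a * κ (ucl d a) := ⟨_, rfl⟩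
  obtain ⟨σ, hσ⟩ : ∃ σ : (ZMod d)ˣ ⧸ H → ℝ, σ = fun x => if 0 ≤ S x then 1 else -1 := ⟨_, rfl⟩
  have hσ1 : ∀ x, σ x = 1 ∨ σ x = -1 := by
    intro x
    simp only [hσ]
    split_ifs
    · exact Or.inl rfl
    · exact Or.inr rfl
  have hσ2 : ∀ x, σ x * S x = |S x| := by
    intro x
    simp only [hσ]
    split_ifs with h0
    · rw [one_mul, abs_of_nonneg h0]
    · rw [neg_one_mul, abs_of_neg (not_le.mp h0)]
  obtain ⟨Λ, hΛ⟩ : ∃ Λ : (ZMod d)ˣ → ℝ, Λ = fun g =>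
      σ (QuotientGroup.mk g : (ZMod d)ˣ ⧸ H) * κ g := ⟨_, rfl⟩
  have hΛ1 : ∀ g, Λ g = 1 ∨ Λ g = -1 := by
    intro g
    simp only [hΛ]
    rcases hσ1 (QuotientGroup.mk g : (ZMod d)ˣ ⧸ H) with h1 | h1 <;>
    rcases hκ1 g with h2 | h2 <;> rw [h1, h2] <;> norm_num
  refine ⟨Λ, hΛ1, ?_, ?_⟩
  · intro g k hk
    simp only [hΛ]
    rw [QuotientGroup.mk_mul_of_mem g hk, hκm g k hk, mul_assoc]
  -- the sum of the squares
  have hsq : ∑ a ∈ R, ∑ b ∈ R, lio a * lio b * rhoE ρ ((ucl d a)⁻¹ * ucl d b) =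
      ∑ x : (ZMod d)ˣ ⧸ H, S x ^ 2 := by
    have h1 : ∀ x, S x ^ 2 = ∑ a ∈ R, ∑ b ∈ R,
        (if (QuotientGroup.mk (ucl d a) : (ZMod d)ˣ ⧸ H) = x then lio a * κ (ucl d a) else 0) *
        (if (QuotientGroup.mk (ucl d b) : (ZMod d)ˣ ⧸ H) = x then lio b * κ (ucl d b) else 0) := by
      intro x
      rw [← Finset.sum_mul_sum, pow_two]
      simp only [hS]
      rw [Finset.sum_filter]
    symm
    rw [Finset.sum_congr (s₁ := (Finset.univ : Finset ((ZMod d)ˣ ⧸ H))) rfl fun x _ => h1 x,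
      Finset.sum_comm]
    refine Finset.sum_congr rfl fun a _ => ?_
    rw [Finset.sum_comm]
    refine Finset.sum_congr rfl fun b _ => ?_
    rw [Finset.sum_eq_single (QuotientGroup.mk (ucl d a) : (ZMod d)ˣ ⧸ H)]
    · rw [if_pos rfl, hκc]
      by_cases h2 : (QuotientGroup.mk (ucl d a) : (ZMod d)ˣ ⧸ H) = QuotientGroup.mk (ucl d b)
      · rw [if_pos h2, if_pos h2.symm]
        ring
      · rw [if_neg h2, if_neg fun h3 => h2 h3.symm]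
        ring
    · intro x _ hx
      rw [if_neg fun h3 => hx h3.symm, zero_mul]
    · intro h0
      exact absurd (Finset.mem_univ _) h0
  -- the sum of the absolute values
  have habs : ∑ x : (ZMod d)ˣ ⧸ H, |S x| = ∑ a ∈ R, lio a * Λ (ucl d a) := by
    have h1 : ∀ x, |S x| = ∑ a ∈ R,
        (if (QuotientGroup.mk (ucl d a) : (ZMod d)ˣ ⧸ H) = x then lio a * Λ (ucl d a) else 0) := by
      intro x
      rw [← hσ2 x]
      simp only [hS]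
      rw [Finset.mul_sum, Finset.sum_filter]
      refine Finset.sum_congr rfl fun a _ => ?_
      split_ifs with h2
      · simp only [hΛ]
        rw [h2]
        ring
      · rfl
    rw [Finset.sum_congr rfl fun x _ => h1 x, Finset.sum_comm]
    refine Finset.sum_congr rfl fun a _ => ?_
    rw [Finset.sum_ite_eq, if_pos (Finset.mem_univ _)]
  have hcount : ∑ a ∈ R, lio a * Λ (ucl d a) =
      (R.card : ℝ) - 2 * ((R.filter (fun a : ℕ => Λ (ucl d a) ≠ lio a)).card : ℝ) := by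
    have h1 : ∀ a ∈ R, lio a * Λ (ucl d a) = 1 - 2 * (if Λ (ucl d a) ≠ lio a then (1 : ℝ) else 0) := by
      intro a _
      rcases lio_val a with h2 | h2 <;> rcases hΛ1 (ucl d a) with h3 | h3 <;>
        rw [h2, h3] <;> norm_num
    rw [Finset.sum_congr rfl h1, Finset.sum_sub_distrib, ← Finset.mul_sum, Finset.sum_const,
      nsmul_eq_mul, mul_one, Finset.card_filter]
    push_cast
    rfl
  have hSle : ∀ x, |S x| ≤ (1 + θ) * ((Nat.card H : ℝ) / (Fintype.card (ZMod d)ˣ : ℝ)) *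
      (R.card : ℝ) := by
    intro x
    have h1 : |S x| ≤ ((R.filter (fun a : ℕ => x.out⁻¹ * ucl d a ∈ H)).card : ℝ) := by
      simp only [hS]
      have h2 : R.filter (fun a => (QuotientGroup.mk (ucl d a) : (ZMod d)ˣ ⧸ H) = x) =
          R.filter (fun a : ℕ => x.out⁻¹ * ucl d a ∈ H) := by
        refine Finset.filter_congr fun a _ => ?_
        rw [← QuotientGroup.eq, QuotientGroup.out_eq']
        exact eq_comm
      rw [h2]
      refine (Finset.abs_sum_le_sum_abs _ _).trans ?_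
      rw [Finset.card_eq_sum_ones, Nat.cast_sum]
      refine Finset.sum_le_sum fun a _ => ?_
      rw [abs_mul]
      rcases lio_val a with h4 | h4 <;> rcases hκ1 (ucl d a) with h3 | h3 <;>
        rw [h4, h3] <;> norm_num
    exact h1.trans (hθ x.out)
  obtain ⟨w1, hw1⟩ : ∃ t : ℝ, t = ∑ x : (ZMod d)ˣ ⧸ H, |S x| := ⟨_, rfl⟩
  have hHpos : (0 : ℝ) < (Nat.card H : ℝ) := by
    exact_mod_cast Nat.card_pos
  have hφpos : (0 : ℝ) < (Fintype.card (ZMod d)ˣ : ℝ) := by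
    exact_mod_cast Fintype.card_pos
  have hS2 : ∑ x : (ZMod d)ˣ ⧸ H, S x ^ 2 ≤
      (1 + θ) * ((Nat.card H : ℝ) / (Fintype.card (ZMod d)ˣ : ℝ)) * (R.card : ℝ) * w1 := by
    rw [hw1, Finset.mul_sum]
    refine Finset.sum_le_sum fun x _ => ?_
    rw [← sq_abs, pow_two]
    exact mul_le_mul_of_nonneg_right (hSle x) (abs_nonneg _)
  have hE := ext_mass R hR lio H ρ
  rw [hsq] at hE
  have h5 : (Nat.card H : ℝ) * ((1 - ω) * (R.card : ℝ) ^ 2) ≤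
      (Fintype.card (ZMod d)ˣ : ℝ) * ((1 + θ) * ((Nat.card H : ℝ) /
        (Fintype.card (ZMod d)ˣ : ℝ)) * (R.card : ℝ) * w1) := by
    refine (mul_le_mul_of_nonneg_left h hHpos.le).trans ?_
    rw [hE]
    exact mul_le_mul_of_nonneg_left hS2 hφpos.le
  have h6 : (Fintype.card (ZMod d)ˣ : ℝ) * ((1 + θ) * ((Nat.card H : ℝ) /
        (Fintype.card (ZMod d)ˣ : ℝ)) * (R.card : ℝ) * w1) =
      (Nat.card H : ℝ) * ((1 + θ) * (R.card : ℝ) * w1) :=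
    G2_alg _ _ _ _ _ hφpos.ne'
  rw [h6] at h5
  have h7 := le_of_mul_le_mul_left h5 hHpos
  have hw2 : w1 = (R.card : ℝ) - 2 * ((R.filter (fun a : ℕ => Λ (ucl d a) ≠ lio a)).card : ℝ) := by
    rw [hw1, habs, hcount]
  rcases Nat.eq_zero_or_pos R.card with h0 | h0
  · have h8 : (R.filter (fun a : ℕ => Λ (ucl d a) ≠ lio a)).card = 0 :=
      Nat.le_zero.mp (h0 ▸ Finset.card_filter_le R _)
    rw [h8, h0, Nat.cast_zero, mul_zero, mul_zero]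
  · have h9 : (0 : ℝ) < (R.card : ℝ) := by exact_mod_cast h0
    have h10 : (1 - ω) * (R.card : ℝ) ≤ (1 + θ) * w1 := by
      refine le_of_mul_le_mul_left ?_ h9
      calc (R.card : ℝ) * ((1 - ω) * (R.card : ℝ)) = (1 - ω) * (R.card : ℝ) ^ 2 := by ring
        _ ≤ (1 + θ) * (R.card : ℝ) * w1 := h7
        _ = _ := by ring
    have h11 : w1 ≤ (R.card : ℝ) := by
      rw [hw2]
      have : (0 : ℝ) ≤ ((R.filter (fun a : ℕ => Λ (ucl d a) ≠ lio a)).card : ℝ) := Nat.cast_nonneg _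
      linarith
    have h12 : θ * w1 ≤ θ * (R.card : ℝ) := mul_le_mul_of_nonneg_left h11 hθ0
    have h13 : 2 * ((R.filter (fun a : ℕ => Λ (ucl d a) ≠ lio a)).card : ℝ) = (R.card : ℝ) - w1 := by
      rw [hw2]
      ring
    rw [h13]
    nlinarith

end Pool.Agent.Lib.MP_42948a_nt.TQ
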