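import Pool.Agent.Lib.MP_42948a_nt.TQ.Z3

/-!
# Rough numbers up to `d^(1/2+)` are equidistributed in the cosets of a large subgroup (job G3)

`z = ⌊d^c⌋`, `N = ⌊d^(1/2+256η)⌋`, `R = RC d z N`, `φ = card G`, `hH = Nat.card H ≥ (δ/2) φ`, `W = VV d z * (φ N/d)`, `e = z^K (1 + BB d)`.
For a coset `g H` let `R' = {a ∈ R : g⁻¹ ucl a ∈ H}`; a rough `n ≤ N` is in `R'` iff `(n : ZMod d) ∈ cosetSet H g` (such `n` are coprime to `d`).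
As in the proofs of `rho_mass` and `RC_card_lower` (`TQ/B5.lean`; copy), with `coset_count_mul` for `H`, `g` (`cls N T (cosetSet H g)`; if some `p ∈ T` divides
`d` the set is empty and `gd_prod` is `0`): `#R' ≤ (1+τ) VV hH N/d + e = (1+τ) (hH/φ) W + e` and `#R' ≥ (1-τ) (hH/φ) W - e`. The same for `H = ⊤`
(or `RC_card_lower`, and the upper bound from `rho_mass` with `rho_ge_one`): `(1-τ) W - e ≤ #R ≤ (1+τ) W + e`. `num_bessel` with `τδ/2` in place of `τ`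
(the first term alone): `e ≤ (τδ/40) W ≤ (τ/20) (hH/φ) W`. Hence `#R' ≤ (1 + 21τ/20) (hH/φ) W`, `W ≤ #R/(1 - 21τ/20)`, and
`(1 + 21τ/20)/(1 - 21τ/20) ≤ 1 + 3τ` for `τ ≤ 1/10`; similarly `#R' ≥ (1 - 21τ/20)/(1+21τ/20) (hH/φ) #R ≥ (1 - 3τ) (hH/φ) #R`. Third claim: `#R' ≥ (7/10)(δ/2) #R` and `#R ≥ N d^(-2η)` (`RC_lower η`,
`AC/N4.lean`), so `#R' ≥ N d^(-64η)` for large `d`.
-/

namespace Pool.Agent.Lib.MP_42948a_nt.TQ

open Finset Pool.Agent.Lib.MP_42948a_nt.OA Pool.Agent.Lib.MP_42948a_nt.AC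

variable {τ : ℝ} {K z : ℕ} {u l : Finset ℕ → ℝ}

private theorem G3_prime {z : ℕ} {T : Finset ℕ} (hT : T ⊆ PP z) : ∀ p ∈ T, p.Prime := by
  intro p hp
  have h := hT hp
  unfold PP at h
  rw [mem_filter] at h
  exact h.2

private theorem G3_rough {z n : ℕ} (hn : 0 < n) : (∀ p ∈ PP z, ¬ p ∣ n) ↔ Rough z n := by
  constructor
  · intro h
    refine ⟨hn, fun p hp hpn => ?_⟩
    by_contra hz
    push Not at hz
    exact h p (by unfold PP; rw [mem_filter, mem_Icc]; exact ⟨⟨hp.one_lt.le, hz⟩, hp⟩) hpn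
  · intro h p hp hpn
    unfold PP at hp
    rw [mem_filter, mem_Icc] at hp
    have := h.2 p hp.2 hpn
    omega

private theorem G3_cop {d : ℕ} {H : Subgroup (ZMod d)ˣ} {g : (ZMod d)ˣ} {n : ℕ}
    (h : (n : ZMod d) ∈ cosetSet H g) : n.Coprime d := by
  obtain ⟨x, _, hx⟩ := h
  rw [← ZMod.isUnit_iff_coprime, hx]
  exact Units.isUnit _

private theorem G3_mem {d : ℕ} {H : Subgroup (ZMod d)ˣ} {g : (ZMod d)ˣ} {n : ℕ} (hn : n.Coprime d) :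
    (n : ZMod d) ∈ cosetSet H g ↔ g⁻¹ * ucl d n ∈ H := by
  constructor
  · rintro ⟨x, hx, hxe⟩
    rw [ucl_eq hn hxe, inv_mul_cancel_left]
    exact hx
  · intro h
    refine ⟨_, h, ?_⟩
    rw [mul_inv_cancel_left, ucl_val hn]

private theorem G3_count (d : ℕ) [NeZero d] (N : ℕ) (H : Subgroup (ZMod d)ˣ) (g : (ZMod d)ˣ) {z : ℕ}
    {T : Finset ℕ} (hT : T ⊆ PP z) :
    |((cls N T (cosetSet H g)).card : ℝ) -
      ((Nat.card H : ℝ) * N / d) * ∏ p ∈ T, gd d p| ≤ 1 + BB d := by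
  classical
  have hBB : 0 ≤ BB d := by
    have h := abs_nonneg (α := ℝ) (((cls N ∅ (cosetSet (⊤ : Subgroup (ZMod d)ˣ) 1)).card : ℝ) -
      (N : ℝ) * (Nat.card (⊤ : Subgroup (ZMod d)ˣ) : ℝ) / d)
    exact h.trans (coset_count d ⊤ 1 N)
  rw [gd_prod]
  by_cases h : ∀ p ∈ T, ¬ p ∣ d
  · rw [if_pos h]
    have e1 := coset_count_mul d H g T (G3_prime hT) h N
    have e4 : (Nat.card H : ℝ) * N / d * (1 / ∏ p ∈ T, (p : ℝ)) =
        (N : ℝ) * (Nat.card H : ℝ) / (d * ∏ p ∈ T, (p : ℝ)) := by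
      rw [div_mul_div_comm, mul_one, mul_comm (Nat.card H : ℝ) (N : ℝ)]
    rw [e4]
    exact e1
  · rw [if_neg h]
    push Not at h
    obtain ⟨p, hp, hpd⟩ := h
    have e1 : cls N T (cosetSet H g) = ∅ := by
      unfold cls
      rw [Finset.filter_eq_empty_iff]
      rintro n _ ⟨hall, hn⟩
      have hpp := G3_prime hT p hp
      have := Nat.dvd_gcd (hall p hp) hpd
      rw [G3_cop hn] at this
      exact hpp.one_lt.ne' (Nat.dvd_one.mp this)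
    rw [e1, card_empty, Nat.cast_zero, mul_zero, sub_zero, abs_zero]
    linarith

private theorem G3_main (d : ℕ) [NeZero d] (N : ℕ) (H : Subgroup (ZMod d)ˣ) (g : (ZMod d)ˣ) (z K : ℕ)
    (v : Finset ℕ → ℝ) (hv : ∀ T, |v T| ≤ 1)
    (hsup : ∀ T, T ⊆ PP z → v T ≠ 0 → ∏ p ∈ T, p ≤ z ^ K) :
    |(∑ n ∈ cls N ∅ (cosetSet H g),
        ∑ T ∈ (PP z).powerset, v T * (if ∀ p ∈ T, p ∣ n then (1 : ℝ) else 0)) -
      ((Nat.card H : ℝ) * N / d) * ∑ T ∈ (PP z).powerset, v T * ∏ p ∈ T, gd d p| ≤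
      (z : ℝ) ^ K * (1 + BB d) := by
  classical
  rw [Finset.sum_comm, Finset.mul_sum, ← Finset.sum_sub_distrib]
  have e0 : ∀ T : Finset ℕ, (cls N ∅ (cosetSet H g)).filter (fun n : ℕ => ∀ p ∈ T, p ∣ n) =
      cls N T (cosetSet H g) := by
    intro T
    ext n
    unfold cls
    rw [mem_filter, mem_filter, mem_filter]
    constructor
    · rintro ⟨⟨h1, _, h2⟩, h3⟩
      exact ⟨h1, h3, h2⟩
    · rintro ⟨h1, h3, h2⟩
      exact ⟨⟨h1, by simp, h2⟩, h3⟩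
  have e1 : ∀ T ∈ (PP z).powerset,
      (∑ n ∈ cls N ∅ (cosetSet H g), v T * (if ∀ p ∈ T, p ∣ n then (1 : ℝ) else 0)) -
        ((Nat.card H : ℝ) * N / d) * (v T * ∏ p ∈ T, gd d p) =
      v T * (((cls N T (cosetSet H g)).card : ℝ) -
        ((Nat.card H : ℝ) * N / d) * ∏ p ∈ T, gd d p) := by
    intro T _
    rw [← Finset.mul_sum, ← Finset.sum_filter, e0 T, Finset.sum_const, nsmul_eq_mul, mul_one]
    ring
  rw [Finset.sum_congr rfl e1]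
  have e2 : ∑ T ∈ (PP z).powerset, v T * (((cls N T (cosetSet H g)).card : ℝ) -
        ((Nat.card H : ℝ) * N / d) * ∏ p ∈ T, gd d p) =
      ∑ T ∈ TT z K, v T * (((cls N T (cosetSet H g)).card : ℝ) -
        ((Nat.card H : ℝ) * N / d) * ∏ p ∈ T, gd d p) := by
    unfold TT
    symm
    apply Finset.sum_filter_of_ne
    intro T hT hne
    rw [mem_powerset] at hT
    exact hsup T hT (fun h => hne (by rw [h, zero_mul]))
  rw [e2]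
  have hBB : 0 ≤ 1 + BB d := (abs_nonneg _).trans (G3_count d N H g (z := z) (T := ∅) (empty_subset _))
  refine (Finset.abs_sum_le_sum_abs _ _).trans ?_
  refine (Finset.sum_le_sum (g := fun _ => 1 + BB d) ?_).trans ?_
  · intro T hT
    unfold TT at hT
    rw [mem_filter, mem_powerset] at hT
    rw [abs_mul]
    calc |v T| * _ ≤ 1 * (1 + BB d) :=
          mul_le_mul (hv T) (G3_count d N H g hT.1) (abs_nonneg _) zero_le_one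
      _ = 1 + BB d := one_mul _
  · rw [Finset.sum_const, nsmul_eq_mul]
    exact mul_le_mul_of_nonneg_right (card_TT z K) hBB

open Classical in
private theorem G3_bounds (hF : Fund τ K z u l) (d : ℕ) [NeZero d] (N : ℕ) (H : Subgroup (ZMod d)ˣ)
    (g : (ZMod d)ˣ) :
    (1 - τ) * (VV d z * ((Nat.card H : ℝ) * N / d)) - (z : ℝ) ^ K * (1 + BB d) ≤
      (((RC d z N).filter (fun a : ℕ => g⁻¹ * ucl d a ∈ H)).card : ℝ) ∧
    (((RC d z N).filter (fun a : ℕ => g⁻¹ * ucl d a ∈ H)).card : ℝ) ≤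
      (1 + τ) * (VV d z * ((Nat.card H : ℝ) * N / d)) + (z : ℝ) ^ K * (1 + BB d) := by
  have hR : (RC d z N).filter (fun a : ℕ => g⁻¹ * ucl d a ∈ H) =
      (cls N ∅ (cosetSet H g)).filter (fun n : ℕ => ∀ p ∈ PP z, ¬ p ∣ n) := by
    ext n
    unfold RC cls
    rw [mem_filter, mem_filter, mem_filter, mem_filter, mem_Icc]
    constructor
    · rintro ⟨⟨h1, h2, h3⟩, h4⟩
      exact ⟨⟨h1, by simp, (G3_mem h3).mpr h4⟩, (G3_rough (by omega)).2 h2⟩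
    · rintro ⟨⟨h1, _, h2⟩, h3⟩
      have h4 := G3_cop h2
      exact ⟨⟨h1, (G3_rough (by omega)).1 h3, h4⟩, (G3_mem h4).mp h2⟩
  have hcard : (((RC d z N).filter (fun a : ℕ => g⁻¹ * ucl d a ∈ H)).card : ℝ) =
      ∑ n ∈ cls N ∅ (cosetSet H g), (if ∀ p ∈ PP z, ¬ p ∣ n then (1 : ℝ) else 0) := by
    rw [hR, Finset.card_filter]
    push_cast
    rfl
  have h3 : (0 : ℝ) ≤ (Nat.card H : ℝ) * N / d := by positivity
  rw [hcard]
  constructor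
  · have h1 := G3_main d N H g z K l hF.l_abs hF.l_sup
    have h4 := mul_le_mul_of_nonneg_left (hF.l_sum (gd d) (adm_gd d z)) h3
    have h5 := (abs_le.1 h1).1
    have h6 : (Nat.card H : ℝ) * N / d * ((1 - τ) * ∏ p ∈ PP z, (1 - gd d p)) =
        (1 - τ) * (VV d z * ((Nat.card H : ℝ) * N / d)) := by
      unfold VV
      ring
    rw [h6] at h4
    have h7 := Finset.sum_le_sum fun n (_ : n ∈ cls N ∅ (cosetSet H g)) => hF.l_pt n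
    linarith
  · have h1 := G3_main d N H g z K u hF.u_abs hF.u_sup
    have h4 := mul_le_mul_of_nonneg_left (hF.u_sum (gd d) (adm_gd d z)) h3
    have h5 := (abs_le.1 h1).2
    have h6 : (Nat.card H : ℝ) * N / d * ((1 + τ) * ∏ p ∈ PP z, (1 - gd d p)) =
        (1 + τ) * (VV d z * ((Nat.card H : ℝ) * N / d)) := by
      unfold VV
      ring
    rw [h6] at h4
    have h7 := Finset.sum_le_sum fun n (_ : n ∈ cls N ∅ (cosetSet H g)) => hF.u_pt n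
    linarith

private theorem G3_c (K : ℕ) (η c : ℝ) (hη : 0 < η) (hc : c * (16 * (3 * K + 4)) = η) : c ≤ η / 2 := by
  have hK0 : (0:ℝ) ≤ K := Nat.cast_nonneg K
  have hden : (0:ℝ) < 16 * (3 * K + 4) := by positivity
  have hc0 : 0 < c := by
    by_contra hcon
    push Not at hcon
    have : c * (16 * (3 * K + 4)) ≤ 0 := mul_nonpos_of_nonpos_of_nonneg hcon hden.le
    linarith
  have h1 : 0 ≤ c * K := mul_nonneg hc0.le hK0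
  have h2 : 48 * (c * K) + 64 * c = η := by rw [← hc]; ring
  linarith

private theorem G3_large (a : ℝ) (ha : 0 < a) (b : ℝ) (hb : 0 < b) :
    ∃ d0 : ℕ, ∀ d : ℕ, d0 ≤ d → (d : ℝ) ^ (-b) ≤ a := by
  have h1 : Filter.Tendsto (fun d : ℕ => (d : ℝ) ^ (-b)) Filter.atTop (nhds 0) :=
    (tendsto_rpow_neg_atTop hb).comp tendsto_natCast_atTop_atTop
  have h2 := h1.eventually (gt_mem_nhds ha)
  obtain ⟨d0, hd0⟩ := Filter.eventually_atTop.mp h2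
  exact ⟨d0, fun d hd => (hd0 d hd).le⟩

private theorem G3_final (τ δ : ℝ) (hτ : 0 < τ) (hτ1 : τ ≤ 1 / 10) (hδ : 0 < δ) (hδ1 : δ ≤ 1)
    (ξ W r r' e : ℝ) (hξ : δ / 2 ≤ ξ) (hW0 : 0 ≤ W) (he : e ≤ τ * δ / 2 / 20 * W)
    (hT1 : (1 - τ) * W - e ≤ r ∧ r ≤ (1 + τ) * W + e)
    (hH1 : (1 - τ) * (ξ * W) - e ≤ r' ∧ r' ≤ (1 + τ) * (ξ * W) + e) (t : ℝ) (ht : t ≤ r * (7 * δ / 20)) :
    (1 - 3 * τ) * ξ * r ≤ r' ∧ r' ≤ (1 + 3 * τ) * ξ * r ∧ t ≤ r' := by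
  obtain ⟨hT1, hT2⟩ := hT1
  obtain ⟨hH1, hH2⟩ := hH1
  have hξ0 : 0 < ξ := by linarith
  have hξW : 0 ≤ ξ * W := mul_nonneg hξ0.le hW0
  have e1 : e ≤ τ / 20 * (ξ * W) := by
    have h1 : δ / 2 * W ≤ ξ * W := mul_le_mul_of_nonneg_right hξ hW0
    have h2 := mul_le_mul_of_nonneg_left h1 (by positivity : (0:ℝ) ≤ τ / 20)
    linarith
  have e2 : e ≤ τ / 20 * W := by
    have h1 : δ / 2 * W ≤ 1 * W := mul_le_mul_of_nonneg_right (by linarith) hW0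
    have h2 := mul_le_mul_of_nonneg_left h1 (by positivity : (0:ℝ) ≤ τ / 20)
    linarith
  have hr1 : (1 - 21 * τ / 20) * W ≤ r := by linarith
  have hr2 : r ≤ (1 + 21 * τ / 20) * W := by linarith
  have hr3 : (1 - 21 * τ / 20) * (ξ * W) ≤ r' := by linarith
  have hr4 : r' ≤ (1 + 21 * τ / 20) * (ξ * W) := by linarith
  have hr0 : 0 ≤ r := le_trans (mul_nonneg (by linarith) hW0) hr1
  have hτξ : 0 ≤ τ * (ξ * W) := mul_nonneg hτ.le hξW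
  have hττ : τ * (τ * (ξ * W)) ≤ 1 / 10 * (τ * (ξ * W)) := mul_le_mul_of_nonneg_right hτ1 hτξ
  have hττ0 : 0 ≤ τ * (τ * (ξ * W)) := mul_nonneg hτ.le hτξ
  have hA : (1 - 3 * τ) * ξ * r ≤ r' := by
    have h1 : (1 - 3 * τ) * ξ * r ≤ (1 - 3 * τ) * ξ * ((1 + 21 * τ / 20) * W) :=
      mul_le_mul_of_nonneg_left hr2 (mul_nonneg (by linarith) hξ0.le)
    refine h1.trans (le_trans ?_ hr3)
    have h2 : (1 - 3 * τ) * ξ * ((1 + 21 * τ / 20) * W) =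
        ξ * W - 39 / 20 * (τ * (ξ * W)) - 63 / 20 * (τ * (τ * (ξ * W))) := by ring
    have h3 : (1 - 21 * τ / 20) * (ξ * W) = ξ * W - 21 / 20 * (τ * (ξ * W)) := by ring
    rw [h2, h3]
    linarith
  refine ⟨hA, ?_, ?_⟩
  · have h1 : (1 + 3 * τ) * ξ * ((1 - 21 * τ / 20) * W) ≤ (1 + 3 * τ) * ξ * r :=
      mul_le_mul_of_nonneg_left hr1 (mul_nonneg (by linarith) hξ0.le)
    refine le_trans (hr4.trans ?_) h1
    have h2 : (1 + 3 * τ) * ξ * ((1 - 21 * τ / 20) * W) =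
        ξ * W + 39 / 20 * (τ * (ξ * W)) - 63 / 20 * (τ * (τ * (ξ * W))) := by ring
    have h3 : (1 + 21 * τ / 20) * (ξ * W) = ξ * W + 21 / 20 * (τ * (ξ * W)) := by ring
    rw [h2, h3]
    linarith
  · refine ht.trans (le_trans ?_ hA)
    have h1 : 7 * δ / 20 ≤ (1 - 3 * τ) * ξ := by
      have h2 : 7 / 10 * (δ / 2) ≤ (1 - 3 * τ) * ξ :=
        mul_le_mul (by linarith) hξ (by positivity) (by linarith)
      linarith
    calc r * (7 * δ / 20) ≤ r * ((1 - 3 * τ) * ξ) := mul_le_mul_of_nonneg_left h1 hr0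
      _ = _ := by ring

open Classical in
theorem coset_equi (τ δ : ℝ) (hτ : 0 < τ) (hτ1 : τ ≤ 1 / 10) (hδ : 0 < δ) (hδ1 : δ ≤ 1) (K : ℕ)
    (hF : ∀ z : ℕ, 2 ≤ z → ∃ u l : Finset ℕ → ℝ, Fund τ K z u l) (η c : ℝ) (hη : 0 < η) (hη1 : η ≤ 1 / 1024)
    (hc : c * (16 * (3 * K + 4)) = η) :
    ∃ d0 : ℕ, ∀ d : ℕ, d0 ≤ d → ∀ [NeZero d], ∀ H : Subgroup (ZMod d)ˣ,
      δ / 2 * (Fintype.card (ZMod d)ˣ : ℝ) ≤ (Nat.card H : ℝ) → ∀ g : (ZMod d)ˣ,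
      (1 - 3 * τ) * ((Nat.card H : ℝ) / (Fintype.card (ZMod d)ˣ : ℝ)) *
          ((RC d ⌊(d : ℝ) ^ c⌋₊ ⌊(d : ℝ) ^ (1 / 2 + 256 * η)⌋₊).card : ℝ) ≤
        (((RC d ⌊(d : ℝ) ^ c⌋₊ ⌊(d : ℝ) ^ (1 / 2 + 256 * η)⌋₊).filter (fun a : ℕ => g⁻¹ * ucl d a ∈ H)).card : ℝ) ∧
      (((RC d ⌊(d : ℝ) ^ c⌋₊ ⌊(d : ℝ) ^ (1 / 2 + 256 * η)⌋₊).filter (fun a : ℕ => g⁻¹ * ucl d a ∈ H)).card : ℝ) ≤
        (1 + 3 * τ) * ((Nat.card H : ℝ) / (Fintype.card (ZMod d)ˣ : ℝ)) *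
          ((RC d ⌊(d : ℝ) ^ c⌋₊ ⌊(d : ℝ) ^ (1 / 2 + 256 * η)⌋₊).card : ℝ) ∧
      (⌊(d : ℝ) ^ (1 / 2 + 256 * η)⌋₊ : ℝ) * (d : ℝ) ^ (-(64 * η)) ≤
        (((RC d ⌊(d : ℝ) ^ c⌋₊ ⌊(d : ℝ) ^ (1 / 2 + 256 * η)⌋₊).filter (fun a : ℕ => g⁻¹ * ucl d a ∈ H)).card : ℝ) := by
  obtain ⟨d1, hd1⟩ := num_E1 K η c hη hc
  obtain ⟨d2, hd2⟩ := num_bessel (τ * δ / 2) (by positivity) K η c hη hη1 hc
  obtain ⟨d3, hd3⟩ := RC_lower η hη (by linarith)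
  obtain ⟨d4, hd4⟩ := G3_large (7 * δ / 20) (by positivity) (62 * η) (by positivity)
  refine ⟨max (max d1 d2) (max d3 (max d4 1)), fun d hd _ H hH g => ?_⟩
  have hda : d1 ≤ d := (le_max_left _ _).trans ((le_max_left _ _).trans hd)
  have hdb : d2 ≤ d := (le_max_right _ _).trans ((le_max_left _ _).trans hd)
  have hdc : d3 ≤ d := (le_max_left _ _).trans ((le_max_right _ _).trans hd)
  have hdd : d4 ≤ d := (le_max_left _ _).trans ((le_max_right _ _).trans ((le_max_right _ _).trans hd))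
  have hde : 1 ≤ d := (le_max_right _ _).trans ((le_max_right _ _).trans ((le_max_right _ _).trans hd))
  have hx1 : (1 : ℝ) ≤ d := by exact_mod_cast hde
  have hx0 : (0 : ℝ) < d := by linarith
  have hz := (hd1 d hda).1
  have hb := hd2 d hdb
  have hN1 : 1 ≤ ⌊(d : ℝ) ^ (1 / 2 + 256 * η)⌋₊ := by
    refine Nat.le_floor ?_
    rw [Nat.cast_one]
    exact Real.one_le_rpow hx1 (by positivity)
  have hzη : (⌊(d : ℝ) ^ c⌋₊ : ℝ) ≤ (d : ℝ) ^ (η / 2) :=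
    (Nat.floor_le (by positivity)).trans (Real.rpow_le_rpow_of_exponent_le hx1 (G3_c K η c hη hc))
  have hN2 : (⌊(d : ℝ) ^ (1 / 2 + 256 * η)⌋₊ : ℝ) ≤ (d : ℝ) ^ (2 : ℝ) :=
    (Nat.floor_le (by positivity)).trans (Real.rpow_le_rpow_of_exponent_le hx1 (by linarith))
  have hlow := hd3 d hdc _ hzη _ hN1 hN2
  obtain ⟨z, hzd⟩ : ∃ z : ℕ, ⌊(d : ℝ) ^ c⌋₊ = z := ⟨_, rfl⟩
  obtain ⟨N, hNe⟩ : ∃ N : ℕ, ⌊(d : ℝ) ^ (1 / 2 + 256 * η)⌋₊ = N := ⟨_, rfl⟩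
  rw [hzd] at hz hb hlow ⊢
  rw [hNe] at hb hlow ⊢
  obtain ⟨u, l, hul⟩ := hF z hz
  have hBB0 : 0 ≤ BB d := by
    unfold BB
    have := Real.log_natCast_nonneg d
    positivity
  have hV := VV_pos d z
  have hH1 := G3_bounds hul d N H g
  have hT1 := G3_bounds hul d N ⊤ 1
  have hTop : (RC d z N).filter (fun a : ℕ => (1 : (ZMod d)ˣ)⁻¹ * ucl d a ∈ (⊤ : Subgroup (ZMod d)ˣ)) =
      RC d z N := Finset.filter_true_of_mem fun a _ => Subgroup.mem_top _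
  have hTcard : (Nat.card (⊤ : Subgroup (ZMod d)ˣ) : ℝ) = (Fintype.card (ZMod d)ˣ : ℝ) := by
    rw [Subgroup.card_top, Nat.card_eq_fintype_card]
  rw [hTop, hTcard] at hT1
  have hφ0 : (0 : ℝ) < (Fintype.card (ZMod d)ˣ : ℝ) := by exact_mod_cast Fintype.card_pos
  obtain ⟨φ, hφ⟩ : ∃ φ : ℝ, (Fintype.card (ZMod d)ˣ : ℝ) = φ := ⟨_, rfl⟩
  obtain ⟨hh, hhh⟩ : ∃ hh : ℝ, (Nat.card H : ℝ) = hh := ⟨_, rfl⟩
  obtain ⟨W, hW⟩ : ∃ W : ℝ, VV d z * (φ * (N : ℝ) / d) = W := ⟨_, rfl⟩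
  obtain ⟨r, hr⟩ : ∃ r : ℝ, ((RC d z N).card : ℝ) = r := ⟨_, rfl⟩
  obtain ⟨r', hr'⟩ : ∃ r' : ℝ,
    (((RC d z N).filter (fun a : ℕ => g⁻¹ * ucl d a ∈ H)).card : ℝ) = r' := ⟨_, rfl⟩
  rw [hφ] at hb hT1 hH hφ0 ⊢
  rw [hhh] at hH hH1 ⊢
  rw [hr] at hT1 hlow ⊢
  rw [hr'] at hH1 ⊢
  rw [hW] at hb hT1
  have hW0 : 0 ≤ W := by
    rw [← hW]
    positivity
  have hW1 : VV d z * (hh * (N : ℝ) / d) = hh / φ * W := by
    rw [← hW]
    field_simp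
  rw [hW1] at hH1
  have hhφ : hh / φ ≤ 1 := by
    rw [div_le_one hφ0, ← hhh, ← hφ, ← Nat.card_eq_fintype_card]
    exact_mod_cast Subgroup.card_le_card_group H
  have hξ : δ / 2 ≤ hh / φ := by
    rw [le_div_iff₀ hφ0]
    exact hH
  obtain ⟨ξ, hξe⟩ : ∃ ξ : ℝ, hh / φ = ξ := ⟨_, rfl⟩
  rw [hξe] at hH1 hhφ hξ ⊢
  obtain ⟨e, he⟩ : ∃ e : ℝ, (z : ℝ) ^ K * (1 + BB d) = e := ⟨_, rfl⟩
  rw [he] at hb hT1 hH1
  have he0 : 0 ≤ (d : ℝ) ^ η * ((z : ℝ) ^ K * BB d) := by positivity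
  have hd64 : (d : ℝ) ^ (-(64 * η)) = (d : ℝ) ^ (-(2 * η)) * (d : ℝ) ^ (-(62 * η)) := by
    rw [← Real.rpow_add hx0]
    congr 1
    ring
  refine G3_final τ δ hτ hτ1 hδ hδ1 ξ W r r' e hξ hW0 (by linarith) hT1 hH1 _ ?_
  rw [hd64]
  have h6 := hd4 d hdd
  have h7 : (0 : ℝ) ≤ (N : ℝ) * (d : ℝ) ^ (-(2 * η)) := by positivity
  calc (N : ℝ) * ((d : ℝ) ^ (-(2 * η)) * (d : ℝ) ^ (-(62 * η))) =
        ((N : ℝ) * (d : ℝ) ^ (-(2 * η))) * (d : ℝ) ^ (-(62 * η)) := by ring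
    _ ≤ ((N : ℝ) * (d : ℝ) ^ (-(2 * η))) * (7 * δ / 20) := mul_le_mul_of_nonneg_left h6 h7
    _ ≤ r * (7 * δ / 20) := mul_le_mul_of_nonneg_right hlow (by positivity)

end Pool.Agent.Lib.MP_42948a_nt.TQ
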