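import Pool.Agent.Lib.MP_42948a_nt.TQ.Defs
import Pool.Agent.Lib.MP_42948a_nt.AC.Z2b

/-!
# The truncated `L`-value at the short length (job E7)

Let `χ = chi ψ`, `X = ⌊d^(1+2η)⌋`, `N = ⌊d^(1/2+256η)⌋`. As in the proof of `many_split` (`AC/Z2b.lean`): `M = 2 BB d` bounds the partial sums
(`chi_sum`), `E = d^(1/2+η/4)`, `num_E3` (with `K = 0`, `c = η/64`: `c * (16 * (3 * 0 + 4)) = η`), `Sw_bound` and `LL_lower` give `0 < LL χ X`,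
and `LL_siegel` gives `d^(-η) ≤ LL χ X` (`d^(1+2η)/2 ≤ X`). Since `256 η ≤ 1/4`, `N ≤ X` and `LL χ X = LL χ N + ∑_{a ∈ Ioc N X} χ a / a`;
`abel_tail`: `|∑_{Ioc N X}| ≤ 2 M/(N+1) ≤ 4 BB d / d^(1/2+256η) ≤ 4 d^(1/2+η) / d^(1/2+256η) ≤ d^(-η)/2` for large `d`
(`BB_le`, `N + 1 ≥ d^(1/2+256η)`).
-/

namespace Pool.Agent.Lib.MP_42948a_nt.TQ

open Finset Pool.Agent.Lib.MP_42948a_nt.OA Pool.Agent.Lib.MP_42948a_nt.AC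

theorem LL_short (η : ℝ) (hη : 0 < η) (hη1 : η ≤ 1 / 1024) :
    ∃ d0 : ℕ, ∀ d : ℕ, d0 ≤ d → ∀ ψ : (ZMod d)ˣ →* ℤˣ, ψ ≠ 1 →
      (d : ℝ) ^ (-η) / 2 ≤ LL (chi ψ) ⌊(d : ℝ) ^ (1 / 2 + 256 * η)⌋₊ := by
  obtain ⟨d2, h2⟩ := num_E3 0 η (η / 64) hη (by push_cast; ring)
  obtain ⟨d3, h3⟩ := LL_siegel η hη
  obtain ⟨d4, h4⟩ := BB_le η hη
  have e5 : ∀ᶠ d : ℕ in Filter.atTop, (8 : ℝ) ≤ (d : ℝ) ^ (254 * η) :=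
    ((tendsto_rpow_atTop (by positivity : (0 : ℝ) < 254 * η)).comp
      tendsto_natCast_atTop_atTop).eventually_ge_atTop _
  obtain ⟨d5, h5⟩ := Filter.eventually_atTop.1 e5
  refine ⟨d2 + d3 + d4 + d5 + 2, fun d hd ψ hψ => ?_⟩
  have hne : NeZero d := ⟨by omega⟩
  have hdr : (1 : ℝ) ≤ (d : ℝ) := by
    have h : 1 ≤ d := by omega
    exact_mod_cast h
  have hd0 : (0 : ℝ) < (d : ℝ) := by linarith
  obtain ⟨e1, e2, e3, _⟩ := h2 d (by omega)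
  have hχ := chi_real d ψ
  have hM := chi_sum d ψ hψ
  have hx1 : (1 : ℝ) ≤ (d : ℝ) ^ (1 + 2 * η) := Real.one_le_rpow hdr (by linarith)
  have hX1 : 1 ≤ ⌊(d : ℝ) ^ (1 + 2 * η)⌋₊ := by
    rw [Nat.one_le_floor_iff]
    exact hx1
  have hXr : (1 : ℝ) ≤ (⌊(d : ℝ) ^ (1 + 2 * η)⌋₊ : ℝ) := by exact_mod_cast hX1
  have hXhalf : (d : ℝ) ^ (1 + 2 * η) / 2 ≤ (⌊(d : ℝ) ^ (1 + 2 * η)⌋₊ : ℝ) := by
    have h5 := Nat.lt_floor_add_one ((d : ℝ) ^ (1 + 2 * η))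
    linarith
  have hbase : ∀ t : ℝ, 0 < t → t ≤ (⌊(d : ℝ) ^ (1 + 2 * η)⌋₊ : ℝ) →
      |SwT (chi ψ) ⌊(d : ℝ) ^ (1 + 2 * η)⌋₊ ∅ t - t / 2 * LL (chi ψ) ⌊(d : ℝ) ^ (1 + 2 * η)⌋₊| ≤
        (d : ℝ) ^ (1 / 2 + η / 4) := by
    intro t ht htN
    exact (Sw_bound (chi ψ) (2 * BB d) hM _ hX1 t ht htN).trans e1
  have hLL := LL_lower (chi ψ) hχ.mul hχ.one hχ.val ⌊(d : ℝ) ^ (1 + 2 * η)⌋₊ ((d : ℝ) ^ (1 / 2 + η / 4)) e2 e3 hbase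
  have hE0 : (0 : ℝ) < (d : ℝ) ^ (1 / 2 + η / 4) := by linarith
  have hLL0 : 0 ≤ LL (chi ψ) ⌊(d : ℝ) ^ (1 + 2 * η)⌋₊ := le_trans (by positivity) hLL
  have hsieg := h3 d (by omega) ψ hψ ⌊(d : ℝ) ^ (1 + 2 * η)⌋₊ hXhalf hLL0
  have hNX : ⌊(d : ℝ) ^ (1 / 2 + 256 * η)⌋₊ ≤ ⌊(d : ℝ) ^ (1 + 2 * η)⌋₊ :=
    Nat.floor_le_floor (Real.rpow_le_rpow_of_exponent_le hdr (by linarith))
  have hN1 : (d : ℝ) ^ (1 / 2 + 256 * η) ≤ (⌊(d : ℝ) ^ (1 / 2 + 256 * η)⌋₊ : ℝ) + 1 :=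
    (Nat.lt_floor_add_one _).le
  set X := ⌊(d : ℝ) ^ (1 + 2 * η)⌋₊ with hX
  set N := ⌊(d : ℝ) ^ (1 / 2 + 256 * η)⌋₊ with hN
  have hsplit : LL (chi ψ) X = LL (chi ψ) N + ∑ a ∈ Ioc N X, chi ψ a / a := by
    unfold LL
    have hU : Icc 1 X = Icc 1 N ∪ Ioc N X := by
      ext a
      simp only [mem_union, mem_Icc, mem_Ioc]
      omega
    have hdis : Disjoint (Icc 1 N) (Ioc N X) := by
      rw [Finset.disjoint_left]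
      intro a ha hb
      have h6 := (mem_Icc.1 ha).2
      have h7 := (mem_Ioc.1 hb).1
      omega
    rw [hU, sum_union hdis]
  have htail := abel_tail (chi ψ) (2 * BB d) hM N X
  have hBB := (h4 d (by omega)).1
  have h8 := h5 d (by omega)
  have hpos : (0 : ℝ) < (d : ℝ) ^ (1 / 2 + 256 * η) := by positivity
  have hbound : 2 * (2 * BB d) / ((N : ℝ) + 1) ≤ (d : ℝ) ^ (-η) / 2 := by
    rw [div_le_iff₀ (by positivity)]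
    have h9 : (d : ℝ) ^ (-η) / 2 * (d : ℝ) ^ (1 / 2 + 256 * η) ≤ (d : ℝ) ^ (-η) / 2 * ((N : ℝ) + 1) :=
      mul_le_mul_of_nonneg_left hN1 (by positivity)
    have h10 : (d : ℝ) ^ (-η) * (d : ℝ) ^ (1 / 2 + 256 * η) = (d : ℝ) ^ (1 / 2 + η) * (d : ℝ) ^ (254 * η) := by
      rw [← Real.rpow_add hd0, ← Real.rpow_add hd0]
      congr 1
      ring
    have h11 : (d : ℝ) ^ (1 / 2 + η) * 8 ≤ (d : ℝ) ^ (1 / 2 + η) * (d : ℝ) ^ (254 * η) :=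
      mul_le_mul_of_nonneg_left h8 (by positivity)
    linarith
  have h12 := (abs_le.1 (htail.trans hbound)).2
  linarith

end Pool.Agent.Lib.MP_42948a_nt.TQ
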