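import Pool.Agent.Lib.MP_42948a_nt.TQ.Defs
import Pool.Agent.Lib.MP_42948a_nt.AC.Z2n

/-!
# Numerics for the contradiction at the short length (job E8)

`x = d`. `z = ⌊d^c⌋ ≤ d^c`, `N = ⌊d^(1/2+256η)⌋`, `d^(1/2+256η)/2 ≤ N ≤ d^(1/2+256η)`. Right side: `≥ d^(1/2+256η-η-2c)/64` and `2 c ≤ η/32`
(`c (3K+4) = η/16`, so `c ≤ η/64`, `3 K c ≤ η/16`). Left side: `τ(d) √N ≤ d^η d^(1/4+128η) ≤ d^(1/2+129η)` (`BB_le`);
`T d^(-32η) N (log2 N + 1) ≤ T d^(1/2+224η) (2 log d / log 2 + 2)`;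
`z^(3K) * (2 BB d * (2 + log N) + 1) ≤ d^(η/16) * d^(1/2+η)` (`BB_le`, logarithms). Each is `< d^(1/2+254η)/192` for large `d`
(`isLittleO_log_rpow_atTop`; see `num_contra` in `AC/Z2n.lean`).
-/

namespace Pool.Agent.Lib.MP_42948a_nt.TQ

open Finset Pool.Agent.Lib.MP_42948a_nt.OA Pool.Agent.Lib.MP_42948a_nt.AC

theorem num_contra2 (K : ℕ) (η c : ℝ) (hη : 0 < η) (hη1 : η ≤ 1 / 1024) (hc : c * (16 * (3 * K + 4)) = η) (T : ℕ) :
    ∃ d0 : ℕ, ∀ d : ℕ, d0 ≤ d →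
      (d.divisors.card : ℝ) * √(⌊(d : ℝ) ^ (1 / 2 + 256 * η)⌋₊ : ℝ) +
          T * ((d : ℝ) ^ (-(32 * η)) * (⌊(d : ℝ) ^ (1 / 2 + 256 * η)⌋₊ : ℝ) * (Nat.log 2 ⌊(d : ℝ) ^ (1 / 2 + 256 * η)⌋₊ + 1)) +
          (⌊(d : ℝ) ^ c⌋₊ : ℝ) ^ (3 * K) *
            (2 * BB d * (2 + Real.log (⌊(d : ℝ) ^ (1 / 2 + 256 * η)⌋₊ : ℝ)) + 1) <
        (⌊(d : ℝ) ^ (1 / 2 + 256 * η)⌋₊ : ℝ) * ((d : ℝ) ^ (-η) / 2) / (8 * (⌊(d : ℝ) ^ c⌋₊ : ℝ) ^ 2) := by
  have hK0 : (0 : ℝ) ≤ K := Nat.cast_nonneg K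
  have hc0 : 0 < c := by
    by_contra h
    have h1 : c * (16 * (3 * K + 4)) ≤ 0 :=
      mul_nonpos_of_nonpos_of_nonneg (not_lt.mp h) (by positivity)
    linarith
  have hcK : 0 ≤ c * K := mul_nonneg hc0.le hK0
  have hc1 : c * (3 * K) ≤ η / 16 := by nlinarith
  have hc2 : 2 * c ≤ η / 32 := by nlinarith
  obtain ⟨d1, hd1⟩ := BB_le (η / 16) (by positivity)
  have e1 : ∀ᶠ x : ℝ in Filter.atTop, 96 < x ^ (1 / 4 : ℝ) :=
    (tendsto_rpow_atTop (by norm_num)).eventually_gt_atTop _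
  have e2 : ∀ᶠ x : ℝ in Filter.atTop, 288 * (T : ℝ) + 672 < x ^ η :=
    (tendsto_rpow_atTop hη).eventually_gt_atTop _
  have e3 : ∀ᶠ x : ℝ in Filter.atTop, ‖Real.log x‖ ≤ 1 * ‖x ^ η‖ :=
    (isLittleO_log_rpow_atTop hη).bound one_pos
  have e4 : ∀ᶠ x : ℝ in Filter.atTop, 4 ≤ x := Filter.eventually_ge_atTop 4
  have e5 : ∀ᶠ d : ℕ in Filter.atTop, d1 ≤ d ∧ 96 < (d : ℝ) ^ (1 / 4 : ℝ) ∧
      288 * (T : ℝ) + 672 < (d : ℝ) ^ η ∧ ‖Real.log (d : ℝ)‖ ≤ 1 * ‖(d : ℝ) ^ η‖ ∧ (4 : ℝ) ≤ d := by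
    have ht := tendsto_natCast_atTop_atTop (R := ℝ)
    filter_upwards [Filter.eventually_ge_atTop d1, ht.eventually e1, ht.eventually e2,
      ht.eventually e3, ht.eventually e4] with d a1 a2 a3 a4 a5
    exact ⟨a1, a2, a3, a4, a5⟩
  obtain ⟨d0, hd0⟩ := Filter.eventually_atTop.mp e5
  refine ⟨d0, fun d hd => ?_⟩
  obtain ⟨hdd1, h96, h288, hlog, h4⟩ := hd0 d hd
  obtain ⟨hBB, htau⟩ := hd1 d hdd1
  set x : ℝ := (d : ℝ) with hx
  have hT0 : (0 : ℝ) ≤ T := Nat.cast_nonneg T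
  have hx0 : 0 < x := by linarith
  have hx1 : 1 ≤ x := by linarith
  have hxη : 1 ≤ x ^ η := Real.one_le_rpow hx1 hη.le
  have hlog' : Real.log x ≤ x ^ η := by
    rw [one_mul, Real.norm_eq_abs, Real.norm_eq_abs, abs_of_nonneg (by positivity : 0 ≤ x ^ η)] at hlog
    exact (le_abs_self _).trans hlog
  have hbig : 2 ≤ x ^ (1 / 2 + 256 * η) := by
    calc (2 : ℝ) = (4 : ℝ) ^ (1 / 2 : ℝ) := by
          rw [← Real.sqrt_eq_rpow, show (4 : ℝ) = 2 ^ 2 by norm_num, Real.sqrt_sq (by norm_num)]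
      _ ≤ x ^ (1 / 2 : ℝ) := Real.rpow_le_rpow (by norm_num) h4 (by norm_num)
      _ ≤ x ^ (1 / 2 + 256 * η) := Real.rpow_le_rpow_of_exponent_le hx1 (by linarith)
  have hN1 : (⌊x ^ (1 / 2 + 256 * η)⌋₊ : ℝ) ≤ x ^ (1 / 2 + 256 * η) := Nat.floor_le (by positivity)
  have hN2 : x ^ (1 / 2 + 256 * η) / 2 ≤ (⌊x ^ (1 / 2 + 256 * η)⌋₊ : ℝ) := by
    have h3 := Nat.lt_floor_add_one (x ^ (1 / 2 + 256 * η))
    linarith
  have hNpos : (0 : ℝ) < (⌊x ^ (1 / 2 + 256 * η)⌋₊ : ℝ) := by linarith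
  have hz1 : (⌊x ^ c⌋₊ : ℝ) ≤ x ^ c := Nat.floor_le (by positivity)
  have hz2 : (1 : ℝ) ≤ (⌊x ^ c⌋₊ : ℝ) := by
    have h3 : (1 : ℕ) ≤ ⌊x ^ c⌋₊ := by
      refine Nat.le_floor ?_
      rw [Nat.cast_one]
      exact Real.one_le_rpow hx1 hc0.le
    exact_mod_cast h3
  have hNx : (⌊x ^ (1 / 2 + 256 * η)⌋₊ : ℝ) ≤ x := by
    refine hN1.trans ?_
    calc x ^ (1 / 2 + 256 * η) ≤ x ^ (1 : ℝ) := Real.rpow_le_rpow_of_exponent_le hx1 (by linarith)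
      _ = x := Real.rpow_one x
  set N : ℝ := (⌊x ^ (1 / 2 + 256 * η)⌋₊ : ℝ) with hN
  set z : ℝ := (⌊x ^ c⌋₊ : ℝ) with hz
  have hz0 : 0 < z := by linarith
  have hlogN : Real.log N ≤ Real.log x := Real.log_le_log hNpos hNx
  have hlogx0 : 0 ≤ Real.log x := Real.log_nonneg hx1
  -- the right side
  have hR : x ^ (1 / 2 + 254 * η) / 32 ≤ N * (x ^ (-η) / 2) / (8 * z ^ 2) := by
    rw [div_le_div_iff₀ (by norm_num) (by positivity)]
    have h3 : z ^ 2 ≤ x ^ (2 * c) := by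
      calc z ^ 2 ≤ (x ^ c) ^ 2 := pow_le_pow_left₀ hz0.le hz1 2
        _ = x ^ (2 * c) := by rw [← Real.rpow_natCast, ← Real.rpow_mul hx0.le]; congr 1; push_cast; ring
    have h4 : x ^ (1 / 2 + 254 * η) * x ^ (2 * c) ≤ x ^ (1 / 2 + 255 * η) := by
      rw [← Real.rpow_add hx0]
      exact Real.rpow_le_rpow_of_exponent_le hx1 (by linarith)
    have h5 : x ^ (1 / 2 + 255 * η) = x ^ (1 / 2 + 256 * η) * x ^ (-η) := by
      rw [← Real.rpow_add hx0]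
      congr 1
      ring
    have hE : 0 < x ^ (1 / 2 + 254 * η) := by positivity
    have hM : 0 < x ^ (-η) := by positivity
    calc x ^ (1 / 2 + 254 * η) * (8 * z ^ 2) ≤ x ^ (1 / 2 + 254 * η) * (8 * x ^ (2 * c)) := by
          gcongr
      _ = 8 * (x ^ (1 / 2 + 254 * η) * x ^ (2 * c)) := by ring
      _ ≤ 8 * x ^ (1 / 2 + 255 * η) := by gcongr
      _ = (x ^ (1 / 2 + 256 * η) / 2) * (x ^ (-η) / 2) * 32 := by rw [h5]; ring
      _ ≤ N * (x ^ (-η) / 2) * 32 := by gcongr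
  -- first term
  have hT1 : (d.divisors.card : ℝ) * √N < x ^ (1 / 2 + 254 * η) / 96 := by
    have h3 : √N ≤ x ^ (1 / 4 + 128 * η) := by
      calc √N ≤ √(x ^ (1 / 2 + 256 * η)) := Real.sqrt_le_sqrt hN1
        _ = x ^ (1 / 4 + 128 * η) := by
          rw [Real.sqrt_eq_rpow, ← Real.rpow_mul hx0.le]
          congr 1
          ring
    have h4 : (d.divisors.card : ℝ) * √N ≤ x ^ (η / 16) * x ^ (1 / 4 + 128 * η) :=
      mul_le_mul htau h3 (Real.sqrt_nonneg _) (by positivity)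
    rw [← Real.rpow_add hx0] at h4
    have h5 : x ^ (η / 16 + (1 / 4 + 128 * η)) * 96 < x ^ (η / 16 + (1 / 4 + 128 * η)) * x ^ (1 / 4 : ℝ) :=
      mul_lt_mul_of_pos_left h96 (by positivity)
    rw [← Real.rpow_add hx0] at h5
    have h6 : x ^ (η / 16 + (1 / 4 + 128 * η) + 1 / 4) ≤ x ^ (1 / 2 + 254 * η) :=
      Real.rpow_le_rpow_of_exponent_le hx1 (by linarith)
    linarith
  -- second term
  have hT2 : (T : ℝ) * (x ^ (-(32 * η)) * N * (Nat.log 2 ⌊x ^ (1 / 2 + 256 * η)⌋₊ + 1)) ≤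
      x ^ (1 / 2 + 254 * η) / 96 := by
    have h3 : ((Nat.log 2 ⌊x ^ (1 / 2 + 256 * η)⌋₊ : ℕ) : ℝ) ≤ 2 * Real.log x := by
      have h4 := Real.natLog_le_logb ⌊x ^ (1 / 2 + 256 * η)⌋₊ 2
      have h5 : Real.logb (2 : ℕ) (⌊x ^ (1 / 2 + 256 * η)⌋₊ : ℝ) = Real.log N / Real.log 2 := by
        rw [Real.logb, Nat.cast_ofNat]
      rw [h5] at h4
      have h8 := Real.log_two_gt_d9
      have h9 : Real.log N / Real.log 2 ≤ 2 * Real.log x := by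
        rw [div_le_iff₀ (by linarith)]
        have h10 : 1 * Real.log x ≤ (2 * Real.log 2) * Real.log x := by
          apply mul_le_mul_of_nonneg_right _ hlogx0
          linarith
        linarith
      exact h4.trans h9
    have h4 : ((Nat.log 2 ⌊x ^ (1 / 2 + 256 * η)⌋₊ : ℕ) : ℝ) + 1 ≤ 3 * x ^ η := by linarith
    have h5 : x ^ (-(32 * η)) * N * (Nat.log 2 ⌊x ^ (1 / 2 + 256 * η)⌋₊ + 1) ≤
        x ^ (-(32 * η)) * x ^ (1 / 2 + 256 * η) * (3 * x ^ η) := by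
      gcongr
    have h6 : x ^ (-(32 * η)) * x ^ (1 / 2 + 256 * η) * (3 * x ^ η) = 3 * x ^ (1 / 2 + 225 * η) := by
      have h7 : x ^ (-(32 * η)) * x ^ (1 / 2 + 256 * η) * (3 * x ^ η) =
        3 * (x ^ (-(32 * η)) * x ^ (1 / 2 + 256 * η) * x ^ η) := by ring
      rw [h7, ← Real.rpow_add hx0, ← Real.rpow_add hx0]
      congr 2
      ring
    rw [h6] at h5
    have h7 : (T : ℝ) * (x ^ (-(32 * η)) * N * (Nat.log 2 ⌊x ^ (1 / 2 + 256 * η)⌋₊ + 1)) ≤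
        T * (3 * x ^ (1 / 2 + 225 * η)) := mul_le_mul_of_nonneg_left h5 hT0
    have h8 : 288 * (T : ℝ) * x ^ (1 / 2 + 225 * η) ≤ x ^ η * x ^ (1 / 2 + 225 * η) :=
      mul_le_mul_of_nonneg_right (by linarith) (by positivity)
    rw [← Real.rpow_add hx0] at h8
    have h9 : x ^ (η + (1 / 2 + 225 * η)) ≤ x ^ (1 / 2 + 254 * η) :=
      Real.rpow_le_rpow_of_exponent_le hx1 (by linarith)
    linarith
  -- third term
  have hT3 : z ^ (3 * K) * (2 * BB d * (2 + Real.log N) + 1) < x ^ (1 / 2 + 254 * η) / 96 := by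
    have h3 : z ^ (3 * K) ≤ x ^ (η / 16) := by
      calc z ^ (3 * K) ≤ (x ^ c) ^ (3 * K) := pow_le_pow_left₀ hz0.le hz1 _
        _ = x ^ (c * (3 * K)) := by
          rw [← Real.rpow_natCast, ← Real.rpow_mul hx0.le]
          congr 1
          push_cast
          ring
        _ ≤ x ^ (η / 16) := Real.rpow_le_rpow_of_exponent_le hx1 hc1
    have h4 : 2 + Real.log N ≤ 3 * x ^ η := by linarith
    have hlogN0 : 0 ≤ 2 + Real.log N := by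
      have : 0 ≤ Real.log N := Real.log_nonneg (by linarith)
      linarith
    have h5 : 2 * BB d * (2 + Real.log N) ≤ 2 * x ^ (1 / 2 + η / 16) * (3 * x ^ η) := by
      have h6 : 2 * BB d * (2 + Real.log N) ≤ 2 * x ^ (1 / 2 + η / 16) * (2 + Real.log N) :=
        mul_le_mul_of_nonneg_right (by linarith) hlogN0
      exact h6.trans (mul_le_mul_of_nonneg_left h4 (by positivity))
    have h6 : 2 * x ^ (1 / 2 + η / 16) * (3 * x ^ η) = 6 * x ^ (1 / 2 + η / 16 + η) := by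
      rw [show 2 * x ^ (1 / 2 + η / 16) * (3 * x ^ η) = 6 * (x ^ (1 / 2 + η / 16) * x ^ η) by ring,
        ← Real.rpow_add hx0]
    have h7 : 1 ≤ x ^ (1 / 2 + η / 16 + η) := Real.one_le_rpow hx1 (by linarith)
    have h8 : 2 * BB d * (2 + Real.log N) + 1 ≤ 7 * x ^ (1 / 2 + η / 16 + η) := by linarith
    have h9 : z ^ (3 * K) * (2 * BB d * (2 + Real.log N) + 1) ≤
        x ^ (η / 16) * (7 * x ^ (1 / 2 + η / 16 + η)) := by
      refine (mul_le_mul_of_nonneg_left h8 (by positivity)).trans ?_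
      exact mul_le_mul_of_nonneg_right h3 (by positivity)
    have h10 : x ^ (η / 16) * (7 * x ^ (1 / 2 + η / 16 + η)) = 7 * x ^ (η / 16 + (1 / 2 + η / 16 + η)) := by
      rw [show x ^ (η / 16) * (7 * x ^ (1 / 2 + η / 16 + η)) =
        7 * (x ^ (η / 16) * x ^ (1 / 2 + η / 16 + η)) by ring, ← Real.rpow_add hx0]
    have h11 : x ^ (η / 16 + (1 / 2 + η / 16 + η)) * 672 < x ^ (η / 16 + (1 / 2 + η / 16 + η)) * x ^ η :=
      mul_lt_mul_of_pos_left (by linarith) (by positivity)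
    rw [← Real.rpow_add hx0] at h11
    have h12 : x ^ (η / 16 + (1 / 2 + η / 16 + η) + η) ≤ x ^ (1 / 2 + 254 * η) :=
      Real.rpow_le_rpow_of_exponent_le hx1 (by linarith)
    linarith
  refine lt_of_lt_of_le ?_ hR
  linarith

end Pool.Agent.Lib.MP_42948a_nt.TQ
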