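import Pool.Agent.Lib.MP_42948a_nt.TQ.E6
import Pool.Agent.Lib.MP_42948a_nt.TQ.E7
import Pool.Agent.Lib.MP_42948a_nt.TQ.E8
import Pool.Agent.Lib.MP_42948a_nt.AC.F4

/-!
# The Liouville function is not a real character on rough numbers up to `d^(1/2+)` (job E9)

Let `z = ⌊d^c⌋`, `N = ⌊d^(1/2+256η)⌋`, `χ = chi ψ` (`chi_real`). Suppose `#Nm ≤ N d^(-64η)`.
(1) `ψ = 1`: every `p ∈ primesOff d z N` lies in `RC d z N` and `χ p = 1 ≠ -1 = lio p` (`chi_one_eq`, `lio_prime`), so it is in `Nm` (compare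
`Z2_subset` in `AC/Z2.lean`); by `primes_unif` with `α = 1/2`, `κ = η` (`z ≤ d^c ≤ d^(1/4)`; `N ≥ d^(1/2)` for large `d`) `#Nm ≥ N^(1-η) ≥ N d^(-η)`
(`N ≤ d`), and `N d^(-η) > N d^(-64η)` for `d ≥ 2`: contradiction.
(2) `ψ ≠ 1`: `split_all2` gives `#PD ≤ d^(-32η) D` for all `D ≥ 1`. `upper_sum` with `X = N`, `δ = d^(-32η)`, `T = 2^⌈2/c⌉` (`rough_divisors`,
`N ≤ d^2`), `lower_sum` with `M = 2 BB d` (`chi_sum`), `E = M (2 + log N) + 1 > 0`, `LL χ N ≥ d^(-η)/2 ≥ 0` (`LL_short`), and `num_contra2`: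
`N (d^(-η)/2)/(8 z^2) ≤ N LL/(8 z^2) ≤ upper bound + z^(3K) E < N (d^(-η)/2)/(8 z^2)`, contradiction. `2 ≤ z`: `num_E1`.
-/

namespace Pool.Agent.Lib.MP_42948a_nt.TQ

open Finset Pool.Agent.Lib.MP_42948a_nt.OA Pool.Agent.Lib.MP_42948a_nt.AC

private theorem E9_large (r C : ℝ) (hr : 0 < r) : ∃ d0 : ℕ, ∀ d : ℕ, d0 ≤ d → C ≤ (d : ℝ) ^ r := by
  have h := (tendsto_rpow_atTop hr).comp tendsto_natCast_atTop_atTop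
  obtain ⟨d0, h0⟩ := Filter.eventually_atTop.1 (h.eventually_ge_atTop C)
  exact ⟨d0, fun d hd => h0 d hd⟩

private theorem E9_subset {d : ℕ} (z X : ℕ) :
    primesOff d z X ⊆ Nm d z X (chi (1 : (ZMod d)ˣ →* ℤˣ)) := by
  classical
  intro p hp
  unfold primesOff at hp
  rw [mem_filter, mem_Icc] at hp
  obtain ⟨⟨hp1, hp2⟩, hp3, hp4, hp5⟩ := hp
  have hcop : p.Coprime d := (Nat.Prime.coprime_iff_not_dvd hp3).2 hp5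
  unfold Nm RC
  rw [mem_filter, mem_filter, mem_Icc]
  refine ⟨⟨⟨hp1, hp2⟩, ⟨hp3.pos, fun q hq hqp => ?_⟩, hcop⟩, ?_⟩
  · rw [(Nat.prime_dvd_prime_iff_eq hq hp3).1 hqp]
    exact hp4
  · rw [chi_one_eq d p hcop, lio_prime hp3]
    norm_num

theorem imitation_contra (K : ℕ) (hK : SieveProp K) (η c : ℝ) (hη : 0 < η) (hη1 : η ≤ 1 / 1024)
    (hc : c * (16 * (3 * K + 4)) = η) :
    ∃ d0 : ℕ, ∀ d : ℕ, d0 ≤ d → ∀ ψ : (ZMod d)ˣ →* ℤˣ,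
      ¬ ((Nm d ⌊(d : ℝ) ^ c⌋₊ ⌊(d : ℝ) ^ (1 / 2 + 256 * η)⌋₊ (chi ψ)).card : ℝ) ≤
        (⌊(d : ℝ) ^ (1 / 2 + 256 * η)⌋₊ : ℝ) * (d : ℝ) ^ (-(64 * η)) := by
  have hK0 : (0 : ℝ) ≤ (K : ℝ) := Nat.cast_nonneg K
  have h16 : (64 : ℝ) ≤ 16 * (3 * K + 4) := by linarith
  have hc0 : 0 < c := by
    by_contra hcon
    have := mul_nonpos_of_nonpos_of_nonneg (not_lt.1 hcon) (by linarith : (0 : ℝ) ≤ 16 * (3 * K + 4))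
    linarith
  have hc1 : c ≤ 1 / 4 := by nlinarith
  obtain ⟨d1, h1⟩ := num_E1 K η c hη hc
  obtain ⟨d2, h2⟩ := primes_unif (1 / 2) η (by norm_num) hη (by linarith)
  obtain ⟨d3, h3⟩ := E9_large (256 * η) 2 (by positivity)
  obtain ⟨d4, h4⟩ := split_all2 K η c hη hη1 hc
  obtain ⟨d5, h5⟩ := LL_short η hη hη1
  obtain ⟨d6, h6⟩ := num_contra2 K η c hη hη1 hc (2 ^ ⌈2 / c⌉₊)
  refine ⟨d1 + d2 + d3 + d4 + d5 + d6 + 2, fun d hd ψ hNm => ?_⟩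
  have hd2 : 2 ≤ d := by omega
  have hne : NeZero d := ⟨by omega⟩
  have hdr2 : (2 : ℝ) ≤ (d : ℝ) := by exact_mod_cast hd2
  have hdr : (1 : ℝ) ≤ (d : ℝ) := by linarith
  have hd0 : (0 : ℝ) ≤ (d : ℝ) := by linarith
  have hdpos : (0 : ℝ) < (d : ℝ) := by linarith
  have hx0 : (0 : ℝ) ≤ (d : ℝ) ^ (1 / 2 + 256 * η) := Real.rpow_nonneg hd0 _
  have hNle : (⌊(d : ℝ) ^ (1 / 2 + 256 * η)⌋₊ : ℝ) ≤ (d : ℝ) := by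
    refine (Nat.floor_le hx0).trans ?_
    have : (d : ℝ) ^ (1 / 2 + 256 * η) ≤ (d : ℝ) ^ (1 : ℝ) :=
      Real.rpow_le_rpow_of_exponent_le hdr (by linarith)
    rwa [Real.rpow_one] at this
  have hNge : (d : ℝ) ^ ((1 : ℝ) / 2) ≤ (⌊(d : ℝ) ^ (1 / 2 + 256 * η)⌋₊ : ℝ) := by
    have h7 := Nat.lt_floor_add_one ((d : ℝ) ^ (1 / 2 + 256 * η))
    have h8 : (d : ℝ) ^ (1 / 2 + 256 * η) = (d : ℝ) ^ ((1 : ℝ) / 2) * (d : ℝ) ^ (256 * η) :=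
      Real.rpow_add hdpos _ _
    have h9 := h3 d (by omega)
    have h10 : (1 : ℝ) ≤ (d : ℝ) ^ ((1 : ℝ) / 2) := Real.one_le_rpow hdr (by norm_num)
    nlinarith
  have hN1r : (1 : ℝ) ≤ (⌊(d : ℝ) ^ (1 / 2 + 256 * η)⌋₊ : ℝ) :=
    (Real.one_le_rpow hdr (by norm_num)).trans hNge
  have hN1 : 1 ≤ ⌊(d : ℝ) ^ (1 / 2 + 256 * η)⌋₊ := by exact_mod_cast hN1r
  have hNpos : (0 : ℝ) < (⌊(d : ℝ) ^ (1 / 2 + 256 * η)⌋₊ : ℝ) := by linarith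
  by_cases hψ : ψ = 1
  · subst hψ
    have h7 := card_le_card (E9_subset (d := d) ⌊(d : ℝ) ^ c⌋₊ ⌊(d : ℝ) ^ (1 / 2 + 256 * η)⌋₊)
    have h8 : ((primesOff d ⌊(d : ℝ) ^ c⌋₊ ⌊(d : ℝ) ^ (1 / 2 + 256 * η)⌋₊).card : ℝ) ≤
        (⌊(d : ℝ) ^ (1 / 2 + 256 * η)⌋₊ : ℝ) * (d : ℝ) ^ (-(64 * η)) :=
      le_trans (by exact_mod_cast h7) hNm
    have hz : ((⌊(d : ℝ) ^ c⌋₊ : ℕ) : ℝ) ≤ (d : ℝ) ^ ((1 : ℝ) / 2 / 2) :=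
      le_trans (Nat.floor_le (by positivity)) (Real.rpow_le_rpow_of_exponent_le hdr (by linarith))
    have h9 := h2 d (by omega) ⌊(d : ℝ) ^ c⌋₊ hz ⌊(d : ℝ) ^ (1 / 2 + 256 * η)⌋₊ hNge
    have h10 : (⌊(d : ℝ) ^ (1 / 2 + 256 * η)⌋₊ : ℝ) ^ (1 - η) =
        (⌊(d : ℝ) ^ (1 / 2 + 256 * η)⌋₊ : ℝ) * (⌊(d : ℝ) ^ (1 / 2 + 256 * η)⌋₊ : ℝ) ^ (-η) := by
      rw [sub_eq_add_neg, Real.rpow_add hNpos, Real.rpow_one]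
    have h11 : (d : ℝ) ^ (-η) ≤ (⌊(d : ℝ) ^ (1 / 2 + 256 * η)⌋₊ : ℝ) ^ (-η) :=
      Real.rpow_le_rpow_of_nonpos hNpos hNle (by linarith)
    have h12 : (d : ℝ) ^ (-(64 * η)) < (d : ℝ) ^ (-η) :=
      Real.rpow_lt_rpow_of_exponent_lt (by linarith) (by linarith)
    have h13 := mul_lt_mul_of_pos_left (h12.trans_le h11) hNpos
    linarith
  · have hz := (h1 d (by omega)).1
    have hχ := chi_real d ψ
    have hM := chi_sum d ψ hψ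
    have hP := h4 d (by omega) (chi ψ) hχ hNm
    have hLL := h5 d (by omega) ψ hψ
    have hLL0 : 0 ≤ LL (chi ψ) ⌊(d : ℝ) ^ (1 / 2 + 256 * η)⌋₊ := le_trans (by positivity) hLL
    have hBB : 0 ≤ BB d := by
      unfold BB
      have := Real.log_natCast_nonneg d
      positivity
    have hlog : 0 ≤ Real.log (⌊(d : ℝ) ^ (1 / 2 + 256 * η)⌋₊ : ℝ) := Real.log_natCast_nonneg _
    have hlow := lower_sum K hK ⌊(d : ℝ) ^ c⌋₊ ⌊(d : ℝ) ^ (1 / 2 + 256 * η)⌋₊ hz hN1 (chi ψ) hχ.mul hχ.one hχ.val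
      (2 * BB d) (2 * BB d * (2 + Real.log (⌊(d : ℝ) ^ (1 / 2 + 256 * η)⌋₊ : ℝ)) + 1) hM (by linarith)
      (by positivity) hLL0
    have hTd : ∀ n : ℕ, Rough ⌊(d : ℝ) ^ c⌋₊ n → n ≤ ⌊(d : ℝ) ^ (1 / 2 + 256 * η)⌋₊ →
        n.divisors.card ≤ 2 ^ ⌈2 / c⌉₊ := by
      intro n hn hnX
      refine rough_divisors c hc0 d hd2 n hn (((Nat.le_floor_iff hx0).1 hnX).trans ?_)
      exact Real.rpow_le_rpow_of_exponent_le hdr (by linarith)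
    have hup := upper_sum d (by omega) ⌊(d : ℝ) ^ c⌋₊ ⌊(d : ℝ) ^ (1 / 2 + 256 * η)⌋₊ (2 ^ ⌈2 / c⌉₊) (chi ψ) hχ
      ((d : ℝ) ^ (-(32 * η))) (Real.rpow_nonneg hd0 _) hP hTd
    have hnum := h6 d (by omega)
    have hz0 : (0 : ℝ) < (⌊(d : ℝ) ^ c⌋₊ : ℝ) := by
      have : 0 < ⌊(d : ℝ) ^ c⌋₊ := by omega
      exact_mod_cast this
    have hmono : (⌊(d : ℝ) ^ (1 / 2 + 256 * η)⌋₊ : ℝ) * ((d : ℝ) ^ (-η) / 2) / (8 * (⌊(d : ℝ) ^ c⌋₊ : ℝ) ^ 2) ≤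
        (⌊(d : ℝ) ^ (1 / 2 + 256 * η)⌋₊ : ℝ) * LL (chi ψ) ⌊(d : ℝ) ^ (1 / 2 + 256 * η)⌋₊ /
          (8 * (⌊(d : ℝ) ^ c⌋₊ : ℝ) ^ 2) := by
      apply div_le_div_of_nonneg_right _ (by positivity)
      exact mul_le_mul_of_nonneg_left hLL (by positivity)
    push_cast at hup hnum
    linarith

end Pool.Agent.Lib.MP_42948a_nt.TQ
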