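import Pool.Agent.Lib.MP_42948a_nt.TQ.G1

/-!
# The model function is a homomorphism (job G7)

`X g = {a ∈ RM : g⁻¹ ucl a ∈ H}`, `#X g ≥ s` for all `g`; call `(a1, a2) ∈ RM × RM` bad if `Λ (ucl (a1 a2)) ≠ lio (a1 a2)`; there are at most `s^2/4` bad pairs
(`hb`), `s > 0`. For some `a0 ∈ X 1` the number of bad `(a0, a2)`, `a2 ∈ RM`, is `≤ s/4`: otherwise there are more than `s * (s/4)` bad pairs. Let
`D = {a2 ∈ RM : (a0, a2) bad}`, `#D ≤ s/4`, and `β = lio a0 * rhoE ρ (ucl a0)`, `β^2 = 1` (`1⁻¹ * ucl a0 ∈ H`). For `a2 ∈ RM \ D`: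
`lio a0 * lio a2 = lio (a0 a2) = Λ (ucl a2 * ucl a0) = Λ (ucl a2) rhoE ρ (ucl a0)`, so `lio a2 = β Λ (ucl a2)` (`ucl_mul`, commutativity, `lio_mul`,
`lio a0^2 = 1`). Given `g, g'`: there are at least `(3s/4)^2 > s^2/4` pairs in `(X g \ D) × (X g' \ D)`, so one of them, `(a1, a2)`, is not bad:
`Λ (ucl a1 * ucl a2) = lio a1 * lio a2 = β^2 Λ (ucl a1) Λ (ucl a2)`. Write `ucl a1 = g h1`, `ucl a2 = g' h2`, `h1, h2 ∈ H`, and use `hΛH`
(`rhoE_mul`, `rhoE = ±1` on `H`): `Λ (g g') = Λ g * Λ g'`. The homomorphism: `ψ g = 1` if `Λ g = 1`, else `-1` (`MonoidHom.mk'`).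
-/

namespace Pool.Agent.Lib.MP_42948a_nt.TQ

open Finset Pool.Agent.Lib.MP_42948a_nt.OA Pool.Agent.Lib.MP_42948a_nt.AC

private theorem G7_sum (A B : Finset ℕ) (p : ℕ → ℕ → Prop) [∀ a b, Decidable (p a b)] :
    ((A ×ˢ B).filter (fun q : ℕ × ℕ => p q.1 q.2)).card = ∑ a ∈ A, (B.filter (fun b : ℕ => p a b)).card := by
  rw [Finset.card_filter, Finset.sum_product]
  refine Finset.sum_congr rfl fun a _ => ?_
  rw [Finset.card_filter]

open Classical in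
theorem lam_hom {d : ℕ} [NeZero d] (RM : Finset ℕ) (hRM : ∀ a ∈ RM, 0 < a ∧ a.Coprime d)
    (H : Subgroup (ZMod d)ˣ) (ρ : H →* ℤˣ)
    (Λ : (ZMod d)ˣ → ℝ) (hΛ : ∀ g, Λ g = 1 ∨ Λ g = -1) (hΛH : ∀ g, ∀ h ∈ H, Λ (g * h) = Λ g * rhoE ρ h)
    (s : ℝ) (hs : 0 < s) (hX : ∀ g : (ZMod d)ˣ, s ≤ ((RM.filter (fun a : ℕ => g⁻¹ * ucl d a ∈ H)).card : ℝ))
    (hb : (((RM ×ˢ RM).filter (fun q : ℕ × ℕ => Λ (ucl d (q.1 * q.2)) ≠ lio (q.1 * q.2))).card : ℝ) ≤ s ^ 2 / 4) :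
    ∃ ψ : (ZMod d)ˣ →* ℤˣ, ∀ g, Λ g = (((ψ g : ℤˣ) : ℤ) : ℝ) := by
  -- step 1: a good a0
  have h1 : ∃ a0 ∈ RM.filter (fun a : ℕ => (1 : (ZMod d)ˣ)⁻¹ * ucl d a ∈ H),
      ((RM.filter (fun b : ℕ => Λ (ucl d (a0 * b)) ≠ lio (a0 * b))).card : ℝ) ≤ s / 4 := by
    by_contra hcon
    push Not at hcon
    have hX1 := hX 1
    set X1 := RM.filter (fun a : ℕ => (1 : (ZMod d)ˣ)⁻¹ * ucl d a ∈ H) with hX1def
    have h2 : ((((X1 ×ˢ RM).filter (fun q : ℕ × ℕ => Λ (ucl d (q.1 * q.2)) ≠ lio (q.1 * q.2))).card : ℕ) : ℝ) ≤ s ^ 2 / 4 := by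
      refine le_trans ?_ hb
      exact_mod_cast Finset.card_le_card (Finset.filter_subset_filter _
        (Finset.product_subset_product_left (Finset.filter_subset _ _)))
    rw [G7_sum X1 RM (fun a b => Λ (ucl d (a * b)) ≠ lio (a * b))] at h2
    push_cast at h2
    have hne : X1.Nonempty := by
      rw [← Finset.card_pos]
      have h3 : (0 : ℝ) < (X1.card : ℝ) := lt_of_lt_of_le hs hX1
      exact_mod_cast h3
    have h4 : ∑ _a ∈ X1, s / 4 < ∑ a ∈ X1, ((RM.filter (fun b : ℕ => Λ (ucl d (a * b)) ≠ lio (a * b))).card : ℝ) :=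
      Finset.sum_lt_sum_of_nonempty hne fun a ha => hcon a ha
    rw [Finset.sum_const, nsmul_eq_mul] at h4
    have h5 : s ^ 2 / 4 ≤ (X1.card : ℝ) * (s / 4) := by
      nlinarith
    linarith
  obtain ⟨a0, ha0, hD⟩ := h1
  rw [Finset.mem_filter, inv_one, one_mul] at ha0
  obtain ⟨ha0R, ha0H⟩ := ha0
  set D := RM.filter (fun b : ℕ => Λ (ucl d (a0 * b)) ≠ lio (a0 * b)) with hDdef
  have hr0 : rhoE ρ (ucl d a0) = 1 ∨ rhoE ρ (ucl d a0) = -1 := rhoE_of_mem ρ ha0H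
  have hl0 : lio a0 = 1 ∨ lio a0 = -1 := lio_val a0
  have hr0' : rhoE ρ (ucl d a0) * rhoE ρ (ucl d a0) = 1 := by
    rcases hr0 with h | h <;> rw [h] <;> norm_num
  have hl0' : lio a0 * lio a0 = 1 := by
    rcases hl0 with h | h <;> rw [h] <;> norm_num
  -- step 2
  have h2 : ∀ a ∈ RM, a ∉ D → lio a = lio a0 * rhoE ρ (ucl d a0) * Λ (ucl d a) := by
    intro a ha haD
    have h3 : Λ (ucl d (a0 * a)) = lio (a0 * a) := by
      by_contra h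
      exact haD (Finset.mem_filter.2 ⟨ha, h⟩)
    rw [ucl_mul (hRM a0 ha0R).2 (hRM a ha).2, mul_comm (ucl d a0), hΛH _ _ ha0H, lio_mul (hRM a0 ha0R).1 (hRM a ha).1] at h3
    calc lio a = lio a0 * lio a0 * lio a := by rw [hl0', one_mul]
      _ = lio a0 * (lio a0 * lio a) := by ring
      _ = lio a0 * (Λ (ucl d a) * rhoE ρ (ucl d a0)) := by rw [h3]
      _ = lio a0 * rhoE ρ (ucl d a0) * Λ (ucl d a) := by ring
  -- step 3
  have hcard : ∀ g : (ZMod d)ˣ, 3 * s / 4 ≤ (((RM.filter (fun a : ℕ => g⁻¹ * ucl d a ∈ H)) \ D).card : ℝ) := by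
    intro g
    have h3 := Finset.le_card_sdiff D (RM.filter (fun a : ℕ => g⁻¹ * ucl d a ∈ H))
    have h4 : ((RM.filter (fun a : ℕ => g⁻¹ * ucl d a ∈ H)).card : ℝ) ≤
        (((RM.filter (fun a : ℕ => g⁻¹ * ucl d a ∈ H)) \ D).card : ℝ) + (D.card : ℝ) := by
      have h5 : (RM.filter (fun a : ℕ => g⁻¹ * ucl d a ∈ H)).card ≤
        ((RM.filter (fun a : ℕ => g⁻¹ * ucl d a ∈ H)) \ D).card + D.card := by omega
      exact_mod_cast h5
    have h6 := hX g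
    linarith
  have hmul : ∀ g g' : (ZMod d)ˣ, Λ (g * g') = Λ g * Λ g' := by
    intro g g'
    have h3 : ∃ q ∈ ((RM.filter (fun a : ℕ => g⁻¹ * ucl d a ∈ H)) \ D) ×ˢ
        ((RM.filter (fun a : ℕ => g'⁻¹ * ucl d a ∈ H)) \ D), Λ (ucl d (q.1 * q.2)) = lio (q.1 * q.2) := by
      by_contra hcon
      push Not at hcon
      have h4 : ((((RM.filter (fun a : ℕ => g⁻¹ * ucl d a ∈ H)) \ D) ×ˢ
        ((RM.filter (fun a : ℕ => g'⁻¹ * ucl d a ∈ H)) \ D)).card : ℝ) ≤ s ^ 2 / 4 := by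
        refine le_trans ?_ hb
        have h5 : ((RM.filter (fun a : ℕ => g⁻¹ * ucl d a ∈ H)) \ D) ×ˢ
          ((RM.filter (fun a : ℕ => g'⁻¹ * ucl d a ∈ H)) \ D) ⊆
          (RM ×ˢ RM).filter (fun q : ℕ × ℕ => Λ (ucl d (q.1 * q.2)) ≠ lio (q.1 * q.2)) := by
          intro q hq
          rw [Finset.mem_filter]
          refine ⟨?_, hcon q hq⟩
          rw [Finset.mem_product] at hq ⊢
          exact ⟨(Finset.mem_filter.1 (Finset.mem_sdiff.1 hq.1).1).1, (Finset.mem_filter.1 (Finset.mem_sdiff.1 hq.2).1).1⟩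
        exact_mod_cast Finset.card_le_card h5
      rw [Finset.card_product] at h4
      push_cast at h4
      have h6 := hcard g
      have h7 := hcard g'
      have h8 : 3 * s / 4 * (3 * s / 4) ≤ (((RM.filter (fun a : ℕ => g⁻¹ * ucl d a ∈ H)) \ D).card : ℝ) *
        (((RM.filter (fun a : ℕ => g'⁻¹ * ucl d a ∈ H)) \ D).card : ℝ) :=
        mul_le_mul h6 h7 (by positivity) (by positivity)
      nlinarith
    obtain ⟨⟨a1, a2⟩, hq, hgood⟩ := h3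
    have hq' := Finset.mem_product.1 hq
    have ha1 : a1 ∈ RM := (Finset.mem_filter.1 (Finset.mem_sdiff.1 hq'.1).1).1
    have hH1 : g⁻¹ * ucl d a1 ∈ H := (Finset.mem_filter.1 (Finset.mem_sdiff.1 hq'.1).1).2
    have hD1 : a1 ∉ D := (Finset.mem_sdiff.1 hq'.1).2
    have ha2 : a2 ∈ RM := (Finset.mem_filter.1 (Finset.mem_sdiff.1 hq'.2).1).1
    have hH2 : g'⁻¹ * ucl d a2 ∈ H := (Finset.mem_filter.1 (Finset.mem_sdiff.1 hq'.2).1).2
    have hD2 : a2 ∉ D := (Finset.mem_sdiff.1 hq'.2).2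
    simp only at hgood
    have e1 : ucl d a1 = g * (g⁻¹ * ucl d a1) := by rw [mul_inv_cancel_left]
    have e2 : ucl d a2 = g' * (g'⁻¹ * ucl d a2) := by rw [mul_inv_cancel_left]
    have hk1 : Λ (ucl d a1) = Λ g * rhoE ρ (g⁻¹ * ucl d a1) := by
      rw [← hΛH g _ hH1, ← e1]
    have hk2 : Λ (ucl d a2) = Λ g' * rhoE ρ (g'⁻¹ * ucl d a2) := by
      rw [← hΛH g' _ hH2, ← e2]
    have hk3 : Λ (ucl d (a1 * a2)) = Λ (g * g') * (rhoE ρ (g⁻¹ * ucl d a1) * rhoE ρ (g'⁻¹ * ucl d a2)) := by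
      rw [← rhoE_mul ρ hH1 hH2, ← hΛH _ _ (H.mul_mem hH1 hH2), ucl_mul (hRM a1 ha1).2 (hRM a2 ha2).2]
      congr 1
      rw [mul_mul_mul_comm g g', ← e1, ← e2]
    rw [hk3, lio_mul (hRM a1 ha1).1 (hRM a2 ha2).1, h2 a1 ha1 hD1, h2 a2 ha2 hD2, hk1, hk2] at hgood
    have hr1 := rhoE_of_mem ρ hH1
    have hr2 := rhoE_of_mem ρ hH2
    set r0 := rhoE ρ (ucl d a0)
    set r1 := rhoE ρ (g⁻¹ * ucl d a1)
    set r2 := rhoE ρ (g'⁻¹ * ucl d a2)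
    have hr12 : r1 * r2 ≠ 0 := by
      rcases hr1 with h | h <;> rcases hr2 with h' | h' <;> rw [h, h'] <;> norm_num
    have h9 : Λ (g * g') * (r1 * r2) = Λ g * Λ g' * (r1 * r2) := by
      calc Λ (g * g') * (r1 * r2) = lio a0 * r0 * (Λ g * r1) * (lio a0 * r0 * (Λ g' * r2)) := hgood
        _ = (lio a0 * lio a0) * (r0 * r0) * (Λ g * Λ g' * (r1 * r2)) := by ring
        _ = Λ g * Λ g' * (r1 * r2) := by rw [hl0', hr0', one_mul, one_mul]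
    exact mul_right_cancel₀ hr12 h9
  -- step 4
  refine ⟨MonoidHom.mk' (fun g => if Λ g = 1 then 1 else -1) ?_, ?_⟩
  · intro g g'
    rcases hΛ g with h | h <;> rcases hΛ g' with h' | h' <;> rw [hmul, h, h'] <;> norm_num
  · intro g
    rw [MonoidHom.mk'_apply]
    rcases hΛ g with h | h
    · rw [if_pos h, h]
      norm_num
    · rw [h, if_neg (by norm_num)]
      norm_num

end Pool.Agent.Lib.MP_42948a_nt.TQ
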