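import Pool.Agent.Lib.MP_42948a_nt.TQ.G8
import Pool.Agent.Lib.MP_42948a_nt.TQ.A4
import Pool.Agent.Lib.MP_42948a_nt.TQ.Z1
import Pool.Agent.Lib.MP_42948a_nt.OA.EG
import Pool.Agent.Lib.MP_42948a_nt.OA.ZA

/-!
# Rough numbers up to `d^(1/4+)` in the cosets of a subgroup of bounded index (job G9)

Let `κ', d0` be from `hBur` with `m!` in place of `m` (`1 ≤ m!`) and `κ = 64 η`; `κ2 = min κ' (min (1/8) η)`, `c1 = κ2/(8 (K0+4))`. Let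
`0 < c ≤ c1`, `z = ⌊d^c⌋` (`2 ≤ z` for large `d`, as `d^c → ∞`), `M = ⌊d^(1/4+128η)⌋ ≥ d^(1/4+128η)/2`, `φ = card G`, `hH = Nat.card H ≥ φ/m`.
Apply `hK` (`SieveProp K0`) with `A = Icc 1 M`, `w n = 1` if `n` is coprime to `d` and `g⁻¹ ucl n ∈ H`, else `0`; densities `gd d` (`adm_gd`),
`X = hH M/d`, `R = M d^(-κ') + 2 τ(d) + 2`. For `T ⊆ PP z`, `P = ∏ T ≤ z^K0 ≤ d^(η/8)`: if some `p ∈ T` divides `d`, both sides vanish (`gd_prod`).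
Otherwise the `n ≤ M` divisible by all `p ∈ T` are `P n'`, `n' ≤ M' = M/P` (floor, `EG_dvd_iff`), `P n'` is coprime to `d` iff `n'` is, and
`ucl (P n') = ucl P * ucl n'`, so the number is the one of `coset_char` for the class `q = (ucl P)⁻¹ g` and `M'`. As `M' ≥ M/P - 1 ≥ d^(1/4 + 64η)` for
large `d`, `hBur` (with `pow_index`) gives `E = M' d^(-κ') ≤ M d^(-κ')`, and with `coprime_count` (`hH/φ ≤ 1`):
`|# - hH M'/d| ≤ M d^(-κ') + τ(d)` and `|hH M'/d - hH M/(d P)| ≤ 1`. So `|# - X ∏ gd| ≤ R`. The sieve: `#{..} ≥ X/(4 z^2) - z^K0 R`.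
Estimates for large `d`: `X ≥ M (φ/d)/m` and `φ/d ≥ d^(-κ2/8)` (`phi_lower (κ2/8)`); `z^(K0+2) ≤ d^(κ2/8)`; `2 τ(d) + 2 ≤ M d^(-κ2)` (`BB_le`, `κ2 ≤ 1/8`), so
`R ≤ 2 M d^(-κ2)`, `z^K0 R ≤ 2 M d^(κ2/8 - κ2)`, while `X/(4z^2) ≥ M d^(-κ2/8 - κ2/8)/(4m)`; hence `z^K0 R ≤ X/(8 z^2)` and
`#{..} ≥ X/(8 z^2) ≥ M d^(-κ2/4)/(8m) ≥ d^(1/4+128η - η/4)/(16 m) ≥ d^(1/4+126η)`. The `n` counted have no prime factor in `PP z` and are in
`RC d z M`.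
-/

namespace Pool.Agent.Lib.MP_42948a_nt.TQ

open Finset Pool.Agent.Lib.MP_42948a_nt.OA Pool.Agent.Lib.MP_42948a_nt.AC

/-- Burgess' bound for characters of bounded order -/
def BurgessProp : Prop := ∀ (m : ℕ), 1 ≤ m → ∀ (κ : ℝ), 0 < κ →
    ∃ κ' : ℝ, 0 < κ' ∧ ∃ d0 : ℕ, ∀ d : ℕ, d0 ≤ d → ∀ χ : DirichletCharacter ℂ d, χ ≠ 1 → χ ^ m = 1 →
      ∀ N : ℕ, (d : ℝ) ^ (1 / 4 + κ) ≤ (N : ℝ) →
      ‖∑ n ∈ Finset.Icc 1 N, χ (n : ZMod d)‖ ≤ (N : ℝ) * (d : ℝ) ^ (-κ')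

private theorem G9_prime {z : ℕ} {T : Finset ℕ} (hT : T ⊆ PP z) : ∀ p ∈ T, p.Prime := by
  intro p hp
  have h := hT hp
  unfold PP at h
  rw [mem_filter] at h
  exact h.2

private theorem G9_rough {z n : ℕ} (hn : 0 < n) (h : ∀ p ∈ PP z, ¬ p ∣ n) : Rough z n := by
  refine ⟨hn, fun p hp hpn => ?_⟩
  by_contra hz
  push Not at hz
  exact h p (by unfold PP; rw [mem_filter, mem_Icc]; exact ⟨⟨hp.one_lt.le, hz⟩, hp⟩) hpn

private theorem G9_half (x : ℝ) (hx : 2 ≤ x) : x / 2 ≤ ((⌊x⌋₊ : ℕ) : ℝ) := by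
  have := Nat.lt_floor_add_one x
  linarith

open Classical in
private theorem G9_bij (d : ℕ) [NeZero d] (H : Subgroup (ZMod d)ˣ) (g : (ZMod d)ˣ) (M : ℕ) (T : Finset ℕ)
    (hT : ∀ p ∈ T, p.Prime) (δ : ℕ) (hδ : ∏ p ∈ T, p = δ) (hδ0 : 0 < δ) (hcop : δ.Coprime d) :
    (((Icc 1 M).filter (fun n : ℕ => ∀ p ∈ T, p ∣ n)).filter
      (fun n : ℕ => n.Coprime d ∧ g⁻¹ * ucl d n ∈ H)).card =
    ((Icc 1 (M / δ)).filter (fun n : ℕ => n.Coprime d ∧ ((ucl d δ)⁻¹ * g)⁻¹ * ucl d n ∈ H)).card := by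
  have hdvd : ∀ n : ℕ, (∀ p ∈ T, p ∣ n) ↔ δ ∣ n := fun n => by rw [EG_dvd_iff T hT, hδ]
  have hmem : ∀ n : ℕ, n.Coprime d → (((ucl d δ)⁻¹ * g)⁻¹ * ucl d n ∈ H ↔ g⁻¹ * ucl d (δ * n) ∈ H) := by
    intro n hn
    have e : ((ucl d δ)⁻¹ * g)⁻¹ * ucl d n = g⁻¹ * ucl d (δ * n) := by
      rw [ucl_mul hcop hn, mul_inv_rev, inv_inv, mul_assoc]
    rw [e]
  symm
  apply Finset.card_bij (fun m _ => δ * m)
  · intro n hn
    rw [mem_filter, mem_Icc] at hn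
    obtain ⟨⟨h1, h2⟩, h3, h4⟩ := hn
    rw [mem_filter, mem_filter, mem_Icc, hdvd]
    refine ⟨⟨⟨Nat.mul_pos hδ0 h1, ?_⟩, Dvd.intro _ rfl⟩, Nat.Coprime.mul_left hcop h3, (hmem n h3).1 h4⟩
    rw [Nat.le_div_iff_mul_le hδ0] at h2
    rw [mul_comm]; exact h2
  · intro m _ m' _ h
    exact Nat.eq_of_mul_eq_mul_left hδ0 h
  · intro n hn
    rw [mem_filter, mem_filter, mem_Icc, hdvd] at hn
    obtain ⟨⟨⟨h1, h2⟩, n', rfl⟩, h3, h4⟩ := hn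
    have h5 : n'.Coprime d := Nat.Coprime.coprime_mul_left h3
    refine ⟨n', ?_, rfl⟩
    rw [mem_filter, mem_Icc]
    refine ⟨⟨?_, ?_⟩, h5, (hmem n' h5).2 h4⟩
    · rcases Nat.eq_zero_or_pos n' with h | h
      · subst h; simp at h1
      · exact h
    · rw [Nat.le_div_iff_mul_le hδ0, mul_comm]; exact h2

open Classical in
private theorem G9_count (d : ℕ) [NeZero d] (H : Subgroup (ZMod d)ˣ) (g : (ZMod d)ˣ) (m : ℕ)
    (hm : (Fintype.card (ZMod d)ˣ : ℝ) ≤ m * (Nat.card H : ℝ)) (M z : ℕ) (T : Finset ℕ) (hT : T ⊆ PP z)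
    (E : ℝ) (hE : 0 ≤ E)
    (hB : ∀ χ : DirichletCharacter ℂ d, χ ≠ 1 → χ ^ (m.factorial) = 1 →
      ‖∑ n ∈ Icc 1 (M / ∏ p ∈ T, p), χ (n : ZMod d)‖ ≤ E) :
    |∑ n ∈ (Icc 1 M).filter (fun n : ℕ => ∀ p ∈ T, p ∣ n),
        (if n.Coprime d ∧ g⁻¹ * ucl d n ∈ H then (1:ℝ) else 0) -
      ((Nat.card H : ℝ) * M / d) * ∏ p ∈ T, gd d p| ≤ E + (d.divisors.card : ℝ) + 1 := by
  have hpr := G9_prime hT
  rw [← Finset.sum_filter, Finset.sum_const, nsmul_eq_mul, mul_one, gd_prod]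
  by_cases h : ∀ p ∈ T, ¬ p ∣ d
  · rw [if_pos h]
    have hcop : Nat.Coprime (∏ p ∈ T, p) d :=
      Nat.Coprime.prod_left (fun p hp => ((hpr p hp).coprime_iff_not_dvd).mpr (h p hp))
    have e2 : (∏ p ∈ T, (p : ℝ)) = ((∏ p ∈ T, p : ℕ) : ℝ) := by push_cast; rfl
    have hδ0 : 0 < ∏ p ∈ T, p := Finset.prod_pos (fun p hp => (hpr p hp).pos)
    obtain ⟨δ, hδ⟩ : ∃ δ, ∏ p ∈ T, p = δ := ⟨_, rfl⟩
    rw [G9_bij d H g M T hpr δ hδ (hδ ▸ hδ0) (hδ ▸ hcop), e2, hδ]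
    rw [hδ] at hδ0 hB
    have hδR : (0 : ℝ) < δ := by exact_mod_cast hδ0
    have hd0 : (0 : ℝ) < d := by exact_mod_cast Nat.pos_of_ne_zero (NeZero.ne d)
    have hφ : (0 : ℝ) < Fintype.card (ZMod d)ˣ := by exact_mod_cast Fintype.card_pos
    have hHφ : (Nat.card H : ℝ) ≤ Fintype.card (ZMod d)ˣ := by
      have h1 : Nat.card H ≤ Nat.card (ZMod d)ˣ := Nat.card_le_card_of_injective _ Subtype.val_injective
      rw [Nat.card_eq_fintype_card (α := (ZMod d)ˣ)] at h1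
      exact_mod_cast h1
    have hHd : (Nat.card H : ℝ) / d ≤ 1 := by
      rw [div_le_one hd0]; exact_mod_cast EG_card_le d H
    have hHd0 : (0 : ℝ) ≤ (Nat.card H : ℝ) / d := by positivity
    have e3 : |((M / δ : ℕ) : ℝ) - (M : ℝ) / δ| ≤ 1 := by
      have h1 : ((M / δ : ℕ) : ℝ) ≤ (M : ℝ) / δ := Nat.cast_div_le
      have h2 : (M : ℝ) / δ < ((M / δ : ℕ) : ℝ) + 1 := by
        rw [div_lt_iff₀ hδR]
        have := Nat.lt_div_mul_add hδ0 (a := M)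
        have h3 : (M : ℝ) < ((M / δ * δ + δ : ℕ) : ℝ) := by exact_mod_cast this
        push_cast at h3
        nlinarith
      rw [abs_le]; constructor <;> linarith
    have c1 := coset_char H ((ucl d δ)⁻¹ * g) (M / δ) E hE
      (fun χ hχ hχH => hB χ hχ (pow_index H m hm χ hχH))
    have c2 := coprime_count d (M / δ)
    have c3 : |(Nat.card H : ℝ) / (Fintype.card (ZMod d)ˣ : ℝ) *
        (((Icc 1 (M / δ)).filter (fun n : ℕ => n.Coprime d)).card : ℝ) -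
        (Nat.card H : ℝ) / d * ((M / δ : ℕ) : ℝ)| ≤ (d.divisors.card : ℝ) := by
      have e : (Nat.card H : ℝ) / (Fintype.card (ZMod d)ˣ : ℝ) *
        (((Icc 1 (M / δ)).filter (fun n : ℕ => n.Coprime d)).card : ℝ) -
        (Nat.card H : ℝ) / d * ((M / δ : ℕ) : ℝ) = (Nat.card H : ℝ) / (Fintype.card (ZMod d)ˣ : ℝ) *
        ((((Icc 1 (M / δ)).filter (fun n : ℕ => n.Coprime d)).card : ℝ) -
          (Fintype.card (ZMod d)ˣ : ℝ) * ((M / δ : ℕ) : ℝ) / d) := by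
        field_simp
      rw [e, abs_mul, abs_of_nonneg (by positivity)]
      calc _ ≤ 1 * (d.divisors.card : ℝ) :=
            mul_le_mul ((div_le_one hφ).2 hHφ) c2 (abs_nonneg _) zero_le_one
        _ = _ := one_mul _
    have c4 : |(Nat.card H : ℝ) / d * ((M / δ : ℕ) : ℝ) - (Nat.card H : ℝ) * M / d * (1 / (δ : ℝ))| ≤ 1 := by
      have e : (Nat.card H : ℝ) / d * ((M / δ : ℕ) : ℝ) - (Nat.card H : ℝ) * M / d * (1 / (δ : ℝ)) =
          (Nat.card H : ℝ) / d * (((M / δ : ℕ) : ℝ) - (M : ℝ) / δ) := by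
        field_simp
      rw [e, abs_mul, abs_of_nonneg hHd0]
      exact (mul_le_mul hHd e3 (abs_nonneg _) zero_le_one).trans (by norm_num)
    rw [abs_le] at c1 c3 c4 ⊢
    constructor <;> linarith [c1.1, c1.2, c3.1, c3.2, c4.1, c4.2]
  · rw [if_neg h]
    push Not at h
    obtain ⟨p, hp, hpd⟩ := h
    have e1 : (((Icc 1 M).filter (fun n : ℕ => ∀ p ∈ T, p ∣ n)).filter
        (fun n : ℕ => n.Coprime d ∧ g⁻¹ * ucl d n ∈ H)) = ∅ := by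
      rw [Finset.filter_eq_empty_iff]
      intro n hn hall
      rw [mem_filter] at hn
      have hpp := hpr p hp
      have := Nat.dvd_gcd (hn.2 p hp) hpd
      rw [hall.1] at this
      exact hpp.one_lt.ne' (Nat.dvd_one.mp this)
    rw [e1, card_empty, Nat.cast_zero, mul_zero, sub_zero, abs_zero]
    positivity

private theorem G9_num (K0 m : ℕ) (hm : 1 ≤ m) (η κ2 c : ℝ) (hη : 0 < η) (hη1 : η ≤ 1 / 1024) (hκ : 0 < κ2)
    (hκ1 : κ2 ≤ 1 / 8) (hκη : κ2 ≤ η) (hc : 0 < c) (hc1 : c * (8 * ((K0 : ℝ) + 4)) ≤ κ2) :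
    ∃ d0 : ℕ, ∀ d : ℕ, d0 ≤ d → ∀ φ hH τ : ℝ, (d : ℝ) ^ (1 - κ2 / 8) ≤ φ → φ ≤ m * hH →
      τ ≤ (d : ℝ) ^ (1 / 16 : ℝ) → 1 ≤ d ∧ 2 ≤ ⌊(d : ℝ) ^ c⌋₊ ∧
      (∀ P : ℕ, 0 < P → P ≤ ⌊(d : ℝ) ^ c⌋₊ ^ K0 →
        (d : ℝ) ^ (1 / 4 + 64 * η) ≤ ((⌊(d : ℝ) ^ (1 / 4 + 128 * η)⌋₊ / P : ℕ) : ℝ)) ∧
      (d : ℝ) ^ (1 / 4 + 126 * η) ≤
        (hH * (⌊(d : ℝ) ^ (1 / 4 + 128 * η)⌋₊ : ℝ) / d) / (4 * (⌊(d : ℝ) ^ c⌋₊ : ℝ) ^ 2) -
          (⌊(d : ℝ) ^ c⌋₊ : ℝ) ^ K0 * ((⌊(d : ℝ) ^ (1 / 4 + 128 * η)⌋₊ : ℝ) * (d : ℝ) ^ (-κ2) + τ + 1) := by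
  have h1 : ∀ᶠ x : ℝ in Filter.atTop, (2 : ℝ) ≤ x ^ c := (tendsto_rpow_atTop hc).eventually_ge_atTop _
  have h2 : ∀ᶠ x : ℝ in Filter.atTop, 16 * (m : ℝ) ≤ x ^ (κ2 / 8) :=
    (tendsto_rpow_atTop (by positivity : 0 < κ2 / 8)).eventually_ge_atTop _
  have h3 : ∀ᶠ x : ℝ in Filter.atTop, (4 : ℝ) ≤ x ^ (1 / 16 : ℝ) :=
    (tendsto_rpow_atTop (by norm_num : (0 : ℝ) < 1 / 16)).eventually_ge_atTop _
  have h4 : ∀ᶠ d : ℕ in Filter.atTop, 1 ≤ d ∧ (2 : ℝ) ≤ (d : ℝ) ^ c ∧ 16 * (m : ℝ) ≤ (d : ℝ) ^ (κ2 / 8) ∧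
      (4 : ℝ) ≤ (d : ℝ) ^ (1 / 16 : ℝ) := by
    have := tendsto_natCast_atTop_atTop (R := ℝ)
    filter_upwards [Filter.eventually_ge_atTop 1, this.eventually h1, this.eventually h2,
      this.eventually h3] with d a b c e
    exact ⟨a, b, c, e⟩
  obtain ⟨d0, hd0⟩ := Filter.eventually_atTop.mp h4
  refine ⟨d0, fun d hd φ hH τ hφ hφH hτ => ?_⟩
  obtain ⟨hd1, hdc, hda, hd16⟩ := hd0 d hd
  have hD1 : (1 : ℝ) ≤ d := by exact_mod_cast hd1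
  have hD0 : (0 : ℝ) < d := by linarith
  have hm1 : (1 : ℝ) ≤ m := by exact_mod_cast hm
  have hm0 : (0 : ℝ) < m := by linarith
  set D : ℝ := (d : ℝ) with hD
  set a : ℝ := D ^ (κ2 / 8) with ha
  have ha1 : 1 ≤ a := by linarith
  have ha0 : 0 < a := by linarith
  have ha16 : 16 ≤ a := by linarith
  have hz2 : 2 ≤ ⌊D ^ c⌋₊ := Nat.le_floor (by exact_mod_cast hdc)
  set z : ℕ := ⌊D ^ c⌋₊ with hz
  have hz2R : (2 : ℝ) ≤ z := by exact_mod_cast hz2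
  have hz1R : (1 : ℝ) ≤ z := by linarith
  have hz0R : (0 : ℝ) < z := by linarith
  have hzc : (z : ℝ) ≤ D ^ c := Nat.floor_le (by positivity)
  -- powers of z
  have hzK : (z : ℝ) ^ (K0 + 2) ≤ a := by
    calc (z : ℝ) ^ (K0 + 2) ≤ (D ^ c) ^ (K0 + 2) := pow_le_pow_left₀ hz0R.le hzc _
      _ = D ^ (c * ((K0 + 2 : ℕ) : ℝ)) := by rw [Real.rpow_mul hD0.le, Real.rpow_natCast]
      _ ≤ a := by
        rw [ha]
        refine Real.rpow_le_rpow_of_exponent_le hD1 ?_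
        push_cast
        have : 0 ≤ c * (K0 : ℝ) := by positivity
        nlinarith
  have hzz : (z : ℝ) ^ 2 ≤ a := (pow_le_pow_right₀ hz1R (by omega)).trans hzK
  have hzk : (z : ℝ) ^ K0 ≤ a := (pow_le_pow_right₀ hz1R (by omega)).trans hzK
  -- big powers
  have hη_a : a ≤ D ^ η := Real.rpow_le_rpow_of_exponent_le hD1 (by linarith)
  have ha2 : a ^ 2 ≤ D ^ η := by
    have : a ^ 2 = D ^ (κ2 / 4) := by
      rw [ha, ← Real.rpow_natCast, ← Real.rpow_mul hD0.le]; congr 1; push_cast; ring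
    rw [this]
    exact Real.rpow_le_rpow_of_exponent_le hD1 (by linarith)
  have ha8 : D ^ (-κ2) = (a ^ 8)⁻¹ := by
    rw [Real.rpow_neg hD0.le]
    congr 1
    rw [ha, ← Real.rpow_natCast, ← Real.rpow_mul hD0.le]; congr 1; push_cast; ring
  have hsmall : (4 : ℝ) ≤ D ^ (1 / 4 + 128 * η) :=
    hd16.trans (Real.rpow_le_rpow_of_exponent_le hD1 (by linarith))
  have hMlow := G9_half (D ^ (1 / 4 + 128 * η)) (by linarith)
  set M : ℕ := ⌊D ^ (1 / 4 + 128 * η)⌋₊ with hM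
  have hM0 : (0 : ℝ) < M := by linarith
  have hsplit : D ^ (1 / 4 + 128 * η) = D ^ (1 / 4 + 126 * η) * (D ^ η * D ^ η) := by
    rw [← Real.rpow_add hD0, ← Real.rpow_add hD0]; congr 1; ring
  have hsplit2 : D ^ (1 / 4 + 126 * η) = D ^ (1 / 4 + 64 * η) * D ^ (62 * η) := by
    rw [← Real.rpow_add hD0]; congr 1; ring
  have h62 : 1 ≤ D ^ (62 * η) := Real.one_le_rpow hD1 (by positivity)
  have h64 : 1 ≤ D ^ (1 / 4 + 64 * η) := Real.one_le_rpow hD1 (by positivity)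
  refine ⟨hd1, hz2, ?_, ?_⟩
  · intro P hP0 hP
    have hPR : (0 : ℝ) < P := by exact_mod_cast hP0
    have hPa : (P : ℝ) ≤ a := by
      refine le_trans ?_ hzk
      exact_mod_cast hP
    have e2 : (M : ℝ) / P < ((M / P : ℕ) : ℝ) + 1 := by
      rw [div_lt_iff₀ hPR]
      have := Nat.lt_div_mul_add hP0 (a := M)
      have h3 : (M : ℝ) < ((M / P * P + P : ℕ) : ℝ) := by exact_mod_cast this
      push_cast at h3
      nlinarith
    have e3 : D ^ (1 / 4 + 64 * η) * 8 ≤ (M : ℝ) / P := by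
      rw [le_div_iff₀ hPR]
      calc D ^ (1 / 4 + 64 * η) * 8 * P ≤ D ^ (1 / 4 + 64 * η) * 8 * a := by gcongr
        _ ≤ D ^ (1 / 4 + 64 * η) * 8 * D ^ η := by gcongr
        _ = (D ^ (1 / 4 + 64 * η) * 1 * (16 * D ^ η)) / 2 := by ring
        _ ≤ (D ^ (1 / 4 + 64 * η) * D ^ (62 * η) * (D ^ η * D ^ η)) / 2 := by
            gcongr
            linarith
        _ = D ^ (1 / 4 + 128 * η) / 2 := by rw [hsplit, hsplit2]
        _ ≤ M := hMlow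
    linarith
  · -- lower bound of the main term
    have hX : (M : ℝ) / (4 * m * a ^ 2) ≤ (hH * (M : ℝ) / D) / (4 * (z : ℝ) ^ 2) := by
      have e1 : D / a ≤ m * hH := by
        refine le_trans (le_of_eq ?_) (hφ.trans hφH)
        rw [Real.rpow_sub hD0, Real.rpow_one]
      have e2 : D ≤ m * hH * a := by
        rwa [div_le_iff₀ ha0] at e1
      have hH0 : 0 < hH := by
        by_contra hneg
        push Not at hneg
        have : m * hH * a ≤ 0 := by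
          have := mul_nonneg hm0.le ha0.le
          nlinarith
        linarith
      rw [div_div, div_le_div_iff₀ (by positivity) (by positivity)]
      calc (M : ℝ) * (D * (4 * (z : ℝ) ^ 2)) ≤ (M : ℝ) * ((m * hH * a) * (4 * a)) := by gcongr
        _ = hH * (M : ℝ) * (4 * m * a ^ 2) := by ring
    have hR : (M : ℝ) * D ^ (-κ2) + τ + 1 ≤ 2 * ((M : ℝ) / a ^ 8) := by
      have e1 : τ + 1 ≤ (M : ℝ) / a ^ 8 := by
        have f1 : τ + 1 ≤ D ^ (1 / 8 : ℝ) / 2 := by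
          have g1 : D ^ (1 / 8 : ℝ) = D ^ (1 / 16 : ℝ) * D ^ (1 / 16 : ℝ) := by
            rw [← Real.rpow_add hD0]; norm_num
          rw [g1]
          nlinarith
        refine f1.trans ?_
        rw [div_eq_mul_inv (M : ℝ), ← ha8]
        have g2 : D ^ (1 / 8 : ℝ) ≤ D ^ (1 / 4 + 128 * η) * D ^ (-κ2) := by
          rw [← Real.rpow_add hD0]
          exact Real.rpow_le_rpow_of_exponent_le hD1 (by linarith)
        have g3 : 0 < D ^ (-κ2) := by positivity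
        nlinarith
      have e2 : (M : ℝ) * D ^ (-κ2) = (M : ℝ) / a ^ 8 := by rw [ha8, div_eq_mul_inv]
      rw [e2]
      linarith
    have hzR : (z : ℝ) ^ K0 * ((M : ℝ) * D ^ (-κ2) + τ + 1) ≤ (M : ℝ) / (8 * m * a ^ 2) := by
      calc (z : ℝ) ^ K0 * ((M : ℝ) * D ^ (-κ2) + τ + 1) ≤ (z : ℝ) ^ K0 * (2 * ((M : ℝ) / a ^ 8)) := by gcongr
        _ ≤ a * (2 * ((M : ℝ) / a ^ 8)) := by gcongr
        _ = (M : ℝ) * (2 * a / a ^ 8) := by ring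
        _ ≤ (M : ℝ) * (1 / (8 * m * a ^ 2)) := by
            refine mul_le_mul_of_nonneg_left ?_ hM0.le
            rw [div_le_div_iff₀ (by positivity) (by positivity)]
            have f1 : 16 * (m : ℝ) * (1 * a ^ 3) ≤ a * (a ^ 4 * a ^ 3) := by
              gcongr
              exact one_le_pow₀ ha1
            have f2 : 2 * a * (8 * m * a ^ 2) = 16 * (m : ℝ) * (1 * a ^ 3) := by ring
            have f3 : 1 * a ^ 8 = a * (a ^ 4 * a ^ 3) := by ring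
            rw [f2, f3]
            exact f1
        _ = (M : ℝ) / (8 * m * a ^ 2) := by ring
    have hmain : D ^ (1 / 4 + 126 * η) ≤ (M : ℝ) / (8 * m * a ^ 2) := by
      rw [le_div_iff₀ (by positivity)]
      calc D ^ (1 / 4 + 126 * η) * (8 * m * a ^ 2) ≤ D ^ (1 / 4 + 126 * η) * (8 * m * D ^ η) := by gcongr
        _ = D ^ (1 / 4 + 126 * η) * ((16 * m) * D ^ η) / 2 := by ring
        _ ≤ D ^ (1 / 4 + 126 * η) * (D ^ η * D ^ η) / 2 := by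
            gcongr
            linarith
        _ = D ^ (1 / 4 + 128 * η) / 2 := by rw [hsplit]
        _ ≤ M := hMlow
    have hdouble : (M : ℝ) / (4 * m * a ^ 2) = (M : ℝ) / (8 * m * a ^ 2) + (M : ℝ) / (8 * m * a ^ 2) := by
      field_simp
      norm_num
    linarith

open Classical in
theorem coset_low (hBur : BurgessProp) (K0 : ℕ) (hK : SieveProp K0) (m : ℕ) (hm : 1 ≤ m) (η : ℝ) (hη : 0 < η)
    (hη1 : η ≤ 1 / 1024) :
    ∃ c1 : ℝ, 0 < c1 ∧ ∀ c : ℝ, 0 < c → c ≤ c1 → ∃ d0 : ℕ, ∀ d : ℕ, d0 ≤ d → ∀ [NeZero d],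
      ∀ H : Subgroup (ZMod d)ˣ, (Fintype.card (ZMod d)ˣ : ℝ) ≤ m * (Nat.card H : ℝ) → ∀ g : (ZMod d)ˣ,
      (d : ℝ) ^ (1 / 4 + 126 * η) ≤
        (((RC d ⌊(d : ℝ) ^ c⌋₊ ⌊(d : ℝ) ^ (1 / 4 + 128 * η)⌋₊).filter (fun a : ℕ => g⁻¹ * ucl d a ∈ H)).card : ℝ) := by
  obtain ⟨κ', hκ', dB, hdB⟩ := hBur m.factorial (Nat.factorial_pos m) (64 * η) (by positivity)
  have hκ2 : 0 < min κ' (min (1 / 8) η) := lt_min hκ' (lt_min (by norm_num) hη)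
  have hκ2a : min κ' (min (1 / 8) η) ≤ κ' := min_le_left _ _
  have hκ2b : min κ' (min (1 / 8) η) ≤ 1 / 8 := (min_le_right _ _).trans (min_le_left _ _)
  have hκ2c : min κ' (min (1 / 8) η) ≤ η := (min_le_right _ _).trans (min_le_right _ _)
  generalize min κ' (min (1 / 8) η) = κ2 at hκ2 hκ2a hκ2b hκ2c
  have hK8 : (0 : ℝ) < 8 * ((K0 : ℝ) + 4) := by positivity
  refine ⟨κ2 / (8 * ((K0 : ℝ) + 4)), by positivity, fun c hc hc1 => ?_⟩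
  rw [le_div_iff₀ hK8] at hc1
  obtain ⟨d1, hd1⟩ := G9_num K0 m hm η κ2 c hη hη1 hκ2 hκ2b hκ2c hc hc1
  obtain ⟨d2, hd2⟩ := phi_lower (κ2 / 8) (by positivity) (by linarith)
  obtain ⟨d3, hd3⟩ := BB_le (1 / 16) (by norm_num)
  refine ⟨max (max d1 d2) (max d3 dB), fun d hd _ H hH g => ?_⟩
  have hdd1 : d1 ≤ d := ((le_max_left _ _).trans (le_max_left _ _)).trans hd
  have hdd2 : d2 ≤ d := ((le_max_right _ _).trans (le_max_left _ _)).trans hd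
  have hdd3 : d3 ≤ d := ((le_max_left _ _).trans (le_max_right _ _)).trans hd
  have hddB : dB ≤ d := ((le_max_right _ _).trans (le_max_right _ _)).trans hd
  obtain ⟨hd1', hz2, hPM, hnum⟩ := hd1 d hdd1 _ _ _ (hd2 d hdd2) hH (hd3 d hdd3).2
  have hD1 : (1 : ℝ) ≤ d := by exact_mod_cast hd1'
  have hD0 : (0 : ℝ) < d := by linarith
  generalize hzdef : ⌊(d : ℝ) ^ c⌋₊ = z at *
  generalize hMdef : ⌊(d : ℝ) ^ (1 / 4 + 128 * η)⌋₊ = M at *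
  refine hnum.trans ?_
  have hE0 : 0 ≤ (M : ℝ) * (d : ℝ) ^ (-κ2) := by positivity
  have hsieve := hK z hz2 (Icc 1 M) (fun n => if n.Coprime d ∧ g⁻¹ * ucl d n ∈ H then (1:ℝ) else 0) (gd d)
    ((Nat.card H : ℝ) * M / d) ((M : ℝ) * (d : ℝ) ^ (-κ2) + (d.divisors.card : ℝ) + 1)
    (fun n _ => by split_ifs <;> norm_num) (adm_gd d z) (by positivity) (by positivity) ?_
  · refine hsieve.trans ?_
    rw [← Finset.sum_filter, Finset.sum_const, nsmul_eq_mul, mul_one]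
    have hsub : ((Icc 1 M).filter (fun n : ℕ => ∀ p ∈ PP z, ¬ p ∣ n)).filter
        (fun n : ℕ => n.Coprime d ∧ g⁻¹ * ucl d n ∈ H) ⊆ (RC d z M).filter (fun a : ℕ => g⁻¹ * ucl d a ∈ H) := by
      intro n hn
      rw [mem_filter, mem_filter, mem_Icc] at hn
      obtain ⟨⟨⟨h1, h2⟩, h3⟩, h4, h5⟩ := hn
      unfold RC
      rw [mem_filter, mem_filter, mem_Icc]
      exact ⟨⟨⟨h1, h2⟩, G9_rough h1 h3, h4⟩, h5⟩
    exact_mod_cast Finset.card_le_card hsub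
  · intro T hT hTz
    have hpr := G9_prime hT
    have hP0 : 0 < ∏ p ∈ T, p := Finset.prod_pos (fun p hp => (hpr p hp).pos)
    refine G9_count d H g m hH M z T hT _ hE0 (fun χ hχ hχm => ?_)
    refine (hdB d hddB χ hχ hχm _ (hPM _ hP0 hTz)).trans ?_
    have h1 : ((M / ∏ p ∈ T, p : ℕ) : ℝ) ≤ (M : ℝ) := by exact_mod_cast Nat.div_le_self _ _
    have h2 : (d : ℝ) ^ (-κ') ≤ (d : ℝ) ^ (-κ2) := Real.rpow_le_rpow_of_exponent_le hD1 (by linarith)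
    exact mul_le_mul h1 h2 (by positivity) (by positivity)

end Pool.Agent.Lib.MP_42948a_nt.TQ
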