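import Pool.Agent.Lib.MP_42948a_nt.TQ.Defs

/-!
# Elementary properties of `FX` (job P1)

`lio n ∈ {1, -1}` (`lio_val`). `FX_val`: cases. `FX_mem`: if `lio n = σ` then `att σ c` holds; `FX c ≠ 0` excludes `att (-σ) c`. `FX_mono`: by
`Full` there is a rough `n ≤ X'` of class `c`; `FX d z X c = lio n` (`FX_mem`), all rough `m ≤ X' ≤ X` of class `c` have `lio m = FX d z X c`, so
`att d z X' σ c` iff `σ = FX d z X c`, for `σ = ±1`. `FX_shift`: for a rough `n ≤ X'` of class `c * (ucl d u)⁻¹` the number `u n ≤ X` is rough of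
class `c` (`Rough.mul`), so `lio u * lio n = lio (u n) = FX d z X c` (`lio_mul`, `FX_mem`), i.e. `lio n = lio u * FX d z X c` for all such `n`
(there is one by `Full`). `FX_sq`: `FX_val`.
-/

namespace Pool.Agent.Lib.MP_42948a_nt.TQ

open Finset Pool.Agent.Lib.MP_42948a_nt.OA Pool.Agent.Lib.MP_42948a_nt.AC

theorem FX_val (d z X : ℕ) (c : (ZMod d)ˣ) : FX d z X c = 0 ∨ FX d z X c = 1 ∨ FX d z X c = -1 := by
  unfold FX
  split_ifs <;> norm_num

theorem FX_sq {d z X : ℕ} {c : (ZMod d)ˣ} (h : FX d z X c ≠ 0) : FX d z X c ^ 2 = 1 := by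
  rcases FX_val d z X c with h1 | h1 | h1
  · exact absurd h1 h
  · rw [h1]; norm_num
  · rw [h1]; norm_num

theorem FX_mem {d z X : ℕ} {c : (ZMod d)ˣ} (h : FX d z X c ≠ 0) {n : ℕ} (hn : Rough z n) (hX : n ≤ X)
    (hc : (n : ZMod d) = (c : ZMod d)) : FX d z X c = lio n := by
  rcases lio_val n with h1 | h1
  · have h2 : att d z X 1 c := ⟨n, hn, hX, hc, h1⟩
    unfold FX at h ⊢
    rw [if_pos h2] at h ⊢
    rw [h1]
    split_ifs at h ⊢ with h3
    · exact absurd (by norm_num) h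
    · norm_num
  · have h2 : att d z X (-1) c := ⟨n, hn, hX, hc, h1⟩
    unfold FX at h ⊢
    rw [if_pos h2] at h ⊢
    rw [h1]
    split_ifs at h ⊢ with h3
    · exact absurd (by norm_num) h
    · norm_num

private theorem P1_eq {d z X : ℕ} {c : (ZMod d)ˣ} {s : ℝ} (hs : s = 1 ∨ s = -1)
    (hex : ∃ n : ℕ, Rough z n ∧ n ≤ X ∧ (n : ZMod d) = (c : ZMod d))
    (hall : ∀ n : ℕ, Rough z n → n ≤ X → (n : ZMod d) = (c : ZMod d) → lio n = s) : FX d z X c = s := by
  obtain ⟨n, h1, h2, h3⟩ := hex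
  have h4 := hall n h1 h2 h3
  rcases hs with hs | hs
  · have h5 : att d z X 1 c := ⟨n, h1, h2, h3, by rw [h4, hs]⟩
    have h6 : ¬ att d z X (-1) c := by
      rintro ⟨m, h7, h8, h9, h10⟩
      have := hall m h7 h8 h9
      rw [h10, hs] at this
      norm_num at this
    unfold FX
    rw [if_pos h5, if_neg h6, hs]
    norm_num
  · have h5 : att d z X (-1) c := ⟨n, h1, h2, h3, by rw [h4, hs]⟩
    have h6 : ¬ att d z X 1 c := by
      rintro ⟨m, h7, h8, h9, h10⟩
      have := hall m h7 h8 h9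
      rw [h10, hs] at this
      norm_num at this
    unfold FX
    rw [if_pos h5, if_neg h6, hs]
    norm_num

theorem FX_mono {d z X X' : ℕ} (hX : X' ≤ X) (hfull : Full d z X') {c : (ZMod d)ˣ} (h : FX d z X c ≠ 0) :
    FX d z X' c = FX d z X c := by
  apply P1_eq ((FX_val d z X c).resolve_left h) (hfull c)
  intro n h1 h2 h3
  exact (FX_mem h h1 (h2.trans hX) h3).symm

theorem FX_shift {d z X X' u : ℕ} (hu : Rough z u) (hud : u.Coprime d) (hX : u * X' ≤ X) (hfull : Full d z X')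
    {c : (ZMod d)ˣ} (h : FX d z X c ≠ 0) : FX d z X' (c * (ucl d u)⁻¹) = lio u * FX d z X c := by
  apply P1_eq _ (hfull _)
  · intro n h1 h2 h3
    have h4 : ((u * n : ℕ) : ZMod d) = (c : ZMod d) := by
      rw [Nat.cast_mul, h3, ← ucl_val hud, ← Units.val_mul]
      congr 1
      rw [mul_comm c, mul_inv_cancel_left]
    rw [FX_mem h (hu.mul h1) ((Nat.mul_le_mul_left u h2).trans hX) h4, lio_mul hu.pos h1.pos]
    rcases lio_val u with h5 | h5
    · rw [h5]; ring
    · rw [h5]; ring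
  · rcases lio_val u with h5 | h5 <;> rcases (FX_val d z X c).resolve_left h with h6 | h6 <;>
      rw [h5, h6] <;> norm_num

/-- with `Full`, `c` is pure exactly if not both signs are attained -/
theorem FX_ne_zero_iff {d z X : ℕ} (hfull : Full d z X) (c : (ZMod d)ˣ) :
    FX d z X c ≠ 0 ↔ ¬ (att d z X 1 c ∧ att d z X (-1) c) := by
  constructor
  · rintro h ⟨h1, h2⟩
    apply h
    unfold FX
    rw [if_pos h1, if_pos h2, sub_self]
  · intro h
    obtain ⟨n, h1, h2, h3⟩ := hfull c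
    rcases lio_val n with h4 | h4
    · have h5 : att d z X 1 c := ⟨n, h1, h2, h3, h4⟩
      have h6 : ¬ att d z X (-1) c := fun h7 => h ⟨h5, h7⟩
      unfold FX
      rw [if_pos h5, if_neg h6]
      norm_num
    · have h5 : att d z X (-1) c := ⟨n, h1, h2, h3, h4⟩
      have h6 : ¬ att d z X 1 c := fun h7 => h ⟨h7, h5⟩
      unfold FX
      rw [if_pos h5, if_neg h6]
      norm_num

end Pool.Agent.Lib.MP_42948a_nt.TQ
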