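import Pool.Agent.Lib.MP_42948a_nt.TQ.S5
import Pool.Agent.Lib.MP_42948a_nt.TQ.M1

/-!
# The structure at one scale (job Z5)

`φ = card G`, `μ χ = ‖AR R lio χ‖^2 / #R^2 ≥ 0`. `core_mass` (`τ ≤ 1/10` since `δ, r0 ≤ 1`) gives `θ` and the two inequalities. With
`E0 = 2 (8τ + 2ζ) φ`: `8τ + 2ζ = δ^2 r0^2/16`, so `8 E0 = δ^2 r0^2 φ ≤ δ r0^2 φ`. Second inequality and `φ ≤ #Q/δ`:
`∑ μ ≥ 1 - (5τ + 2ζ)/δ ≥ 1 - δ^2/400 ≥ 1/2` (`5τ + 2ζ ≤ δ^2 r0^2/16`, `r0 ≤ δ/20`, `r0^2/16 ≤ δ^2 / 6400`). `5^m0 * r0 = δ/20 ≤ 1/4`.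
`structure_abs` with `e = ev`, `X = DirichletCharacter ℂ d` (`norm_ev`, `ev_mul`) gives `H`, `ρ`, `c0`. If `H = ⊤` (`subst`), put `ψ g = ρ ⟨g, mem_top g⟩`. The
`χ ∈ Ξ` with `ev χ h = ρ h` for all `h` are all equal (`ev_inj`), and their total mass is `∑ μ - (bad mass) ≥ 1 - δ^2/400 - (δ/20)^2 =
1 - δ^2/200 > 0`, so there is exactly one such `χ` and `μ χ ≥ 1 - δ^2/200`.
-/

namespace Pool.Agent.Lib.MP_42948a_nt.TQ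

open Finset Pool.Agent.Lib.MP_42948a_nt.OA Pool.Agent.Lib.MP_42948a_nt.AC

open Classical in
theorem scale_structure {d : ℕ} [NeZero d] (R : Finset ℕ) (hR : ∀ a ∈ R, 0 < a ∧ a.Coprime d) (hR0 : R.Nonempty)
    (F : (ZMod d)ˣ → ℝ) (Q : Finset (ZMod d)ˣ) (hF0 : ∀ c, c ∉ Q → F c = 0) (hF1 : ∀ c ∈ Q, F c ^ 2 = 1)
    (hFR : ∀ a ∈ R, ∀ b ∈ R, ucl d (a * b) ∈ Q → F (ucl d (a * b)) = lio a * lio b)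
    (Ξ : Finset (DirichletCharacter ℂ d)) (m τ ζ : ℝ) (Er : (ZMod d)ˣ → ℝ) (hm : 0 < m)
    (hEr0 : ∀ c, 0 ≤ Er c) (hr : ∀ c, |(rp d R R c : ℝ) - m| ≤ τ * m + Er c)
    (hEr : ∑ c, Er c ^ 2 ≤ (τ * m) ^ 2 * (Fintype.card (ZMod d)ˣ : ℝ))
    (hΞ : ∑ χ ∈ (univ : Finset (DirichletCharacter ℂ d)) \ Ξ, ‖SF F χ‖ ^ 2 ≤ ζ ^ 2 * (Fintype.card (ZMod d)ˣ : ℝ) ^ 2)
    (hB : ∑ χ ∈ Ξ, ‖AR R lio χ‖ ^ 2 ≤ (1 + 3 * τ) * (R.card : ℝ) ^ 2)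
    (δ r0 : ℝ) (m0 : ℕ) (hδ : 0 < δ) (hδ1 : δ ≤ 1) (hm0 : 2 < 2 ^ m0 * δ) (hr0 : r0 = δ / (20 * 5 ^ m0))
    (hτ : τ = δ ^ 2 * r0 ^ 2 / 256) (hζ : ζ = δ ^ 2 * r0 ^ 2 / 64)
    (hQ : δ * (Fintype.card (ZMod d)ˣ : ℝ) ≤ (Q.card : ℝ)) :
    ∃ (H : Subgroup (ZMod d)ˣ) (c0 : (ZMod d)ˣ),
      ((Q.filter (fun c => c0⁻¹ * c ∉ H)).card : ℝ) ≤ δ / 2 * (Fintype.card (ZMod d)ˣ : ℝ) ∧
      (H = ⊤ → ∃ (ψ : (ZMod d)ˣ →* ℤˣ) (χ : DirichletCharacter ℂ d),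
        (∀ c : (ZMod d)ˣ, ev χ c = (((ψ c : ℤˣ) : ℤ) : ℂ)) ∧
        (1 - δ ^ 2 / 200) * (R.card : ℝ) ^ 2 ≤ ‖AR R lio χ‖ ^ 2) := by
  set φ : ℝ := (Fintype.card (ZMod d)ˣ : ℝ) with hφ
  have hφ0 : 0 < φ := by
    rw [hφ]
    exact_mod_cast Fintype.card_pos
  have h5 : (1 : ℝ) ≤ 5 ^ m0 := one_le_pow₀ (by norm_num)
  have hr0pos : 0 < r0 := by
    rw [hr0]
    positivity
  have h5r : 5 ^ m0 * r0 = δ / 20 := by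
    rw [hr0]
    field_simp
  have hr0le : r0 ≤ δ / 20 := by
    have h6 : 1 * r0 ≤ 5 ^ m0 * r0 := mul_le_mul_of_nonneg_right h5 hr0pos.le
    linarith
  have hr0sq : r0 ^ 2 ≤ δ ^ 2 / 400 := by
    have h6 := pow_le_pow_left₀ hr0pos.le hr0le 2
    have h7 : (δ / 20) ^ 2 = δ ^ 2 / 400 := by ring
    linarith
  have hδ2 : δ ^ 2 ≤ 1 := pow_le_one₀ hδ.le hδ1
  have hδ2pos : 0 < δ ^ 2 := by positivity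
  have hr0sqpos : 0 < r0 ^ 2 := by positivity
  have hprod : δ ^ 2 * r0 ^ 2 ≤ 1 / 400 := by
    have h6 : δ ^ 2 * r0 ^ 2 ≤ 1 * r0 ^ 2 := mul_le_mul_of_nonneg_right hδ2 hr0sqpos.le
    linarith
  have hprodpos : 0 < δ ^ 2 * r0 ^ 2 := by positivity
  have hτ0 : 0 < τ := by rw [hτ]; positivity
  have hτ1 : τ ≤ 1 / 10 := by rw [hτ]; linarith
  have hζ0 : 0 ≤ ζ := by rw [hζ]; positivity
  obtain ⟨θ, hθ, hm1, hm2⟩ := core_mass R hR hR0 F Q hF0 hF1 hFR Ξ m τ ζ Er hm hτ0 hτ1 hζ0 hEr0 hr hEr hΞ hB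
  set μ : DirichletCharacter ℂ d → ℝ := fun χ => ‖AR R lio χ‖ ^ 2 / (R.card : ℝ) ^ 2 with hμ
  have hμ0 : ∀ χ ∈ Ξ, 0 ≤ μ χ := fun χ _ => by simp only [hμ]; positivity
  have hsum : 8 * τ + 2 * ζ = δ ^ 2 * r0 ^ 2 / 16 := by
    rw [hτ, hζ]
    ring
  have hQpos : (0 : ℝ) < (Q.card : ℝ) := lt_of_lt_of_le (by positivity) hQ
  have hS : 1 - δ ^ 2 / 400 ≤ ∑ χ ∈ Ξ, μ χ := by
    have h6 : (5 * τ + 2 * ζ) * φ ≤ (δ * r0 ^ 2 / 16) * (Q.card : ℝ) := by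
      have h7 : (5 * τ + 2 * ζ) * φ ≤ (δ ^ 2 * r0 ^ 2 / 16) * φ := by
        apply mul_le_mul_of_nonneg_right _ hφ0.le
        linarith
      have h8 : (δ ^ 2 * r0 ^ 2 / 16) * φ = (δ * r0 ^ 2 / 16) * (δ * φ) := by ring
      have h9 : (δ * r0 ^ 2 / 16) * (δ * φ) ≤ (δ * r0 ^ 2 / 16) * (Q.card : ℝ) :=
        mul_le_mul_of_nonneg_left hQ (by positivity)
      linarith
    have h10 : (Q.card : ℝ) * (1 - δ * r0 ^ 2 / 16) ≤ (Q.card : ℝ) * ∑ χ ∈ Ξ, μ χ := by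
      have h11 : (Q.card : ℝ) * (1 - δ * r0 ^ 2 / 16) = (Q.card : ℝ) - (δ * r0 ^ 2 / 16) * (Q.card : ℝ) := by ring
      rw [h11]
      refine le_trans ?_ hm2
      linarith
    have h12 := le_of_mul_le_mul_left h10 hQpos
    have h13 : δ * r0 ^ 2 ≤ 1 * (δ ^ 2 / 400) := mul_le_mul hδ1 hr0sq hr0sqpos.le (by norm_num)
    linarith
  have hr4 : 5 ^ m0 * r0 ≤ 1 / 4 := by
    rw [h5r]
    linarith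
  have h8 : 8 * (2 * (8 * τ + 2 * ζ) * φ) ≤ δ * r0 ^ 2 * φ := by
    rw [hsum]
    apply le_trans (le_of_eq (show 8 * (2 * (δ ^ 2 * r0 ^ 2 / 16) * φ) = δ * (δ * r0 ^ 2 * φ) by ring))
    have h9 : δ * (δ * r0 ^ 2 * φ) ≤ 1 * (δ * r0 ^ 2 * φ) := mul_le_mul_of_nonneg_right hδ1 (by positivity)
    linarith
  obtain ⟨H, ρ, c0, _, hfil, hmass⟩ := structure_abs (fun (χ : DirichletCharacter ℂ d) (c : (ZMod d)ˣ) => ev χ c)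
    Ξ μ hμ0 (fun χ c => norm_ev χ c) (fun χ a b => ev_mul χ a b) (by linarith) Q F hF1 θ
    (2 * (8 * τ + 2 * ζ) * φ) δ r0 m0 hδ hr0pos hm1 hQ hm0 hr4 h8
  refine ⟨H, c0, hfil, fun hH => ?_⟩
  subst hH
  set ψ : (ZMod d)ˣ →* ℤˣ := ρ.comp (Subgroup.topEquiv.symm : (ZMod d)ˣ ≃* (⊤ : Subgroup (ZMod d)ˣ)).toMonoidHom with hψ
  have hgood : ∀ χ : DirichletCharacter ℂ d,
      (¬ ∃ h : (⊤ : Subgroup (ZMod d)ˣ), ev χ (h : (ZMod d)ˣ) ≠ (((ρ h : ℤˣ) : ℤ) : ℂ)) →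
      ∀ c : (ZMod d)ˣ, ev χ c = (((ψ c : ℤˣ) : ℤ) : ℂ) := by
    intro χ hχ c
    push Not at hχ
    exact hχ ⟨c, Subgroup.mem_top c⟩
  have hadd := sum_filter_add_sum_filter_not Ξ (fun χ => ∃ h : (⊤ : Subgroup (ZMod d)ˣ),
    ev χ (h : (ZMod d)ˣ) ≠ (((ρ h : ℤˣ) : ℤ) : ℂ)) μ
  rw [h5r] at hmass
  have hmass2 : (δ / 20) ^ 2 = δ ^ 2 / 400 := by ring
  rw [hmass2] at hmass
  have hgm : 1 - δ ^ 2 / 200 ≤ ∑ χ ∈ Ξ.filter (fun χ => ¬ ∃ h : (⊤ : Subgroup (ZMod d)ˣ),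
    ev χ (h : (ZMod d)ˣ) ≠ (((ρ h : ℤˣ) : ℤ) : ℂ)), μ χ := by linarith
  obtain ⟨χ, hχ⟩ : (Ξ.filter (fun χ => ¬ ∃ h : (⊤ : Subgroup (ZMod d)ˣ),
    ev χ (h : (ZMod d)ˣ) ≠ (((ρ h : ℤˣ) : ℤ) : ℂ))).Nonempty := by
    by_contra hcon
    rw [not_nonempty_iff_eq_empty] at hcon
    rw [hcon, sum_empty] at hgm
    linarith
  have hχ2 := hgood χ (mem_filter.1 hχ).2
  refine ⟨ψ, χ, hχ2, ?_⟩
  have hsing : Ξ.filter (fun χ => ¬ ∃ h : (⊤ : Subgroup (ZMod d)ˣ),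
    ev χ (h : (ZMod d)ˣ) ≠ (((ρ h : ℤˣ) : ℤ) : ℂ)) = {χ} := by
    refine eq_singleton_iff_unique_mem.2 ⟨hχ, fun χ' hχ' => ?_⟩
    refine ev_inj χ' χ fun a => ?_
    rw [hχ2 a, hgood χ' (mem_filter.1 hχ').2 a]
  rw [hsing, sum_singleton] at hgm
  have hRpos : (0 : ℝ) < (R.card : ℝ) ^ 2 := by
    have : 0 < R.card := card_pos.2 hR0
    positivity
  simp only [hμ] at hgm
  rwa [le_div_iff₀ hRpos] at hgm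

end Pool.Agent.Lib.MP_42948a_nt.TQ
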