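import Pool.Agent.Lib.MP_42948a_nt.TQ.E2
import Pool.Agent.Lib.MP_42948a_nt.OA.EJ

/-!
# The exceptional set is sparse (job E3)

Notation of E2; `r' c = rp d 𝓔 R c`. As in E2 (now for pairs in `𝓔 × R`): `∑_c r' c = #𝓔 #R`, `∑ Er' ≤ τ m' φ`,
`#𝓔 #R ≤ (1 + 2τ) m' φ`. Let `C = {c ∈ Q : F c = ψ c}`. For `c ∈ C` and `(a, b) ∈ 𝓔 × R` with `a b = c` we have `b ∈ 𝓔`: otherwise
`chi ψ b = κ lio b`, `chi ψ a = - κ lio a` (both are `±1` and different from each other), so `ψ c = chi ψ a * chi ψ b = - lio a lio b = - F c`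
(`hFR`, `κ^2 = 1`), and `F c = ψ c` would give `F c = 0`, but `F c = lio a * lio b ≠ 0`. So `r' c = rp d 𝓔 𝓔 c` for `c ∈ C` and
`∑_{c ∈ C} r' c ≤ #𝓔^2 ≤ (ω/2) #R #𝓔 ≤ (ω/2)(1 + 2τ) m' φ`. On the other hand `∑_{c ∈ C} r' c ≥ (1-τ) m' #C - τ m' φ`. So
`#C ≤ (τ + (ω/2)(1+2τ)) φ/(1-τ) ≤ (ω + 2τ) φ`, and with `bad_classes`: `#Q ≤ #C + #B ≤ (3ω + 4τ) φ`.
-/

namespace Pool.Agent.Lib.MP_42948a_nt.TQ

open Finset Pool.Agent.Lib.MP_42948a_nt.OA Pool.Agent.Lib.MP_42948a_nt.AC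

private theorem E3_fib {d : ℕ} [NeZero d] (A B : Finset ℕ) (hA : ∀ a ∈ A, a.Coprime d) (hB : ∀ a ∈ B, a.Coprime d)
    (c : (ZMod d)ˣ) [DecidableEq (ZMod d)ˣ] :
    rp d A B c = ((A ×ˢ B).filter (fun q : ℕ × ℕ => ucl d (q.1 * q.2) = c)).card := by
  classical
  unfold rp
  congr 1
  ext q
  simp only [mem_filter, mem_product, and_congr_right_iff]
  rintro ⟨h1, h2⟩
  have hco : (q.1 * q.2).Coprime d := Nat.Coprime.mul_left (hA _ h1) (hB _ h2)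
  constructor
  · intro h
    exact ucl_eq hco h
  · intro h
    rw [← h, ucl_val hco]

private theorem E3_sum {d : ℕ} [NeZero d] (A B : Finset ℕ) (hA : ∀ a ∈ A, a.Coprime d) (hB : ∀ a ∈ B, a.Coprime d) :
    ∑ c : (ZMod d)ˣ, rp d A B c = A.card * B.card := by
  classical
  rw [← card_product, card_eq_sum_card_fiberwise (f := fun q : ℕ × ℕ => ucl d (q.1 * q.2)) (t := univ)
    (fun _ _ => by simp)]
  exact sum_congr rfl fun c _ => E3_fib A B hA hB c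

private theorem E3_cs {G : Type*} [Fintype G] (E : G → ℝ) (hE0 : ∀ c, 0 ≤ E c) (y : ℝ) (hy : 0 ≤ y)
    (h : ∑ c, E c ^ 2 ≤ y ^ 2 * (Fintype.card G : ℝ)) : ∑ c, E c ≤ y * (Fintype.card G : ℝ) := by
  have h1 : (∑ c, E c) ^ 2 ≤ (Fintype.card G : ℝ) * ∑ c, E c ^ 2 := by
    have := sq_sum_le_card_mul_sum_sq (s := (univ : Finset G)) (f := E)
    simpa using this
  have h2 : (∑ c, E c) ^ 2 ≤ (y * (Fintype.card G : ℝ)) ^ 2 := by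
    refine h1.trans ?_
    have h3 := mul_le_mul_of_nonneg_left h (Nat.cast_nonneg (Fintype.card G) : (0 : ℝ) ≤ _)
    refine h3.trans (le_of_eq ?_)
    ring
  exact (pow_le_pow_iff_left₀ (sum_nonneg fun c _ => hE0 c) (by positivity) (by norm_num)).1 h2

private theorem E3_arith (m τ ω φ e ρ s C B Q S : ℝ) (hm : 0 < m) (hτ : 0 < τ) (hτ1 : τ ≤ 1 / 10) (hω : 0 ≤ ω)
    (hφ : 0 ≤ φ) (he : 0 ≤ e) (hs : s ≤ τ * m * φ) (h1 : e * ρ ≤ (1 + τ) * m * φ + s) (h2 : 2 * e ≤ ω * ρ)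
    (h3 : (1 - τ) * m * C - s ≤ S) (h4 : S ≤ e * e) (hB : B ≤ (2 * ω + 2 * τ) * φ) (hQ : Q = C + B) :
    Q ≤ (3 * ω + 4 * τ) * φ := by
  have h5 : e * e ≤ ω / 2 * ((1 + 2 * τ) * m * φ) := by
    have h6 : e * (2 * e) ≤ e * (ω * ρ) := mul_le_mul_of_nonneg_left h2 he
    have h7 : e * ρ ≤ (1 + 2 * τ) * m * φ := by linarith
    have h8 := mul_le_mul_of_nonneg_left h7 hω
    linarith
  have h9 : (1 - τ) * m * C ≤ m * ((ω / 2 * (1 + 2 * τ) + τ) * φ) := by linarith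
  have h10 : (1 - τ) * C ≤ (ω / 2 * (1 + 2 * τ) + τ) * φ := by
    refine le_of_mul_le_mul_left ?_ hm
    linarith
  have h11 : (ω / 2 * (1 + 2 * τ) + τ) * φ ≤ (1 - τ) * ((ω + 2 * τ) * φ) := by
    have h12 : 0 ≤ (ω * (1 / 2 - 2 * τ) + τ * (1 - 2 * τ)) * φ := by
      refine mul_nonneg (add_nonneg (mul_nonneg hω (by linarith)) (mul_nonneg hτ.le (by linarith))) hφ
    linarith
  have h13 : C ≤ (ω + 2 * τ) * φ := by
    refine le_of_mul_le_mul_left (h10.trans h11) (by linarith)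
  rw [hQ]
  linarith

private theorem E3_incl {d : ℕ} [NeZero d] (R E : Finset ℕ) (hR : ∀ a ∈ R, 0 < a ∧ a.Coprime d)
    (F : (ZMod d)ˣ → ℝ) (κ : ℝ) (ψ : (ZMod d)ˣ →* ℤˣ) (hκ : κ = 1 ∨ κ = -1)
    (hE1 : ∀ a ∈ E, a ∈ R ∧ chi ψ a ≠ κ * lio a) (hE2 : ∀ a ∈ R, chi ψ a ≠ κ * lio a → a ∈ E) (c : (ZMod d)ˣ)
    (hFR : ∀ a ∈ R, ∀ b ∈ R, ucl d (a * b) = c → F c = lio a * lio b) (hc : F c = (((ψ c : ℤˣ) : ℤ) : ℝ)) :
    rp d E R c ≤ rp d E E c := by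
  classical
  unfold rp
  refine card_le_card ?_
  rintro ⟨a, b⟩ hq
  simp only [mem_filter, mem_product] at hq ⊢
  obtain ⟨⟨ha, hb⟩, hab⟩ := hq
  refine ⟨⟨ha, ?_⟩, hab⟩
  apply hE2 b hb
  intro hb1
  obtain ⟨haR, ha1⟩ := hE1 a ha
  have hco : (a * b).Coprime d := Nat.Coprime.mul_left (hR a haR).2 (hR b hb).2
  have hF := hFR a haR b hb (ucl_eq hco hab)
  have hψ := chi_eq ψ (a * b) c hab
  rw [chi_mul, hb1] at hψ
  have ha2 : chi ψ a = 1 ∨ chi ψ a = -1 := by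
    have h1 := chi_eq ψ a (ucl d a) (ucl_val (hR a haR).2).symm
    rcases Int.units_eq_one_or (ψ (ucl d a)) with h | h
    · left
      rw [h1, h]
      norm_num
    · right
      rw [h1, h]
      norm_num
  rw [← hc, hF] at hψ
  rcases lio_val a with h1 | h1 <;> rcases lio_val b with h2 | h2 <;> rcases ha2 with h3 | h3 <;>
    rcases hκ with h4 | h4 <;> rw [h1, h3, h4] at ha1 <;> rw [h1, h2, h3, h4] at hψ <;> revert ha1 hψ <;>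
    norm_num

open Classical in
theorem sparse_contra {d : ℕ} [NeZero d] (R : Finset ℕ) (hR : ∀ a ∈ R, 0 < a ∧ a.Coprime d)
    (F : (ZMod d)ˣ → ℝ) (Q : Finset (ZMod d)ˣ)
    (hFR : ∀ a ∈ R, ∀ b ∈ R, ucl d (a * b) ∈ Q → F (ucl d (a * b)) = lio a * lio b)
    (m τ ω κ : ℝ) (Er : (ZMod d)ˣ → ℝ) (hm : 0 < m) (hτ : 0 < τ) (hτ1 : τ ≤ 1 / 10) (hω : 0 ≤ ω)
    (hEr0 : ∀ c, 0 ≤ Er c) (hr : ∀ c, |(rp d R R c : ℝ) - m| ≤ τ * m + Er c)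
    (hEr : ∑ c, Er c ^ 2 ≤ (τ * m) ^ 2 * (Fintype.card (ZMod d)ˣ : ℝ)) (ψ : (ZMod d)ˣ →* ℤˣ) (hκ : κ = 1 ∨ κ = -1)
    (hE : 2 * ((R.filter (fun a : ℕ => chi ψ a ≠ κ * lio a)).card : ℝ) ≤ ω * (R.card : ℝ))
    (m' : ℝ) (Er' : (ZMod d)ˣ → ℝ) (hm' : 0 < m') (hEr0' : ∀ c, 0 ≤ Er' c)
    (hr' : ∀ c, |(rp d (R.filter (fun a : ℕ => chi ψ a ≠ κ * lio a)) R c : ℝ) - m'| ≤ τ * m' + Er' c)
    (hEr' : ∑ c, Er' c ^ 2 ≤ (τ * m') ^ 2 * (Fintype.card (ZMod d)ˣ : ℝ)) :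
    (Q.card : ℝ) ≤ (3 * ω + 4 * τ) * (Fintype.card (ZMod d)ˣ : ℝ) := by
  set φ : ℝ := (Fintype.card (ZMod d)ˣ : ℝ) with hφ
  have hφ0 : 0 ≤ φ := Nat.cast_nonneg _
  have hB := bad_classes R hR F Q hFR m τ ω κ Er hm hτ hτ1 hω hEr0 hr hEr ψ hκ hE
  set E : Finset ℕ := R.filter (fun a : ℕ => chi ψ a ≠ κ * lio a) with hEdef
  have hE1 : ∀ a ∈ E, a ∈ R ∧ chi ψ a ≠ κ * lio a := fun a ha => mem_filter.1 ha
  have hE2 : ∀ a ∈ R, chi ψ a ≠ κ * lio a → a ∈ E := fun a ha h => mem_filter.2 ⟨ha, h⟩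
  set C : Finset (ZMod d)ˣ := Q.filter (fun c => F c = (((ψ c : ℤˣ) : ℤ) : ℝ)) with hC
  have hQ : (Q.card : ℝ) = (C.card : ℝ) + ((Q.filter (fun c => F c ≠ (((ψ c : ℤˣ) : ℤ) : ℝ))).card : ℝ) := by
    rw [hC]
    exact_mod_cast (card_filter_add_card_filter_not (s := Q) (fun c => F c = (((ψ c : ℤˣ) : ℤ) : ℝ))).symm
  have hs := E3_cs Er' hEr0' (τ * m') (by positivity) hEr'
  have hcoR : ∀ a ∈ R, a.Coprime d := fun a ha => (hR a ha).2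
  have hcoE : ∀ a ∈ E, a.Coprime d := fun a ha => hcoR a (hE1 a ha).1
  have h1 : (E.card : ℝ) * (R.card : ℝ) ≤ (1 + τ) * m' * φ + ∑ c, Er' c := by
    have h2 := E3_sum E R hcoE hcoR
    have h3 : (E.card : ℝ) * (R.card : ℝ) = ∑ c : (ZMod d)ˣ, (rp d E R c : ℝ) := by
      exact_mod_cast h2.symm
    rw [h3]
    have h4 : ∀ c ∈ (univ : Finset (ZMod d)ˣ), (rp d E R c : ℝ) ≤ (1 + τ) * m' + Er' c := by
      intro c _
      have := (abs_le.1 (hr' c)).2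
      linarith
    refine (sum_le_sum h4).trans (le_of_eq ?_)
    rw [sum_add_distrib, sum_const, card_univ, nsmul_eq_mul, ← hφ]
    ring
  have h3 : (1 - τ) * m' * (C.card : ℝ) - ∑ c, Er' c ≤ ∑ c ∈ C, (rp d E R c : ℝ) := by
    have h4 : ∀ c ∈ C, (1 - τ) * m' - Er' c ≤ (rp d E R c : ℝ) := by
      intro c _
      have := (abs_le.1 (hr' c)).1
      linarith
    have h5 := sum_le_sum h4
    rw [sum_sub_distrib, sum_const, nsmul_eq_mul] at h5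
    have h6 : ∑ c ∈ C, Er' c ≤ ∑ c, Er' c :=
      sum_le_sum_of_subset_of_nonneg (subset_univ _) fun c _ _ => hEr0' c
    linarith
  have h4 : ∑ c ∈ C, (rp d E R c : ℝ) ≤ (E.card : ℝ) * (E.card : ℝ) := by
    have h5 : ∑ c ∈ C, rp d E R c ≤ E.card * E.card := by
      rw [← E3_sum E E hcoE hcoE]
      calc ∑ c ∈ C, rp d E R c ≤ ∑ c ∈ C, rp d E E c := by
            refine sum_le_sum fun c hc => ?_
            rw [hC, mem_filter] at hc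
            refine E3_incl R E hR F κ ψ hκ hE1 hE2 c ?_ hc.2
            intro a ha b hb hab
            have := hFR a ha b hb (by rw [hab]; exact hc.1)
            rwa [hab] at this
        _ ≤ ∑ c, rp d E E c := sum_le_sum_of_subset (subset_univ _)
    exact_mod_cast h5
  exact E3_arith m' τ ω φ E.card R.card (∑ c, Er' c) C.card _ Q.card _ hm' hτ hτ1 hω hφ0 (Nat.cast_nonneg _) hs h1 hE
    h3 h4 hB hQ

end Pool.Agent.Lib.MP_42948a_nt.TQ
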