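import Pool.Agent.Lib.MP_42948a_nt.TQ.P1
import Pool.Agent.Lib.MP_42948a_nt.OA.EJ

/-!
# Small primes are not split (job E4)

`F = FX d z X'`, `Q = PX d z X'`, `P = PX d z X`, `B = {c ∈ Q : F c ≠ ψ c}`. `P ⊆ Q` (`FX_mono`, `X' ≤ u X' ≤ X`). Let `c ∈ P`, `c ∉ B`, so
`F c = ψ c`. By `FX_shift` and `FX_mono`: `F (c * (ucl d u)⁻¹) = lio u * FX d z X c = - F c = - ψ c` (`lio_prime`), which is nonzero, while
`ψ (c * (ucl d u)⁻¹) = ψ c * (ψ (ucl d u))⁻¹ = ψ c` as `ψ (ucl d u) = 1` (`chi_eq` with `ucl_val` and `chi ψ u = 1`). So `c * (ucl d u)⁻¹ ∈ B`. Hence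
`P ⊆ B ∪ (image of B under · * ucl d u)` and `#P ≤ 2 #B`.
-/

namespace Pool.Agent.Lib.MP_42948a_nt.TQ

open Finset Pool.Agent.Lib.MP_42948a_nt.OA Pool.Agent.Lib.MP_42948a_nt.AC

open Classical in
theorem small_u {d : ℕ} [NeZero d] (z X X' u : ℕ) (hup : u.Prime) (hu : Rough z u) (hud : u.Coprime d) (hX : u * X' ≤ X)
    (hfull : Full d z X') (ψ : (ZMod d)ˣ →* ℤˣ) (hψ : chi ψ u = 1) :
    (PX d z X).card ≤ 2 * ((PX d z X').filter (fun c => FX d z X' c ≠ (((ψ c : ℤˣ) : ℤ) : ℝ))).card := by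
  set B := (PX d z X').filter (fun c => FX d z X' c ≠ (((ψ c : ℤˣ) : ℤ) : ℝ)) with hB
  have hXX : X' ≤ X := le_trans (Nat.le_mul_of_pos_left X' hup.pos) hX
  have hψu : ψ (ucl d u) = 1 := by
    have h1 := chi_eq ψ u (ucl d u) (ucl_val hud).symm
    rw [hψ] at h1
    rcases Int.units_eq_one_or (ψ (ucl d u)) with h | h
    · exact h
    · rw [h] at h1
      norm_num at h1
  have hsub : PX d z X ⊆ B ∪ B.image (fun c => c * ucl d u) := by
    intro c hc
    have hc1 : FX d z X c ≠ 0 := (mem_filter.1 hc).2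
    have hm := FX_mono hXX hfull hc1
    by_cases hcB : c ∈ B
    · exact mem_union_left _ hcB
    · apply mem_union_right
      rw [mem_image]
      refine ⟨c * (ucl d u)⁻¹, ?_, inv_mul_cancel_right c (ucl d u)⟩
      have hF : FX d z X' c = (((ψ c : ℤˣ) : ℤ) : ℝ) := by
        by_contra hne
        apply hcB
        rw [hB, mem_filter]
        refine ⟨mem_filter.2 ⟨mem_univ _, ?_⟩, hne⟩
        rw [hm]
        exact hc1
      have hs := FX_shift hu hud hX hfull hc1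
      rw [lio_prime hup, neg_one_mul] at hs
      rw [hB, mem_filter]
      refine ⟨mem_filter.2 ⟨mem_univ _, ?_⟩, ?_⟩
      · rw [hs]
        exact neg_ne_zero.2 hc1
      · rw [hs, map_mul, map_inv, hψu, inv_one, mul_one, ← hF, hm]
        intro h
        exact hc1 (by linarith)
  calc (PX d z X).card ≤ (B ∪ B.image (fun c => c * ucl d u)).card := card_le_card hsub
    _ ≤ B.card + (B.image (fun c => c * ucl d u)).card := card_union_le _ _
    _ ≤ B.card + B.card := Nat.add_le_add_left card_image_le _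
    _ = 2 * B.card := by ring

end Pool.Agent.Lib.MP_42948a_nt.TQ
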