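import Pool.Agent.Lib.MP_42948a_nt.TQ.Defs
import Pool.Agent.Lib.MP_42948a_nt.AC.RCh
import Pool.Agent.Lib.MP_42948a_nt.AC.F2

/-!
# The sign is one (job E5)

Suppose `κ = -1`. Every `s ∈ SS d z w N` lies in `RC d z N` and `chi ψ s = lio s`: the private lemma `F2_chi` of `AC/F2.lean` (copy it) with the
hypothesis for primes only (the proof of `F2_chi` uses it only for prime `u`; a prime `p ∣ s` is `> z`, `≤ w` and does not divide `d`, so
`p ∈ primesOff d z w`, `chi ψ p = -1 = lio p`). So `chi ψ s = lio s ≠ - lio s = κ lio s`, `SS d z w N` is contained in the filtered set, and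
`#SS ≤ #filter < #SS`, a contradiction.
-/

namespace Pool.Agent.Lib.MP_42948a_nt.TQ

open Finset Pool.Agent.Lib.MP_42948a_nt.OA Pool.Agent.Lib.MP_42948a_nt.AC

private theorem E5_chi (d z w : ℕ) (χ : ℕ → ℝ) (hχ : RealChar d χ)
    (hF1 : ∀ p : ℕ, p.Prime → z < p → p ≤ w → ¬ p ∣ d → χ p = -1) (s : ℕ) :
    Rough z s → s.Coprime d → (∀ p : ℕ, p.Prime → p ∣ s → p ≤ w) → χ s = lio s := by
  induction s using induction_on_primes with
  | zero => exact fun h => absurd h.1 (lt_irrefl _)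
  | one =>
    intro _ _ _
    rw [hχ.one]
    unfold lio
    rw [ArithmeticFunction.cardFactors_one, pow_zero]
  | prime_mul p a hp ih =>
    intro h1 h2 h3
    have ha : 0 < a := Nat.pos_of_mul_pos_left h1.1
    have hpd : ¬ p ∣ d := (Nat.Prime.coprime_iff_not_dvd hp).1 (Nat.Coprime.coprime_mul_right h2)
    rw [hχ.mul, lio_mul hp.pos ha, lio_prime hp,
      hF1 p hp (h1.2 p hp (Dvd.intro _ rfl)) (h3 p hp (Dvd.intro _ rfl)) hpd,
      ih (h1.of_dvd (Dvd.intro_left _ rfl)) (Nat.Coprime.coprime_mul_left h2)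
        (fun q hq hqa => h3 q hq (hqa.mul_left _))]

open Classical in
theorem kappa_one {d : ℕ} [NeZero d] (z w N : ℕ) (ψ : (ZMod d)ˣ →* ℤˣ) (hw : ∀ p ∈ primesOff d z w, chi ψ p = -1)
    (κ : ℝ) (hκ : κ = 1 ∨ κ = -1)
    (hc : ((RC d z N).filter (fun a : ℕ => chi ψ a ≠ κ * lio a)).card < (SS d z w N).card) : κ = 1 := by
  rcases hκ with h | h
  · exact h
  · exfalso
    refine absurd hc (not_lt.2 (card_le_card ?_))
    intro s hs
    rw [SS, mem_filter, mem_Icc] at hs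
    obtain ⟨⟨e1, e2⟩, e3, e4, e5⟩ := hs
    have hF1 : ∀ p : ℕ, p.Prime → z < p → p ≤ w → ¬ p ∣ d → chi ψ p = -1 := by
      intro p hp h1 h2 h3
      apply hw
      rw [primesOff, mem_filter, mem_Icc]
      exact ⟨⟨hp.one_lt.le, h2⟩, hp, h1, h3⟩
    have h1 := E5_chi d z w (chi ψ) (chi_real d ψ) hF1 s e3 e4 e5
    rw [mem_filter, RC, mem_filter, mem_Icc]
    refine ⟨⟨⟨e1, e2⟩, e3, e4⟩, ?_⟩
    rw [h1, h]
    rcases lio_val s with h2 | h2 <;> rw [h2] <;> norm_num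

theorem SS_mono (d z : ℕ) {w w' : ℕ} (hw : w ≤ w') (N : ℕ) : SS d z w N ⊆ SS d z w' N := by
  classical
  intro s hs
  rw [SS, mem_filter] at hs ⊢
  exact ⟨hs.1, hs.2.1, hs.2.2.1, fun p hp hps => (hs.2.2.2 p hp hps).trans hw⟩

end Pool.Agent.Lib.MP_42948a_nt.TQ
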