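import Pool.Agent.Lib.MP_42948a_nt.TQ.E1
import Pool.Agent.Lib.MP_42948a_nt.TQ.E3
import Pool.Agent.Lib.MP_42948a_nt.TQ.E4
import Pool.Agent.Lib.MP_42948a_nt.TQ.E5
import Pool.Agent.Lib.MP_42948a_nt.TQ.E9
import Pool.Agent.Lib.MP_42948a_nt.TQ.Z3
import Pool.Agent.Lib.MP_42948a_nt.AC.N5

/-!
# The period group is proper (job Z6)

`z = ⌊d^c⌋`, `N = ⌊d^(1/2+256η)⌋`, `Y = ⌊d^(1/k)⌋`, `R = RC d z N`, `U = primesOff d z Y`, `F = FX d z X'`, `Q = PX d z X'`, `P = PX d z X`, `ω = δ^2/200`,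
`φ = card G > 0`. `hFR` (as in `bad_classes`): for `a, b ∈ R` with `ucl d (a b) ∈ Q`: `a b ≤ N N ≤ X'` is rough, so `FX_mem` and `lio_mul`.
(1) `pair_good` for `A = R` (`RC_good`) gives `m`, `Er`. (2) `exc_small` gives `κ` with `2 #𝓔 ≤ ω #R`, `𝓔 = R.filter (chi ψ a ≠ κ lio a)`.
(3) If `N d^(-64η) ≤ #𝓔`: `pair_good` for `A = 𝓔` and `sparse_contra` give `#Q ≤ (3ω + 4τ) φ < δ φ` (`3δ^2/200 + 4 δ/100 < δ`), contradiction.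
(4) So `#𝓔 < N d^(-64η)`. `bad_classes`: `#B ≤ (2ω+2τ) φ`, `B = {c ∈ Q : F c ≠ ψ c}`. For `p ∈ U`: if `chi ψ p = 1` then `small_u` (`X' ≤ p X' ≤ X`) gives
`#P ≤ 2 #B`, `#Q ≤ #P + #(Q \ P) ≤ (4ω + 4τ + δ/10) φ < δ φ`, contradiction; so `chi ψ p = -1` (`chi_real`: val, ne).
(5) `SS_lower η` (`z ≤ d^η`, `N ≥ d^(1/2) ≥ d^(10η)`, `N ≤ d^2`): `#SS d z ⌊d^(20η)⌋ N ≥ N d^(-2η)`; `⌊d^(20η)⌋ ≤ Y` (`20 η ≤ 1/k`), `SS_mono`; so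
`#SS d z Y N ≥ N d^(-2η) ≥ N d^(-64η) > #𝓔`, and `kappa_one`: `κ = 1`. (6) Then `𝓔 = Nm d z N (chi ψ)` (`one_mul`) contradicts
`imitation_contra`.
-/

namespace Pool.Agent.Lib.MP_42948a_nt.TQ

open Finset Pool.Agent.Lib.MP_42948a_nt.OA Pool.Agent.Lib.MP_42948a_nt.AC

private theorem Z6_num (η c : ℝ) (K : ℕ) (hη : 0 < η) (hη1 : η ≤ 1 / 1024)
    (hc : c * (16 * (3 * K + 4)) = η) (d : ℕ) (hd : 16 ≤ d) :
    ((⌊(d : ℝ) ^ c⌋₊ : ℕ) : ℝ) ≤ (d : ℝ) ^ η ∧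
      (d : ℝ) ^ (10 * η) ≤ ((⌊(d : ℝ) ^ (1 / 2 + 256 * η)⌋₊ : ℕ) : ℝ) ∧
      ((⌊(d : ℝ) ^ (1 / 2 + 256 * η)⌋₊ : ℕ) : ℝ) ≤ (d : ℝ) ^ (2 : ℝ) := by
  have hdR : (16 : ℝ) ≤ (d : ℝ) := by exact_mod_cast hd
  have hdR1 : (1 : ℝ) ≤ (d : ℝ) := by linarith
  have hK0 : (0 : ℝ) ≤ K := Nat.cast_nonneg K
  have hcη : c ≤ η := by
    have hpos : (0 : ℝ) < 16 * (3 * K + 4) := by positivity
    have hc0 : 0 < c := by
      by_contra hcon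
      push Not at hcon
      have := mul_nonpos_of_nonpos_of_nonneg hcon hpos.le
      linarith
    nlinarith
  refine ⟨?_, ?_, ?_⟩
  · exact (Nat.floor_le (by positivity)).trans (Real.rpow_le_rpow_of_exponent_le hdR1 hcη)
  · have h1 : (d : ℝ) ^ (10 * η) ≤ (d : ℝ) ^ ((1 : ℝ) / 4) :=
      Real.rpow_le_rpow_of_exponent_le hdR1 (by linarith)
    have h2 : (2 : ℝ) ≤ (d : ℝ) ^ ((1 : ℝ) / 4) := by
      have h3 : (16 : ℝ) ^ ((1 : ℝ) / 4) ≤ (d : ℝ) ^ ((1 : ℝ) / 4) :=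
        Real.rpow_le_rpow (by norm_num) hdR (by norm_num)
      have h4 : (16 : ℝ) ^ ((1 : ℝ) / 4) = 2 := by
        rw [show (16 : ℝ) = 2 ^ (4 : ℝ) by norm_num, ← Real.rpow_mul (by norm_num)]
        norm_num
      linarith
    have h5 : ((d : ℝ) ^ ((1 : ℝ) / 4)) ^ 2 ≤ (d : ℝ) ^ (1 / 2 + 256 * η) := by
      rw [← Real.rpow_natCast, ← Real.rpow_mul (by linarith)]
      refine Real.rpow_le_rpow_of_exponent_le hdR1 ?_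
      push_cast
      linarith
    have h6 := Nat.lt_floor_add_one ((d : ℝ) ^ (1 / 2 + 256 * η))
    nlinarith
  · exact (Nat.floor_le (by positivity)).trans
      (Real.rpow_le_rpow_of_exponent_le hdR1 (by linarith))

open Classical in
theorem top_contra (δ τ : ℝ) (hδ : 0 < δ) (hδ1 : δ ≤ 1) (hτ : 0 < τ) (hτ1 : τ ≤ δ / 100) (K : ℕ) (hK : SieveProp K)
    (hF : ∀ z : ℕ, 2 ≤ z → ∃ u l : Finset ℕ → ℝ, Fund τ K z u l) (η c : ℝ) (hη : 0 < η) (hη1 : η ≤ 1 / 1024)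
    (hc : c * (16 * (3 * K + 4)) = η) (k : ℕ) (hk : 1 ≤ k) (hkη : 20 * η ≤ 1 / k) :
    ∃ d0 : ℕ, ∀ d : ℕ, d0 ≤ d → ∀ [NeZero d], ∀ X X' : ℕ, Full d ⌊(d : ℝ) ^ c⌋₊ X' →
      ⌊(d : ℝ) ^ (1 / 2 + 256 * η)⌋₊ * ⌊(d : ℝ) ^ (1 / 2 + 256 * η)⌋₊ ≤ X' →
      (∀ u ∈ primesOff d ⌊(d : ℝ) ^ c⌋₊ ⌊(d : ℝ) ^ (1 / (k : ℝ))⌋₊, u * X' ≤ X) →
      ((PX d ⌊(d : ℝ) ^ c⌋₊ X' \ PX d ⌊(d : ℝ) ^ c⌋₊ X).card : ℝ) ≤ δ / 10 * (Fintype.card (ZMod d)ˣ : ℝ) →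
      δ * (Fintype.card (ZMod d)ˣ : ℝ) ≤ ((PX d ⌊(d : ℝ) ^ c⌋₊ X').card : ℝ) →
      ∀ (ψ : (ZMod d)ˣ →* ℤˣ) (χ : DirichletCharacter ℂ d),
        (∀ x : (ZMod d)ˣ, ev χ x = (((ψ x : ℤˣ) : ℤ) : ℂ)) →
        ¬ (1 - δ ^ 2 / 200) * ((RC d ⌊(d : ℝ) ^ c⌋₊ ⌊(d : ℝ) ^ (1 / 2 + 256 * η)⌋₊).card : ℝ) ^ 2 ≤
          ‖AR (RC d ⌊(d : ℝ) ^ c⌋₊ ⌊(d : ℝ) ^ (1 / 2 + 256 * η)⌋₊) lio χ‖ ^ 2 := by
  obtain ⟨d1, h1⟩ := RC_good K η c hη hη1 hc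
  obtain ⟨d2, h2⟩ := pair_good τ hτ K hF η c hη hη1 hc
  obtain ⟨d3, h3⟩ := SS_lower η hη (by linarith)
  obtain ⟨d4, h4⟩ := imitation_contra K hK η c hη hη1 hc
  refine ⟨max (max d1 d2) (max (max d3 d4) 16), ?_⟩
  intro d hd _ X X' hfull hNN hu hPP hQ ψ χ hχ h
  have hd1 : d1 ≤ d := le_trans (le_trans (le_max_left _ _) (le_max_left _ _)) hd
  have hd2 : d2 ≤ d := le_trans (le_trans (le_max_right _ _) (le_max_left _ _)) hd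
  have hd34 : max d3 d4 ≤ d := le_trans (le_trans (le_max_left _ _) (le_max_right _ _)) hd
  have hd3 : d3 ≤ d := le_trans (le_max_left _ _) hd34
  have hd4 : d4 ≤ d := le_trans (le_max_right _ _) hd34
  have hd16 : 16 ≤ d := le_trans (le_trans (le_max_right _ _) (le_max_right _ _)) hd
  have hdR : (16 : ℝ) ≤ (d : ℝ) := by exact_mod_cast hd16
  have hdR1 : (1 : ℝ) ≤ (d : ℝ) := by linarith
  obtain ⟨hz1, hN1, hN2⟩ := Z6_num η c K hη hη1 hc d hd16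
  obtain ⟨hRC, -⟩ := h1 d hd1
  have hSS := h3 d hd3 ⌊(d : ℝ) ^ c⌋₊ hz1 ⌊(d : ℝ) ^ (1 / 2 + 256 * η)⌋₊ hN1 hN2
  have him := h4 d hd4 ψ
  have hpg := h2 d hd2
  clear h1 h2 h3 h4
  have hYle : ⌊(d : ℝ) ^ (20 * η)⌋₊ ≤ ⌊(d : ℝ) ^ (1 / (k : ℝ))⌋₊ :=
    Nat.floor_mono (Real.rpow_le_rpow_of_exponent_le hdR1 hkη)
  generalize hzz : ⌊(d : ℝ) ^ c⌋₊ = z at *
  generalize hNe : ⌊(d : ℝ) ^ (1 / 2 + 256 * η)⌋₊ = N at *
  generalize hYe : ⌊(d : ℝ) ^ (1 / (k : ℝ))⌋₊ = Y at *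
  set φ : ℝ := (Fintype.card (ZMod d)ˣ : ℝ) with hφ
  have hφ0 : 0 < φ := by
    rw [hφ]; exact_mod_cast Fintype.card_pos
  have hRmem : ∀ a ∈ RC d z N, 1 ≤ a ∧ a ≤ N ∧ Rough z a ∧ a.Coprime d := by
    intro a ha
    rw [RC, mem_filter, mem_Icc] at ha
    exact ⟨ha.1.1, ha.1.2, ha.2.1, ha.2.2⟩
  have hR : ∀ a ∈ RC d z N, 0 < a ∧ a.Coprime d := fun a ha => ⟨(hRmem a ha).1, (hRmem a ha).2.2.2⟩
  have hFR : ∀ a ∈ RC d z N, ∀ b ∈ RC d z N, ucl d (a * b) ∈ PX d z X' →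
      FX d z X' (ucl d (a * b)) = lio a * lio b := by
    intro a ha b hb hab
    obtain ⟨ha1, ha2, ha3, ha4⟩ := hRmem a ha
    obtain ⟨hb1, hb2, hb3, hb4⟩ := hRmem b hb
    rw [PX, mem_filter] at hab
    have hcop : (a * b).Coprime d := Nat.Coprime.mul_left ha4 hb4
    rw [FX_mem hab.2 (ha3.mul hb3) (le_trans (Nat.mul_le_mul ha2 hb2) hNN) (ucl_val hcop).symm,
      lio_mul ha1 hb1]
  obtain ⟨m, Er, hm, hEr0, hr, hEr⟩ := hpg (RC d z N)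
    (fun a ha => ⟨(hRmem a ha).1, (hRmem a ha).2.1, (hRmem a ha).2.2.2⟩) hRC
  have hω : 0 ≤ δ ^ 2 / 200 := by positivity
  obtain ⟨κ, hκ, hE⟩ := exc_small (RC d z N) hR ψ χ hχ (δ ^ 2 / 200) hω h
  have hτ2 : τ ≤ 1 / 10 := by linarith
  have hδ2 : δ ^ 2 ≤ δ := by nlinarith
  -- the exceptional set is sparse
  have hsp : ¬ (N : ℝ) * (d : ℝ) ^ (-(64 * η)) ≤
      (((RC d z N).filter (fun a : ℕ => chi ψ a ≠ κ * lio a)).card : ℝ) := by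
    intro hbig
    obtain ⟨m', Er', hm', hEr0', hr', hEr'⟩ := hpg
      ((RC d z N).filter (fun a : ℕ => chi ψ a ≠ κ * lio a))
      (fun a ha => ⟨(hRmem a (mem_filter.1 ha).1).1, (hRmem a (mem_filter.1 ha).1).2.1,
        (hRmem a (mem_filter.1 ha).1).2.2.2⟩) hbig
    have hQ2 := sparse_contra (RC d z N) hR (FX d z X') (PX d z X') hFR m τ (δ ^ 2 / 200) κ Er hm hτ
      hτ2 hω hEr0 hr hEr ψ hκ hE m' Er' hm' hEr0' hr' hEr'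
    have h5 : δ * φ ≤ (3 * (δ ^ 2 / 200) + 4 * τ) * φ := hQ.trans hQ2
    have h6 := le_of_mul_le_mul_right h5 hφ0
    linarith
  push Not at hsp
  have hB := bad_classes (RC d z N) hR (FX d z X') (PX d z X') hFR m τ (δ ^ 2 / 200) κ Er hm hτ
    hτ2 hω hEr0 hr hEr ψ hκ hE
  have hw : ∀ p ∈ primesOff d z Y, chi ψ p = -1 := by
    intro p hp
    have hp2 := hp
    rw [primesOff, mem_filter, mem_Icc] at hp2
    obtain ⟨⟨hp1, hpY⟩, hpp, hzp, hpd⟩ := hp2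
    have hcop : p.Coprime d := (Nat.Prime.coprime_iff_not_dvd hpp).2 hpd
    have hch := chi_real d ψ
    rcases hch.val p with h0 | h0 | h0
    · exact absurd h0 (hch.ne p hcop)
    · exfalso
      have hrough : Rough z p := ⟨hpp.pos, fun q hq hqp => by
        rw [(Nat.prime_dvd_prime_iff_eq hq hpp).1 hqp]; exact hzp⟩
      have h5 := small_u z X X' p hpp hrough hcop (hu p hp) hfull ψ h0
      have h6 : ((PX d z X').card : ℝ) ≤ ((PX d z X' \ PX d z X).card : ℝ) + ((PX d z X).card : ℝ) := by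
        have h7 : (PX d z X').card ≤ (PX d z X' \ PX d z X).card + (PX d z X).card := by
          rw [card_sdiff_add_card]
          exact card_le_card subset_union_left
        exact_mod_cast h7
      have h8 : ((PX d z X).card : ℝ) ≤
          2 * (((PX d z X').filter (fun c => FX d z X' c ≠ (((ψ c : ℤˣ) : ℤ) : ℝ))).card : ℝ) := by
        exact_mod_cast h5
      have h9 : δ * φ ≤ (4 * (δ ^ 2 / 200) + 4 * τ + δ / 10) * φ := by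
        calc δ * φ ≤ ((PX d z X').card : ℝ) := hQ
          _ ≤ _ := h6
          _ ≤ δ / 10 * φ + 2 * ((2 * (δ ^ 2 / 200) + 2 * τ) * φ) := by linarith
          _ = _ := by ring
      have h10 := le_of_mul_le_mul_right h9 hφ0
      linarith
    · exact h0
  have hexp : (d : ℝ) ^ (-(64 * η)) ≤ (d : ℝ) ^ (-(2 * η)) :=
    Real.rpow_le_rpow_of_exponent_le hdR1 (by linarith)
  have hcard : ((RC d z N).filter (fun a : ℕ => chi ψ a ≠ κ * lio a)).card < (SS d z Y N).card := by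
    have h5 : ((SS d z ⌊(d : ℝ) ^ (20 * η)⌋₊ N).card : ℝ) ≤ ((SS d z Y N).card : ℝ) := by
      exact_mod_cast card_le_card (SS_mono d z hYle N)
    have h6 : (N : ℝ) * (d : ℝ) ^ (-(64 * η)) ≤ (N : ℝ) * (d : ℝ) ^ (-(2 * η)) :=
      mul_le_mul_of_nonneg_left hexp (Nat.cast_nonneg N)
    have h7 : (((RC d z N).filter (fun a : ℕ => chi ψ a ≠ κ * lio a)).card : ℝ) <
        ((SS d z Y N).card : ℝ) := by linarith
    exact_mod_cast h7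
  have hk1 := kappa_one z Y N ψ hw κ hκ hcard
  refine him ?_
  have h5 : Nm d z N (chi ψ) = (RC d z N).filter (fun a : ℕ => chi ψ a ≠ κ * lio a) := by
    rw [Nm, hk1]
    refine filter_congr fun a _ => ?_
    rw [one_mul]
  rw [h5]
  exact hsp.le

end Pool.Agent.Lib.MP_42948a_nt.TQ
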