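import Pool.Agent.Lib.MP_42948a_nt.TQ.Z4
import Pool.Agent.Lib.MP_42948a_nt.TQ.Z5
import Pool.Agent.Lib.MP_42948a_nt.TQ.Z6

/-!
# The pure classes lie in a proper coset, one scale (job Z7)

Notation of Z6; `U = primesOff d z Y`. `z ≤ d^c ≤ d^(1/(2k))` (`c ≤ η/64`, `20η ≤ 1/k`). If `#Q < δ φ` take `H = ⊥`, `c0 = 1` (`⊥ ≠ ⊤` since `φ ≥ 2` for
`d ≥ 3`: `-1 ≠ 1` in `(ZMod d)ˣ`, or `phi_lower`). Otherwise: `pair_good` for `A = R` (`RC_good`) gives `m`, `Er`; `Xi_good` and `bessel_good` (with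
`Ξ = Xi U`) give `hB`; `mass_outside` (members of `U` are rough primes coprime to `d`) gives
`∑_{χ ∉ Ξ} ‖SF F χ‖^2 ≤ 4 φ #(Q \ P) ≤ ζ^2 φ^2`. `hFR`: as in Z6. `F = 0` off `Q` by definition of `PX`, `F^2 = 1` on `Q` (`FX_sq`).
`scale_structure` gives `H`, `c0`. If `H ≠ ⊤`: done (`δ/2 ≤ δ`). If `H = ⊤`: `top_contra` (`#(Q \ P) ≤ (ζ^2/4) φ ≤ (δ/10) φ`, as
`ζ ≤ δ^2/64`; `τ ≤ δ^2/256 ≤ δ/100`) gives a contradiction.
-/

namespace Pool.Agent.Lib.MP_42948a_nt.TQ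

open Finset Pool.Agent.Lib.MP_42948a_nt.OA Pool.Agent.Lib.MP_42948a_nt.AC

open Classical in
theorem one_scale (δ r0 τ ζ : ℝ) (m0 : ℕ) (hδ : 0 < δ) (hδ1 : δ ≤ 1) (hm0 : 2 < 2 ^ m0 * δ)
    (hr0 : r0 = δ / (20 * 5 ^ m0)) (hτ : τ = δ ^ 2 * r0 ^ 2 / 256) (hζ : ζ = δ ^ 2 * r0 ^ 2 / 64) (K : ℕ) (hK : SieveProp K)
    (hF : ∀ z : ℕ, 2 ≤ z → ∃ u l : Finset ℕ → ℝ, Fund τ K z u l) (η c : ℝ) (hη : 0 < η) (hη1 : η ≤ 1 / 1024)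
    (hc : c * (16 * (3 * K + 4)) = η) (k : ℕ) (hk : 1 ≤ k) (hkη : 20 * η ≤ 1 / k) :
    ∃ d0 : ℕ, ∀ d : ℕ, d0 ≤ d → ∀ [NeZero d], ∀ X X' : ℕ, Full d ⌊(d : ℝ) ^ c⌋₊ X' →
      ⌊(d : ℝ) ^ (1 / 2 + 256 * η)⌋₊ * ⌊(d : ℝ) ^ (1 / 2 + 256 * η)⌋₊ ≤ X' →
      (∀ u ∈ primesOff d ⌊(d : ℝ) ^ c⌋₊ ⌊(d : ℝ) ^ (1 / (k : ℝ))⌋₊, u * X' ≤ X) →
      4 * ((PX d ⌊(d : ℝ) ^ c⌋₊ X' \ PX d ⌊(d : ℝ) ^ c⌋₊ X).card : ℝ) ≤ ζ ^ 2 * (Fintype.card (ZMod d)ˣ : ℝ) →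
      ∃ (H : Subgroup (ZMod d)ˣ) (c0 : (ZMod d)ˣ), H ≠ ⊤ ∧
        (((PX d ⌊(d : ℝ) ^ c⌋₊ X').filter (fun x => c0⁻¹ * x ∉ H)).card : ℝ) ≤ δ * (Fintype.card (ZMod d)ˣ : ℝ) := by
  have h5 : (1 : ℝ) ≤ 5 ^ m0 := one_le_pow₀ (by norm_num)
  have hr0pos : 0 < r0 := by
    rw [hr0]
    positivity
  have hr0le : r0 ≤ 1 := by
    rw [hr0, div_le_one (by positivity)]
    nlinarith
  have hr0sq : r0 ^ 2 ≤ 1 := pow_le_one₀ hr0pos.le hr0le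
  have hδ2 : δ ^ 2 * r0 ^ 2 ≤ δ := by
    have h6 : δ ^ 2 * r0 ^ 2 ≤ δ ^ 2 * 1 := mul_le_mul_of_nonneg_left hr0sq (by positivity)
    nlinarith
  have hprodpos : 0 < δ ^ 2 * r0 ^ 2 := by positivity
  have hτ0 : 0 < τ := by rw [hτ]; positivity
  have hτ1 : τ ≤ 1 / 10 := by rw [hτ]; linarith
  have hτδ : τ ≤ δ / 100 := by rw [hτ]; linarith
  have hζ0 : 0 ≤ ζ := by rw [hζ]; positivity
  have hζδ : ζ ≤ δ / 64 := by rw [hζ]; linarith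
  have hζ2 : ζ ^ 2 ≤ δ / 64 := by nlinarith
  have hK0 : (0 : ℝ) ≤ (K : ℝ) := Nat.cast_nonneg K
  have hc0 : 0 < c := by
    by_contra h
    have h1 : c * (16 * (3 * K + 4)) ≤ 0 :=
      mul_nonpos_of_nonpos_of_nonneg (not_lt.mp h) (by positivity)
    linarith
  have hcK : 0 ≤ c * K := mul_nonneg hc0.le hK0
  have hcη : c ≤ η := by nlinarith
  have hkpos : (0 : ℝ) < (k : ℝ) := by exact_mod_cast hk
  have hck : c ≤ 1 / (2 * (k : ℝ)) := by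
    have h6 : 1 / (2 * (k : ℝ)) = (1 / k) / 2 := by
      field_simp
    rw [h6]
    linarith
  obtain ⟨dT, hT⟩ := top_contra δ τ hδ hδ1 hτ0 hτδ K hK hF η c hη hη1 hc k hk hkη
  obtain ⟨dP, hP⟩ := pair_good τ hτ0 K hF η c hη hη1 hc
  obtain ⟨dR, hRg⟩ := RC_good K η c hη hη1 hc
  obtain ⟨dB, hBg⟩ := bessel_good τ hτ0 hτ1 K hF η c hη hη1 hc
  obtain ⟨dX, hXi⟩ := Xi_good k hk η hη (by linarith)
  obtain ⟨dφ, hφl⟩ := phi_lower (1 / 2) (by norm_num) (by norm_num)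
  refine ⟨dT + dP + dR + dB + dX + dφ + 4, fun d hd => ?_⟩
  intro _ X X' hfull hNN hU hζ4
  have hd4 : (4 : ℝ) ≤ (d : ℝ) := by
    have : 4 ≤ d := by omega
    exact_mod_cast this
  have hd1 : (1 : ℝ) ≤ (d : ℝ) := by linarith
  set z := ⌊(d : ℝ) ^ c⌋₊ with hz
  set N := ⌊(d : ℝ) ^ (1 / 2 + 256 * η)⌋₊ with hN
  set φ : ℝ := (Fintype.card (ZMod d)ˣ : ℝ) with hφ
  have hφ2 : 1 < φ := by
    have h6 := hφl d (by omega)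
    have h7 : (1 : ℝ) < (d : ℝ) ^ (1 - 1 / 2 : ℝ) := Real.one_lt_rpow (by linarith) (by norm_num)
    linarith
  rcases lt_or_ge ((PX d z X').card : ℝ) (δ * φ) with hQ | hQ
  · have hnt : Nontrivial (ZMod d)ˣ := by
      rw [← Fintype.one_lt_card_iff_nontrivial]
      have h8 := hφ2
      rw [hφ] at h8
      exact_mod_cast h8
    refine ⟨⊥, 1, bot_ne_top, ?_⟩
    refine le_trans ?_ hQ.le
    exact_mod_cast card_filter_le _ _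
  · obtain ⟨hR1, hR2⟩ := hRg d (by omega)
    have hmem : ∀ a ∈ RC d z N, (1 ≤ a ∧ a ≤ N) ∧ Rough z a ∧ a.Coprime d := by
      intro a ha
      unfold RC at ha
      obtain ⟨h6, h7⟩ := mem_filter.1 ha
      exact ⟨mem_Icc.1 h6, h7⟩
    obtain ⟨m, Er, hm, hEr0, hr, hEr⟩ := hP d (by omega) (RC d z N)
      (fun a ha => ⟨(hmem a ha).1.1, (hmem a ha).1.2, (hmem a ha).2.2⟩) hR1
    have hzk : (z : ℝ) ≤ (d : ℝ) ^ (1 / (2 * (k : ℝ))) := by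
      refine (Nat.floor_le (Real.rpow_nonneg (by linarith) _)).trans ?_
      exact Real.rpow_le_rpow_of_exponent_le hd1 hck
    obtain ⟨hU0, hXic⟩ := hXi d (by omega) z hzk
    set U := primesOff d z ⌊(d : ℝ) ^ (1 / (k : ℝ))⌋₊ with hUdef
    have hB := hBg d (by omega) (Xi U) hXic
    have hUp : ∀ u ∈ U, u.Prime ∧ Rough z u ∧ u.Coprime d ∧ u * X' ≤ X := by
      intro u hu
      have hu' := hu
      rw [hUdef] at hu'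
      unfold primesOff at hu'
      obtain ⟨_, h7, h8, h9⟩ := mem_filter.1 hu'
      refine ⟨h7, ⟨h7.pos, fun p hp hpu => ?_⟩, (Nat.Prime.coprime_iff_not_dvd h7).2 h9, hU u hu⟩
      rw [(Nat.prime_dvd_prime_iff_eq hp h7).1 hpu]
      exact h8
    have hout := mass_outside d z X X' U hU0 hUp hfull
    have hΞ : ∑ χ ∈ (univ : Finset (DirichletCharacter ℂ d)) \ Xi U, ‖SF (FX d z X') χ‖ ^ 2 ≤
        ζ ^ 2 * φ ^ 2 := by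
      refine hout.trans ?_
      have h6 : φ * (4 * ((PX d z X' \ PX d z X).card : ℝ)) ≤ φ * (ζ ^ 2 * φ) :=
        mul_le_mul_of_nonneg_left hζ4 (by linarith)
      calc 4 * φ * ((PX d z X' \ PX d z X).card : ℝ) = φ * (4 * ((PX d z X' \ PX d z X).card : ℝ)) := by ring
        _ ≤ φ * (ζ ^ 2 * φ) := h6
        _ = ζ ^ 2 * φ ^ 2 := by ring
    have hPX : ∀ x, x ∈ PX d z X' ↔ FX d z X' x ≠ 0 := by
      intro x
      unfold PX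
      rw [mem_filter]
      exact ⟨fun h => h.2, fun h => ⟨mem_univ _, h⟩⟩
    have hF0 : ∀ x, x ∉ PX d z X' → FX d z X' x = 0 := by
      intro x hx
      by_contra h6
      exact hx ((hPX x).2 h6)
    have hF1 : ∀ x ∈ PX d z X', FX d z X' x ^ 2 = 1 := fun x hx => FX_sq ((hPX x).1 hx)
    have hFR : ∀ a ∈ RC d z N, ∀ b ∈ RC d z N, ucl d (a * b) ∈ PX d z X' →
        FX d z X' (ucl d (a * b)) = lio a * lio b := by
      intro a ha b hb hab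
      obtain ⟨⟨ha1, ha2⟩, ha3, ha4⟩ := hmem a ha
      obtain ⟨⟨hb1, hb2⟩, hb3, hb4⟩ := hmem b hb
      rw [FX_mem ((hPX _).1 hab) (ha3.mul hb3) ((Nat.mul_le_mul ha2 hb2).trans hNN)
        (ucl_val (Nat.Coprime.mul_left ha4 hb4)).symm]
      exact lio_mul (by omega) (by omega)
    obtain ⟨H, c0, h1, h2⟩ := scale_structure (RC d z N) (fun a ha => ⟨(hmem a ha).1.1, (hmem a ha).2.2⟩) hR2
      (FX d z X') (PX d z X') hF0 hF1 hFR (Xi U) m τ ζ Er hm hEr0 hr hEr hΞ hB δ r0 m0 hδ hδ1 hm0 hr0 hτ hζ hQ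
    refine ⟨H, c0, fun hH => ?_, h1.trans ?_⟩
    · obtain ⟨ψ, χ, h3, h4⟩ := h2 hH
      refine hT d (by omega) X X' hfull hNN hU ?_ hQ ψ χ h3 h4
      have h6 : ζ ^ 2 * φ ≤ δ / 64 * φ := mul_le_mul_of_nonneg_right hζ2 (by linarith)
      have h7 : 0 < δ * φ := by positivity
      linarith
    · have h7 : 0 < δ * φ := by positivity
      linarith

end Pool.Agent.Lib.MP_42948a_nt.TQ
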