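import Pool.Agent.Lib.MP_42948a_nt.TQ.G13

/-!
# Both parities in almost all classes at the exponent `1 + ε` (job G14)

As `three_quarters` (`TQ/Z10.lean`). `few_pure` with `min ε 1`, `min δ 1`, `X = ⌊d^(1 + min ε 1)⌋`. For `a < d` coprime to `d` let `x` be its unit
(`ZMod.unitOfCoprime`). If for some `s < 2` no `n` as in the claim exists, then no rough `n ≤ X` of class `x` has `Ω(n) % 2 = s`, i.e. `lio n = σ`, `σ = (-1)^s`, so
`att d z X σ x` fails and `x ∈ PX d z X` (`FX_ne_zero_iff` with `Full`). The map `a ↦ x` is injective on `range d`, so the count is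
`≤ #PX ≤ (min δ 1) φ ≤ δ φ(d)` (`ZMod.card_units_eq_totient`). (`n ≤ X` gives `(n : ℝ) ≤ d^(1 + min ε 1) ≤ d^(1+ε)`; `⌊d^c⌋ < p` gives `d^c < p`.)
-/

namespace Pool.Agent.Lib.MP_42948a_nt.TQ

open Finset Pool.Agent.Lib.MP_42948a_nt.OA Pool.Agent.Lib.MP_42948a_nt.AC

private theorem G14_lio {n s : ℕ} (hs : s < 2) (h : lio n = (-1 : ℝ) ^ s) :
    ArithmeticFunction.cardFactors n % 2 = s := by
  unfold lio at h
  rcases Nat.even_or_odd (ArithmeticFunction.cardFactors n) with h1 | h1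
  · rw [h1.neg_one_pow] at h
    have h2 : s = 0 := by
      by_contra hne
      have : s = 1 := by omega
      rw [this] at h
      norm_num at h
    rw [h2]
    exact Nat.even_iff.1 h1
  · rw [h1.neg_one_pow] at h
    have h2 : s = 1 := by
      by_contra hne
      have : s = 0 := by omega
      rw [this] at h
      norm_num at h
    rw [h2]
    exact Nat.odd_iff.1 h1

open Classical in
theorem almost_all_chowla (hBur : BurgessProp) (ε δ : ℝ) (hε : 0 < ε) (hδ : 0 < δ) : ∃ c : ℝ, 0 < c ∧ ∃ d₀ : ℕ, ∀ d : ℕ, d₀ ≤ d →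
    (((Finset.range d).filter (fun a : ℕ => a.Coprime d ∧ ∃ s : ℕ, s < 2 ∧ ¬ ∃ n : ℕ, 0 < n ∧
        (n : ℝ) ≤ (d : ℝ) ^ (1 + ε) ∧ n ≡ a [MOD d] ∧ (∀ p : ℕ, p.Prime → p ∣ n → (d : ℝ) ^ c < p) ∧
        ArithmeticFunction.cardFactors n % 2 = s)).card : ℝ) ≤ δ * (d.totient : ℝ) := by
  obtain ⟨c, hc, d0, H⟩ := few_pure hBur (min ε 1) (min δ 1) (lt_min hε one_pos) (min_le_right _ _)
    (lt_min hδ one_pos) (min_le_right _ _)
  refine ⟨c, hc, max d0 1, fun d hd => ?_⟩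
  have hd1 : 1 ≤ d := le_trans (le_max_right _ _) hd
  have hne : NeZero d := ⟨by omega⟩
  obtain ⟨hfull, hq⟩ := H d (le_trans (le_max_left _ _) hd)
  set z := ⌊(d : ℝ) ^ c⌋₊ with hz
  set X := ⌊(d : ℝ) ^ (1 + min ε 1)⌋₊ with hX
  have hdR : (1 : ℝ) ≤ d := by exact_mod_cast hd1
  have h4 : ((Finset.range d).filter (fun a : ℕ => a.Coprime d ∧ ∃ s : ℕ, s < 2 ∧ ¬ ∃ n : ℕ, 0 < n ∧
        (n : ℝ) ≤ (d : ℝ) ^ (1 + ε) ∧ n ≡ a [MOD d] ∧ (∀ p : ℕ, p.Prime → p ∣ n → (d : ℝ) ^ c < p) ∧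
        ArithmeticFunction.cardFactors n % 2 = s)).card ≤ (PX d z X).card := by
    refine Finset.card_le_card_of_injOn (fun a : ℕ => ucl d a) ?_ ?_
    · intro a ha
      obtain ⟨ha1, hcop, s, hs, hn⟩ := mem_filter.1 (mem_coe.1 ha)
      refine mem_coe.2 (mem_filter.2 ⟨mem_univ _, ?_⟩)
      rw [FX_ne_zero_iff hfull]
      have key : ¬ att d z X ((-1 : ℝ) ^ s) (ucl d a) := by
        rintro ⟨n, hn1, hn2, hn3, hn4⟩
        refine hn ⟨n, hn1.pos, ?_, ?_, ?_, G14_lio hs hn4⟩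
        · have e1 : (n : ℝ) ≤ (d : ℝ) ^ (1 + min ε 1) :=
            (Nat.le_floor_iff (by positivity)).1 hn2
          refine e1.trans (Real.rpow_le_rpow_of_exponent_le hdR ?_)
          have := min_le_left ε 1
          linarith
        · rw [← ZMod.natCast_eq_natCast_iff, hn3, ucl_val hcop]
        · intro p hp hpn
          exact Nat.lt_of_floor_lt (hn1.2 p hp hpn)
      rintro ⟨g1, g2⟩
      apply key
      have h01 : s = 0 ∨ s = 1 := by omega
      rcases h01 with h | h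
      · rw [h, pow_zero]
        exact g1
      · rw [h, pow_one]
        exact g2
    · intro a ha b hb hab
      obtain ⟨ha1, hcop, _⟩ := mem_filter.1 (mem_coe.1 ha)
      obtain ⟨hb1, hcop', _⟩ := mem_filter.1 (mem_coe.1 hb)
      have hab' : ucl d a = ucl d b := hab
      have e1 : (a : ZMod d) = (b : ZMod d) := by rw [← ucl_val hcop, ← ucl_val hcop', hab']
      rw [ZMod.natCast_eq_natCast_iff] at e1
      exact Nat.ModEq.eq_of_lt_of_lt e1 (mem_range.1 ha1) (mem_range.1 hb1)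
  have h5 : (d.totient : ℝ) = (Fintype.card (ZMod d)ˣ : ℝ) := by
    rw [ZMod.card_units_eq_totient]
  rw [h5]
  have h6 : min δ 1 ≤ δ := min_le_left _ _
  have h7 : (0 : ℝ) ≤ (Fintype.card (ZMod d)ˣ : ℝ) := Nat.cast_nonneg _
  have h8 : min δ 1 * (Fintype.card (ZMod d)ˣ : ℝ) ≤ δ * (Fintype.card (ZMod d)ˣ : ℝ) :=
    mul_le_mul_of_nonneg_right h6 h7
  exact (by exact_mod_cast h4 : _ ≤ ((PX d z X).card : ℝ)).trans (hq.trans h8)

end Pool.Agent.Lib.MP_42948a_nt.TQ
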