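import Pool.Agent.Lib.MP_42948a_nt.TQ.G14
import Pool.Agent.Lib.MP_42948a_nt.BU.Main

/-!
# Both parities in almost all classes at the exponent `1 + ε`: unconditional form
-/

namespace Pool.Agent.Lib.MP_42948a_nt.TQ

theorem burgess_prop : BurgessProp := fun m hm κ hκ => Pool.Agent.Lib.MP_42948a_nt.BU.burgess_main m hm κ hκ

open Classical in
theorem chowla_parity (ε δ : ℝ) (hε : 0 < ε) (hδ : 0 < δ) : ∃ c : ℝ, 0 < c ∧ ∃ d₀ : ℕ, ∀ d : ℕ, d₀ ≤ d →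
    (((Finset.range d).filter (fun a : ℕ => a.Coprime d ∧ ∃ s : ℕ, s < 2 ∧ ¬ ∃ n : ℕ, 0 < n ∧
        (n : ℝ) ≤ (d : ℝ) ^ (1 + ε) ∧ n ≡ a [MOD d] ∧ (∀ p : ℕ, p.Prime → p ∣ n → (d : ℝ) ^ c < p) ∧
        ArithmeticFunction.cardFactors n % 2 = s)).card : ℝ) ≤ δ * (d.totient : ℝ) :=
  almost_all_chowla burgess_prop ε δ hε hδ

end Pool.Agent.Lib.MP_42948a_nt.TQ
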