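import Pool.Agent.Lib.MP_42948a_nt.TQ.B2

/-!
# Moments of sums over primes (job C1)

Let `pr g` be the number of `f : Fin k → ℕ` with values in `U` (`Fintype.piFinset`) and `∏ i, ucl d (f i) = g`. Then
`(∑_{u ∈ U} χ(u))^k = ∑_{f} ∏ i, χ(f i) = ∑_{g : G} pr g * ev χ g` (`Finset.prod_univ_sum` / `Finset.sum_pow'`-like; `χ(u) = ev χ (ucl d u)`),
so by `parseval_gen` the left side is `card G * ∑_g (pr g)^2 ≤ card G * (max pr) * ∑_g pr g = card G * (max pr) * #U^k`.
Claim `pr g ≤ k^k`: fix one `f0` with product class `g` (if none, `pr g = 0`). If `f` has the same product class then the natural numbers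
`∏ f i`, `∏ f0 i` are congruent mod `d`, both are in `[1, Y^k] ⊆ [1, d]` and coprime to `d`, `d ≥ 2`, so both are `< d` and hence equal.
Every `f i` is a prime dividing `∏ f0 j`, so `f i ∈ {f0 j}`, a set of at most `k` elements; so there are at most `k^k` such `f`
(`Fintype.card_piFinset`).
-/

namespace Pool.Agent.Lib.MP_42948a_nt.TQ

open Finset Pool.Agent.Lib.MP_42948a_nt.OA Pool.Agent.Lib.MP_42948a_nt.AC

private theorem C1_eq {d : ℕ} [NeZero d] (hd : 2 ≤ d) {U : Finset ℕ} {k Y : ℕ}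
    (hU : ∀ u ∈ U, u.Prime ∧ u ≤ Y ∧ u.Coprime d) (hY : Y ^ k ≤ d) {f f0 : Fin k → ℕ} (hf : ∀ i, f i ∈ U)
    (hf0 : ∀ i, f0 i ∈ U) (h : ∏ i, ucl d (f i) = ∏ i, ucl d (f0 i)) : ∏ i, f i = ∏ i, f0 i := by
  have hval : ∀ {e : Fin k → ℕ}, (∀ i, e i ∈ U) →
      ((∏ i, ucl d (e i) : (ZMod d)ˣ) : ZMod d) = ((∏ i, e i : ℕ) : ZMod d) := by
    intro e he
    rw [Units.coe_prod, Nat.cast_prod]
    exact Finset.prod_congr rfl fun i _ => ucl_val (hU _ (he i)).2.2
  have hlt : ∀ {e : Fin k → ℕ}, (∀ i, e i ∈ U) → ∏ i, e i < d := by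
    intro e he
    have h1 : ∏ i, e i ≤ Y ^ k := by
      have h2 := Finset.prod_le_pow_card (univ : Finset (Fin k)) e Y fun i _ => (hU _ (he i)).2.1
      rwa [Finset.card_univ, Fintype.card_fin] at h2
    have h3 : (∏ i, e i).Coprime d := Nat.Coprime.prod_left fun i _ => (hU _ (he i)).2.2
    refine lt_of_le_of_ne (h1.trans hY) fun h4 => ?_
    rw [h4, Nat.coprime_self] at h3
    omega
  have h1 : ((∏ i, f i : ℕ) : ZMod d) = ((∏ i, f0 i : ℕ) : ZMod d) := by
    rw [← hval hf, ← hval hf0, h]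
  rw [ZMod.natCast_eq_natCast_iff', Nat.mod_eq_of_lt (hlt hf), Nat.mod_eq_of_lt (hlt hf0)] at h1
  exact h1

open Classical in
private theorem C1_card {d : ℕ} [NeZero d] (hd : 2 ≤ d) {U : Finset ℕ} {k Y : ℕ}
    (hU : ∀ u ∈ U, u.Prime ∧ u ≤ Y ∧ u.Coprime d) (hY : Y ^ k ≤ d) (g : (ZMod d)ˣ) :
    ((Fintype.piFinset fun _ : Fin k => U).filter (fun f => ∏ i, ucl d (f i) = g)).card ≤ k ^ k := by
  rcases ((Fintype.piFinset fun _ : Fin k => U).filter (fun f => ∏ i, ucl d (f i) = g)).eq_empty_or_nonempty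
    with h | ⟨f0, h0⟩
  · rw [h, Finset.card_empty]
    exact Nat.zero_le _
  · rw [Finset.mem_filter, Fintype.mem_piFinset] at h0
    have hsub : (Fintype.piFinset fun _ : Fin k => U).filter (fun f => ∏ i, ucl d (f i) = g) ⊆
        Fintype.piFinset fun _ : Fin k => univ.image f0 := by
      intro f hf
      rw [Finset.mem_filter, Fintype.mem_piFinset] at hf
      rw [Fintype.mem_piFinset]
      intro i
      have h1 := C1_eq hd hU hY hf.1 h0.1 (hf.2.trans h0.2.symm)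
      have h2 : f i ∣ ∏ j, f0 j := by
        rw [← h1]
        exact Finset.dvd_prod_of_mem f (mem_univ i)
      obtain ⟨j, -, hj⟩ := ((hU _ (hf.1 i)).1.prime.dvd_finsetProd_iff f0).1 h2
      have h3 := (Nat.prime_dvd_prime_iff_eq (hU _ (hf.1 i)).1 (hU _ (h0.1 j)).1).1 hj
      rw [h3]
      exact mem_image_of_mem f0 (mem_univ j)
    refine (card_le_card hsub).trans ?_
    rw [Fintype.card_piFinset_const]
    have h4 : (univ.image f0).card ≤ k := by
      have h5 := Finset.card_image_le (s := (univ : Finset (Fin k))) (f := f0)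
      rwa [Finset.card_univ, Fintype.card_fin] at h5
    simpa using Nat.pow_le_pow_left h4 k

theorem moment (d : ℕ) [NeZero d] (hd : 2 ≤ d) (U : Finset ℕ) (k Y : ℕ)
    (hU : ∀ u ∈ U, u.Prime ∧ u ≤ Y ∧ u.Coprime d) (hY : Y ^ k ≤ d) :
    ∑ χ : DirichletCharacter ℂ d, ‖∑ u ∈ U, χ (u : ZMod d)‖ ^ (2 * k) ≤
      (Fintype.card (ZMod d)ˣ : ℝ) * (U.card : ℝ) ^ k * (k : ℝ) ^ k := by
  classical
  set r : (ZMod d)ˣ → ℂ := fun g =>
    ((((Fintype.piFinset fun _ : Fin k => U).filter (fun f => ∏ i, ucl d (f i) = g)).card : ℕ) : ℂ) with hr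
  have h1 : ∀ χ : DirichletCharacter ℂ d, (∑ u ∈ U, χ (u : ZMod d)) ^ k = ∑ c : (ZMod d)ˣ, r c * ev χ c := by
    intro χ
    have h2 : (∑ u ∈ U, χ (u : ZMod d)) ^ k = ∏ _i : Fin k, ∑ u ∈ U, χ (u : ZMod d) := by
      rw [Finset.prod_const, Finset.card_univ, Fintype.card_fin]
    rw [h2, Finset.prod_univ_sum]
    have h3 : ∀ f ∈ Fintype.piFinset fun _ : Fin k => U, ∏ i, χ ((f i : ℕ) : ZMod d) =
        ev χ (∏ i, ucl d (f i)) := by
      intro f hf
      rw [Fintype.mem_piFinset] at hf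
      unfold ev
      rw [Units.coe_prod, map_prod]
      exact Finset.prod_congr rfl fun i _ => by rw [ucl_val (hU _ (hf i)).2.2]
    rw [Finset.sum_congr rfl h3,
      ← Finset.sum_fiberwise (Fintype.piFinset fun _ : Fin k => U) (fun f => ∏ i, ucl d (f i))]
    refine Finset.sum_congr rfl fun c _ => ?_
    rw [Finset.sum_congr rfl (g := fun _ => ev χ c) fun f hf => by rw [(Finset.mem_filter.1 hf).2],
      Finset.sum_const, nsmul_eq_mul]
  have h4 : ∑ χ : DirichletCharacter ℂ d, ‖∑ u ∈ U, χ (u : ZMod d)‖ ^ (2 * k) =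
      (Fintype.card (ZMod d)ˣ : ℝ) * ∑ c : (ZMod d)ˣ, ‖r c‖ ^ 2 := by
    rw [← parseval_gen]
    refine Finset.sum_congr rfl fun χ _ => ?_
    rw [← h1, norm_pow, mul_comm 2 k, pow_mul]
  rw [h4, mul_assoc]
  refine mul_le_mul_of_nonneg_left ?_ (Nat.cast_nonneg _)
  have h5 : ∀ c : (ZMod d)ˣ, ‖r c‖ ^ 2 ≤
      ((((Fintype.piFinset fun _ : Fin k => U).filter (fun f => ∏ i, ucl d (f i) = c)).card : ℕ) : ℝ) *
        (k : ℝ) ^ k := by
    intro c
    have h6 := C1_card hd hU hY c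
    have h7 : ((((Fintype.piFinset fun _ : Fin k => U).filter (fun f => ∏ i, ucl d (f i) = c)).card : ℕ) : ℝ) ≤
        (k : ℝ) ^ k := by exact_mod_cast h6
    rw [hr]
    simp only [Complex.norm_natCast]
    rw [pow_two]
    exact mul_le_mul_of_nonneg_left h7 (Nat.cast_nonneg _)
  refine (Finset.sum_le_sum fun c _ => h5 c).trans ?_
  rw [← Finset.sum_mul, ← Nat.cast_sum]
  have h8 : ∑ c : (ZMod d)ˣ, ((Fintype.piFinset fun _ : Fin k => U).filter
      (fun f => ∏ i, ucl d (f i) = c)).card = U.card ^ k := by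
    rw [← Finset.card_eq_sum_card_fiberwise (f := fun f : Fin k → ℕ => ∏ i, ucl d (f i))
      (s := Fintype.piFinset fun _ : Fin k => U) (t := univ) (fun _ _ => mem_univ _),
      Fintype.card_piFinset_const]
  rw [h8, Nat.cast_pow]

end Pool.Agent.Lib.MP_42948a_nt.TQ
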