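import Pool.Agent.Lib.MP_42948a_nt.TQ.C1

/-!
# Few characters are large on the primes (job C2)

By `moment`: `#Ξ * (#U/2)^(2k) ≤ card G * #U^k * k^k`. Multiply by `4^k`: `#Ξ * #U^(2k) ≤ 4^k * card G * #U^k * k^k`. If `#U > 0` divide by
`#U^k`; if `#U = 0` and `k ≥ 1` the left side of the claim is `0`.
-/

namespace Pool.Agent.Lib.MP_42948a_nt.TQ

open Finset Pool.Agent.Lib.MP_42948a_nt.OA Pool.Agent.Lib.MP_42948a_nt.AC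

theorem card_Xi (d : ℕ) [NeZero d] (hd : 2 ≤ d) (U : Finset ℕ) (k Y : ℕ) (hk : 1 ≤ k)
    (hU : ∀ u ∈ U, u.Prime ∧ u ≤ Y ∧ u.Coprime d) (hY : Y ^ k ≤ d) (Ξ : Finset (DirichletCharacter ℂ d))
    (hΞ : ∀ χ ∈ Ξ, (U.card : ℝ) / 2 ≤ ‖∑ u ∈ U, χ (u : ZMod d)‖) :
    (Ξ.card : ℝ) * (U.card : ℝ) ^ k ≤ 4 ^ k * (k : ℝ) ^ k * (Fintype.card (ZMod d)ˣ : ℝ) := by
  have hm := moment d hd U k Y hU hY
  have hN0 : (0 : ℝ) ≤ (U.card : ℝ) := Nat.cast_nonneg _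
  set N : ℝ := (U.card : ℝ) with hN
  have h1 : (Ξ.card : ℝ) * (N / 2) ^ (2 * k) ≤ ∑ χ ∈ Ξ, ‖∑ u ∈ U, χ (u : ZMod d)‖ ^ (2 * k) := by
    rw [← nsmul_eq_mul]
    exact Finset.card_nsmul_le_sum Ξ _ _ (fun χ hχ => pow_le_pow_left₀ (by positivity) (hΞ χ hχ) _)
  have h2 : ∑ χ ∈ Ξ, ‖∑ u ∈ U, χ (u : ZMod d)‖ ^ (2 * k) ≤
      ∑ χ : DirichletCharacter ℂ d, ‖∑ u ∈ U, χ (u : ZMod d)‖ ^ (2 * k) :=
    Finset.sum_le_sum_of_subset_of_nonneg (Finset.subset_univ Ξ) (fun _ _ _ => by positivity)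
  rcases hN0.eq_or_lt with h0 | h0
  · rw [← h0, zero_pow (by omega), mul_zero]
    positivity
  · have h3 : (N / 2) ^ (2 * k) = N ^ k * N ^ k / 4 ^ k := by
      rw [div_pow, two_mul, pow_add, pow_add, ← mul_pow 2 2 k]
      norm_num
    have h4 : (Ξ.card : ℝ) * (N ^ k * N ^ k / 4 ^ k) ≤ (Fintype.card (ZMod d)ˣ : ℝ) * N ^ k * (k : ℝ) ^ k := by
      rw [← h3]
      exact h1.trans (h2.trans hm)
    have h5 : (0 : ℝ) < 4 ^ k := by positivity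
    have h6 : 0 < N ^ k := by positivity
    have h7 : (Ξ.card : ℝ) * N ^ k * N ^ k ≤ (4 ^ k * (k : ℝ) ^ k * (Fintype.card (ZMod d)ˣ : ℝ)) * N ^ k := by
      have h8 := mul_le_mul_of_nonneg_right h4 h5.le
      have h9 : (Ξ.card : ℝ) * (N ^ k * N ^ k / 4 ^ k) * 4 ^ k = (Ξ.card : ℝ) * N ^ k * N ^ k := by
        field_simp
      rw [h9] at h8
      linarith
    exact le_of_mul_le_mul_right h7 h6

end Pool.Agent.Lib.MP_42948a_nt.TQ
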