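import Pool.Agent.Lib.MP_42948a_nt.TQ.Defs
import Pool.Agent.Lib.MP_42948a_nt.OA.EF

/-!
# Dispersion, Parseval (job D1)

`e = ZMod.stdAddChar`, `S h = ∑_{b ∈ Icc 1 M} e(h b)`. For `a ∈ A` and every `c : ZMod d` put `N_a c = #{b ∈ Icc 1 M : b * κ a = c}`
(`b = c κ_a⁻¹`). Orthogonality: `d N_a c = ∑_{k : ZMod d} ∑_b e(k (b κ_a - c)) = ∑_k S(k κ_a) e(-k c)`. So
`d ∑_{a ∈ A} N_a c = ∑_k g k e(-k c)`, `g k = ∑_{a ∈ A} S(k κ_a)`, `g 0 = #A * M`, i.e.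
`∑_a N_a c - #A M/d = (1/d) ∑_{k ≠ 0} g k e(-k c)` for all `c : ZMod d`. Parseval over `c : ZMod d` (orthogonality again):
`∑_{c : ZMod d} |..|^2 = (1/d) ∑_{k ≠ 0} ‖g k‖^2`. Restrict the sum over `c` to units (injective image in `ZMod d`, terms `≥ 0`) and use
`‖g k‖ ≤ ∑_a ‖S(k κ_a)‖`.
-/

namespace Pool.Agent.Lib.MP_42948a_nt.TQ

open Finset Pool.Agent.Lib.MP_42948a_nt.OA Pool.Agent.Lib.MP_42948a_nt.AC

private theorem D1_orth (d : ℕ) [NeZero d] (x : ZMod d) :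
    ∑ t : ZMod d, (ZMod.stdAddChar (t * x) : ℂ) = if x = 0 then (d : ℂ) else 0 := by
  classical
  rw [AddChar.sum_mulShift _ (ZMod.isPrimitive_stdAddChar d), ZMod.card]
  by_cases h : x = 0
  · rw [if_pos h, if_pos h]
  · rw [if_neg h, if_neg h, Nat.cast_zero]

private theorem D1_parseval (d : ℕ) [NeZero d] (s : Finset (ZMod d)) (g : ZMod d → ℂ) :
    ∑ c : ZMod d, ‖∑ k ∈ s, g k * (ZMod.stdAddChar (-(k * c)) : ℂ)‖ ^ 2 = (d : ℝ) * ∑ k ∈ s, ‖g k‖ ^ 2 := by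
  classical
  have h1 : ∀ c : ZMod d, ((‖∑ k ∈ s, g k * (ZMod.stdAddChar (-(k * c)) : ℂ)‖ ^ 2 : ℝ) : ℂ) =
      ∑ k ∈ s, ∑ k' ∈ s, (g k * (starRingEnd ℂ) (g k')) * (ZMod.stdAddChar (c * (k' - k)) : ℂ) := by
    intro c
    have h2 : ((‖∑ k ∈ s, g k * (ZMod.stdAddChar (-(k * c)) : ℂ)‖ ^ 2 : ℝ) : ℂ) =
        (∑ k ∈ s, g k * (ZMod.stdAddChar (-(k * c)) : ℂ)) *
          (starRingEnd ℂ) (∑ k ∈ s, g k * (ZMod.stdAddChar (-(k * c)) : ℂ)) := by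
      rw [Complex.mul_conj, Complex.normSq_eq_norm_sq]
    rw [h2, map_sum, Finset.sum_mul_sum]
    apply Finset.sum_congr rfl
    intro k _
    apply Finset.sum_congr rfl
    intro k' _
    rw [map_mul, ← AddChar.map_neg_eq_conj, neg_neg]
    have h3 : (ZMod.stdAddChar (c * (k' - k)) : ℂ) =
        (ZMod.stdAddChar (-(k * c)) : ℂ) * (ZMod.stdAddChar (k' * c) : ℂ) := by
      rw [← AddChar.map_add_eq_mul]
      congr 1
      ring
    rw [h3]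
    ring
  have h4 : ((∑ c : ZMod d, ‖∑ k ∈ s, g k * (ZMod.stdAddChar (-(k * c)) : ℂ)‖ ^ 2 : ℝ) : ℂ) =
      (((d : ℝ) * ∑ k ∈ s, ‖g k‖ ^ 2 : ℝ) : ℂ) := by
    rw [Complex.ofReal_sum, Finset.sum_congr rfl (fun c _ => h1 c), Finset.sum_comm]
    push_cast
    rw [Finset.mul_sum]
    apply Finset.sum_congr rfl
    intro k hk
    rw [Finset.sum_comm]
    have h5 : ∀ k' ∈ s, ∑ c : ZMod d, (g k * (starRingEnd ℂ) (g k')) * (ZMod.stdAddChar (c * (k' - k)) : ℂ) =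
        if k' = k then (d : ℂ) * ((‖g k‖ : ℂ) ^ 2) else 0 := by
      intro k' _
      rw [← Finset.mul_sum, D1_orth]
      by_cases h : k' = k
      · subst h
        rw [sub_self, if_pos rfl, if_pos rfl, Complex.mul_conj, Complex.normSq_eq_norm_sq]
        push_cast
        ring
      · rw [if_neg (sub_ne_zero.2 h), if_neg h, mul_zero]
    rw [Finset.sum_congr rfl h5, Finset.sum_ite_eq', if_pos hk]
  exact_mod_cast h4

open Classical in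
theorem disp_parseval (d : ℕ) [NeZero d] (A : Finset ℕ) (κ : ℕ → (ZMod d)ˣ) (M : ℕ) :
    ∑ c : (ZMod d)ˣ, (∑ a ∈ A, (((Icc 1 M).filter (fun b : ℕ => (b : ZMod d) * (κ a : ZMod d) = (c : ZMod d))).card : ℝ) -
        (A.card : ℝ) * M / d) ^ 2 ≤
      1 / (d : ℝ) * ∑ k ∈ (univ : Finset (ZMod d)).erase 0,
        (∑ a ∈ A, ‖∑ b ∈ Icc 1 M, (ZMod.stdAddChar (k * (κ a : ZMod d) * (b : ZMod d)) : ℂ)‖) ^ 2 := by
  have hd0 : 0 < d := Nat.pos_of_ne_zero (NeZero.ne d)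
  have hd : (0 : ℝ) < d := by exact_mod_cast hd0
  have hdC : (d : ℂ) ≠ 0 := by exact_mod_cast hd.ne'
  obtain ⟨F, hF⟩ : ∃ F : ZMod d → ℝ, F = fun c => ∑ a ∈ A, (((Icc 1 M).filter
      (fun b : ℕ => (b : ZMod d) * (κ a : ZMod d) = c)).card : ℝ) - (A.card : ℝ) * M / d := ⟨_, rfl⟩
  obtain ⟨g, hg⟩ : ∃ g : ZMod d → ℂ, g = fun k => ∑ a ∈ A, ∑ b ∈ Icc 1 M,
      (ZMod.stdAddChar (k * (κ a : ZMod d) * (b : ZMod d)) : ℂ) := ⟨_, rfl⟩
  have hg0 : g 0 = (A.card : ℂ) * M := by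
    rw [hg]
    simp
  have hFg : ∀ c : ZMod d, (d : ℂ) * (F c : ℂ) =
      ∑ k ∈ (univ : Finset (ZMod d)).erase 0, g k * (ZMod.stdAddChar (-(k * c)) : ℂ) := by
    intro c
    have h1 : ∑ k : ZMod d, g k * (ZMod.stdAddChar (-(k * c)) : ℂ) =
        (d : ℂ) * ∑ a ∈ A, (((Icc 1 M).filter (fun b : ℕ => (b : ZMod d) * (κ a : ZMod d) = c)).card : ℂ) := by
      have h2 : ∀ k : ZMod d, g k * (ZMod.stdAddChar (-(k * c)) : ℂ) =
          ∑ a ∈ A, ∑ b ∈ Icc 1 M, (ZMod.stdAddChar (k * ((b : ZMod d) * (κ a : ZMod d) - c)) : ℂ) := by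
        intro k
        rw [hg]
        simp only
        rw [Finset.sum_mul]
        apply Finset.sum_congr rfl
        intro a _
        rw [Finset.sum_mul]
        apply Finset.sum_congr rfl
        intro b _
        rw [← AddChar.map_add_eq_mul]
        congr 1
        ring
      rw [Finset.sum_congr rfl (fun k _ => h2 k), Finset.sum_comm, Finset.mul_sum]
      apply Finset.sum_congr rfl
      intro a _
      rw [Finset.sum_comm]
      have h3 : ∀ b ∈ Icc 1 M, ∑ k : ZMod d, (ZMod.stdAddChar (k * ((b : ZMod d) * (κ a : ZMod d) - c)) : ℂ) =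
          if (b : ZMod d) * (κ a : ZMod d) = c then (d : ℂ) else 0 := by
        intro b _
        rw [D1_orth]
        by_cases h : (b : ZMod d) * (κ a : ZMod d) = c
        · rw [if_pos h, if_pos (sub_eq_zero.2 h)]
        · rw [if_neg h, if_neg (sub_ne_zero.2 h)]
      rw [Finset.sum_congr rfl h3, ← Finset.sum_filter, Finset.sum_const, nsmul_eq_mul, mul_comm]
    have h4 := Finset.add_sum_erase univ (fun k => g k * (ZMod.stdAddChar (-(k * c)) : ℂ)) (mem_univ (0 : ZMod d))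
    simp only [zero_mul, neg_zero, AddChar.map_zero_eq_one, mul_one] at h4
    rw [h1, hg0] at h4
    rw [hF]
    push_cast
    have h5 : (d : ℂ) * (∑ a ∈ A, (((Icc 1 M).filter (fun b : ℕ => (b : ZMod d) * (κ a : ZMod d) = c)).card : ℂ) -
        (A.card : ℂ) * M / d) = (d : ℂ) * ∑ a ∈ A, (((Icc 1 M).filter
          (fun b : ℕ => (b : ZMod d) * (κ a : ZMod d) = c)).card : ℂ) - (A.card : ℂ) * M := by
      field_simp
    rw [h5, ← h4]
    ring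
  have hunit : ∑ c : (ZMod d)ˣ, (F (c : ZMod d)) ^ 2 ≤ ∑ c : ZMod d, (F c) ^ 2 := by
    have h1 : ∑ c : (ZMod d)ˣ, (F (c : ZMod d)) ^ 2 =
        ∑ c ∈ (univ : Finset (ZMod d)ˣ).map ⟨Units.val, Units.val_injective⟩, (F c) ^ 2 := by
      rw [Finset.sum_map]
      rfl
    rw [h1]
    exact Finset.sum_le_sum_of_subset_of_nonneg (subset_univ _) (fun _ _ _ => sq_nonneg _)
  have hpars : (d : ℝ) ^ 2 * ∑ c : ZMod d, (F c) ^ 2 =
      (d : ℝ) * ∑ k ∈ (univ : Finset (ZMod d)).erase 0, ‖g k‖ ^ 2 := by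
    rw [← D1_parseval, Finset.mul_sum]
    apply Finset.sum_congr rfl
    intro c _
    rw [← hFg c, norm_mul, Complex.norm_natCast, Complex.norm_real, mul_pow, Real.norm_eq_abs, sq_abs]
  have hpars2 : ∑ c : ZMod d, (F c) ^ 2 = 1 / (d : ℝ) * ∑ k ∈ (univ : Finset (ZMod d)).erase 0, ‖g k‖ ^ 2 := by
    have h1 : (d : ℝ) * ((d : ℝ) * ∑ c : ZMod d, (F c) ^ 2) =
        (d : ℝ) * ∑ k ∈ (univ : Finset (ZMod d)).erase 0, ‖g k‖ ^ 2 := by
      rw [← hpars]; ring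
    have h2 := mul_left_cancel₀ hd.ne' h1
    rw [← h2]
    field_simp
  have hfin : ∑ k ∈ (univ : Finset (ZMod d)).erase 0, ‖g k‖ ^ 2 ≤ ∑ k ∈ (univ : Finset (ZMod d)).erase 0,
        (∑ a ∈ A, ‖∑ b ∈ Icc 1 M, (ZMod.stdAddChar (k * (κ a : ZMod d) * (b : ZMod d)) : ℂ)‖) ^ 2 := by
    apply Finset.sum_le_sum
    intro k _
    apply pow_le_pow_left₀ (norm_nonneg _)
    rw [hg]
    exact norm_sum_le _ _
  have e1 : ∑ c : (ZMod d)ˣ, (∑ a ∈ A, (((Icc 1 M).filter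
      (fun b : ℕ => (b : ZMod d) * (κ a : ZMod d) = (c : ZMod d))).card : ℝ) - (A.card : ℝ) * M / d) ^ 2 =
      ∑ c : (ZMod d)ˣ, (F (c : ZMod d)) ^ 2 := by
    rw [hF]
  rw [e1]
  refine hunit.trans ?_
  rw [hpars2]
  exact mul_le_mul_of_nonneg_left hfin (by positivity)

end Pool.Agent.Lib.MP_42948a_nt.TQ
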