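import Pool.Agent.Lib.MP_42948a_nt.TQ.Defs
import Pool.Agent.Lib.MP_42948a_nt.OA.ED

/-!
# Dyadic majorant of the exponential sum (job D2)

`‖S‖ ≤ M ≤ N` trivially and `‖S‖ ≤ d / (2 nz h)` (`geom_bound`), `nz h ≥ 1` since `h ≠ 0`. Let `J = Nat.log 2 N + 1`, so `N < 2^J` and
`nz h * N ≤ (d/2) * N ≤ 2^J * d` (as `nz h ≤ d/2`). Let `j0 ≤ J` be the least `j` with `nz h * N ≤ 2^j * d` (`Nat.find`). If `j0 = 0` the term
`j = 0` of the right side is `N ≥ ‖S‖`. If `j0 ≥ 1` then `2^(j0-1) d < nz h * N`, so `‖S‖ ≤ d/(2 nz h) < N / 2^j0`, the term `j = j0`. All other terms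
are `≥ 0`.
-/

namespace Pool.Agent.Lib.MP_42948a_nt.TQ

open Finset Pool.Agent.Lib.MP_42948a_nt.OA Pool.Agent.Lib.MP_42948a_nt.AC

theorem dyadic_w (d : ℕ) [NeZero d] (N M : ℕ) (hN : 1 ≤ N) (hMN : M ≤ N) (h : ZMod d) (hh : h ≠ 0) :
    ‖∑ b ∈ Icc 1 M, (ZMod.stdAddChar (h * (b : ZMod d)) : ℂ)‖ ≤
      ∑ j ∈ range (Nat.log 2 N + 2), (N : ℝ) / 2 ^ j * (if nz h * N ≤ 2 ^ j * d then (1 : ℝ) else 0) := by
  have hlt : h.val < d := ZMod.val_lt h
  have hv : h.val ≠ 0 := fun h' => hh ((ZMod.val_eq_zero h).mp h')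
  have hnz : nz h = min h.val (d - h.val) := rfl
  have hnz1 : 1 ≤ nz h := by
    rw [hnz]
    exact le_min (by omega) (by omega)
  have hnz2 : 2 * nz h ≤ d := by
    rw [hnz]
    rcases le_total h.val (d - h.val) with h1 | h1
    · rw [min_eq_left h1]; omega
    · rw [min_eq_right h1]; omega
  have htriv : ‖∑ b ∈ Icc 1 M, (ZMod.stdAddChar (h * (b : ZMod d)) : ℂ)‖ ≤ N := by
    refine (norm_sum_le _ _).trans ?_
    have h1 : ∀ b ∈ Icc 1 M, ‖(ZMod.stdAddChar (h * (b : ZMod d)) : ℂ)‖ = 1 := fun b _ =>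
      AddChar.norm_apply _ _
    rw [Finset.sum_congr rfl h1]
    simp only [sum_const, Nat.card_Icc, add_tsub_cancel_right, nsmul_eq_mul, mul_one]
    exact_mod_cast hMN
  have hgeom := geom_bound d h hh M
  rw [← hnz] at hgeom
  classical
  have hex : ∃ j : ℕ, nz h * N ≤ 2 ^ j * d := by
    refine ⟨Nat.log 2 N + 1, ?_⟩
    have h1 : N < 2 ^ (Nat.log 2 N + 1) := Nat.lt_pow_succ_log_self (by norm_num) N
    calc nz h * N ≤ d * 2 ^ (Nat.log 2 N + 1) := Nat.mul_le_mul (by omega) h1.le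
      _ = 2 ^ (Nat.log 2 N + 1) * d := mul_comm _ _
  have hle : Nat.find hex ≤ Nat.log 2 N + 1 := by
    apply Nat.find_min'
    have h1 : N < 2 ^ (Nat.log 2 N + 1) := Nat.lt_pow_succ_log_self (by norm_num) N
    calc nz h * N ≤ d * 2 ^ (Nat.log 2 N + 1) := Nat.mul_le_mul (by omega) h1.le
      _ = 2 ^ (Nat.log 2 N + 1) * d := mul_comm _ _
  have hspec := Nat.find_spec hex
  have hterm : ∀ j, 0 ≤ (N : ℝ) / 2 ^ j * (if nz h * N ≤ 2 ^ j * d then (1 : ℝ) else 0) := by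
    intro j
    split_ifs <;> positivity
  refine le_trans ?_ (Finset.single_le_sum (fun j _ => hterm j)
    (Finset.mem_range.2 (show Nat.find hex < Nat.log 2 N + 2 by omega)))
  rw [if_pos hspec, mul_one]
  rcases Nat.eq_zero_or_pos (Nat.find hex) with h0 | h0
  · rw [h0, pow_zero, div_one]
    exact htriv
  · obtain ⟨j, hj⟩ := Nat.exists_eq_succ_of_ne_zero h0.ne'
    have h1 : ¬ nz h * N ≤ 2 ^ j * d := Nat.find_min hex (by omega)
    push Not at h1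
    rw [hj]
    refine hgeom.trans ?_
    have h2 : (0 : ℝ) < nz h := by exact_mod_cast hnz1
    rw [div_le_div_iff₀ (by positivity) (by positivity)]
    have h3 : (2 : ℝ) ^ j * d ≤ nz h * N := by exact_mod_cast h1.le
    rw [Nat.succ_eq_add_one, pow_succ]
    nlinarith

end Pool.Agent.Lib.MP_42948a_nt.TQ
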