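import Pool.Agent.Lib.MP_42948a_nt.TQ.Defs

/-!
# Counting small multiples (job D3)

The left side is the number of triples `(k, a, a')`, `k ≠ 0`, `a, a' ∈ A`, with `h = k a`, `h' = k a'` both in
`L = {h ≠ 0 : nz h * N ≤ 2^j d}` (`k a ≠ 0` since `a` is a unit). The map `(k, a, a') ↦ (h, h', a, a')` is injective (`k = h a⁻¹`) and
`h * a' = h' * a` in `ZMod d`. Let `s h ∈ ℤ` be the representative of `h` with `|s h| = nz h` (`h.val` if `h.val ≤ d - h.val`, else
`h.val - d`), `0 < |s h|`, `|s h| * N ≤ 2^j d`. Fix `(h, a')`: the integer `v = s(h') * a` is nonzero, `|v| ≤ nz h' * N ≤ B := 2^j d`,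
and `v ≡ s(h) a' mod d`; the number of integers `v ∈ [-B, B]` in a given class mod `d` is at most `2 B / d + 1 = 2^(j+1) + 1 ≤ 2^(j+2)`;
given `v`, the pair `(h', a)` is determined by `a`, a divisor of `|v|` (`s h' = v / a`, and `h'` is the class of `s h'`), so there are at most
`(|v|).divisors.card ≤ τm` of them (`|v| ≤ 2^j d ≤ 4 N d`: `2^j ≤ 2^(log2 N + 1) ≤ 2 N`). Number of `h ∈ L`: `nz h ≤ B/N` and
every value `n = nz h ≥ 1` is taken by at most two `h` (`h.val = n` or `d - n`), so `#L ≤ 2 B / N`, and `#A ≤ N`: together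
`#L * #A ≤ 2 B = 2^(j+1) d`. Total `≤ 2^(j+1) d * 2^(j+2) * τm = 8 * 4^j * d * τm`.
-/

namespace Pool.Agent.Lib.MP_42948a_nt.TQ

open Finset Pool.Agent.Lib.MP_42948a_nt.OA Pool.Agent.Lib.MP_42948a_nt.AC

private theorem D3_abs {d : ℕ} [NeZero d] (h : ZMod d) : h.valMinAbs.natAbs = nz h :=
  ZMod.valMinAbs_natAbs_eq_min h

/-- the number of small elements -/
private theorem D3_small (d : ℕ) [NeZero d] (M : ℕ) (L : Finset (ZMod d)) (hL : ∀ h ∈ L, h ≠ 0 ∧ nz h ≤ M) :
    L.card ≤ 2 * M := by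
  classical
  have h1 : L.card ≤ ((Icc (-(M : ℤ)) M).erase 0).card := by
    refine Finset.card_le_card_of_injOn (fun h => h.valMinAbs) ?_ ?_
    · intro h hh
      obtain ⟨h2, h3⟩ := hL h hh
      rw [← D3_abs] at h3
      have h4 : h.valMinAbs ≠ 0 := fun h5 => h2 ((ZMod.valMinAbs_eq_zero h).1 h5)
      simp only [Finset.coe_erase, Set.mem_sdiff, Finset.mem_coe, Finset.mem_Icc, Set.mem_singleton_iff]
      refine ⟨⟨by omega, by omega⟩, h4⟩
    · intro h _ h' _ hh
      exact ZMod.injective_valMinAbs hh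
  have h2 : ((Icc (-(M : ℤ)) M).erase 0).card = 2 * M := by
    rw [Finset.card_erase_of_mem (by simp), Int.card_Icc]
    omega
  omega

/-- the number of integers of a class in an interval -/
private theorem D3_class (d : ℕ) [NeZero d] (m : ℕ) (c : ZMod d) :
    ((Icc (-((m * d : ℕ) : ℤ)) ((m * d : ℕ) : ℤ)).filter (fun v : ℤ => (v : ZMod d) = c)).card ≤ 2 * m + 1 := by
  have hd : 0 < d := NeZero.pos d
  have h1 : ((Icc (-((m * d : ℕ) : ℤ)) ((m * d : ℕ) : ℤ)).filter (fun v : ℤ => (v : ZMod d) = c)).card ≤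
      (Icc (0 : ℤ) (2 * m)).card := by
    refine Finset.card_le_card_of_injOn (fun v => (v + (m * d : ℕ)) / (d : ℤ)) ?_ ?_
    · intro v hv
      have hv' := Finset.mem_Icc.1 (Finset.mem_filter.1 (Finset.mem_coe.1 hv)).1
      rw [Finset.mem_coe, Finset.mem_Icc]
      constructor
      · exact Int.ediv_nonneg (by omega) (by omega)
      · apply Int.ediv_le_of_le_mul (by exact_mod_cast hd)
        push_cast at hv' ⊢
        linarith
    · intro v hv v' hv' h
      have e1 := (Finset.mem_filter.1 (Finset.mem_coe.1 hv)).2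
      have e2 := (Finset.mem_filter.1 (Finset.mem_coe.1 hv')).2
      have e3 : (v : ZMod d) = (v' : ZMod d) := e1.trans e2.symm
      rw [ZMod.intCast_eq_intCast_iff_dvd_sub] at e3
      obtain ⟨t, ht⟩ := e3
      simp only at h
      have e4 : v' + (m * d : ℕ) = v + (m * d : ℕ) + (d : ℤ) * t := by linarith
      rw [e4, Int.add_mul_ediv_left _ _ (by exact_mod_cast hd.ne')] at h
      have e5 : t = 0 := by linarith
      rw [e5] at ht
      linarith
  refine h1.trans (le_of_eq ?_)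
  rw [Int.card_Icc]
  omega

/-- the fibres -/
private theorem D3_fibre (d : ℕ) [NeZero d] (N j τm : ℕ) (hN : 1 ≤ N) (hj : j < Nat.log 2 N + 2) (A : Finset ℕ)
    (hA : ∀ a ∈ A, 1 ≤ a ∧ a ≤ N ∧ a.Coprime d)
    (hτ : ∀ v : ℕ, 0 < v → v ≤ 4 * N * d → v.divisors.card ≤ τm) (h : ZMod d) (a' : ℕ) (ha' : a' ∈ A)
    (S : Finset (ZMod d × ℕ × ℕ)) (hS : ∀ t ∈ S, t.1 ≠ 0 ∧ t.2.1 ∈ A ∧ t.2.2 = a' ∧ t.1 * (t.2.1 : ZMod d) = h ∧
      nz (t.1 * (a' : ZMod d)) * N ≤ 2 ^ j * d) :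
    S.card ≤ τm * (2 * 2 ^ j + 1) := by
  classical
  set V : Finset ℤ := (Icc (-((2 ^ j * d : ℕ) : ℤ)) ((2 ^ j * d : ℕ) : ℤ)).filter
    (fun v : ℤ => (v : ZMod d) = h * (a' : ZMod d)) with hV
  have hVc : V.card ≤ 2 * 2 ^ j + 1 := D3_class d (2 ^ j) _
  have hunit : ∀ a ∈ A, IsUnit (a : ZMod d) := fun a ha => (ZMod.isUnit_iff_coprime a d).2 (hA a ha).2.2
  have hB : 2 ^ j * d ≤ 4 * N * d := by
    refine Nat.mul_le_mul_right d ?_
    have h1 : 2 ^ j ≤ 2 ^ (Nat.log 2 N + 1) := Nat.pow_le_pow_right (by norm_num) (by omega)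
    have h2 : 2 ^ Nat.log 2 N ≤ N := Nat.pow_log_le_self 2 (by omega)
    rw [pow_succ] at h1
    omega
  have hkey : ∀ t ∈ S, ((t.1 * (a' : ZMod d)).valMinAbs * (t.2.1 : ℤ)) ∈ V ∧
      0 < ((t.1 * (a' : ZMod d)).valMinAbs * (t.2.1 : ℤ)).natAbs ∧
      ((t.1 * (a' : ZMod d)).valMinAbs * (t.2.1 : ℤ)).natAbs ≤ 2 ^ j * d := by
    intro t ht
    obtain ⟨h1, h2, h3, h4, h5⟩ := hS t ht
    obtain ⟨b1, b2, b3⟩ := hA _ h2
    have e1 : ((t.1 * (a' : ZMod d)).valMinAbs * (t.2.1 : ℤ)).natAbs = nz (t.1 * (a' : ZMod d)) * t.2.1 := by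
      rw [Int.natAbs_mul, D3_abs, Int.natAbs_natCast]
    have e2 : nz (t.1 * (a' : ZMod d)) * t.2.1 ≤ 2 ^ j * d := (Nat.mul_le_mul_left _ b2).trans h5
    have e3 : 0 < nz (t.1 * (a' : ZMod d)) := by
      rw [← D3_abs, Int.natAbs_pos]
      intro h6
      rw [ZMod.valMinAbs_eq_zero] at h6
      exact h1 ((hunit a' ha').mul_left_eq_zero.1 h6)
    refine ⟨?_, by rw [e1]; positivity, by rw [e1]; exact e2⟩
    rw [hV, Finset.mem_filter, Finset.mem_Icc]
    refine ⟨⟨by omega, by omega⟩, ?_⟩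
    push_cast
    rw [← h4]
    ring
  calc S.card ≤ τm * V.card := by
        refine Finset.card_le_mul_card_image_of_maps_to
          (f := fun t : ZMod d × ℕ × ℕ => (t.1 * (a' : ZMod d)).valMinAbs * (t.2.1 : ℤ))
          (fun t ht => (hkey t ht).1) τm ?_
        intro v _
        -- injection into the divisors of `v`
        rcases Finset.eq_empty_or_nonempty
          (S.filter (fun t : ZMod d × ℕ × ℕ => (t.1 * (a' : ZMod d)).valMinAbs * (t.2.1 : ℤ) = v)) with he | hne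
        · rw [he]
          exact Nat.zero_le _
        · obtain ⟨t0, ht0⟩ := hne
          rw [Finset.mem_filter] at ht0
          obtain ⟨-, hp, hle⟩ := hkey t0 ht0.1
          rw [ht0.2] at hp hle
          refine le_trans ?_ (hτ v.natAbs hp (hle.trans hB))
          refine Finset.card_le_card_of_injOn (fun t => t.2.1) ?_ ?_
          · intro t ht
            rw [Finset.mem_coe, Finset.mem_filter] at ht
            rw [Finset.mem_coe, Nat.mem_divisors]
            refine ⟨?_, by omega⟩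
            rw [← ht.2, Int.natAbs_mul, Int.natAbs_natCast]
            exact dvd_mul_left _ _
          · intro t ht t' ht' hh
            rw [Finset.mem_coe, Finset.mem_filter] at ht ht'
            obtain ⟨-, b2, b3, b4, -⟩ := hS t ht.1
            obtain ⟨-, c2, c3, c4, -⟩ := hS t' ht'.1
            simp only at hh
            have e1 : t.1 = t'.1 := by
              have e2 : t.1 * (t.2.1 : ZMod d) = t'.1 * (t.2.1 : ZMod d) := by
                rw [b4, hh, c4]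
              exact (hunit _ b2).mul_right_cancel e2
            exact Prod.ext e1 (Prod.ext hh (b3.trans c3.symm))
    _ ≤ τm * (2 * 2 ^ j + 1) := Nat.mul_le_mul_left _ hVc

theorem count_quad (d : ℕ) [NeZero d] (N j τm : ℕ) (hN : 1 ≤ N) (hj : j < Nat.log 2 N + 2) (A : Finset ℕ)
    (hA : ∀ a ∈ A, 1 ≤ a ∧ a ≤ N ∧ a.Coprime d)
    (hτ : ∀ v : ℕ, 0 < v → v ≤ 4 * N * d → v.divisors.card ≤ τm) :
    ∑ k ∈ (univ : Finset (ZMod d)).erase 0,
        (∑ a ∈ A, (if nz (k * (a : ZMod d)) * N ≤ 2 ^ j * d then (1 : ℝ) else 0)) ^ 2 ≤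
      8 * 4 ^ j * (d : ℝ) * τm := by
  classical
  have hunit : ∀ a ∈ A, IsUnit (a : ZMod d) := fun a ha => (ZMod.isUnit_iff_coprime a d).2 (hA a ha).2.2
  set T : Finset (ZMod d × ℕ × ℕ) := (((univ : Finset (ZMod d)).erase 0) ×ˢ (A ×ˢ A)).filter
    (fun t => nz (t.1 * (t.2.1 : ZMod d)) * N ≤ 2 ^ j * d ∧ nz (t.1 * (t.2.2 : ZMod d)) * N ≤ 2 ^ j * d) with hT
  set L : Finset (ZMod d) := univ.filter (fun h => h ≠ 0 ∧ nz h * N ≤ 2 ^ j * d) with hL
  -- the sum is the number of triples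
  have h1 : ∑ k ∈ (univ : Finset (ZMod d)).erase 0,
        (∑ a ∈ A, (if nz (k * (a : ZMod d)) * N ≤ 2 ^ j * d then (1 : ℝ) else 0)) ^ 2 = (T.card : ℝ) := by
    rw [hT, Finset.card_filter, Nat.cast_sum, Finset.sum_product]
    refine Finset.sum_congr rfl fun k _ => ?_
    rw [sq, Finset.sum_mul_sum, Finset.sum_product]
    refine Finset.sum_congr rfl fun a _ => Finset.sum_congr rfl fun b _ => ?_
    by_cases ha : nz (k * (a : ZMod d)) * N ≤ 2 ^ j * d
    · by_cases hb : nz (k * (b : ZMod d)) * N ≤ 2 ^ j * d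
      · simp [ha, hb]
      · simp [ha, hb]
    · simp [ha]
  rw [h1]
  -- the cardinality of `L ×ˢ A`
  have h2 : (L ×ˢ A).card ≤ 2 * (2 ^ j * d) := by
    rw [Finset.card_product]
    have h3 : L.card ≤ 2 * (2 ^ j * d / N) := by
      refine D3_small d _ L fun h hh => ?_
      rw [hL, Finset.mem_filter] at hh
      exact ⟨hh.2.1, (Nat.le_div_iff_mul_le (by omega)).2 hh.2.2⟩
    have h4 : A.card ≤ N := by
      calc A.card ≤ (Icc 1 N).card := Finset.card_le_card fun a ha => Finset.mem_Icc.2 ⟨(hA a ha).1, (hA a ha).2.1⟩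
        _ = N := by simp
    calc L.card * A.card ≤ 2 * (2 ^ j * d / N) * N := Nat.mul_le_mul h3 h4
      _ = 2 * (2 ^ j * d / N * N) := by ring
      _ ≤ 2 * (2 ^ j * d) := Nat.mul_le_mul_left _ (Nat.div_mul_le_self _ _)
  have h5 : T.card ≤ τm * (2 * 2 ^ j + 1) * (L ×ˢ A).card := by
    refine Finset.card_le_mul_card_image_of_maps_to
      (f := fun t : ZMod d × ℕ × ℕ => (t.1 * (t.2.1 : ZMod d), t.2.2)) ?_ _ ?_
    · intro t ht
      rw [hT, Finset.mem_filter, Finset.mem_product, Finset.mem_product, Finset.mem_erase] at ht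
      obtain ⟨⟨⟨h6, -⟩, h7, h8⟩, h9, -⟩ := ht
      rw [Finset.mem_product, hL, Finset.mem_filter]
      refine ⟨⟨Finset.mem_univ _, ?_, h9⟩, h8⟩
      intro h10
      exact h6 ((hunit _ h7).mul_left_eq_zero.1 h10)
    · rintro ⟨h, a'⟩ hb
      rw [Finset.mem_product] at hb
      refine D3_fibre d N j τm hN hj A hA hτ h a' hb.2 _ ?_
      intro t ht
      rw [Finset.mem_filter, hT, Finset.mem_filter, Finset.mem_product, Finset.mem_product, Finset.mem_erase] at ht
      obtain ⟨⟨⟨⟨h6, -⟩, h7, h8⟩, h9, h10⟩, h11⟩ := ht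
      rw [Prod.mk.injEq] at h11
      refine ⟨h6, h7, h11.2, h11.1, ?_⟩
      rw [← h11.2]
      exact h10
  have h6 : T.card ≤ 8 * 4 ^ j * d * τm := by
    calc T.card ≤ τm * (2 * 2 ^ j + 1) * (L ×ˢ A).card := h5
      _ ≤ τm * (4 * 2 ^ j) * (2 * (2 ^ j * d)) := by
          refine Nat.mul_le_mul (Nat.mul_le_mul_left _ ?_) h2
          have : 1 ≤ 2 ^ j := Nat.one_le_two_pow
          omega
      _ = 8 * (2 ^ j * 2 ^ j) * d * τm := by ring
      _ = 8 * 4 ^ j * d * τm := by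
          rw [← mul_pow]
          norm_num
  exact_mod_cast h6

end Pool.Agent.Lib.MP_42948a_nt.TQ
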