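import Pool.Agent.Lib.MP_42948a_nt.TQ.D1
import Pool.Agent.Lib.MP_42948a_nt.TQ.D2
import Pool.Agent.Lib.MP_42948a_nt.TQ.D3

/-!
# Dispersion of products `a b`, `b` in an interval (job D4)

`disp_parseval` with `κ a = s * ucl d a`; the substitution `k ↦ k s⁻¹` (bijection of `ZMod d \ {0}`) removes `s`:
left side `≤ (1/d) ∑_{k ≠ 0} (∑_a ‖∑_b e(k a b)‖)^2` (`ucl d a` has value `a` for `a ∈ A`). With `J' = Nat.log 2 N + 2` and `dyadic_w` (`h = k a ≠ 0`):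
`∑_a ‖..‖ ≤ ∑_{j < J'} (N/2^j) E_{k,j}`, `E_{k,j} = ∑_a [nz (k a) N ≤ 2^j d]`, and by Cauchy-Schwarz
`(..)^2 ≤ J' ∑_{j<J'} (N/2^j)^2 E_{k,j}^2`. Sum over `k`: `≤ J' ∑_j (N^2/4^j) * 8 * 4^j d τm = 8 J'^2 N^2 d τm` (`count_quad`). Divide by `d`.
-/

namespace Pool.Agent.Lib.MP_42948a_nt.TQ

open Finset Pool.Agent.Lib.MP_42948a_nt.OA Pool.Agent.Lib.MP_42948a_nt.AC

private theorem D4_shift (d : ℕ) [NeZero d] (s : (ZMod d)ˣ) (T : ZMod d → ℝ) :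
    ∑ k ∈ (univ : Finset (ZMod d)).erase 0, T (k * (s : ZMod d)) =
      ∑ k ∈ (univ : Finset (ZMod d)).erase 0, T k := by
  refine sum_nbij' (fun k => k * (s : ZMod d)) (fun k => k * ((s⁻¹ : (ZMod d)ˣ) : ZMod d)) ?_ ?_ ?_ ?_ ?_
  · intro k hk
    rw [mem_erase] at hk ⊢
    refine ⟨fun h => hk.1 ?_, mem_univ _⟩
    exact (Units.mul_left_eq_zero s).1 h
  · intro k hk
    rw [mem_erase] at hk ⊢
    refine ⟨fun h => hk.1 ?_, mem_univ _⟩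
    exact (Units.mul_left_eq_zero s⁻¹).1 h
  · intro k _
    rw [mul_assoc, Units.mul_inv, mul_one]
  · intro k _
    rw [mul_assoc, Units.inv_mul, mul_one]
  · intro k _
    rfl

private theorem D4_inner (d : ℕ) [NeZero d] (N M : ℕ) (hN : 1 ≤ N) (hMN : M ≤ N) (A : Finset ℕ)
    (hA : ∀ a ∈ A, 1 ≤ a ∧ a ≤ N ∧ a.Coprime d) (k : ZMod d) (hk : k ≠ 0) :
    (∑ a ∈ A, ‖∑ b ∈ Icc 1 M, (ZMod.stdAddChar (k * (a : ZMod d) * (b : ZMod d)) : ℂ)‖) ^ 2 ≤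
      ((Nat.log 2 N : ℝ) + 2) * ∑ j ∈ range (Nat.log 2 N + 2), ((N : ℝ) / 2 ^ j) ^ 2 *
        (∑ a ∈ A, (if nz (k * (a : ZMod d)) * N ≤ 2 ^ j * d then (1 : ℝ) else 0)) ^ 2 := by
  have h1 : ∑ a ∈ A, ‖∑ b ∈ Icc 1 M, (ZMod.stdAddChar (k * (a : ZMod d) * (b : ZMod d)) : ℂ)‖ ≤
      ∑ j ∈ range (Nat.log 2 N + 2), ((N : ℝ) / 2 ^ j) *
        ∑ a ∈ A, (if nz (k * (a : ZMod d)) * N ≤ 2 ^ j * d then (1 : ℝ) else 0) := by
    calc ∑ a ∈ A, ‖∑ b ∈ Icc 1 M, (ZMod.stdAddChar (k * (a : ZMod d) * (b : ZMod d)) : ℂ)‖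
        ≤ ∑ a ∈ A, ∑ j ∈ range (Nat.log 2 N + 2), (N : ℝ) / 2 ^ j *
          (if nz (k * (a : ZMod d)) * N ≤ 2 ^ j * d then (1 : ℝ) else 0) := by
          refine sum_le_sum fun a ha => ?_
          refine dyadic_w d N M hN hMN _ fun h0 => hk ?_
          have h2 := (hA a ha).2.2
          rw [← ucl_val h2] at h0
          exact (Units.mul_left_eq_zero _).1 h0
      _ = _ := by
          rw [sum_comm]
          refine sum_congr rfl fun j _ => ?_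
          rw [mul_sum]
  have h0 : 0 ≤ ∑ a ∈ A, ‖∑ b ∈ Icc 1 M, (ZMod.stdAddChar (k * (a : ZMod d) * (b : ZMod d)) : ℂ)‖ :=
    sum_nonneg fun a _ => norm_nonneg _
  refine (pow_le_pow_left₀ h0 h1 2).trans ?_
  have h3 := sq_sum_le_card_mul_sum_sq (s := range (Nat.log 2 N + 2))
    (f := fun j => ((N : ℝ) / 2 ^ j) *
        ∑ a ∈ A, (if nz (k * (a : ZMod d)) * N ≤ 2 ^ j * d then (1 : ℝ) else 0))
  rw [card_range] at h3
  refine h3.trans (le_of_eq ?_)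
  push_cast
  congr 1
  refine sum_congr rfl fun j _ => ?_
  rw [mul_pow]

open Classical in
theorem variance_units (d : ℕ) [NeZero d] (N M τm : ℕ) (hN : 1 ≤ N) (hMN : M ≤ N) (A : Finset ℕ)
    (hA : ∀ a ∈ A, 1 ≤ a ∧ a ≤ N ∧ a.Coprime d)
    (hτ : ∀ v : ℕ, 0 < v → v ≤ 4 * N * d → v.divisors.card ≤ τm) (s : (ZMod d)ˣ) :
    ∑ c : (ZMod d)ˣ, (∑ a ∈ A, (((Icc 1 M).filter (fun b : ℕ => (b : ZMod d) * ((s * ucl d a : (ZMod d)ˣ) : ZMod d) =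
        (c : ZMod d))).card : ℝ) - (A.card : ℝ) * M / d) ^ 2 ≤
      8 * ((Nat.log 2 N : ℝ) + 2) ^ 2 * (N : ℝ) ^ 2 * τm := by
  have hd : (0 : ℝ) < d := by exact_mod_cast Nat.pos_of_ne_zero (NeZero.ne d)
  refine (disp_parseval d A (fun a => s * ucl d a) M).trans ?_
  have h1 : ∑ k ∈ (univ : Finset (ZMod d)).erase 0,
        (∑ a ∈ A, ‖∑ b ∈ Icc 1 M, (ZMod.stdAddChar (k * (((s * ucl d a : (ZMod d)ˣ)) : ZMod d) *
          (b : ZMod d)) : ℂ)‖) ^ 2 =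
      ∑ k ∈ (univ : Finset (ZMod d)).erase 0,
        (∑ a ∈ A, ‖∑ b ∈ Icc 1 M, (ZMod.stdAddChar (k * (a : ZMod d) * (b : ZMod d)) : ℂ)‖) ^ 2 := by
    rw [← D4_shift d s (fun k => (∑ a ∈ A, ‖∑ b ∈ Icc 1 M,
      (ZMod.stdAddChar (k * (a : ZMod d) * (b : ZMod d)) : ℂ)‖) ^ 2)]
    refine sum_congr rfl fun k _ => ?_
    congr 1
    refine sum_congr rfl fun a ha => ?_
    rw [Units.val_mul, ucl_val (hA a ha).2.2, mul_assoc k]
  rw [h1]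
  have h2 : ∑ k ∈ (univ : Finset (ZMod d)).erase 0,
        (∑ a ∈ A, ‖∑ b ∈ Icc 1 M, (ZMod.stdAddChar (k * (a : ZMod d) * (b : ZMod d)) : ℂ)‖) ^ 2 ≤
      8 * ((Nat.log 2 N : ℝ) + 2) ^ 2 * (N : ℝ) ^ 2 * d * τm := by
    calc ∑ k ∈ (univ : Finset (ZMod d)).erase 0,
        (∑ a ∈ A, ‖∑ b ∈ Icc 1 M, (ZMod.stdAddChar (k * (a : ZMod d) * (b : ZMod d)) : ℂ)‖) ^ 2
        ≤ ∑ k ∈ (univ : Finset (ZMod d)).erase 0, ((Nat.log 2 N : ℝ) + 2) *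
          ∑ j ∈ range (Nat.log 2 N + 2), ((N : ℝ) / 2 ^ j) ^ 2 *
            (∑ a ∈ A, (if nz (k * (a : ZMod d)) * N ≤ 2 ^ j * d then (1 : ℝ) else 0)) ^ 2 :=
          sum_le_sum fun k hk => D4_inner d N M hN hMN A hA k (mem_erase.1 hk).1
      _ = ((Nat.log 2 N : ℝ) + 2) * ∑ j ∈ range (Nat.log 2 N + 2), ((N : ℝ) / 2 ^ j) ^ 2 *
            ∑ k ∈ (univ : Finset (ZMod d)).erase 0,
              (∑ a ∈ A, (if nz (k * (a : ZMod d)) * N ≤ 2 ^ j * d then (1 : ℝ) else 0)) ^ 2 := by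
          rw [← mul_sum, sum_comm]
          congr 1
          refine sum_congr rfl fun j _ => ?_
          rw [mul_sum]
      _ ≤ ((Nat.log 2 N : ℝ) + 2) * ∑ j ∈ range (Nat.log 2 N + 2), ((N : ℝ) / 2 ^ j) ^ 2 *
            (8 * 4 ^ j * (d : ℝ) * τm) := by
          refine mul_le_mul_of_nonneg_left (sum_le_sum fun j hj => ?_) (by positivity)
          exact mul_le_mul_of_nonneg_left (count_quad d N j τm hN (mem_range.1 hj) A hA hτ)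
            (by positivity)
      _ = ((Nat.log 2 N : ℝ) + 2) * ∑ j ∈ range (Nat.log 2 N + 2), 8 * (N : ℝ) ^ 2 * d * τm := by
          congr 1
          refine sum_congr rfl fun j _ => ?_
          have h4 : (4 : ℝ) ^ j = 2 ^ j * 2 ^ j := by
            rw [← mul_pow]; norm_num
          have h5 : (0 : ℝ) < 2 ^ j := by positivity
          rw [h4]
          field_simp
      _ = _ := by
          rw [sum_const, card_range, nsmul_eq_mul]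
          push_cast
          ring
  calc 1 / (d : ℝ) * ∑ k ∈ (univ : Finset (ZMod d)).erase 0,
        (∑ a ∈ A, ‖∑ b ∈ Icc 1 M, (ZMod.stdAddChar (k * (a : ZMod d) * (b : ZMod d)) : ℂ)‖) ^ 2
      ≤ 1 / (d : ℝ) * (8 * ((Nat.log 2 N : ℝ) + 2) ^ 2 * (N : ℝ) ^ 2 * d * τm) :=
        mul_le_mul_of_nonneg_left h2 (by positivity)
    _ = _ := by
        field_simp

end Pool.Agent.Lib.MP_42948a_nt.TQ
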