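import Pool.Agent.Lib.MP_42948a_nt.AC.Defs

/-!
# Three quarters of the classes at the exponent `1 + ε`: definitions

`OA` and `AC` are the libraries of `OddAlmostPrimes` and `AlmostAllClasses`: `Rough`, `PP`, `Pj`, `bon`, `esy`, `cc`, `lam`, `FF`, `BB`, `cls`,
`cosetSet`, `primesOff`, `chi`, `RC`, `SS`, `lio`, `RealChar`, `Nm`, `PD` come from there.
`G = (ZMod d)ˣ` and `φ = Fintype.card G` throughout.
-/

namespace Pool.Agent.Lib.MP_42948a_nt.TQ

open Finset Pool.Agent.Lib.MP_42948a_nt.OA Pool.Agent.Lib.MP_42948a_nt.AC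

/-! ## The sieve of precision `τ` -/

/-- admissible densities -/
def Adm (z : ℕ) (g : ℕ → ℝ) : Prop := ∀ p ∈ PP z, 0 ≤ g p ∧ g p ≤ 3 / 4 ∧ g p ≤ 2 / p

/-- the upper functional of the Brun-Hooley sieve -/
noncomputable def UU (z b0 : ℕ) (g : ℕ → ℝ) : ℝ := ∏ j ∈ range z, bon (Pj z j) g (2 * (b0 + j))

/-- the upper sieve weights: coefficients of `UU z b0` -/
noncomputable def um (z b0 : ℕ) (T : Finset ℕ) : ℝ := ∏ j ∈ range z, cc (b0 + j) ((T ∩ Pj z j).card)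

/-- upper weights `u` and lower weights `l` of level `z ^ K` and precision `τ` -/
structure Fund (τ : ℝ) (K z : ℕ) (u l : Finset ℕ → ℝ) : Prop where
  u_abs : ∀ T, |u T| ≤ 1
  l_abs : ∀ T, |l T| ≤ 1
  u_sup : ∀ T, T ⊆ PP z → u T ≠ 0 → ∏ p ∈ T, p ≤ z ^ K
  l_sup : ∀ T, T ⊆ PP z → l T ≠ 0 → ∏ p ∈ T, p ≤ z ^ K
  u_pt : ∀ n : ℕ, (if ∀ p ∈ PP z, ¬ p ∣ n then (1 : ℝ) else 0) ≤
    ∑ T ∈ (PP z).powerset, u T * (if ∀ p ∈ T, p ∣ n then (1 : ℝ) else 0)
  l_pt : ∀ n : ℕ, ∑ T ∈ (PP z).powerset, l T * (if ∀ p ∈ T, p ∣ n then (1 : ℝ) else 0) ≤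
    (if ∀ p ∈ PP z, ¬ p ∣ n then (1 : ℝ) else 0)
  u_sum : ∀ g, Adm z g → ∑ T ∈ (PP z).powerset, u T * ∏ p ∈ T, g p ≤ (1 + τ) * ∏ p ∈ PP z, (1 - g p)
  l_sum : ∀ g, Adm z g → (1 - τ) * ∏ p ∈ PP z, (1 - g p) ≤ ∑ T ∈ (PP z).powerset, l T * ∏ p ∈ T, g p

/-- the sets of primes of level `z ^ K` -/
def TT (z K : ℕ) : Finset (Finset ℕ) := (PP z).powerset.filter (fun T => ∏ p ∈ T, p ≤ z ^ K)

/-- the majorant of the rough numbers defined by the weights `u` -/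
def rho (z : ℕ) (u : Finset ℕ → ℝ) (n : ℕ) : ℝ :=
  ∑ T ∈ (PP z).powerset, u T * (if ∀ p ∈ T, p ∣ n then (1 : ℝ) else 0)

/-- the density of the multiples of `p` in a reduced residue class mod `d` -/
noncomputable def gd (d p : ℕ) : ℝ := if p ∣ d then 0 else 1 / p

/-- the density of the rough numbers in a reduced residue class mod `d` -/
noncomputable def VV (d z : ℕ) : ℝ := ∏ p ∈ PP z, (1 - gd d p)

/-! ## Products `a b` in residue classes -/

/-- the class of `n` (for `n` coprime to `d`) -/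
noncomputable def ucl (d n : ℕ) : (ZMod d)ˣ := if h : n.Coprime d then ZMod.unitOfCoprime n h else 1

theorem ucl_val {d n : ℕ} (h : n.Coprime d) : ((ucl d n : (ZMod d)ˣ) : ZMod d) = (n : ZMod d) := by
  rw [ucl, dif_pos h, ZMod.coe_unitOfCoprime]

theorem ucl_eq {d n : ℕ} (h : n.Coprime d) {c : (ZMod d)ˣ} (hc : (n : ZMod d) = (c : ZMod d)) : ucl d n = c := by
  ext
  rw [ucl_val h, hc]

theorem ucl_mul {d m n : ℕ} (hm : m.Coprime d) (hn : n.Coprime d) : ucl d (m * n) = ucl d m * ucl d n := by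
  ext
  rw [ucl_val (Nat.Coprime.mul_left hm hn), Units.val_mul, ucl_val hm, ucl_val hn, Nat.cast_mul]

open Classical in
/-- the number of pairs `(a, b) ∈ A × B` with `a b ≡ c` -/
noncomputable def rp (d : ℕ) (A B : Finset ℕ) (c : (ZMod d)ˣ) : ℕ :=
  ((A ×ˢ B).filter (fun q : ℕ × ℕ => ((q.1 * q.2 : ℕ) : ZMod d) = (c : ZMod d))).card

open Classical in
/-- the number of pairs `(a, b)`, `a ∈ A`, `b ≤ N` divisible by all `p ∈ T`, with `a b ≡ c` -/
noncomputable def cnt (d : ℕ) (A : Finset ℕ) (N : ℕ) (T : Finset ℕ) (c : (ZMod d)ˣ) : ℕ :=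
  ((A ×ˢ Icc 1 N).filter (fun q : ℕ × ℕ => (∀ p ∈ T, p ∣ q.2) ∧ ((q.1 * q.2 : ℕ) : ZMod d) = (c : ZMod d))).card

/-- distance from `h` to `0` in `ℤ/d` -/
def nz {d : ℕ} (h : ZMod d) : ℕ := min h.val (d - h.val)

/-! ## Characters -/

/-- the value of a Dirichlet character at a unit -/
noncomputable def ev {d : ℕ} (χ : DirichletCharacter ℂ d) (c : (ZMod d)ˣ) : ℂ := χ (c : ZMod d)

/-- the (unnormalised) Fourier coefficient of a function on the units -/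
noncomputable def SF {d : ℕ} [NeZero d] (f : (ZMod d)ˣ → ℝ) (χ : DirichletCharacter ℂ d) : ℂ :=
  ∑ c : (ZMod d)ˣ, (f c : ℂ) * (starRingEnd ℂ) (ev χ c)

/-- character sum over a finite set of natural numbers with coefficients -/
noncomputable def AR {d : ℕ} (R : Finset ℕ) (a : ℕ → ℝ) (χ : DirichletCharacter ℂ d) : ℂ :=
  ∑ n ∈ R, (a n : ℂ) * χ (n : ZMod d)

/-! ## Pure classes -/

/-- the class `c` contains a rough `n ≤ X` with `λ(n) = σ` -/
def att (d z X : ℕ) (σ : ℝ) (c : (ZMod d)ˣ) : Prop :=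
  ∃ n : ℕ, Rough z n ∧ n ≤ X ∧ (n : ZMod d) = (c : ZMod d) ∧ lio n = σ

open Classical in
/-- `1` if `λ = 1` at all rough `n ≤ X` of the class `c`, `-1` if `λ = -1` at all of them, `0` otherwise -/
noncomputable def FX (d z X : ℕ) (c : (ZMod d)ˣ) : ℝ :=
  (if att d z X 1 c then 1 else 0) - (if att d z X (-1) c then 1 else 0)

open Classical in
/-- the pure classes -/
noncomputable def PX (d z X : ℕ) [NeZero d] : Finset (ZMod d)ˣ := univ.filter (fun c => FX d z X c ≠ 0)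

/-- every class contains a rough `n ≤ X` -/
def Full (d z X : ℕ) : Prop := ∀ c : (ZMod d)ˣ, ∃ n : ℕ, Rough z n ∧ n ≤ X ∧ (n : ZMod d) = (c : ZMod d)

end Pool.Agent.Lib.MP_42948a_nt.TQ
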