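import Pool.Agent.Lib.MP_42948a_nt.TQ.B2
import Pool.Agent.Lib.MP_42948a_nt.AC.RCh

/-!
# A heavy real character is `±λ` on most of `R` (job E1)
-/

namespace Pool.Agent.Lib.MP_42948a_nt.TQ

open Finset Pool.Agent.Lib.MP_42948a_nt.OA Pool.Agent.Lib.MP_42948a_nt.AC

open Classical in
private theorem E1_card (R : Finset ℕ) (f g : ℕ → ℝ) (hf : ∀ a ∈ R, f a = 1 ∨ f a = -1) (hg : ∀ a ∈ R, g a = 1 ∨ g a = -1) :
    ∑ a ∈ R, f a * g a = (R.card : ℝ) - 2 * ((R.filter (fun a : ℕ => f a ≠ g a)).card : ℝ) := by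
  have h1 : ∀ a ∈ R, f a * g a = 1 - 2 * (if f a ≠ g a then (1 : ℝ) else 0) := by
    intro a ha
    rcases hf a ha with h | h <;> rcases hg a ha with h' | h' <;> rw [h, h'] <;> norm_num
  rw [Finset.sum_congr rfl h1, Finset.sum_sub_distrib, ← Finset.mul_sum, Finset.sum_boole]
  simp

open Classical in
theorem exc_small {d : ℕ} [NeZero d] (R : Finset ℕ) (hR : ∀ a ∈ R, 0 < a ∧ a.Coprime d) (ψ : (ZMod d)ˣ →* ℤˣ)
    (χ : DirichletCharacter ℂ d) (hχ : ∀ c : (ZMod d)ˣ, ev χ c = (((ψ c : ℤˣ) : ℤ) : ℂ)) (ω : ℝ) (hω : 0 ≤ ω)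
    (h : (1 - ω) * (R.card : ℝ) ^ 2 ≤ ‖AR R lio χ‖ ^ 2) :
    ∃ κ : ℝ, (κ = 1 ∨ κ = -1) ∧ 2 * ((R.filter (fun a : ℕ => chi ψ a ≠ κ * lio a)).card : ℝ) ≤ ω * (R.card : ℝ) := by
  have hre := chi_real d ψ
  have hchi : ∀ a ∈ R, χ (a : ZMod d) = ((chi ψ a : ℝ) : ℂ) := by
    intro a ha
    have hc := (hR a ha).2
    have h1 : ((ucl d a : (ZMod d)ˣ) : ZMod d) = (a : ZMod d) := ucl_val hc
    have h2 := chi_eq ψ a (ucl d a) h1.symm
    have h3 := hχ (ucl d a)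
    rw [ev, h1] at h3
    rw [h3, h2]
    push_cast
    rfl
  have hval : ∀ a ∈ R, chi ψ a = 1 ∨ chi ψ a = -1 := by
    intro a ha
    rcases hre.val a with h0 | h0
    · exact absurd h0 (hre.ne a (hR a ha).2)
    · exact h0
  set S : ℝ := ∑ a ∈ R, chi ψ a * lio a with hS
  have hAR : AR R lio χ = ((S : ℝ) : ℂ) := by
    rw [AR, hS]
    push_cast
    refine Finset.sum_congr rfl fun a ha => ?_
    rw [hchi a ha]; ring
  have hn : ‖AR R lio χ‖ ^ 2 = S ^ 2 := by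
    rw [hAR, Complex.norm_real, Real.norm_eq_abs, sq_abs]
  rw [hn] at h
  have key : (1 - ω) * (R.card : ℝ) ≤ |S| := by
    rcases le_or_gt 1 ω with h1 | h1
    · have : (1 - ω) * (R.card : ℝ) ≤ 0 := mul_nonpos_of_nonpos_of_nonneg (by linarith) (by positivity)
      exact this.trans (abs_nonneg _)
    · apply abs_le_of_sq_le_sq' _ (abs_nonneg _) |>.2
      rw [sq_abs]
      have h2 : ((1 - ω) * (R.card : ℝ)) ^ 2 ≤ (1 - ω) * (R.card : ℝ) ^ 2 := by
        have : (1 - ω) ^ 2 ≤ (1 - ω) := by nlinarith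
        nlinarith [sq_nonneg (R.card : ℝ)]
      linarith
  rcases le_or_gt 0 S with h0 | h0
  · refine ⟨1, Or.inl rfl, ?_⟩
    have h3 := E1_card R (chi ψ) (fun a => 1 * lio a) hval (fun a _ => by
      rcases lio_val a with h | h <;> simp [h])
    have h4 : ∑ a ∈ R, chi ψ a * (1 * lio a) = S := by rw [hS]; simp
    rw [h4] at h3
    rw [abs_of_nonneg h0] at key
    linarith
  · refine ⟨-1, Or.inr rfl, ?_⟩
    have h3 := E1_card R (chi ψ) (fun a => -1 * lio a) hval (fun a _ => by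
      rcases lio_val a with h | h <;> simp [h])
    have h4 : ∑ a ∈ R, chi ψ a * (-1 * lio a) = -S := by
      rw [hS, ← Finset.sum_neg_distrib]
      exact Finset.sum_congr rfl fun a _ => by ring
    rw [h4] at h3
    rw [abs_of_neg h0] at key
    linarith

end Pool.Agent.Lib.MP_42948a_nt.TQ
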