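import Pool.Agent.Lib.MP_42948a_nt.TQ.B2
import Pool.Agent.Lib.MP_42948a_nt.OA.EJ

/-!
# The bad classes (job E2)

`r c = rp d R R c`, `φ = card G`, `𝓔 = R.filter (chi ψ a ≠ κ lio a)`, `B = {c ∈ Q : F c ≠ ψ c}`. Every pair `(a, b) ∈ R × R` lies in exactly one class,
`∑_c r c = #R^2`; Cauchy-Schwarz: `∑ Er ≤ √φ √(∑ Er^2) ≤ τ m φ`. So `#R^2 ≤ (1 + τ) m φ + τ m φ = (1 + 2τ) m φ`. If `c ∈ B` and `(a, b)` is a pair
with `a b = c` in `ZMod d`, then `a ∈ 𝓔` or `b ∈ 𝓔`: otherwise `F c = lio a lio b = κ^2 lio a lio b = chi ψ a * chi ψ b = chi ψ (a b) = ψ c`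
(`hFR`, `ucl_eq`, `chi_mul`, `chi_eq`). Hence `∑_{c ∈ B} r c ≤ 2 #𝓔 #R ≤ ω #R^2 ≤ ω (1 + 2τ) m φ`. On the other hand
`∑_{c ∈ B} r c ≥ (1-τ) m #B - ∑ Er ≥ (1-τ) m #B - τ m φ`. Divide by `m (1-τ) ≥ (9/10) m`: `#B ≤ (ω (1+2τ) + τ) φ / (1-τ) ≤ (2ω + 2τ) φ`.
-/

namespace Pool.Agent.Lib.MP_42948a_nt.TQ

open Finset Pool.Agent.Lib.MP_42948a_nt.OA Pool.Agent.Lib.MP_42948a_nt.AC

open Classical in
theorem bad_classes {d : ℕ} [NeZero d] (R : Finset ℕ) (hR : ∀ a ∈ R, 0 < a ∧ a.Coprime d)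
    (F : (ZMod d)ˣ → ℝ) (Q : Finset (ZMod d)ˣ)
    (hFR : ∀ a ∈ R, ∀ b ∈ R, ucl d (a * b) ∈ Q → F (ucl d (a * b)) = lio a * lio b)
    (m τ ω κ : ℝ) (Er : (ZMod d)ˣ → ℝ) (hm : 0 < m) (hτ : 0 < τ) (hτ1 : τ ≤ 1 / 10) (hω : 0 ≤ ω)
    (hEr0 : ∀ c, 0 ≤ Er c) (hr : ∀ c, |(rp d R R c : ℝ) - m| ≤ τ * m + Er c)
    (hEr : ∑ c, Er c ^ 2 ≤ (τ * m) ^ 2 * (Fintype.card (ZMod d)ˣ : ℝ)) (ψ : (ZMod d)ˣ →* ℤˣ) (hκ : κ = 1 ∨ κ = -1)
    (hE : 2 * ((R.filter (fun a : ℕ => chi ψ a ≠ κ * lio a)).card : ℝ) ≤ ω * (R.card : ℝ)) :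
    ((Q.filter (fun c => F c ≠ (((ψ c : ℤˣ) : ℤ) : ℝ))).card : ℝ) ≤ (2 * ω + 2 * τ) * (Fintype.card (ZMod d)ˣ : ℝ) := by
  have hmem : ∀ a ∈ R, ∀ b ∈ R, (a * b).Coprime d := fun a ha b hb =>
    Nat.Coprime.mul_left (hR a ha).2 (hR b hb).2
  have hrp : ∀ c, rp d R R c = ((R ×ˢ R).filter (fun q : ℕ × ℕ => ucl d (q.1 * q.2) = c)).card := by
    intro c
    unfold rp
    congr 1
    apply Finset.filter_congr
    intro q hq
    rw [Finset.mem_product] at hq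
    have hcop := hmem q.1 hq.1 q.2 hq.2
    constructor
    · intro h
      exact ucl_eq hcop h
    · intro h
      rw [← h, ucl_val hcop]
  have hsumall : ∑ c : (ZMod d)ˣ, (rp d R R c : ℝ) = (R.card : ℝ) * (R.card : ℝ) := by
    have h1 : (R ×ˢ R).card = ∑ c : (ZMod d)ˣ, rp d R R c := by
      rw [Finset.card_eq_sum_card_fiberwise (f := fun q : ℕ × ℕ => ucl d (q.1 * q.2)) (t := univ)
        (fun x _ => Finset.mem_coe.2 (Finset.mem_univ _))]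
      exact Finset.sum_congr rfl (fun c _ => (hrp c).symm)
    rw [← Nat.cast_sum, ← h1, Finset.card_product, Nat.cast_mul]
  set φ : ℝ := (Fintype.card (ZMod d)ˣ : ℝ) with hφ
  have hφ0 : 0 ≤ φ := by rw [hφ]; positivity
  have hErsum : ∑ c, Er c ≤ τ * m * φ := by
    have h1 : (∑ c, Er c) ^ 2 ≤ (τ * m * φ) ^ 2 := by
      calc (∑ c, Er c) ^ 2 ≤ ((univ : Finset (ZMod d)ˣ).card : ℝ) * ∑ c, Er c ^ 2 := sq_sum_le_card_mul_sum_sq
        _ = φ * ∑ c, Er c ^ 2 := by rw [Finset.card_univ]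
        _ ≤ φ * ((τ * m) ^ 2 * φ) := mul_le_mul_of_nonneg_left hEr hφ0
        _ = (τ * m * φ) ^ 2 := by ring
    exact abs_le_of_sq_le_sq' h1 (by positivity) |>.2
  have hR2 : (R.card : ℝ) * (R.card : ℝ) ≤ (1 + 2 * τ) * m * φ := by
    rw [← hsumall]
    have h1 : ∀ c ∈ (univ : Finset (ZMod d)ˣ), (rp d R R c : ℝ) ≤ (m + τ * m) + Er c := by
      intro c _
      have := (abs_le.1 (hr c)).2
      linarith
    have h2 := Finset.sum_le_sum h1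
    rw [Finset.sum_add_distrib, Finset.sum_const, Finset.card_univ, nsmul_eq_mul] at h2
    rw [← hφ] at h2
    nlinarith [h2, hErsum]
  set B := Q.filter (fun c => F c ≠ (((ψ c : ℤˣ) : ℤ) : ℝ)) with hB
  set E := R.filter (fun a : ℕ => chi ψ a ≠ κ * lio a) with hEdef
  have hκ2 : κ * κ = 1 := by rcases hκ with h | h <;> rw [h] <;> norm_num
  have hbad : ∀ a ∈ R, ∀ b ∈ R, ucl d (a * b) ∈ B → a ∈ E ∨ b ∈ E := by
    intro a ha b hb hc
    by_contra hcon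
    rw [not_or] at hcon
    obtain ⟨h1, h2⟩ := hcon
    rw [hEdef, Finset.mem_filter, not_and, not_not] at h1 h2
    have h1' := h1 ha
    have h2' := h2 hb
    rw [hB, Finset.mem_filter] at hc
    apply hc.2
    rw [hFR a ha b hb hc.1]
    have hcc : ((a * b : ℕ) : ZMod d) = ((ucl d (a * b) : (ZMod d)ˣ) : ZMod d) := (ucl_val (hmem a ha b hb)).symm
    rw [← chi_eq ψ (a * b) (ucl d (a * b)) hcc, chi_mul, h1', h2']
    calc lio a * lio b = (κ * κ) * (lio a * lio b) := by rw [hκ2, one_mul]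
      _ = κ * lio a * (κ * lio b) := by ring
  have hBsum : ∑ c ∈ B, (rp d R R c : ℝ) ≤ 2 * (E.card : ℝ) * (R.card : ℝ) := by
    have h1 : ((R ×ˢ R).filter (fun q : ℕ × ℕ => ucl d (q.1 * q.2) ∈ B)).card = ∑ c ∈ B, rp d R R c := by
      rw [Finset.card_eq_sum_card_fiberwise (f := fun q : ℕ × ℕ => ucl d (q.1 * q.2)) (t := B)
        (fun x hx => Finset.mem_coe.2 (Finset.mem_filter.1 (Finset.mem_coe.1 hx)).2)]
      apply Finset.sum_congr rfl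
      intro c hc
      rw [hrp c, Finset.filter_filter]
      congr 1
      apply Finset.filter_congr
      intro q _
      constructor
      · intro h
        exact h.2
      · intro h
        exact ⟨(congrArg (· ∈ B) h).mpr hc, h⟩
    have h2 : ((R ×ˢ R).filter (fun q : ℕ × ℕ => ucl d (q.1 * q.2) ∈ B)) ⊆ (E ×ˢ R) ∪ (R ×ˢ E) := by
      intro q hq
      rw [Finset.mem_filter, Finset.mem_product] at hq
      rw [Finset.mem_union, Finset.mem_product, Finset.mem_product]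
      rcases hbad q.1 hq.1.1 q.2 hq.1.2 hq.2 with h | h
      · left; exact ⟨h, hq.1.2⟩
      · right; exact ⟨hq.1.1, h⟩
    have h3 : ∑ c ∈ B, rp d R R c ≤ E.card * R.card + R.card * E.card := by
      rw [← h1]
      refine (Finset.card_le_card h2).trans ((Finset.card_union_le _ _).trans ?_)
      rw [Finset.card_product, Finset.card_product]
    have h4 : ((∑ c ∈ B, rp d R R c : ℕ) : ℝ) ≤ ((E.card * R.card + R.card * E.card : ℕ) : ℝ) := by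
      exact_mod_cast h3
    push_cast at h4
    linarith
  have hBlow : (1 - τ) * m * (B.card : ℝ) - τ * m * φ ≤ ∑ c ∈ B, (rp d R R c : ℝ) := by
    have h1 : ∀ c ∈ B, (m - τ * m) - Er c ≤ (rp d R R c : ℝ) := by
      intro c _
      have := (abs_le.1 (hr c)).1
      linarith
    have h2 := Finset.sum_le_sum h1
    rw [Finset.sum_sub_distrib, Finset.sum_const, nsmul_eq_mul] at h2
    have h3 : ∑ c ∈ B, Er c ≤ ∑ c, Er c :=
      Finset.sum_le_sum_of_subset_of_nonneg (Finset.subset_univ B) (fun c _ _ => hEr0 c)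
    nlinarith [h2, h3, hErsum]
  have hR0 : (0 : ℝ) ≤ (R.card : ℝ) := Nat.cast_nonneg _
  have hfin : (1 - τ) * m * (B.card : ℝ) ≤ m * ((ω * (1 + 2 * τ) + τ) * φ) := by
    have h1 : 2 * (E.card : ℝ) * (R.card : ℝ) ≤ ω * (R.card : ℝ) * (R.card : ℝ) :=
      mul_le_mul_of_nonneg_right hE hR0
    have h2 : ω * ((R.card : ℝ) * (R.card : ℝ)) ≤ ω * ((1 + 2 * τ) * m * φ) := mul_le_mul_of_nonneg_left hR2 hω
    nlinarith [h1, h2, hBsum, hBlow]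
  have hfin2 : (1 - τ) * (B.card : ℝ) ≤ (ω * (1 + 2 * τ) + τ) * φ := by
    have : m * ((1 - τ) * (B.card : ℝ)) ≤ m * ((ω * (1 + 2 * τ) + τ) * φ) := by
      calc m * ((1 - τ) * (B.card : ℝ)) = (1 - τ) * m * (B.card : ℝ) := by ring
        _ ≤ _ := hfin
    exact le_of_mul_le_mul_left this hm
  have hcoef : ω * (1 + 2 * τ) + τ ≤ (1 - τ) * (2 * ω + 2 * τ) := by
    nlinarith [mul_nonneg hω hτ.le, mul_le_mul_of_nonneg_left hτ1 hω, mul_le_mul_of_nonneg_left hτ1 hτ.le]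
  have hpos : (0 : ℝ) < 1 - τ := by linarith
  have hfin3 : (1 - τ) * (B.card : ℝ) ≤ (1 - τ) * ((2 * ω + 2 * τ) * φ) := by
    calc (1 - τ) * (B.card : ℝ) ≤ (ω * (1 + 2 * τ) + τ) * φ := hfin2
      _ ≤ ((1 - τ) * (2 * ω + 2 * τ)) * φ := mul_le_mul_of_nonneg_right hcoef hφ0
      _ = (1 - τ) * ((2 * ω + 2 * τ) * φ) := by ring
  exact le_of_mul_le_mul_left hfin3 hpos

end Pool.Agent.Lib.MP_42948a_nt.TQ
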