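import Pool.Agent.Lib.MP_42948a_nt.TQ.Defs
import Pool.Agent.Lib.MP_42948a_nt.AC.Z2a

/-!
# Few split primes in every dyadic interval (job E6)

This is `split_all` (`AC/Z2a.lean`; copy and adapt) with `X = N = ⌊d^(1/2+256η)⌋` and `nm = #Nm ≤ N d^(-64η)`. Let `z = ⌊d^c⌋`, `w = ⌊d^(20η)⌋`,
`T = 2^⌈2/c⌉`; `0 < c ≤ η/64`, so `z ≤ d^(η/2) ≤ d^η`; `η ≤ 1/1024` so `d^(1/2) ≤ N + 1`, `N ≤ d^(3/4) ≤ d^2`.
(1) `N / w ≥ N/(2w) ≥ N d^(-20η)/2` (as `w ≤ N`), so by `RC_lower` `#RC d z (N / w) ≥ N d^(-22η)/2 > 2 N d^(-64η) ≥ 2 nm` for large `d` and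
`small_agree` applies. (2) If `2 D ≤ w`: `split_small`. (3) If `N < 2 D`: `split_le`, `#PD ≤ nm ≤ N d^(-64η) ≤ 2 D d^(-64η) ≤ d^(-32η) D`.
(4) If `w < 2 D ≤ N`: `D ≥ w/2 ≥ d^(20η)/4 ≥ d^(10η)`, `D ≤ N ≤ d^2`; `N / (2D) ≥ 1`, so `N / (2D) ≥ N/(4D)` and
`#RC d z (N/(2D)) ≥ N d^(-2η)/(4D)`; `#SS d z w D ≥ D d^(-2η)` (`SS_lower`); the product is `≥ N d^(-4η)/4 ≥ 2 T N d^(-64η) ≥ 2 T nm` for large `d`;
`split_count` gives `#PD ≤ 2 T nm / #RC ≤ 8 T d^(-62η) D ≤ d^(-32η) D`. (`hT`: `rough_divisors`.)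
-/

namespace Pool.Agent.Lib.MP_42948a_nt.TQ

open Finset Pool.Agent.Lib.MP_42948a_nt.OA Pool.Agent.Lib.MP_42948a_nt.AC

/-- the case `w < 2 D ≤ X` -/
private theorem E6_mid (A D PDc RCc nm T Xr Mr : ℝ) (hT : 1 ≤ T) (hA : 32 * T ≤ A) (hD : 0 < D)
    (hPD : 0 ≤ PDc) (hX0 : 0 < Xr) (hM : Xr < Mr * (4 * D)) (hRC : Mr * A⁻¹ ≤ RCc) (h : PDc * RCc ≤ 2 * T * nm)
    (hnm : nm ≤ Xr * A⁻¹ ^ 32) : PDc ≤ A⁻¹ ^ 16 * D := by
  have hA0 : 0 < A := by linarith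
  have h1 : Xr * A⁻¹ / (4 * D) ≤ RCc := by
    refine le_trans ?_ hRC
    rw [div_le_iff₀ (by positivity)]
    have h2 := mul_le_mul_of_nonneg_right hM.le (by positivity : 0 ≤ A⁻¹)
    linarith
  have h5 : PDc * (Xr * A⁻¹ / (4 * D)) ≤ 2 * T * (Xr * A⁻¹ ^ 32) := by
    have h6 := mul_le_mul_of_nonneg_left h1 hPD
    have h7 : 2 * T * nm ≤ 2 * T * (Xr * A⁻¹ ^ 32) := mul_le_mul_of_nonneg_left hnm (by positivity)
    linarith
  have h8 : PDc ≤ 8 * T * D * A⁻¹ ^ 31 := by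
    have h9 : PDc * (Xr * A⁻¹ / (4 * D)) = (Xr * A⁻¹ / (4 * D)) * PDc := by ring
    have h10 : 2 * T * (Xr * A⁻¹ ^ 32) = (Xr * A⁻¹ / (4 * D)) * (8 * T * D * A⁻¹ ^ 31) := by
      field_simp
      ring
    rw [h9, h10] at h5
    exact le_of_mul_le_mul_left h5 (by positivity)
  refine h8.trans ?_
  have hA1 : 1 ≤ A := by linarith
  have h11 : 8 * T * A⁻¹ ^ 15 ≤ 1 := by
    have h12 : A⁻¹ ^ 15 ≤ A⁻¹ := by
      have h13 : A⁻¹ ≤ 1 := inv_le_one_of_one_le₀ hA1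
      calc A⁻¹ ^ 15 ≤ A⁻¹ ^ 1 := pow_le_pow_of_le_one (by positivity) h13 (by norm_num)
        _ = A⁻¹ := pow_one _
    have h14 : 8 * T * A⁻¹ ^ 15 ≤ 8 * T * A⁻¹ := mul_le_mul_of_nonneg_left h12 (by positivity)
    refine h14.trans ?_
    rw [← div_eq_mul_inv, div_le_one hA0]
    linarith
  have h15 : 8 * T * D * A⁻¹ ^ 31 = (8 * T * A⁻¹ ^ 15) * (A⁻¹ ^ 16 * D) := by ring
  rw [h15]
  exact mul_le_of_le_one_left (by positivity) h11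

theorem split_all2 (K : ℕ) (η c : ℝ) (hη : 0 < η) (hη1 : η ≤ 1 / 1024) (hc : c * (16 * (3 * K + 4)) = η) :
    ∃ d0 : ℕ, ∀ d : ℕ, d0 ≤ d → ∀ χ : ℕ → ℝ, RealChar d χ →
      ((Nm d ⌊(d : ℝ) ^ c⌋₊ ⌊(d : ℝ) ^ (1 / 2 + 256 * η)⌋₊ χ).card : ℝ) ≤
        (⌊(d : ℝ) ^ (1 / 2 + 256 * η)⌋₊ : ℝ) * (d : ℝ) ^ (-(64 * η)) →
      ∀ D : ℕ, 1 ≤ D →
        ((PD d ⌊(d : ℝ) ^ c⌋₊ ⌊(d : ℝ) ^ (1 / 2 + 256 * η)⌋₊ χ D).card : ℝ) ≤ (d : ℝ) ^ (-(32 * η)) * D := by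
  obtain ⟨d1, hd1⟩ := RC_lower η hη (by linarith)
  obtain ⟨d2, hd2⟩ := SS_lower η hη (by linarith)
  have hK0 : (0 : ℝ) ≤ K := Nat.cast_nonneg K
  have hc0 : 0 < c := by
    by_contra hcon
    push Not at hcon
    have h1 : c * (16 * (3 * (K : ℝ) + 4)) ≤ 0 := mul_nonpos_of_nonpos_of_nonneg hcon (by positivity)
    linarith
  have hc64 : c * 64 ≤ η := by
    rw [← hc]
    refine mul_le_mul_of_nonneg_left ?_ hc0.le
    linarith
  obtain ⟨T, hTdef⟩ : ∃ T : ℕ, T = 2 ^ ⌈2 / c⌉₊ := ⟨_, rfl⟩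
  have hT1 : 1 ≤ T := by rw [hTdef]; exact Nat.one_le_two_pow
  have hT1r : (1 : ℝ) ≤ T := by exact_mod_cast hT1
  have hev : ∀ᶠ d : ℕ in Filter.atTop, 32 * (T : ℝ) ≤ (d : ℝ) ^ (2 * η) :=
    ((tendsto_rpow_atTop (by linarith : 0 < 2 * η)).comp
      tendsto_natCast_atTop_atTop).eventually_ge_atTop _
  obtain ⟨d3, hd3⟩ := Filter.eventually_atTop.1 hev
  refine ⟨max (max d1 d2) (max d3 2), fun d hd χ hχ hnm D hD => ?_⟩
  have hdd1 : d1 ≤ d := (le_max_left _ _).trans ((le_max_left _ _).trans hd)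
  have hdd2 : d2 ≤ d := (le_max_right _ _).trans ((le_max_left _ _).trans hd)
  have hdd3 : d3 ≤ d := (le_max_left _ _).trans ((le_max_right _ _).trans hd)
  have hd22 : 2 ≤ d := (le_max_right _ _).trans ((le_max_right _ _).trans hd)
  have hR1 : (1 : ℝ) ≤ d := by exact_mod_cast (by omega : 1 ≤ d)
  have hR0 : (0 : ℝ) < d := by linarith
  obtain ⟨A, hAdef⟩ : ∃ A : ℝ, A = (d : ℝ) ^ (2 * η) := ⟨_, rfl⟩
  have hA : 32 * (T : ℝ) ≤ A := by rw [hAdef]; exact hd3 d hdd3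
  have hA32 : 32 ≤ A := by linarith
  have hA1 : 1 ≤ A := by linarith
  have hA0 : 0 < A := by linarith
  -- powers of d
  have hpow : ∀ m : ℕ, A ^ m = (d : ℝ) ^ (2 * η * m) := by
    intro m
    rw [hAdef, ← Real.rpow_natCast, ← Real.rpow_mul hR0.le]
  have ew : (d : ℝ) ^ (20 * η) = A ^ 10 := by
    rw [hpow]
    congr 1
    push_cast
    ring
  have e10 : (d : ℝ) ^ (10 * η) = A ^ 5 := by
    rw [hpow]
    congr 1
    push_cast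
    ring
  have em2 : (d : ℝ) ^ (-(2 * η)) = A⁻¹ := by
    rw [Real.rpow_neg hR0.le, hAdef]
  have em32 : (d : ℝ) ^ (-(32 * η)) = A⁻¹ ^ 16 := by
    rw [Real.rpow_neg hR0.le, inv_pow, hpow]
    congr 2
    push_cast
    ring
  have em64 : (d : ℝ) ^ (-(64 * η)) = A⁻¹ ^ 32 := by
    rw [Real.rpow_neg hR0.le, inv_pow, hpow]
    congr 2
    push_cast
    ring
  obtain ⟨z, hzdef⟩ : ∃ z : ℕ, z = ⌊(d : ℝ) ^ c⌋₊ := ⟨_, rfl⟩
  obtain ⟨X, hXdef⟩ : ∃ X : ℕ, X = ⌊(d : ℝ) ^ (1 / 2 + 256 * η)⌋₊ := ⟨_, rfl⟩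
  obtain ⟨w, hwdef⟩ : ∃ w : ℕ, w = ⌊(d : ℝ) ^ (20 * η)⌋₊ := ⟨_, rfl⟩
  have hTr : ∀ n : ℕ, Rough z n → n ≤ X → n.divisors.card ≤ T := by
    intro n hn hnX
    rw [hTdef]
    rw [hzdef] at hn
    refine rough_divisors c hc0 d hd22 n hn ?_
    have h1 : (n : ℝ) ≤ X := by exact_mod_cast hnX
    have h2 : (X : ℝ) ≤ (d : ℝ) ^ (1 / 2 + 256 * η) := by
      rw [hXdef]
      exact Nat.floor_le (by positivity)
    exact (h1.trans h2).trans (Real.rpow_le_rpow_of_exponent_le hR1 (by linarith))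
  rw [← hzdef, ← hXdef, em64] at hnm
  rw [← hzdef, ← hXdef, em32]
  have hz : (z : ℝ) ≤ (d : ℝ) ^ c := by
    rw [hzdef]
    exact Nat.floor_le (by positivity)
  have hz1 : (z : ℝ) ≤ (d : ℝ) ^ (η / 2) :=
    hz.trans (Real.rpow_le_rpow_of_exponent_le hR1 (by linarith))
  have hz2 : (z : ℝ) ≤ (d : ℝ) ^ η :=
    hz.trans (Real.rpow_le_rpow_of_exponent_le hR1 (by linarith))
  have hX2 : (X : ℝ) ≤ (d : ℝ) ^ (2 : ℝ) := by
    have h2 : (X : ℝ) ≤ (d : ℝ) ^ (1 / 2 + 256 * η) := by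
      rw [hXdef]
      exact Nat.floor_le (by positivity)
    exact h2.trans (Real.rpow_le_rpow_of_exponent_le hR1 (by linarith))
  have hXgt : A ^ 128 - 1 < X := by
    have h2 : (d : ℝ) ^ (1 / 2 + 256 * η) - 1 < X := by
      rw [hXdef]
      exact Nat.sub_one_lt_floor _
    have h3 : A ^ 128 ≤ (d : ℝ) ^ (1 / 2 + 256 * η) := by
      rw [hpow]
      refine Real.rpow_le_rpow_of_exponent_le hR1 ?_
      push_cast
      linarith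
    linarith
  have hwle : (w : ℝ) ≤ A ^ 10 := by
    rw [hwdef, ew]
    exact Nat.floor_le (by positivity)
  have hwgt : A ^ 10 - 1 < w := by
    rw [hwdef, ew]
    exact Nat.sub_one_lt_floor _
  have hA5 : 32 ≤ A ^ 5 := hA32.trans (le_self_pow₀ hA1 (by norm_num))
  have hA10 : 32 ≤ A ^ 10 := hA32.trans (le_self_pow₀ hA1 (by norm_num))
  have hA118 : 32 ≤ A ^ 118 := hA32.trans (le_self_pow₀ hA1 (by norm_num))
  have hA128 : A ^ 10 * 32 ≤ A ^ 128 := by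
    have h1 : A ^ 128 = A ^ 10 * A ^ 118 := by rw [← pow_add]
    rw [h1]
    exact mul_le_mul_of_nonneg_left hA118 (by positivity)
  have hwX : w ≤ X := by
    have : (w : ℝ) ≤ X := by linarith
    exact_mod_cast this
  have hw1 : 1 ≤ w := by
    have : (1 : ℝ) < w := by linarith
    exact_mod_cast this.le
  have hwr0 : (0 : ℝ) < w := by exact_mod_cast hw1
  have hXr0 : (0 : ℝ) < X := by exact_mod_cast (lt_of_lt_of_le hw1 hwX)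
  -- small rough numbers agree
  have hagree : ∀ u : ℕ, Rough z u → u ≤ w → u.Coprime d → χ u = lio u := by
    refine small_agree d z X w χ hχ hw1 ?_
    have hM1 : 1 ≤ X / w := by
      rw [Nat.one_le_div_iff hw1]
      exact hwX
    have hM0 : (X : ℝ) ≤ ((X / w : ℕ) : ℝ) * (2 * A ^ 10) := by
      have h1 : X < w * (X / w + 1) := Nat.lt_mul_div_succ X hw1
      have h2 : w * (X / w + 1) ≤ X / w * (2 * w) := by
        have h3 : w * 1 ≤ w * (X / w) := Nat.mul_le_mul_left _ hM1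
        calc w * (X / w + 1) = w * (X / w) + w * 1 := by ring
          _ ≤ w * (X / w) + w * (X / w) := Nat.add_le_add_left h3 _
          _ = X / w * (2 * w) := by ring
      have h4 : (X : ℝ) ≤ ((X / w : ℕ) : ℝ) * (2 * w) := by exact_mod_cast (h1.trans_le h2).le
      refine h4.trans ?_
      refine mul_le_mul_of_nonneg_left ?_ (Nat.cast_nonneg _)
      linarith
    have hM2 : ((X / w : ℕ) : ℝ) ≤ (d : ℝ) ^ (2 : ℝ) := by
      refine le_trans ?_ hX2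
      exact_mod_cast Nat.div_le_self X w
    have h1 := hd1 d hdd1 z hz1 (X / w) hM1 hM2
    rw [em2] at h1
    have h2 : (X : ℝ) * A⁻¹ ^ 11 / 2 ≤ ((RC d z (X / w)).card : ℝ) := by
      refine le_trans ?_ h1
      have h3 := mul_le_mul_of_nonneg_right hM0 (by positivity : 0 ≤ A⁻¹ ^ 11 / 2)
      have h4 : ((X / w : ℕ) : ℝ) * (2 * A ^ 10) * (A⁻¹ ^ 11 / 2) = ((X / w : ℕ) : ℝ) * A⁻¹ := by
        field_simp
      rw [h4] at h3
      linarith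
    have h5 : 4 * A⁻¹ ^ 32 < A⁻¹ ^ 11 := by
      have h6 : A⁻¹ ^ 32 = A⁻¹ ^ 21 * A⁻¹ ^ 11 := by rw [← pow_add]
      have h7 : A⁻¹ ^ 21 ≤ A⁻¹ := by
        have h13 : A⁻¹ ≤ 1 := inv_le_one_of_one_le₀ hA1
        calc A⁻¹ ^ 21 ≤ A⁻¹ ^ 1 := pow_le_pow_of_le_one (by positivity) h13 (by norm_num)
          _ = A⁻¹ := pow_one _
      have h8 : A⁻¹ ≤ 1 / 32 := by
        rw [one_div]
        exact inv_anti₀ (by norm_num) hA32
      have h9 : 4 * A⁻¹ ^ 21 < 1 := by linarith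
      rw [h6]
      have h10 : 0 < A⁻¹ ^ 11 := by positivity
      calc 4 * (A⁻¹ ^ 21 * A⁻¹ ^ 11) = (4 * A⁻¹ ^ 21) * A⁻¹ ^ 11 := by ring
        _ < 1 * A⁻¹ ^ 11 := mul_lt_mul_of_pos_right h9 h10
        _ = A⁻¹ ^ 11 := one_mul _
    have h6 : (2 : ℝ) * ((Nm d z X χ).card : ℝ) < ((RC d z (X / w)).card : ℝ) := by
      have h7 := mul_lt_mul_of_pos_left h5 hXr0
      linarith
    exact_mod_cast h6
  have hDr : (1 : ℝ) ≤ D := by exact_mod_cast hD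
  have hDr0 : (0 : ℝ) < D := by linarith
  by_cases hcase1 : 2 * D ≤ w
  · rw [split_small d z X w D χ hχ hagree hcase1, Finset.card_empty, Nat.cast_zero]
    positivity
  by_cases hcase2 : X < 2 * D
  · have h1 : ((PD d z X χ D).card : ℝ) ≤ (Nm d z X χ).card := by
      exact_mod_cast split_le d z X D χ hχ
    refine (h1.trans hnm).trans ?_
    have h2 : (X : ℝ) ≤ 2 * D := by exact_mod_cast hcase2.le
    have h3 : (X : ℝ) * A⁻¹ ^ 32 ≤ 2 * D * A⁻¹ ^ 32 := mul_le_mul_of_nonneg_right h2 (by positivity)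
    refine h3.trans ?_
    have h6 : A⁻¹ ^ 32 = A⁻¹ ^ 16 * A⁻¹ ^ 16 := by rw [← pow_add]
    have h7 : A⁻¹ ^ 16 ≤ A⁻¹ := by
      have h13 : A⁻¹ ≤ 1 := inv_le_one_of_one_le₀ hA1
      calc A⁻¹ ^ 16 ≤ A⁻¹ ^ 1 := pow_le_pow_of_le_one (by positivity) h13 (by norm_num)
        _ = A⁻¹ := pow_one _
    have h8 : A⁻¹ ≤ 1 / 32 := by
      rw [one_div]
      exact inv_anti₀ (by norm_num) hA32
    have h9 : 2 * A⁻¹ ^ 16 ≤ 1 := by linarith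
    rw [h6]
    calc 2 * (D : ℝ) * (A⁻¹ ^ 16 * A⁻¹ ^ 16) = (2 * A⁻¹ ^ 16) * (A⁻¹ ^ 16 * D) := by ring
      _ ≤ A⁻¹ ^ 16 * D := mul_le_of_le_one_left (by positivity) h9
  push Not at hcase1 hcase2
  have hw2D : (w : ℝ) < 2 * D := by exact_mod_cast hcase1
  have hD10 : (d : ℝ) ^ (10 * η) ≤ (D : ℝ) := by
    rw [e10]
    have h1 : A ^ 10 / 4 ≤ D := by linarith
    refine le_trans ?_ h1
    have h2 : A ^ 10 = A ^ 5 * A ^ 5 := by ring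
    rw [h2]
    have h3 := mul_le_mul_of_nonneg_right hA5 (by positivity : 0 ≤ A ^ 5)
    linarith [pow_pos hA0 5]
  have hDX : (D : ℝ) ≤ (d : ℝ) ^ (2 : ℝ) := by
    refine le_trans ?_ hX2
    exact_mod_cast (by omega : D ≤ X)
  have hSS := hd2 d hdd2 z hz2 D hD10 hDX
  rw [em2, ← hwdef] at hSS
  have hM1 : 1 ≤ X / (2 * D) := by
    rw [Nat.one_le_div_iff (by omega)]
    exact hcase2
  have hM2 : ((X / (2 * D) : ℕ) : ℝ) ≤ (d : ℝ) ^ (2 : ℝ) := by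
    refine le_trans ?_ hX2
    exact_mod_cast Nat.div_le_self X (2 * D)
  have hRC := hd1 d hdd1 z hz1 (X / (2 * D)) hM1 hM2
  rw [em2] at hRC
  have hM3 : (X : ℝ) < ((X / (2 * D) : ℕ) : ℝ) * (4 * D) := by
    have h1 : X < 2 * D * (X / (2 * D) + 1) := Nat.lt_mul_div_succ X (by omega)
    have h2 : 2 * D * (X / (2 * D) + 1) ≤ X / (2 * D) * (4 * D) := by
      have h3 : 2 * D * 1 ≤ 2 * D * (X / (2 * D)) := Nat.mul_le_mul_left _ hM1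
      calc 2 * D * (X / (2 * D) + 1) = 2 * D * (X / (2 * D)) + 2 * D * 1 := by ring
        _ ≤ 2 * D * (X / (2 * D)) + 2 * D * (X / (2 * D)) := Nat.add_le_add_left h3 _
        _ = X / (2 * D) * (4 * D) := by ring
    exact_mod_cast h1.trans_le h2
  have hprod : (X : ℝ) * A⁻¹ ^ 2 / 4 ≤ ((RC d z (X / (2 * D))).card : ℝ) * ((SS d z w D).card : ℝ) := by
    have h1 : ((X / (2 * D) : ℕ) : ℝ) * A⁻¹ * ((D : ℝ) * A⁻¹) ≤
        ((RC d z (X / (2 * D))).card : ℝ) * ((SS d z w D).card : ℝ) :=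
      mul_le_mul hRC hSS (by positivity) (Nat.cast_nonneg _)
    refine le_trans ?_ h1
    have h2 := mul_le_mul_of_nonneg_right hM3.le (by positivity : 0 ≤ A⁻¹ ^ 2 / 4)
    have h3 : ((X / (2 * D) : ℕ) : ℝ) * (4 * D) * (A⁻¹ ^ 2 / 4) =
        ((X / (2 * D) : ℕ) : ℝ) * A⁻¹ * ((D : ℝ) * A⁻¹) := by ring
    rw [h3] at h2
    linarith
  have hcond : 2 * T * (Nm d z X χ).card ≤ (RC d z (X / (2 * D))).card * (SS d z w D).card := by
    have h1 : (2 : ℝ) * T * ((Nm d z X χ).card : ℝ) ≤ 2 * T * (X * A⁻¹ ^ 32) :=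
      mul_le_mul_of_nonneg_left hnm (by positivity)
    have h2 : 8 * (T : ℝ) * A⁻¹ ^ 30 ≤ 1 := by
      have h7 : A⁻¹ ^ 30 ≤ A⁻¹ := by
        have h13 : A⁻¹ ≤ 1 := inv_le_one_of_one_le₀ hA1
        calc A⁻¹ ^ 30 ≤ A⁻¹ ^ 1 := pow_le_pow_of_le_one (by positivity) h13 (by norm_num)
          _ = A⁻¹ := pow_one _
      have h14 : 8 * (T : ℝ) * A⁻¹ ^ 30 ≤ 8 * T * A⁻¹ := mul_le_mul_of_nonneg_left h7 (by positivity)
      refine h14.trans ?_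
      rw [← div_eq_mul_inv, div_le_one hA0]
      linarith
    have h3 : 2 * (T : ℝ) * (X * A⁻¹ ^ 32) = (8 * (T : ℝ) * A⁻¹ ^ 30) * (X * A⁻¹ ^ 2 / 4) := by ring
    have h4 : (8 * (T : ℝ) * A⁻¹ ^ 30) * (X * A⁻¹ ^ 2 / 4) ≤ X * A⁻¹ ^ 2 / 4 :=
      mul_le_of_le_one_left (by positivity) h2
    have h5 : (2 : ℝ) * T * ((Nm d z X χ).card : ℝ) ≤
        ((RC d z (X / (2 * D))).card : ℝ) * ((SS d z w D).card : ℝ) := by linarith
    exact_mod_cast h5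
  have hfin := split_count d z X w D T χ hχ hagree hTr hD hcond
  have hfinr : ((PD d z X χ D).card : ℝ) * ((RC d z (X / (2 * D))).card : ℝ) ≤
      2 * T * ((Nm d z X χ).card : ℝ) := by exact_mod_cast hfin
  exact E6_mid A D _ _ _ T X _ hT1r hA hDr0 (Nat.cast_nonneg _) hXr0 hM3 hRC hfinr hnm

end Pool.Agent.Lib.MP_42948a_nt.TQ
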