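import Pool.Agent.Lib.MP_42948a_nt.TQ.B2

/-!
# The characters extending a sign character (job G1)

`rhoE ρ g = ρ g` for `g ∈ H` and `0` otherwise. It is multiplicative on `H`, `rhoE (g⁻¹) = rhoE g`, values `0, ±1`.
`ext_mass`: `φ = card G`. (1) For every `χ`: `∑_{h ∈ H} ρ h * ev χ h = card H` if `ev χ h = ρ h` for all `h ∈ H`, and `= 0` otherwise (the function
`h ↦ ρ h * ev χ h` is multiplicative on `H`; if it is not `1` at `h1` substitute `h ↦ h1 h`; if it is `1` everywhere then `ev χ h = ρ h` since `ρ h = ±1`).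
(2) So `card H * ∑_{χ ext} ‖AR R f χ‖^2 = ∑_χ ‖AR R f χ‖^2 ∑_{h ∈ H} ρ h * ev χ h = ∑_{h ∈ H} ρ h ∑_χ ‖AR‖^2 ev χ h`. (3) `‖AR R f χ‖^2 =
∑_{a, b ∈ R} f a * f b * ev χ (ucl a) * ev χ (ucl b)⁻¹` (`χ(a) = ev χ (ucl d a)`, `conj_ev`), and `∑_χ ev χ (ucl a * (ucl b)⁻¹ * h) = φ` if
`h = (ucl a)⁻¹ * ucl b`, else `0` (`sum_ev`). Hence `card H * ∑_{χ ext} ‖AR‖^2 = φ ∑_{a, b ∈ R} f a * f b * rhoE ρ ((ucl a)⁻¹ * ucl b)`.
-/

namespace Pool.Agent.Lib.MP_42948a_nt.TQ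

open Finset Pool.Agent.Lib.MP_42948a_nt.OA Pool.Agent.Lib.MP_42948a_nt.AC

open Classical in
/-- extension by zero of a sign character of a subgroup -/
noncomputable def rhoE {G : Type*} [Group G] {H : Subgroup G} (ρ : H →* ℤˣ) (g : G) : ℝ :=
  if h : g ∈ H then (((ρ ⟨g, h⟩ : ℤˣ) : ℤ) : ℝ) else 0

section
variable {G : Type*} [Group G] {H : Subgroup G} (ρ : H →* ℤˣ)

theorem rhoE_of_mem {g : G} (h : g ∈ H) : rhoE ρ g = 1 ∨ rhoE ρ g = -1 := by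
  unfold rhoE
  rw [dif_pos h]
  rcases Int.units_eq_one_or (ρ ⟨g, h⟩) with h1 | h1
  · left
    rw [h1]
    norm_num
  · right
    rw [h1]
    norm_num

theorem rhoE_of_not_mem {g : G} (h : g ∉ H) : rhoE ρ g = 0 := by
  unfold rhoE
  rw [dif_neg h]

theorem rhoE_one : rhoE ρ 1 = 1 := by
  unfold rhoE
  rw [dif_pos H.one_mem, show (⟨1, H.one_mem⟩ : H) = 1 from rfl, map_one]
  norm_num

theorem rhoE_mul {g h : G} (hg : g ∈ H) (hh : h ∈ H) : rhoE ρ (g * h) = rhoE ρ g * rhoE ρ h := by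
  unfold rhoE
  rw [dif_pos hg, dif_pos hh, dif_pos (H.mul_mem hg hh),
    show (⟨g * h, H.mul_mem hg hh⟩ : H) = ⟨g, hg⟩ * ⟨h, hh⟩ from rfl, map_mul]
  push_cast
  ring

theorem rhoE_inv (g : G) : rhoE ρ g⁻¹ = rhoE ρ g := by
  by_cases hg : g ∈ H
  · unfold rhoE
    rw [dif_pos hg, dif_pos (H.inv_mem hg),
      show (⟨g⁻¹, H.inv_mem hg⟩ : H) = (⟨g, hg⟩ : H)⁻¹ from rfl, map_inv, Int.units_inv_eq_self]
  · rw [rhoE_of_not_mem ρ hg, rhoE_of_not_mem ρ fun h => hg (H.inv_mem_iff.mp h)]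

end

private theorem G1_sq (u : ℤˣ) : (((u : ℤˣ) : ℤ) : ℂ) * (((u : ℤˣ) : ℤ) : ℂ) = 1 := by
  rcases Int.units_eq_one_or u with h | h
  · rw [h]
    norm_num
  · rw [h]
    norm_num

private theorem G1_sum {G : Type*} [Group G] [DecidableEq G] {H : Subgroup G} [Fintype H]
    (ρ : H →* ℤˣ) (g : G) :
    ∑ h : H, (if (h : G) = g then (((ρ h : ℤˣ) : ℤ) : ℂ) else 0) = ((rhoE ρ g : ℝ) : ℂ) := by
  by_cases hg : g ∈ H
  · rw [Finset.sum_eq_single (⟨g, hg⟩ : H)]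
    · rw [if_pos rfl]
      unfold rhoE
      rw [dif_pos hg]
      push_cast
      rfl
    · intro b _ hb
      rw [if_neg]
      intro h0
      exact hb (Subtype.ext h0)
    · intro h0
      exact absurd (Finset.mem_univ _) h0
  · rw [rhoE_of_not_mem ρ hg, Complex.ofReal_zero]
    refine Finset.sum_eq_zero fun h _ => ?_
    rw [if_neg]
    intro h0
    exact hg (h0 ▸ h.2)

open Classical in
theorem ext_mass {d : ℕ} [NeZero d] (R : Finset ℕ) (hR : ∀ a ∈ R, 0 < a ∧ a.Coprime d) (f : ℕ → ℝ)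
    (H : Subgroup (ZMod d)ˣ) (ρ : H →* ℤˣ) :
    (Nat.card H : ℝ) * ∑ χ ∈ (univ : Finset (DirichletCharacter ℂ d)).filter
        (fun χ => ∀ h : H, ev χ (h : (ZMod d)ˣ) = (((ρ h : ℤˣ) : ℤ) : ℂ)), ‖AR R f χ‖ ^ 2 =
      (Fintype.card (ZMod d)ˣ : ℝ) * ∑ a ∈ R, ∑ b ∈ R, f a * f b * rhoE ρ ((ucl d a)⁻¹ * ucl d b) := by
  have hval : ∀ χ : DirichletCharacter ℂ d, ((‖AR R f χ‖ ^ 2 : ℝ) : ℂ) =
      ∑ a ∈ R, ∑ b ∈ R, ((f a * f b : ℝ) : ℂ) * ev χ (ucl d a * (ucl d b)⁻¹) := by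
    intro χ
    have h1 : AR R f χ = ∑ a ∈ R, (f a : ℂ) * ev χ (ucl d a) := by
      unfold AR
      refine Finset.sum_congr rfl fun a ha => ?_
      unfold ev
      rw [ucl_val (hR a ha).2]
    have h2 : (starRingEnd ℂ) (AR R f χ) = ∑ b ∈ R, (f b : ℂ) * ev χ (ucl d b)⁻¹ := by
      rw [h1, map_sum]
      refine Finset.sum_congr rfl fun b _ => ?_
      rw [map_mul, Complex.conj_ofReal, conj_ev]
    rw [Complex.ofReal_pow, ← Complex.mul_conj', h2, h1, Finset.sum_mul_sum]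
    refine Finset.sum_congr rfl fun a _ => Finset.sum_congr rfl fun b _ => ?_
    rw [ev_mul]
    push_cast
    ring
  have hmain : ∀ χ : DirichletCharacter ℂ d,
      ∑ h : H, (((ρ h : ℤˣ) : ℤ) : ℂ) * ev χ (h : (ZMod d)ˣ) =
        if (∀ h : H, ev χ (h : (ZMod d)ˣ) = (((ρ h : ℤˣ) : ℤ) : ℂ)) then (Nat.card H : ℂ) else 0 := by
    intro χ
    split_ifs with hχ
    · have h1 : ∀ h : H, (((ρ h : ℤˣ) : ℤ) : ℂ) * ev χ (h : (ZMod d)ˣ) = 1 := fun h => by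
        rw [hχ h]
        exact G1_sq (ρ h)
      rw [Finset.sum_congr rfl fun h _ => h1 h, Finset.sum_const, Finset.card_univ,
        Nat.card_eq_fintype_card, nsmul_eq_mul, mul_one]
    · push Not at hχ
      obtain ⟨h₁, hh₁⟩ := hχ
      obtain ⟨F, hF⟩ : ∃ F : H → ℂ, F = fun h => (((ρ h : ℤˣ) : ℤ) : ℂ) * ev χ (h : (ZMod d)ˣ) :=
        ⟨_, rfl⟩
      have hFm : ∀ a b, F (a * b) = F a * F b := by
        intro a b
        simp only [hF]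
        rw [map_mul, Subgroup.coe_mul, ev_mul]
        push_cast
        ring
      have hF1 : F h₁ ≠ 1 := by
        intro h0
        apply hh₁
        rw [hF] at h0
        have h2 := G1_sq (ρ h₁)
        calc ev χ (h₁ : (ZMod d)ˣ) = ((((ρ h₁ : ℤˣ) : ℤ) : ℂ) * (((ρ h₁ : ℤˣ) : ℤ) : ℂ)) *
              ev χ (h₁ : (ZMod d)ˣ) := by rw [h2, one_mul]
          _ = (((ρ h₁ : ℤˣ) : ℤ) : ℂ) * ((((ρ h₁ : ℤˣ) : ℤ) : ℂ) * ev χ (h₁ : (ZMod d)ˣ)) := by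
            ring
          _ = _ := by
            have h3 : (((ρ h₁ : ℤˣ) : ℤ) : ℂ) * ev χ (h₁ : (ZMod d)ˣ) = 1 := h0
            rw [h3, mul_one]
      have hsum : ∑ h : H, F h = F h₁ * ∑ h : H, F h := by
        rw [Finset.mul_sum]
        refine (Fintype.sum_equiv (Equiv.mulLeft h₁) _ _ fun h => ?_).symm
        rw [Equiv.coe_mulLeft, hFm]
      have h4 : (F h₁ - 1) * ∑ h : H, F h = 0 := by
        rw [sub_mul, one_mul, ← hsum, sub_self]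
      have h5 := (mul_eq_zero.mp h4).resolve_left (sub_ne_zero.mpr hF1)
      rw [hF] at h5
      exact h5
  have hC : (((Nat.card H : ℝ) * ∑ χ ∈ (univ : Finset (DirichletCharacter ℂ d)).filter
        (fun χ => ∀ h : H, ev χ (h : (ZMod d)ˣ) = (((ρ h : ℤˣ) : ℤ) : ℂ)), ‖AR R f χ‖ ^ 2 : ℝ) : ℂ) =
      (((Fintype.card (ZMod d)ˣ : ℝ) * ∑ a ∈ R, ∑ b ∈ R, f a * f b *
        rhoE ρ ((ucl d a)⁻¹ * ucl d b) : ℝ) : ℂ) := by
    have h1 : (((Nat.card H : ℝ) * ∑ χ ∈ (univ : Finset (DirichletCharacter ℂ d)).filter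
        (fun χ => ∀ h : H, ev χ (h : (ZMod d)ˣ) = (((ρ h : ℤˣ) : ℤ) : ℂ)), ‖AR R f χ‖ ^ 2 : ℝ) : ℂ) =
        ∑ χ : DirichletCharacter ℂ d, ((‖AR R f χ‖ ^ 2 : ℝ) : ℂ) *
          ∑ h : H, (((ρ h : ℤˣ) : ℤ) : ℂ) * ev χ (h : (ZMod d)ˣ) := by
      rw [Complex.ofReal_mul, Complex.ofReal_sum, Finset.sum_filter, Finset.mul_sum]
      refine Finset.sum_congr rfl fun χ _ => ?_
      rw [hmain χ]
      split_ifs
      · rw [Complex.ofReal_natCast]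
        ring
      · rw [mul_zero, mul_zero]
    rw [h1]
    have h2 : ∀ χ : DirichletCharacter ℂ d, ((‖AR R f χ‖ ^ 2 : ℝ) : ℂ) *
          ∑ h : H, (((ρ h : ℤˣ) : ℤ) : ℂ) * ev χ (h : (ZMod d)ˣ) =
        ∑ a ∈ R, ∑ b ∈ R, ∑ h : H, ((f a * f b : ℝ) : ℂ) * (((ρ h : ℤˣ) : ℤ) : ℂ) *
          ev χ (ucl d a * (ucl d b)⁻¹ * (h : (ZMod d)ˣ)) := by
      intro χ
      rw [hval χ, Finset.sum_mul]
      refine Finset.sum_congr rfl fun a _ => ?_
      rw [Finset.sum_mul]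
      refine Finset.sum_congr rfl fun b _ => ?_
      rw [Finset.mul_sum]
      refine Finset.sum_congr rfl fun h _ => ?_
      rw [ev_mul χ (ucl d a * (ucl d b)⁻¹)]
      ring
    rw [Finset.sum_congr rfl fun χ _ => h2 χ, Finset.sum_comm, Complex.ofReal_mul,
      Complex.ofReal_sum, Finset.mul_sum]
    refine Finset.sum_congr rfl fun a _ => ?_
    rw [Finset.sum_comm, Complex.ofReal_sum, Finset.mul_sum]
    refine Finset.sum_congr rfl fun b _ => ?_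
    rw [Finset.sum_comm]
    have h3 : ∀ h : H, ∑ χ : DirichletCharacter ℂ d, ((f a * f b : ℝ) : ℂ) *
        (((ρ h : ℤˣ) : ℤ) : ℂ) * ev χ (ucl d a * (ucl d b)⁻¹ * (h : (ZMod d)ˣ)) =
        ((f a * f b : ℝ) : ℂ) * (Fintype.card (ZMod d)ˣ : ℂ) *
          (if (h : (ZMod d)ˣ) = (ucl d a)⁻¹ * ucl d b then (((ρ h : ℤˣ) : ℤ) : ℂ) else 0) := by
      intro h
      rw [← Finset.mul_sum, sum_ev]
      have h4 : ucl d a * (ucl d b)⁻¹ * (h : (ZMod d)ˣ) = 1 ↔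
          (h : (ZMod d)ˣ) = (ucl d a)⁻¹ * ucl d b := by
        constructor
        · intro h5
          have h6 : (h : (ZMod d)ˣ) = (ucl d a * (ucl d b)⁻¹)⁻¹ := (inv_eq_of_mul_eq_one_right h5).symm
          rw [h6, mul_inv, inv_inv]
        · intro h5
          rw [h5, mul_mul_mul_comm, mul_inv_cancel, inv_mul_cancel, one_mul]
      by_cases h5 : (h : (ZMod d)ˣ) = (ucl d a)⁻¹ * ucl d b
      · rw [if_pos (h4.mpr h5), if_pos h5]
        ring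
      · rw [if_neg fun h6 => h5 (h4.mp h6), if_neg h5]
        ring
    rw [Finset.sum_congr rfl fun h _ => h3 h, ← Finset.mul_sum, G1_sum ρ ((ucl d a)⁻¹ * ucl d b)]
    push_cast
    ring
  exact Complex.ofReal_injective hC

end Pool.Agent.Lib.MP_42948a_nt.TQ
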