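import Pool.Agent.Lib.MP_42948a_nt.TQ.B2

/-!
# Most classes are products of unexceptional numbers (job G4)

`r c = rp d A R c`, `φ = card G`, `E = {a ∈ R : Λ (ucl a) ≠ lio a}`, `B` the set of the claim. As in `bad_classes` (`TQ/E2.lean`, may be copied): every pair
`(a, b) ∈ A × R` has exactly one class, `∑_c r c = #A #R`; Cauchy-Schwarz: `∑ Er ≤ √φ √(∑ Er^2) ≤ τ m φ`; so `#A #R ≥ (1 - 2τ) m φ` and
`#A #R ≤ (1+2τ) m φ`. For `c ∈ B` every pair `(a, b) ∈ A × R` with `a b = c` has `a ∈ E` or `b ∈ E`, so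
`∑_{c ∈ B} r c ≤ #E #R + #A #E ≤ 2 #E #R ≤ ω #R^2 ≤ ω (4/δ) #A #R ≤ (4ω/δ)(1+2τ) m φ` (`A ⊆ R`). On the other hand
`∑_{c ∈ B} r c ≥ (1-τ) m #B - τ m φ`. So `#B ≤ (τ + (4ω/δ)(1+2τ)) φ/(1-τ) ≤ (2τ + 6ω/δ) φ`.
-/

namespace Pool.Agent.Lib.MP_42948a_nt.TQ

open Finset Pool.Agent.Lib.MP_42948a_nt.OA Pool.Agent.Lib.MP_42948a_nt.AC

open Classical in
theorem nonbad {d : ℕ} [NeZero d] (R A : Finset ℕ) (hR : ∀ a ∈ R, 0 < a ∧ a.Coprime d) (hAR : A ⊆ R)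
    (Λ : (ZMod d)ˣ → ℝ) (m τ ω δ : ℝ) (Er : (ZMod d)ˣ → ℝ) (hm : 0 < m) (hτ : 0 < τ) (hτ1 : τ ≤ 1 / 10) (hω : 0 ≤ ω)
    (hδ : 0 < δ) (hA : δ / 4 * (R.card : ℝ) ≤ (A.card : ℝ))
    (hEr0 : ∀ c, 0 ≤ Er c) (hr : ∀ c, |(rp d A R c : ℝ) - m| ≤ τ * m + Er c)
    (hEr : ∑ c, Er c ^ 2 ≤ (τ * m) ^ 2 * (Fintype.card (ZMod d)ˣ : ℝ))
    (hE : 2 * ((R.filter (fun a : ℕ => Λ (ucl d a) ≠ lio a)).card : ℝ) ≤ ω * (R.card : ℝ)) :
    (((univ : Finset (ZMod d)ˣ).filter (fun c => ¬ ∃ a ∈ A, ∃ b ∈ R, ucl d (a * b) = c ∧ Λ (ucl d a) = lio a ∧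
      Λ (ucl d b) = lio b)).card : ℝ) ≤ (2 * τ + 6 * ω / δ) * (Fintype.card (ZMod d)ˣ : ℝ) := by
  have hmem : ∀ a ∈ A, ∀ b ∈ R, (a * b).Coprime d := fun a ha b hb =>
    Nat.Coprime.mul_left (hR a (hAR ha)).2 (hR b hb).2
  have hrp : ∀ c, rp d A R c = ((A ×ˢ R).filter (fun q : ℕ × ℕ => ucl d (q.1 * q.2) = c)).card := by
    intro c
    unfold rp
    congr 1
    apply Finset.filter_congr
    intro q hq
    rw [Finset.mem_product] at hq
    have hcop := hmem q.1 hq.1 q.2 hq.2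
    constructor
    · intro h
      exact ucl_eq hcop h
    · intro h
      rw [← h, ucl_val hcop]
  have hsumall : ∑ c : (ZMod d)ˣ, (rp d A R c : ℝ) = (A.card : ℝ) * (R.card : ℝ) := by
    have h1 : (A ×ˢ R).card = ∑ c : (ZMod d)ˣ, rp d A R c := by
      rw [Finset.card_eq_sum_card_fiberwise (f := fun q : ℕ × ℕ => ucl d (q.1 * q.2)) (t := univ)
        (fun x _ => Finset.mem_coe.2 (Finset.mem_univ _))]
      exact Finset.sum_congr rfl (fun c _ => (hrp c).symm)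
    rw [← Nat.cast_sum, ← h1, Finset.card_product, Nat.cast_mul]
  set φ : ℝ := (Fintype.card (ZMod d)ˣ : ℝ) with hφ
  have hφ0 : 0 ≤ φ := by rw [hφ]; positivity
  have hErsum : ∑ c, Er c ≤ τ * m * φ := by
    have h1 : (∑ c, Er c) ^ 2 ≤ (τ * m * φ) ^ 2 := by
      calc (∑ c, Er c) ^ 2 ≤ ((univ : Finset (ZMod d)ˣ).card : ℝ) * ∑ c, Er c ^ 2 := sq_sum_le_card_mul_sum_sq
        _ = φ * ∑ c, Er c ^ 2 := by rw [Finset.card_univ]
        _ ≤ φ * ((τ * m) ^ 2 * φ) := mul_le_mul_of_nonneg_left hEr hφ0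
        _ = (τ * m * φ) ^ 2 := by ring
    exact abs_le_of_sq_le_sq' h1 (by positivity) |>.2
  have hR2 : (A.card : ℝ) * (R.card : ℝ) ≤ (1 + 2 * τ) * m * φ := by
    rw [← hsumall]
    have h1 : ∀ c ∈ (univ : Finset (ZMod d)ˣ), (rp d A R c : ℝ) ≤ (m + τ * m) + Er c := by
      intro c _
      have := (abs_le.1 (hr c)).2
      linarith
    have h2 := Finset.sum_le_sum h1
    rw [Finset.sum_add_distrib, Finset.sum_const, Finset.card_univ, nsmul_eq_mul] at h2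
    rw [← hφ] at h2
    nlinarith [h2, hErsum]
  set B := (univ : Finset (ZMod d)ˣ).filter (fun c => ¬ ∃ a ∈ A, ∃ b ∈ R, ucl d (a * b) = c ∧
    Λ (ucl d a) = lio a ∧ Λ (ucl d b) = lio b) with hB
  set E := R.filter (fun a : ℕ => Λ (ucl d a) ≠ lio a) with hEdef
  have hbad : ∀ a ∈ A, ∀ b ∈ R, ucl d (a * b) ∈ B → a ∈ E ∨ b ∈ E := by
    intro a ha b hb hc
    by_contra hcon
    rw [not_or] at hcon
    obtain ⟨h1, h2⟩ := hcon
    rw [hEdef, Finset.mem_filter, not_and, not_not] at h1 h2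
    have h1' := h1 (hAR ha)
    have h2' := h2 hb
    rw [hB, Finset.mem_filter] at hc
    exact hc.2 ⟨a, ha, b, hb, rfl, h1', h2'⟩
  have hBsum : ∑ c ∈ B, (rp d A R c : ℝ) ≤ 2 * (E.card : ℝ) * (R.card : ℝ) := by
    have h1 : ((A ×ˢ R).filter (fun q : ℕ × ℕ => ucl d (q.1 * q.2) ∈ B)).card = ∑ c ∈ B, rp d A R c := by
      rw [Finset.card_eq_sum_card_fiberwise (f := fun q : ℕ × ℕ => ucl d (q.1 * q.2)) (t := B)
        (fun x hx => Finset.mem_coe.2 (Finset.mem_filter.1 (Finset.mem_coe.1 hx)).2)]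
      apply Finset.sum_congr rfl
      intro c hc
      rw [hrp c, Finset.filter_filter]
      congr 1
      apply Finset.filter_congr
      intro q _
      constructor
      · intro h
        exact h.2
      · intro h
        exact ⟨(congrArg (· ∈ B) h).mpr hc, h⟩
    have h2 : ((A ×ˢ R).filter (fun q : ℕ × ℕ => ucl d (q.1 * q.2) ∈ B)) ⊆ (E ×ˢ R) ∪ (R ×ˢ E) := by
      intro q hq
      rw [Finset.mem_filter, Finset.mem_product] at hq
      rw [Finset.mem_union, Finset.mem_product, Finset.mem_product]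
      rcases hbad q.1 hq.1.1 q.2 hq.1.2 hq.2 with h | h
      · left; exact ⟨h, hq.1.2⟩
      · right; exact ⟨hAR hq.1.1, h⟩
    have h3 : ∑ c ∈ B, rp d A R c ≤ E.card * R.card + R.card * E.card := by
      rw [← h1]
      refine (Finset.card_le_card h2).trans ((Finset.card_union_le _ _).trans ?_)
      rw [Finset.card_product, Finset.card_product]
    have h4 : ((∑ c ∈ B, rp d A R c : ℕ) : ℝ) ≤ ((E.card * R.card + R.card * E.card : ℕ) : ℝ) := by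
      exact_mod_cast h3
    push_cast at h4
    linarith
  have hBlow : (1 - τ) * m * (B.card : ℝ) - τ * m * φ ≤ ∑ c ∈ B, (rp d A R c : ℝ) := by
    have h1 : ∀ c ∈ B, (m - τ * m) - Er c ≤ (rp d A R c : ℝ) := by
      intro c _
      have := (abs_le.1 (hr c)).1
      linarith
    have h2 := Finset.sum_le_sum h1
    rw [Finset.sum_sub_distrib, Finset.sum_const, nsmul_eq_mul] at h2
    have h3 : ∑ c ∈ B, Er c ≤ ∑ c, Er c :=
      Finset.sum_le_sum_of_subset_of_nonneg (Finset.subset_univ B) (fun c _ _ => hEr0 c)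
    nlinarith [h2, h3, hErsum]
  have hR0 : (0 : ℝ) ≤ (R.card : ℝ) := Nat.cast_nonneg _
  have hx0 : 0 ≤ ω / δ := div_nonneg hω hδ.le
  have hRA : ω * ((R.card : ℝ) * (R.card : ℝ)) ≤ 4 * (ω / δ) * ((A.card : ℝ) * (R.card : ℝ)) := by
    have h1 : δ / 4 * (R.card : ℝ) * (4 * (ω / δ) * (R.card : ℝ)) ≤
        (A.card : ℝ) * (4 * (ω / δ) * (R.card : ℝ)) :=
      mul_le_mul_of_nonneg_right hA (by positivity)
    have h2 : δ / 4 * (R.card : ℝ) * (4 * (ω / δ) * (R.card : ℝ)) =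
        ω * ((R.card : ℝ) * (R.card : ℝ)) := by
      have h3 := hδ.ne'
      field_simp
    rw [h2] at h1
    calc ω * ((R.card : ℝ) * (R.card : ℝ)) ≤ (A.card : ℝ) * (4 * (ω / δ) * (R.card : ℝ)) := h1
      _ = 4 * (ω / δ) * ((A.card : ℝ) * (R.card : ℝ)) := by ring
  have hfin : (1 - τ) * m * (B.card : ℝ) ≤ m * ((4 * (ω / δ) * (1 + 2 * τ) + τ) * φ) := by
    have h1 : 2 * (E.card : ℝ) * (R.card : ℝ) ≤ ω * (R.card : ℝ) * (R.card : ℝ) :=
      mul_le_mul_of_nonneg_right hE hR0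
    have h2 : 4 * (ω / δ) * ((A.card : ℝ) * (R.card : ℝ)) ≤ 4 * (ω / δ) * ((1 + 2 * τ) * m * φ) :=
      mul_le_mul_of_nonneg_left hR2 (by positivity)
    nlinarith [h1, h2, hBsum, hBlow, hRA]
  have hfin2 : (1 - τ) * (B.card : ℝ) ≤ (4 * (ω / δ) * (1 + 2 * τ) + τ) * φ := by
    have : m * ((1 - τ) * (B.card : ℝ)) ≤ m * ((4 * (ω / δ) * (1 + 2 * τ) + τ) * φ) := by
      calc m * ((1 - τ) * (B.card : ℝ)) = (1 - τ) * m * (B.card : ℝ) := by ring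
        _ ≤ _ := hfin
    exact le_of_mul_le_mul_left this hm
  have hcoef : 4 * (ω / δ) * (1 + 2 * τ) + τ ≤ (1 - τ) * (2 * τ + 6 * (ω / δ)) := by
    nlinarith [mul_nonneg hx0 hτ.le, mul_le_mul_of_nonneg_left hτ1 hx0, mul_le_mul_of_nonneg_left hτ1 hτ.le]
  have hpos : (0 : ℝ) < 1 - τ := by linarith
  have hx6 : 6 * ω / δ = 6 * (ω / δ) := by ring
  rw [hx6]
  have hfin3 : (1 - τ) * (B.card : ℝ) ≤ (1 - τ) * ((2 * τ + 6 * (ω / δ)) * φ) := by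
    calc (1 - τ) * (B.card : ℝ) ≤ (4 * (ω / δ) * (1 + 2 * τ) + τ) * φ := hfin2
      _ ≤ ((1 - τ) * (2 * τ + 6 * (ω / δ))) * φ := mul_le_mul_of_nonneg_right hcoef hφ0
      _ = (1 - τ) * ((2 * τ + 6 * (ω / δ)) * φ) := by ring
  exact le_of_mul_le_mul_left hfin3 hpos

end Pool.Agent.Lib.MP_42948a_nt.TQ
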