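import Pool.Agent.Lib.MP_42948a_nt.TQ.G1

/-!
# The functional equation of the model function (job G5)

`φ = card G > 0`, `A g = {a ∈ R : g⁻¹ ucl a ∈ H}`. Call `c` good for `g` if there are `a ∈ A g`, `b ∈ R` with `ucl (a b) = c`, `Λ (ucl a) = lio a`,
`Λ (ucl b) = lio b`. By `hbad` at most `(δ/8) φ` classes are not good for `g`. If `c ∈ B` is good for `g`: `F c = lio a * lio b = Λ (ucl a) * Λ (ucl b)`,
`ucl b = (ucl a)⁻¹ * c`; write `ucl a = g * h`, `h ∈ H`: `Λ (ucl a) = Λ g * ρ h`, `Λ (ucl b) = Λ (c * g⁻¹ * h⁻¹) = Λ (c * g⁻¹) * ρ h` (`G` is commutative,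
`rhoE_inv`), `ρ h^2 = 1`: (1) `F c = Λ g * Λ (c * g⁻¹)`.
Given `g`, since `#B ≥ (δ/2) φ > (δ/4) φ`, some `c ∈ B` is good for `g` and for `1`, so `Λ g * Λ (c * g⁻¹) = F c = Λ 1 * Λ c`. For any `c'` with
`c0⁻¹ c' ∈ H` also `h = c⁻¹ c' ∈ H` (`hBH`), `Λ (c' * g⁻¹) = Λ (c * g⁻¹ * h) = Λ (c * g⁻¹) ρ h` and `Λ c' = Λ c * ρ h`; this gives the first claim. Second claim:
if `c ∈ B` is good for `1` then `F c = Λ 1 * Λ c` by (1) (`c * 1⁻¹ = c`).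
-/

namespace Pool.Agent.Lib.MP_42948a_nt.TQ

open Finset Pool.Agent.Lib.MP_42948a_nt.OA Pool.Agent.Lib.MP_42948a_nt.AC

open Classical in
private theorem G5_good {d : ℕ} [NeZero d] (R : Finset ℕ) (hR : ∀ a ∈ R, 0 < a ∧ a.Coprime d)
    (H : Subgroup (ZMod d)ˣ) (ρ : H →* ℤˣ) (F : (ZMod d)ˣ → ℝ) (Λ : (ZMod d)ˣ → ℝ)
    (hΛH : ∀ g, ∀ h ∈ H, Λ (g * h) = Λ g * rhoE ρ h) (g c : (ZMod d)ˣ)
    (hF : ∀ a ∈ R, ∀ b ∈ R, ucl d (a * b) = c → F c = lio a * lio b)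
    (h : ∃ a ∈ R.filter (fun a : ℕ => g⁻¹ * ucl d a ∈ H),
      ∃ b ∈ R, ucl d (a * b) = c ∧ Λ (ucl d a) = lio a ∧ Λ (ucl d b) = lio b) :
    F c = Λ g * Λ (c * g⁻¹) := by
  obtain ⟨a, ha, b, hb, hc, h1, h2⟩ := h
  rw [mem_filter] at ha
  obtain ⟨haR, haH⟩ := ha
  rw [hF a haR b hb hc, ← h1, ← h2]
  have hm := ucl_mul (hR a haR).2 (hR b hb).2
  rw [hc] at hm
  have ea : ucl d a = g * (g⁻¹ * ucl d a) := by group
  have eb : ucl d b = c * g⁻¹ * (g⁻¹ * ucl d a)⁻¹ := by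
    rw [hm]
    have : ucl d a * ucl d b * g⁻¹ * (g⁻¹ * ucl d a)⁻¹ =
        (ucl d a * (ucl d a)⁻¹) * (g⁻¹ * g) * ucl d b := by
      rw [mul_inv_rev, inv_inv]
      simp only [mul_comm, mul_left_comm, mul_assoc]
    rw [this, mul_inv_cancel, inv_mul_cancel, one_mul, one_mul]
  have la : Λ (ucl d a) = Λ g * rhoE ρ (g⁻¹ * ucl d a) := by
    conv_lhs => rw [ea]
    exact hΛH _ _ haH
  have lb : Λ (ucl d b) = Λ (c * g⁻¹) * rhoE ρ (g⁻¹ * ucl d a) := by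
    conv_lhs => rw [eb]
    rw [hΛH _ _ (H.inv_mem haH), rhoE_inv]
  rw [la, lb]
  rcases rhoE_of_mem ρ haH with h3 | h3 <;> rw [h3] <;> ring

open Classical in
theorem func_eq {d : ℕ} [NeZero d] (R : Finset ℕ) (hR : ∀ a ∈ R, 0 < a ∧ a.Coprime d)
    (H : Subgroup (ZMod d)ˣ) (ρ : H →* ℤˣ) (c0 : (ZMod d)ˣ) (B : Finset (ZMod d)ˣ) (hBH : ∀ c ∈ B, c0⁻¹ * c ∈ H)
    (F : (ZMod d)ˣ → ℝ) (hFR : ∀ a ∈ R, ∀ b ∈ R, ucl d (a * b) ∈ B → F (ucl d (a * b)) = lio a * lio b)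
    (Λ : (ZMod d)ˣ → ℝ) (hΛ : ∀ g, Λ g = 1 ∨ Λ g = -1) (hΛH : ∀ g, ∀ h ∈ H, Λ (g * h) = Λ g * rhoE ρ h)
    (δ : ℝ) (hδ : 0 < δ) (hB : δ / 2 * (Fintype.card (ZMod d)ˣ : ℝ) ≤ (B.card : ℝ))
    (hbad : ∀ g : (ZMod d)ˣ, (((univ : Finset (ZMod d)ˣ).filter (fun c => ¬ ∃ a ∈ R.filter (fun a : ℕ => g⁻¹ * ucl d a ∈ H),
      ∃ b ∈ R, ucl d (a * b) = c ∧ Λ (ucl d a) = lio a ∧ Λ (ucl d b) = lio b)).card : ℝ) ≤
        δ / 8 * (Fintype.card (ZMod d)ˣ : ℝ)) :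
    (∀ g c' : (ZMod d)ˣ, c0⁻¹ * c' ∈ H → Λ g * Λ (c' * g⁻¹) = Λ 1 * Λ c') ∧
      ((B.filter (fun c => F c ≠ Λ 1 * Λ c)).card : ℝ) ≤ δ / 8 * (Fintype.card (ZMod d)ˣ : ℝ) := by
  classical
  have hφ : (0 : ℝ) < (Fintype.card (ZMod d)ˣ : ℝ) := by exact_mod_cast Fintype.card_pos
  have hgood : ∀ g : (ZMod d)ˣ, ∀ c ∈ B, (∃ a ∈ R.filter (fun a : ℕ => g⁻¹ * ucl d a ∈ H),
      ∃ b ∈ R, ucl d (a * b) = c ∧ Λ (ucl d a) = lio a ∧ Λ (ucl d b) = lio b) →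
      F c = Λ g * Λ (c * g⁻¹) := by
    intro g c hc h
    refine G5_good R hR H ρ F Λ hΛH g c ?_ h
    intro a ha b hb hab
    have h1 := hFR a ha b hb (by rw [hab]; exact hc)
    rwa [hab] at h1
  have hex : ∀ g : (ZMod d)ˣ, ∃ c ∈ B, Λ g * Λ (c * g⁻¹) = Λ 1 * Λ c := by
    intro g
    set Bg := (univ : Finset (ZMod d)ˣ).filter (fun c => ¬ ∃ a ∈ R.filter (fun a : ℕ => g⁻¹ * ucl d a ∈ H),
      ∃ b ∈ R, ucl d (a * b) = c ∧ Λ (ucl d a) = lio a ∧ Λ (ucl d b) = lio b) with hBg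
    set B1 := (univ : Finset (ZMod d)ˣ).filter (fun c => ¬ ∃ a ∈ R.filter (fun a : ℕ => (1 : (ZMod d)ˣ)⁻¹ * ucl d a ∈ H),
      ∃ b ∈ R, ucl d (a * b) = c ∧ Λ (ucl d a) = lio a ∧ Λ (ucl d b) = lio b) with hB1
    have hnot : ¬ B ⊆ Bg ∪ B1 := by
      intro hsub
      have h1 : (B.card : ℝ) ≤ (Bg.card : ℝ) + (B1.card : ℝ) := by
        exact_mod_cast (card_le_card hsub).trans (card_union_le _ _)
      have h2 : (Bg.card : ℝ) ≤ δ / 8 * (Fintype.card (ZMod d)ˣ : ℝ) := hbad g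
      have h3 : (B1.card : ℝ) ≤ δ / 8 * (Fintype.card (ZMod d)ˣ : ℝ) := hbad 1
      have h4 : 0 < δ * (Fintype.card (ZMod d)ˣ : ℝ) := mul_pos hδ hφ
      linarith
    obtain ⟨c, hcB, hc⟩ := not_subset.1 hnot
    rw [mem_union, not_or, hBg, hB1, mem_filter, mem_filter] at hc
    obtain ⟨hc1, hc2⟩ := hc
    simp only [mem_univ, true_and, not_not] at hc1 hc2
    have e1 := hgood g c hcB hc1
    have e2 := hgood 1 c hcB hc2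
    rw [inv_one, mul_one] at e2
    exact ⟨c, hcB, by rw [← e1, e2]⟩
  refine ⟨?_, ?_⟩
  · intro g c' hc'
    obtain ⟨c, hcB, hc⟩ := hex g
    have hh : c⁻¹ * c' ∈ H := by
      have : c⁻¹ * c' = (c0⁻¹ * c)⁻¹ * (c0⁻¹ * c') := by group
      rw [this]
      exact H.mul_mem (H.inv_mem (hBH c hcB)) hc'
    have e1 : c' * g⁻¹ = c * g⁻¹ * (c⁻¹ * c') := by
      have : c * g⁻¹ * (c⁻¹ * c') = (c * c⁻¹) * (c' * g⁻¹) := by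
        simp only [mul_comm, mul_left_comm, mul_assoc]
      rw [this, mul_inv_cancel, one_mul]
    have e2 : c' = c * (c⁻¹ * c') := by group
    have l1 : Λ (c' * g⁻¹) = Λ (c * g⁻¹) * rhoE ρ (c⁻¹ * c') := by
      rw [e1]
      exact hΛH _ _ hh
    have l2 : Λ c' = Λ c * rhoE ρ (c⁻¹ * c') := by
      conv_lhs => rw [e2]
      exact hΛH _ _ hh
    rw [l1, l2, ← mul_assoc, ← mul_assoc, hc]
  · refine le_trans ?_ (hbad 1)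
    have hsub : B.filter (fun c => F c ≠ Λ 1 * Λ c) ⊆
        (univ : Finset (ZMod d)ˣ).filter (fun c => ¬ ∃ a ∈ R.filter (fun a : ℕ => (1 : (ZMod d)ˣ)⁻¹ * ucl d a ∈ H),
          ∃ b ∈ R, ucl d (a * b) = c ∧ Λ (ucl d a) = lio a ∧ Λ (ucl d b) = lio b) := by
      intro c hc
      rw [mem_filter] at hc ⊢
      refine ⟨mem_univ _, fun hg => hc.2 ?_⟩
      have := hgood 1 c hc.1 hg
      rwa [inv_one, mul_one] at this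
    exact_mod_cast card_le_card hsub

end Pool.Agent.Lib.MP_42948a_nt.TQ
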