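import Pool.Agent.Lib.MP_42948a_nt.TQ.G1

/-!
# The exceptional set of the model is sparse (job G6)

As `sparse_contra` (`TQ/E3.lean`, may be copied). `E = {a ∈ R : Λ (ucl a) ≠ lio a}`, `r' c = rp d E R c`, `∑_c r' c = #E #R`, `∑ Er' ≤ τ m' φ`,
`#E #R ≤ (1 + 2τ) m' φ`. `C = {c ∈ B : F c = Λ 1 * Λ c}`. For `c ∈ C` and `(a, b) ∈ E × R` with `a b = c`: if `b ∉ E` then `Λ (ucl b) = lio b`,
`Λ (ucl a) = - lio a` (both are `±1` and different), `ucl b = c * (ucl a)⁻¹`, so `F c = lio a * lio b = - Λ (ucl a) * Λ (c * (ucl a)⁻¹) = - Λ 1 * Λ c = - F c`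
(`hfe`, `hBH`), so `F c = 0`, but `F c = lio a * lio b ≠ 0`. So `b ∈ E`, and `∑_{c ∈ C} r' c ≤ #E^2 ≤ (ω/2) #R #E ≤ (ω/2)(1+2τ) m' φ`. Lower bound:
`∑_{c ∈ C} r' c ≥ (1-τ) m' #C - τ m' φ`. So `#C ≤ (ω + 2τ) φ`, and `#B ≤ #C + (δ/8) φ`.
-/

namespace Pool.Agent.Lib.MP_42948a_nt.TQ

open Finset Pool.Agent.Lib.MP_42948a_nt.OA Pool.Agent.Lib.MP_42948a_nt.AC

private theorem G6_fib {d : ℕ} [NeZero d] (A B : Finset ℕ) (hA : ∀ a ∈ A, a.Coprime d) (hB : ∀ a ∈ B, a.Coprime d)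
    (c : (ZMod d)ˣ) [DecidableEq (ZMod d)ˣ] :
    rp d A B c = ((A ×ˢ B).filter (fun q : ℕ × ℕ => ucl d (q.1 * q.2) = c)).card := by
  classical
  unfold rp
  congr 1
  ext q
  simp only [mem_filter, mem_product, and_congr_right_iff]
  rintro ⟨h1, h2⟩
  have hco : (q.1 * q.2).Coprime d := Nat.Coprime.mul_left (hA _ h1) (hB _ h2)
  constructor
  · intro h
    exact ucl_eq hco h
  · intro h
    rw [← h, ucl_val hco]

private theorem G6_sum {d : ℕ} [NeZero d] (A B : Finset ℕ) (hA : ∀ a ∈ A, a.Coprime d) (hB : ∀ a ∈ B, a.Coprime d) :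
    ∑ c : (ZMod d)ˣ, rp d A B c = A.card * B.card := by
  classical
  rw [← card_product, card_eq_sum_card_fiberwise (f := fun q : ℕ × ℕ => ucl d (q.1 * q.2)) (t := univ)
    (fun _ _ => by simp)]
  exact sum_congr rfl fun c _ => G6_fib A B hA hB c

private theorem G6_cs {G : Type*} [Fintype G] (E : G → ℝ) (hE0 : ∀ c, 0 ≤ E c) (y : ℝ) (hy : 0 ≤ y)
    (h : ∑ c, E c ^ 2 ≤ y ^ 2 * (Fintype.card G : ℝ)) : ∑ c, E c ≤ y * (Fintype.card G : ℝ) := by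
  have h1 : (∑ c, E c) ^ 2 ≤ (Fintype.card G : ℝ) * ∑ c, E c ^ 2 := by
    have := sq_sum_le_card_mul_sum_sq (s := (univ : Finset G)) (f := E)
    simpa using this
  have h2 : (∑ c, E c) ^ 2 ≤ (y * (Fintype.card G : ℝ)) ^ 2 := by
    refine h1.trans ?_
    have h3 := mul_le_mul_of_nonneg_left h (Nat.cast_nonneg (Fintype.card G) : (0 : ℝ) ≤ _)
    refine h3.trans (le_of_eq ?_)
    ring
  exact (pow_le_pow_iff_left₀ (sum_nonneg fun c _ => hE0 c) (by positivity) (by norm_num)).1 h2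

private theorem G6_arith (m τ ω φ e ρ s C B Q S D : ℝ) (hm : 0 < m) (hτ : 0 < τ) (hτ1 : τ ≤ 1 / 10) (hω : 0 ≤ ω)
    (hφ : 0 ≤ φ) (he : 0 ≤ e) (hs : s ≤ τ * m * φ) (h1 : e * ρ ≤ (1 + τ) * m * φ + s) (h2 : 2 * e ≤ ω * ρ)
    (h3 : (1 - τ) * m * C - s ≤ S) (h4 : S ≤ e * e) (hB : B ≤ D * φ) (hQ : Q = C + B) :
    Q ≤ (D + ω + 2 * τ) * φ := by
  have h5 : e * e ≤ ω / 2 * ((1 + 2 * τ) * m * φ) := by
    have h6 : e * (2 * e) ≤ e * (ω * ρ) := mul_le_mul_of_nonneg_left h2 he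
    have h7 : e * ρ ≤ (1 + 2 * τ) * m * φ := by linarith
    have h8 := mul_le_mul_of_nonneg_left h7 hω
    linarith
  have h9 : (1 - τ) * m * C ≤ m * ((ω / 2 * (1 + 2 * τ) + τ) * φ) := by linarith
  have h10 : (1 - τ) * C ≤ (ω / 2 * (1 + 2 * τ) + τ) * φ := by
    refine le_of_mul_le_mul_left ?_ hm
    linarith
  have h11 : (ω / 2 * (1 + 2 * τ) + τ) * φ ≤ (1 - τ) * ((ω + 2 * τ) * φ) := by
    have h12 : 0 ≤ (ω * (1 / 2 - 2 * τ) + τ * (1 - 2 * τ)) * φ := by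
      refine mul_nonneg (add_nonneg (mul_nonneg hω (by linarith)) (mul_nonneg hτ.le (by linarith))) hφ
    linarith
  have h13 : C ≤ (ω + 2 * τ) * φ := by
    refine le_of_mul_le_mul_left (h10.trans h11) (by linarith)
  rw [hQ]
  linarith

private theorem G6_incl {d : ℕ} [NeZero d] (R E : Finset ℕ) (hR : ∀ a ∈ R, 0 < a ∧ a.Coprime d)
    (F Λ : (ZMod d)ˣ → ℝ)
    (hE1 : ∀ a ∈ E, a ∈ R ∧ Λ (ucl d a) ≠ lio a) (hE2 : ∀ a ∈ R, Λ (ucl d a) ≠ lio a → a ∈ E) (c : (ZMod d)ˣ)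
    (hfe : ∀ g : (ZMod d)ˣ, Λ g * Λ (c * g⁻¹) = Λ 1 * Λ c)
    (hFR : ∀ a ∈ R, ∀ b ∈ R, ucl d (a * b) = c → F c = lio a * lio b) (hc : F c = Λ 1 * Λ c) :
    rp d E R c ≤ rp d E E c := by
  classical
  unfold rp
  refine card_le_card ?_
  rintro ⟨a, b⟩ hq
  simp only [mem_filter, mem_product] at hq ⊢
  obtain ⟨⟨ha, hb⟩, hab⟩ := hq
  refine ⟨⟨ha, ?_⟩, hab⟩
  apply hE2 b hb
  intro hb1
  obtain ⟨haR, ha1⟩ := hE1 a ha
  have hco : (a * b).Coprime d := Nat.Coprime.mul_left (hR a haR).2 (hR b hb).2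
  have hu : ucl d (a * b) = c := ucl_eq hco hab
  have hF := hFR a haR b hb hu
  have h1 := hfe (ucl d a)
  rw [ucl_mul (hR a haR).2 (hR b hb).2] at hu
  have h2 : c * (ucl d a)⁻¹ = ucl d b := by
    rw [← hu, mul_comm (ucl d a) (ucl d b), mul_assoc, mul_inv_cancel, mul_one]
  rw [h2, ← hc, hF, hb1] at h1
  have h3 : lio b ≠ 0 := by
    rcases lio_val b with h | h <;> rw [h] <;> norm_num
  exact ha1 (mul_right_cancel₀ h3 h1)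

open Classical in
theorem sparse2 {d : ℕ} [NeZero d] (R : Finset ℕ) (hR : ∀ a ∈ R, 0 < a ∧ a.Coprime d)
    (H : Subgroup (ZMod d)ˣ) (c0 : (ZMod d)ˣ) (B : Finset (ZMod d)ˣ) (hBH : ∀ c ∈ B, c0⁻¹ * c ∈ H)
    (F : (ZMod d)ˣ → ℝ) (hFR : ∀ a ∈ R, ∀ b ∈ R, ucl d (a * b) ∈ B → F (ucl d (a * b)) = lio a * lio b)
    (Λ : (ZMod d)ˣ → ℝ) (hΛ : ∀ g, Λ g = 1 ∨ Λ g = -1)
    (hfe : ∀ g c' : (ZMod d)ˣ, c0⁻¹ * c' ∈ H → Λ g * Λ (c' * g⁻¹) = Λ 1 * Λ c')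
    (δ τ ω : ℝ) (hτ : 0 < τ) (hτ1 : τ ≤ 1 / 10) (hω : 0 ≤ ω)
    (hFΛ : ((B.filter (fun c => F c ≠ Λ 1 * Λ c)).card : ℝ) ≤ δ / 8 * (Fintype.card (ZMod d)ˣ : ℝ))
    (hE : 2 * ((R.filter (fun a : ℕ => Λ (ucl d a) ≠ lio a)).card : ℝ) ≤ ω * (R.card : ℝ))
    (m' : ℝ) (Er' : (ZMod d)ˣ → ℝ) (hm' : 0 < m') (hEr0' : ∀ c, 0 ≤ Er' c)
    (hr' : ∀ c, |(rp d (R.filter (fun a : ℕ => Λ (ucl d a) ≠ lio a)) R c : ℝ) - m'| ≤ τ * m' + Er' c)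
    (hEr' : ∑ c, Er' c ^ 2 ≤ (τ * m') ^ 2 * (Fintype.card (ZMod d)ˣ : ℝ)) :
    (B.card : ℝ) ≤ (δ / 8 + ω + 2 * τ) * (Fintype.card (ZMod d)ˣ : ℝ) := by
  set φ : ℝ := (Fintype.card (ZMod d)ˣ : ℝ) with hφ
  have hφ0 : 0 ≤ φ := Nat.cast_nonneg _
  set E : Finset ℕ := R.filter (fun a : ℕ => Λ (ucl d a) ≠ lio a) with hEdef
  have hE1 : ∀ a ∈ E, a ∈ R ∧ Λ (ucl d a) ≠ lio a := fun a ha => mem_filter.1 ha
  have hE2 : ∀ a ∈ R, Λ (ucl d a) ≠ lio a → a ∈ E := fun a ha h => mem_filter.2 ⟨ha, h⟩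
  set C : Finset (ZMod d)ˣ := B.filter (fun c => F c = Λ 1 * Λ c) with hC
  have hQ : (B.card : ℝ) = (C.card : ℝ) + ((B.filter (fun c => F c ≠ Λ 1 * Λ c)).card : ℝ) := by
    rw [hC]
    exact_mod_cast (card_filter_add_card_filter_not (s := B) (fun c => F c = Λ 1 * Λ c)).symm
  have hs := G6_cs Er' hEr0' (τ * m') (by positivity) hEr'
  have hcoR : ∀ a ∈ R, a.Coprime d := fun a ha => (hR a ha).2
  have hcoE : ∀ a ∈ E, a.Coprime d := fun a ha => hcoR a (hE1 a ha).1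
  have h1 : (E.card : ℝ) * (R.card : ℝ) ≤ (1 + τ) * m' * φ + ∑ c, Er' c := by
    have h2 := G6_sum E R hcoE hcoR
    have h3 : (E.card : ℝ) * (R.card : ℝ) = ∑ c : (ZMod d)ˣ, (rp d E R c : ℝ) := by
      exact_mod_cast h2.symm
    rw [h3]
    have h4 : ∀ c ∈ (univ : Finset (ZMod d)ˣ), (rp d E R c : ℝ) ≤ (1 + τ) * m' + Er' c := by
      intro c _
      have := (abs_le.1 (hr' c)).2
      linarith
    refine (sum_le_sum h4).trans (le_of_eq ?_)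
    rw [sum_add_distrib, sum_const, card_univ, nsmul_eq_mul, ← hφ]
    ring
  have h3 : (1 - τ) * m' * (C.card : ℝ) - ∑ c, Er' c ≤ ∑ c ∈ C, (rp d E R c : ℝ) := by
    have h4 : ∀ c ∈ C, (1 - τ) * m' - Er' c ≤ (rp d E R c : ℝ) := by
      intro c _
      have := (abs_le.1 (hr' c)).1
      linarith
    have h5 := sum_le_sum h4
    rw [sum_sub_distrib, sum_const, nsmul_eq_mul] at h5
    have h6 : ∑ c ∈ C, Er' c ≤ ∑ c, Er' c :=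
      sum_le_sum_of_subset_of_nonneg (subset_univ _) fun c _ _ => hEr0' c
    linarith
  have h4 : ∑ c ∈ C, (rp d E R c : ℝ) ≤ (E.card : ℝ) * (E.card : ℝ) := by
    have h5 : ∑ c ∈ C, rp d E R c ≤ E.card * E.card := by
      rw [← G6_sum E E hcoE hcoE]
      calc ∑ c ∈ C, rp d E R c ≤ ∑ c ∈ C, rp d E E c := by
            refine sum_le_sum fun c hc => ?_
            rw [hC, mem_filter] at hc
            refine G6_incl R E hR F Λ hE1 hE2 c (fun g => hfe g c (hBH c hc.1)) ?_ hc.2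
            intro a ha b hb hab
            have := hFR a ha b hb (by rw [hab]; exact hc.1)
            rwa [hab] at this
        _ ≤ ∑ c, rp d E E c := sum_le_sum_of_subset (subset_univ _)
    exact_mod_cast h5
  exact G6_arith m' τ ω φ E.card R.card (∑ c, Er' c) C.card _ B.card _ (δ / 8) hm' hτ hτ1 hω hφ0 (Nat.cast_nonneg _)
    hs h1 hE h3 h4 hFΛ hQ

end Pool.Agent.Lib.MP_42948a_nt.TQ
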