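import Pool.Agent.Lib.MP_42948a_nt.TQ.P2
import Pool.Agent.Lib.MP_42948a_nt.TQ.B2

/-!
# The Fourier mass outside `Ξ` (job P3)

Let `F = FX d z X'`, `φ = card G`, `v χ = (1/#U) ∑_{u ∈ U} ev χ (ucl d u)` (so `∑_{u ∈ U} χ(u) = #U * v χ` as `u` is coprime to `d`). Average
`corr F (ucl d u)` over `u ∈ U` and add `parseval_SF` (`∑_c F c^2 = #Q`, `Q = PX d z X'`, by `FX_sq`); real parts:
`∑_χ ‖SF F χ‖^2 (1 + Re v χ) = φ (#Q + (1/#U) ∑_u ∑_c F c F(c (ucl d u)⁻¹)) ≤ 2 φ #(Q \ P)` by `corr_prime`. All terms are `≥ 0` since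
`|v χ| ≤ 1`. For `χ` not in `Ξ = {χ : Re ∑_{u ∈ U} χ(u) ≤ - #U/2}` one has `1 + Re v χ > 1/2`. Hence the claim. `Xi_large`: `|Re w| ≤ ‖w‖`.
-/

namespace Pool.Agent.Lib.MP_42948a_nt.TQ

open Finset Pool.Agent.Lib.MP_42948a_nt.OA Pool.Agent.Lib.MP_42948a_nt.AC

/-- the characters which are close to `-1` on the primes of `U` -/
noncomputable def Xi {d : ℕ} [NeZero d] (U : Finset ℕ) : Finset (DirichletCharacter ℂ d) := by
  classical
  exact univ.filter (fun χ => (∑ u ∈ U, χ (u : ZMod d)).re ≤ -((U.card : ℝ) / 2))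

theorem mem_Xi {d : ℕ} [NeZero d] (U : Finset ℕ) (χ : DirichletCharacter ℂ d) :
    χ ∈ Xi U ↔ (∑ u ∈ U, χ (u : ZMod d)).re ≤ -((U.card : ℝ) / 2) := by
  classical
  unfold Xi
  rw [mem_filter]
  exact ⟨fun h => h.2, fun h => ⟨mem_univ _, h⟩⟩

theorem Xi_large {d : ℕ} [NeZero d] (U : Finset ℕ) (χ : DirichletCharacter ℂ d) (h : χ ∈ Xi U) :
    (U.card : ℝ) / 2 ≤ ‖∑ u ∈ U, χ (u : ZMod d)‖ := by
  rw [mem_Xi] at h
  have h1 := Complex.abs_re_le_norm (∑ u ∈ U, χ (u : ZMod d))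
  have h2 := neg_abs_le (∑ u ∈ U, χ (u : ZMod d)).re
  linarith

open Classical in
theorem mass_outside (d z X X' : ℕ) [NeZero d] (U : Finset ℕ) (hU0 : U.Nonempty)
    (hU : ∀ u ∈ U, u.Prime ∧ Rough z u ∧ u.Coprime d ∧ u * X' ≤ X) (hfull : Full d z X') :
    ∑ χ ∈ (univ : Finset (DirichletCharacter ℂ d)) \ Xi U, ‖SF (FX d z X') χ‖ ^ 2 ≤
      4 * (Fintype.card (ZMod d)ˣ : ℝ) * ((PX d z X' \ PX d z X).card : ℝ) := by
  set F : (ZMod d)ˣ → ℝ := FX d z X' with hF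
  set φ : ℝ := (Fintype.card (ZMod d)ˣ : ℝ) with hφ
  have hφ0 : 0 ≤ φ := Nat.cast_nonneg _
  set Qc : ℝ := ((PX d z X').card : ℝ) with hQc
  set Dc : ℝ := ((PX d z X' \ PX d z X).card : ℝ) with hDc
  have hU1 : (0 : ℝ) < (U.card : ℝ) := by exact_mod_cast hU0.card_pos
  -- Parseval
  have h1 : ∑ χ : DirichletCharacter ℂ d, ‖SF F χ‖ ^ 2 = φ * Qc := by
    rw [parseval_SF]
    congr 1
    have h2 : ∀ c : (ZMod d)ˣ, F c ^ 2 = if c ∈ PX d z X' then (1 : ℝ) else 0 := by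
      intro c
      by_cases hc : c ∈ PX d z X'
      · rw [if_pos hc]
        unfold PX at hc
        exact FX_sq (mem_filter.1 hc).2
      · rw [if_neg hc]
        have h3 : F c = 0 := by
          by_contra h4
          apply hc
          unfold PX
          rw [mem_filter]
          exact ⟨mem_univ _, h4⟩
        rw [h3]; norm_num
    rw [Finset.sum_congr rfl (fun c _ => h2 c)]
    simp only [Finset.sum_ite_mem, univ_inter, Finset.sum_const, nsmul_eq_mul, mul_one]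
    rfl
  -- correlations
  have h5 : ∀ u ∈ U, ∑ χ : DirichletCharacter ℂ d, ‖SF F χ‖ ^ 2 * (χ (u : ZMod d)).re ≤ φ * (-Qc + 2 * Dc) := by
    intro u hu
    obtain ⟨hup, hur, hud, huX⟩ := hU u hu
    have h6 := corr F (ucl d u)
    have h7 := congrArg Complex.re h6
    rw [Complex.re_sum] at h7
    have h8 : ∀ χ : DirichletCharacter ℂ d, (((‖SF F χ‖ ^ 2 : ℝ) : ℂ) * ev χ (ucl d u)).re =
        ‖SF F χ‖ ^ 2 * (χ (u : ZMod d)).re := by
      intro χ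
      rw [Complex.re_ofReal_mul]
      unfold ev
      rw [ucl_val hud]
    rw [Finset.sum_congr rfl (fun χ _ => h8 χ)] at h7
    have h9 : ((Fintype.card (ZMod d)ˣ : ℂ) * ((∑ c : (ZMod d)ˣ, F c * F (c * (ucl d u)⁻¹) : ℝ) : ℂ)).re =
        φ * ∑ c : (ZMod d)ˣ, F c * F (c * (ucl d u)⁻¹) := by
      rw [hφ, ← Complex.ofReal_natCast, Complex.re_ofReal_mul, Complex.ofReal_re]
    rw [h9] at h7
    rw [h7]
    exact mul_le_mul_of_nonneg_left (corr_prime d z X X' u hup hur hud huX hfull) hφ0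
  have h10 : ∑ χ : DirichletCharacter ℂ d, ‖SF F χ‖ ^ 2 * (∑ u ∈ U, χ (u : ZMod d)).re ≤
      (U.card : ℝ) * (φ * (-Qc + 2 * Dc)) := by
    have h11 : ∑ χ : DirichletCharacter ℂ d, ‖SF F χ‖ ^ 2 * (∑ u ∈ U, χ (u : ZMod d)).re =
        ∑ u ∈ U, ∑ χ : DirichletCharacter ℂ d, ‖SF F χ‖ ^ 2 * (χ (u : ZMod d)).re := by
      rw [Finset.sum_comm]
      apply Finset.sum_congr rfl
      intro χ _
      rw [Complex.re_sum, Finset.mul_sum]
    rw [h11]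
    refine (Finset.sum_le_sum h5).trans (le_of_eq ?_)
    rw [Finset.sum_const, nsmul_eq_mul]
  have h12 : ∑ χ : DirichletCharacter ℂ d, ‖SF F χ‖ ^ 2 * ((U.card : ℝ) + (∑ u ∈ U, χ (u : ZMod d)).re) ≤
      (U.card : ℝ) * (2 * φ * Dc) := by
    have h13 : ∑ χ : DirichletCharacter ℂ d, ‖SF F χ‖ ^ 2 * ((U.card : ℝ) + (∑ u ∈ U, χ (u : ZMod d)).re) =
        (∑ χ : DirichletCharacter ℂ d, ‖SF F χ‖ ^ 2) * (U.card : ℝ) +
          ∑ χ : DirichletCharacter ℂ d, ‖SF F χ‖ ^ 2 * (∑ u ∈ U, χ (u : ZMod d)).re := by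
      rw [Finset.sum_mul, ← Finset.sum_add_distrib]
      apply Finset.sum_congr rfl
      intro χ _
      ring
    rw [h13, h1]
    linarith
  have h14 : ∀ χ : DirichletCharacter ℂ d, 0 ≤ (U.card : ℝ) + (∑ u ∈ U, χ (u : ZMod d)).re := by
    intro χ
    have h15 : ‖∑ u ∈ U, χ (u : ZMod d)‖ ≤ (U.card : ℝ) := by
      refine (norm_sum_le _ _).trans ?_
      have h15' : ∀ u ∈ U, ‖χ ((u : ℕ) : ZMod d)‖ ≤ 1 := fun u _ => DirichletCharacter.norm_le_one χ _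
      refine (Finset.sum_le_sum h15').trans ?_
      rw [Finset.sum_const, nsmul_eq_mul, mul_one]
    have h16 := Complex.abs_re_le_norm (∑ u ∈ U, χ (u : ZMod d))
    have h17 := neg_abs_le (∑ u ∈ U, χ (u : ZMod d)).re
    linarith
  have h18 : ∑ χ ∈ (univ : Finset (DirichletCharacter ℂ d)) \ Xi U, ‖SF F χ‖ ^ 2 * ((U.card : ℝ) / 2) ≤
      (U.card : ℝ) * (2 * φ * Dc) := by
    refine le_trans ?_ h12
    refine le_trans (Finset.sum_le_sum (g := fun χ => ‖SF F χ‖ ^ 2 *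
      ((U.card : ℝ) + (∑ u ∈ U, χ (u : ZMod d)).re)) ?_) ?_
    · intro χ hχ
      rw [mem_sdiff, mem_Xi, not_le] at hχ
      apply mul_le_mul_of_nonneg_left _ (sq_nonneg _)
      linarith [hχ.2]
    · exact Finset.sum_le_sum_of_subset_of_nonneg (subset_univ _)
        (fun χ _ _ => mul_nonneg (sq_nonneg _) (h14 χ))
  rw [← Finset.sum_mul] at h18
  have h19 : (∑ χ ∈ (univ : Finset (DirichletCharacter ℂ d)) \ Xi U, ‖SF F χ‖ ^ 2) * (U.card : ℝ) ≤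
      (4 * φ * Dc) * (U.card : ℝ) := by linarith
  exact le_of_mul_le_mul_right h19 hU1

end Pool.Agent.Lib.MP_42948a_nt.TQ
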