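import Pool.Agent.Lib.MP_42948a_nt.TQ.C2
import Pool.Agent.Lib.MP_42948a_nt.TQ.P3
import Pool.Agent.Lib.MP_42948a_nt.OA.FB

/-!
# Few characters are `-1` on small primes (job Z4)

`Y = ⌊d^(1/k)⌋`, `U = primesOff d z Y`, `κ = η/2` (`η < 1`). `many_primes k κ`: `#U ≥ k d^((1-κ)/k) > 0`. `card_Xi` with `Ξ = Xi U` (`Xi_large`; `Y^k ≤ d`
as `⌊x⌋^k ≤ x^k`; members of `U` are primes `≤ Y` not dividing `d`): `#Ξ #U^k ≤ 4^k k^k φ`, `φ ≤ d`, `#U^k ≥ k^k d^(1-κ)`, so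
`#Ξ ≤ 4^k d^κ ≤ d^η` for large `d`.
-/

namespace Pool.Agent.Lib.MP_42948a_nt.TQ

open Finset Pool.Agent.Lib.MP_42948a_nt.OA Pool.Agent.Lib.MP_42948a_nt.AC

theorem Xi_good (k : ℕ) (hk : 1 ≤ k) (η : ℝ) (hη : 0 < η) (hη1 : η < 1) :
    ∃ d0 : ℕ, ∀ d : ℕ, d0 ≤ d → ∀ [NeZero d], ∀ z : ℕ, (z : ℝ) ≤ (d : ℝ) ^ (1 / (2 * (k : ℝ))) →
      (primesOff d z ⌊(d : ℝ) ^ (1 / (k : ℝ))⌋₊).Nonempty ∧
      ((Xi (d := d) (primesOff d z ⌊(d : ℝ) ^ (1 / (k : ℝ))⌋₊)).card : ℝ) ≤ (d : ℝ) ^ η := by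
  set κ : ℝ := η / 2 with hκdef
  have hκ : 0 < κ := by rw [hκdef]; linarith
  have hκ1 : κ < 1 := by rw [hκdef]; linarith
  obtain ⟨d1, hd1⟩ := many_primes k hk κ hκ hκ1
  refine ⟨max d1 (⌈(4 : ℝ) ^ ((k : ℝ) / κ)⌉₊ + 2), ?_⟩
  intro d hd _ z hz
  have hdd1 : d1 ≤ d := (le_max_left _ _).trans hd
  have hdd2 : ⌈(4 : ℝ) ^ ((k : ℝ) / κ)⌉₊ + 2 ≤ d := (le_max_right _ _).trans hd
  have hd2 : 2 ≤ d := by omega
  have hd0 : (0 : ℝ) < (d : ℝ) := by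
    have : (2 : ℝ) ≤ d := by exact_mod_cast hd2
    linarith
  have hk' : (1 : ℝ) ≤ k := by exact_mod_cast hk
  have hk0 : (k : ℝ) ≠ 0 := by linarith
  have h1 := hd1 d hdd1 z hz
  set Y := ⌊(d : ℝ) ^ (1 / (k : ℝ))⌋₊ with hYdef
  set U := primesOff d z Y with hUdef
  have hA : (0 : ℝ) < (d : ℝ) ^ ((1 - κ) / k) := Real.rpow_pos_of_pos hd0 _
  have hUpos : (0 : ℝ) < (U.card : ℝ) := lt_of_lt_of_le (by positivity) h1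
  refine ⟨Finset.card_pos.1 (by exact_mod_cast hUpos), ?_⟩
  have hU : ∀ u ∈ U, u.Prime ∧ u ≤ Y ∧ u.Coprime d := by
    intro u hu
    rw [hUdef, primesOff, mem_filter, mem_Icc] at hu
    exact ⟨hu.2.1, hu.1.2, (Nat.Prime.coprime_iff_not_dvd hu.2.1).2 hu.2.2.2⟩
  have hYk : Y ^ k ≤ d := by
    have h2 : ((Y : ℝ)) ≤ (d : ℝ) ^ (1 / (k : ℝ)) := Nat.floor_le (by positivity)
    have h3 : ((Y : ℝ)) ^ k ≤ ((d : ℝ) ^ (1 / (k : ℝ))) ^ k := pow_le_pow_left₀ (Nat.cast_nonneg _) h2 k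
    have h4 : ((d : ℝ) ^ (1 / (k : ℝ))) ^ k = d := by
      rw [← Real.rpow_natCast, ← Real.rpow_mul hd0.le, one_div, inv_mul_cancel₀ hk0, Real.rpow_one]
    rw [h4] at h3
    exact_mod_cast h3
  have h5 := card_Xi d hd2 U k Y hk hU hYk (Xi (d := d) U) (fun χ hχ => Xi_large U χ hχ)
  have hφ : (Fintype.card (ZMod d)ˣ : ℝ) ≤ d := by
    rw [ZMod.card_units_eq_totient]
    exact_mod_cast Nat.totient_le d
  have h6 : (k : ℝ) ^ k * (d : ℝ) ^ (1 - κ) ≤ (U.card : ℝ) ^ k := by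
    have h7 : ((k : ℝ) * (d : ℝ) ^ ((1 - κ) / k)) ^ k ≤ (U.card : ℝ) ^ k := pow_le_pow_left₀ (by positivity) h1 k
    have h8 : ((k : ℝ) * (d : ℝ) ^ ((1 - κ) / k)) ^ k = (k : ℝ) ^ k * (d : ℝ) ^ (1 - κ) := by
      rw [mul_pow, ← Real.rpow_natCast ((d : ℝ) ^ ((1 - κ) / k)), ← Real.rpow_mul hd0.le, div_mul_cancel₀ _ hk0]
    rwa [h8] at h7
  have hXi0 : (0 : ℝ) ≤ ((Xi (d := d) U).card : ℝ) := Nat.cast_nonneg _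
  have h9 : ((Xi (d := d) U).card : ℝ) * (d : ℝ) ^ (1 - κ) ≤ 4 ^ k * (d : ℝ) := by
    have h10 : (k : ℝ) ^ k * (((Xi (d := d) U).card : ℝ) * (d : ℝ) ^ (1 - κ)) ≤ (k : ℝ) ^ k * (4 ^ k * (d : ℝ)) := by
      calc (k : ℝ) ^ k * (((Xi (d := d) U).card : ℝ) * (d : ℝ) ^ (1 - κ))
          = ((Xi (d := d) U).card : ℝ) * ((k : ℝ) ^ k * (d : ℝ) ^ (1 - κ)) := by ring
        _ ≤ ((Xi (d := d) U).card : ℝ) * (U.card : ℝ) ^ k := mul_le_mul_of_nonneg_left h6 hXi0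
        _ ≤ 4 ^ k * (k : ℝ) ^ k * (Fintype.card (ZMod d)ˣ : ℝ) := h5
        _ ≤ 4 ^ k * (k : ℝ) ^ k * (d : ℝ) := mul_le_mul_of_nonneg_left hφ (by positivity)
        _ = (k : ℝ) ^ k * (4 ^ k * (d : ℝ)) := by ring
    exact le_of_mul_le_mul_left h10 (by positivity)
  have hB : (0 : ℝ) < (d : ℝ) ^ (1 - κ) := Real.rpow_pos_of_pos hd0 _
  have h11 : ((Xi (d := d) U).card : ℝ) ≤ 4 ^ k * (d : ℝ) ^ κ := by
    have h12 : ((Xi (d := d) U).card : ℝ) * (d : ℝ) ^ (1 - κ) ≤ (4 ^ k * (d : ℝ) ^ κ) * (d : ℝ) ^ (1 - κ) := by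
      calc ((Xi (d := d) U).card : ℝ) * (d : ℝ) ^ (1 - κ) ≤ 4 ^ k * (d : ℝ) := h9
        _ = (4 ^ k * (d : ℝ) ^ κ) * (d : ℝ) ^ (1 - κ) := by
          rw [mul_assoc, ← Real.rpow_add hd0, add_sub_cancel, Real.rpow_one]
    exact le_of_mul_le_mul_right h12 hB
  have h13 : (4 : ℝ) ^ k ≤ (d : ℝ) ^ κ := by
    have h14 : (4 : ℝ) ^ ((k : ℝ) / κ) ≤ d := by
      refine (Nat.le_ceil _).trans ?_
      have : ⌈(4 : ℝ) ^ ((k : ℝ) / κ)⌉₊ ≤ d := by omega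
      exact_mod_cast this
    have h15 := Real.rpow_le_rpow (by positivity) h14 hκ.le
    rw [← Real.rpow_mul (by norm_num), div_mul_cancel₀ _ hκ.ne', Real.rpow_natCast] at h15
    exact h15
  calc ((Xi (d := d) U).card : ℝ) ≤ 4 ^ k * (d : ℝ) ^ κ := h11
    _ ≤ (d : ℝ) ^ κ * (d : ℝ) ^ κ := mul_le_mul_of_nonneg_right h13 (by positivity)
    _ = (d : ℝ) ^ η := by
      rw [← Real.rpow_add hd0, hκdef, add_halves]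

end Pool.Agent.Lib.MP_42948a_nt.TQ
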