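import Pool.Agent.Lib.MP_42948a_nt.TQ.G2
import Pool.Agent.Lib.MP_42948a_nt.TQ.G3
import Pool.Agent.Lib.MP_42948a_nt.TQ.G4
import Pool.Agent.Lib.MP_42948a_nt.TQ.G5
import Pool.Agent.Lib.MP_42948a_nt.TQ.G6
import Pool.Agent.Lib.MP_42948a_nt.TQ.G10
import Pool.Agent.Lib.MP_42948a_nt.TQ.Z4

/-!
# The model function at one scale (job G11)

Notation: `z = ⌊d^c⌋`, `N = ⌊d^(1/2+256η)⌋`, `R = RC d z N`, `Y = ⌊d^(1/k)⌋`, `U = primesOff d z Y`, `F = FX d z X'`, `Q = PX d z X'`, `φ = card G > 0`. As in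
`one_scale` (`TQ/Z7.lean`, copy the beginning): `hFR` for `Q` (`FX_mem`, `lio_mul`, `N N ≤ X'`), `pair_good` for `A = R`, `Xi_good`, `bessel_good`
(`Ξ = Xi U`), `mass_outside` (`∑_{χ ∉ Ξ} ‖SF F χ‖^2 ≤ 4 φ #(Q \ P) ≤ ζ^2 φ^2`), then `scale_structure2` gives `H`, `ρ`, `c0`. `B = Q.filter (c0⁻¹ c ∈ H)`:
`#B ≥ #Q - (δ/2) φ ≥ (δ/2) φ`, and `c ↦ c0⁻¹ c` maps `B` injectively into `H`, so `Nat.card H ≥ (δ/2) φ`. `coset_equi` and `model` with `ω = δ^2/200`,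
`θ = 3τ` give `Λ` with `2 #E ≤ ω' #R`, `ω' = δ^2/200 + 3τ ≤ δ^2/100` (`τ = δ^2 r0^2/256`, `r0 ≤ δ/20`, so `τ ≤ δ^4/102400`). For every `g`:
`A g = R.filter (g⁻¹ ucl a ∈ H)`, `#A g ≥ (1-3τ)(δ/2) #R ≥ (δ/4) #R`, `#A g ≥ N d^(-64η)`, so `pair_good` for `A g` and `nonbad`: at most
`(2τ + 6ω'/δ) φ ≤ (2τ + 6δ/100) φ ≤ (δ/8) φ` bad classes. `func_eq` gives the functional equation and the second claim. If `N d^(-64η) ≤ #E`, then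
`pair_good` for `A = E` and `sparse2` give `#B ≤ (δ/8 + ω' + 2τ) φ < (δ/2) φ ≤ #B`, a contradiction.
-/

namespace Pool.Agent.Lib.MP_42948a_nt.TQ

open Finset Pool.Agent.Lib.MP_42948a_nt.OA Pool.Agent.Lib.MP_42948a_nt.AC

open Classical in
theorem scale_model (δ r0 τ ζ : ℝ) (m0 : ℕ) (hδ : 0 < δ) (hδ1 : δ ≤ 1) (hm0 : 2 < 2 ^ m0 * δ)
    (hr0 : r0 = δ / (20 * 5 ^ m0)) (hτ : τ = δ ^ 2 * r0 ^ 2 / 256) (hζ : ζ = δ ^ 2 * r0 ^ 2 / 64) (K : ℕ)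
    (hF : ∀ z : ℕ, 2 ≤ z → ∃ u l : Finset ℕ → ℝ, Fund τ K z u l) (η c : ℝ) (hη : 0 < η) (hη1 : η ≤ 1 / 1024)
    (hc : c * (16 * (3 * K + 4)) = η) (k : ℕ) (hk : 1 ≤ k) (hkη : 20 * η ≤ 1 / k) :
    ∃ d0 : ℕ, ∀ d : ℕ, d0 ≤ d → ∀ [NeZero d], ∀ X X' : ℕ, Full d ⌊(d : ℝ) ^ c⌋₊ X' →
      ⌊(d : ℝ) ^ (1 / 2 + 256 * η)⌋₊ * ⌊(d : ℝ) ^ (1 / 2 + 256 * η)⌋₊ ≤ X' →
      (∀ u ∈ primesOff d ⌊(d : ℝ) ^ c⌋₊ ⌊(d : ℝ) ^ (1 / (k : ℝ))⌋₊, u * X' ≤ X) →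
      4 * ((PX d ⌊(d : ℝ) ^ c⌋₊ X' \ PX d ⌊(d : ℝ) ^ c⌋₊ X).card : ℝ) ≤ ζ ^ 2 * (Fintype.card (ZMod d)ˣ : ℝ) →
      δ * (Fintype.card (ZMod d)ˣ : ℝ) ≤ ((PX d ⌊(d : ℝ) ^ c⌋₊ X').card : ℝ) →
      ∃ (H : Subgroup (ZMod d)ˣ) (ρ : H →* ℤˣ) (Λ : (ZMod d)ˣ → ℝ),
        δ / 2 * (Fintype.card (ZMod d)ˣ : ℝ) ≤ (Nat.card H : ℝ) ∧
        (∀ g, Λ g = 1 ∨ Λ g = -1) ∧ (∀ g, ∀ h ∈ H, Λ (g * h) = Λ g * rhoE ρ h) ∧
        (((RC d ⌊(d : ℝ) ^ c⌋₊ ⌊(d : ℝ) ^ (1 / 2 + 256 * η)⌋₊).filter (fun a : ℕ => Λ (ucl d a) ≠ lio a)).card : ℝ) <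
          (⌊(d : ℝ) ^ (1 / 2 + 256 * η)⌋₊ : ℝ) * (d : ℝ) ^ (-(64 * η)) := by
  have h5 : (1 : ℝ) ≤ 5 ^ m0 := one_le_pow₀ (by norm_num)
  have hr0pos : 0 < r0 := by
    rw [hr0]
    positivity
  have hr0le : r0 ≤ δ / 20 := by
    rw [hr0]
    apply div_le_div_of_nonneg_left hδ.le (by norm_num)
    linarith
  have hr0sq : r0 ^ 2 ≤ δ ^ 2 / 400 := by
    have h6 : r0 ^ 2 ≤ (δ / 20) ^ 2 := pow_le_pow_left₀ hr0pos.le hr0le 2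
    linarith [h6, (by ring : (δ / 20) ^ 2 = δ ^ 2 / 400)]
  have hδsq : δ ^ 2 ≤ δ := by nlinarith
  have hδsq0 : 0 < δ ^ 2 := by positivity
  have hδsq1 : δ ^ 2 ≤ 1 := by linarith
  have hprod : δ ^ 2 * r0 ^ 2 ≤ δ ^ 2 / 400 := by
    have h6 : δ ^ 2 * r0 ^ 2 ≤ 1 * (δ ^ 2 / 400) := mul_le_mul hδsq1 hr0sq (by positivity) (by norm_num)
    linarith
  have hprodpos : 0 < δ ^ 2 * r0 ^ 2 := by positivity
  have hτ0 : 0 < τ := by rw [hτ]; positivity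
  have hτδ : τ ≤ δ ^ 2 / 102400 := by rw [hτ]; linarith
  have hτ1 : τ ≤ 1 / 10 := by linarith
  obtain ⟨dP, hP⟩ := pair_good τ hτ0 K hF η c hη hη1 hc
  obtain ⟨dR, hRg⟩ := RC_good K η c hη hη1 hc
  obtain ⟨dB, hBg⟩ := bessel_good τ hτ0 hτ1 K hF η c hη hη1 hc
  obtain ⟨dX, hXi⟩ := Xi_good k hk η hη (by linarith)
  obtain ⟨dC, hC⟩ := coset_equi τ δ hτ0 hτ1 hδ hδ1 K hF η c hη hη1 hc
  refine ⟨dP + dR + dB + dX + dC + 4, fun d hd => ?_⟩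
  intro _ X X' hfull hNN hU hζ4 hQ
  have hK0 : (0 : ℝ) ≤ (K : ℝ) := Nat.cast_nonneg K
  have hc0 : 0 < c := by
    by_contra h
    have h1 : c * (16 * (3 * K + 4)) ≤ 0 :=
      mul_nonpos_of_nonpos_of_nonneg (not_lt.mp h) (by positivity)
    linarith
  have hcK : 0 ≤ c * K := mul_nonneg hc0.le hK0
  have hcη : c ≤ η := by nlinarith
  have hkpos : (0 : ℝ) < (k : ℝ) := by exact_mod_cast hk
  have hck : c ≤ 1 / (2 * (k : ℝ)) := by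
    have h6 : 1 / (2 * (k : ℝ)) = (1 / k) / 2 := by
      field_simp
    rw [h6]
    linarith
  have hd4 : (4 : ℝ) ≤ (d : ℝ) := by
    have : 4 ≤ d := by omega
    exact_mod_cast this
  have hd1 : (1 : ℝ) ≤ (d : ℝ) := by linarith
  set z := ⌊(d : ℝ) ^ c⌋₊ with hz
  set N := ⌊(d : ℝ) ^ (1 / 2 + 256 * η)⌋₊ with hN
  set φ : ℝ := (Fintype.card (ZMod d)ˣ : ℝ) with hφ
  have hφ0 : 0 < φ := by
    rw [hφ]
    exact_mod_cast Fintype.card_pos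
  obtain ⟨hR1, hR2⟩ := hRg d (by omega)
  have hmem : ∀ a ∈ RC d z N, (1 ≤ a ∧ a ≤ N) ∧ Rough z a ∧ a.Coprime d := by
    intro a ha
    unfold RC at ha
    obtain ⟨h6, h7⟩ := mem_filter.1 ha
    exact ⟨mem_Icc.1 h6, h7⟩
  have hRpos : ∀ a ∈ RC d z N, 0 < a ∧ a.Coprime d := fun a ha => ⟨(hmem a ha).1.1, (hmem a ha).2.2⟩
  have hRcard : (0 : ℝ) < ((RC d z N).card : ℝ) := by exact_mod_cast hR2.card_pos
  obtain ⟨m, Er, hm, hEr0, hr, hEr⟩ := hP d (by omega) (RC d z N)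
    (fun a ha => ⟨(hmem a ha).1.1, (hmem a ha).1.2, (hmem a ha).2.2⟩) hR1
  have hzk : (z : ℝ) ≤ (d : ℝ) ^ (1 / (2 * (k : ℝ))) := by
    refine (Nat.floor_le (Real.rpow_nonneg (by linarith) _)).trans ?_
    exact Real.rpow_le_rpow_of_exponent_le hd1 hck
  obtain ⟨hU0, hXic⟩ := hXi d (by omega) z hzk
  set U := primesOff d z ⌊(d : ℝ) ^ (1 / (k : ℝ))⌋₊ with hUdef
  have hB := hBg d (by omega) (Xi U) hXic
  have hUp : ∀ u ∈ U, u.Prime ∧ Rough z u ∧ u.Coprime d ∧ u * X' ≤ X := by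
    intro u hu
    have hu' := hu
    rw [hUdef] at hu'
    unfold primesOff at hu'
    obtain ⟨_, h7, h8, h9⟩ := mem_filter.1 hu'
    refine ⟨h7, ⟨h7.pos, fun p hp hpu => ?_⟩, (Nat.Prime.coprime_iff_not_dvd h7).2 h9, hU u hu⟩
    rw [(Nat.prime_dvd_prime_iff_eq hp h7).1 hpu]
    exact h8
  have hout := mass_outside d z X X' U hU0 hUp hfull
  have hΞ : ∑ χ ∈ (univ : Finset (DirichletCharacter ℂ d)) \ Xi U, ‖SF (FX d z X') χ‖ ^ 2 ≤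
      ζ ^ 2 * φ ^ 2 := by
    refine hout.trans ?_
    have h6 : φ * (4 * ((PX d z X' \ PX d z X).card : ℝ)) ≤ φ * (ζ ^ 2 * φ) :=
      mul_le_mul_of_nonneg_left hζ4 (by linarith)
    calc 4 * φ * ((PX d z X' \ PX d z X).card : ℝ) = φ * (4 * ((PX d z X' \ PX d z X).card : ℝ)) := by ring
      _ ≤ φ * (ζ ^ 2 * φ) := h6
      _ = ζ ^ 2 * φ ^ 2 := by ring
  have hPX : ∀ x, x ∈ PX d z X' ↔ FX d z X' x ≠ 0 := by
    intro x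
    unfold PX
    rw [mem_filter]
    exact ⟨fun h => h.2, fun h => ⟨mem_univ _, h⟩⟩
  have hF0 : ∀ x, x ∉ PX d z X' → FX d z X' x = 0 := by
    intro x hx
    by_contra h6
    exact hx ((hPX x).2 h6)
  have hF1 : ∀ x ∈ PX d z X', FX d z X' x ^ 2 = 1 := fun x hx => FX_sq ((hPX x).1 hx)
  have hFR : ∀ a ∈ RC d z N, ∀ b ∈ RC d z N, ucl d (a * b) ∈ PX d z X' →
      FX d z X' (ucl d (a * b)) = lio a * lio b := by
    intro a ha b hb hab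
    obtain ⟨⟨ha1, ha2⟩, ha3, ha4⟩ := hmem a ha
    obtain ⟨⟨hb1, hb2⟩, hb3, hb4⟩ := hmem b hb
    rw [FX_mem ((hPX _).1 hab) (ha3.mul hb3) ((Nat.mul_le_mul ha2 hb2).trans hNN)
      (ucl_val (Nat.Coprime.mul_left ha4 hb4)).symm]
    exact lio_mul (by omega) (by omega)
  obtain ⟨H, ρ, c0, h1, h2⟩ := scale_structure2 (RC d z N) hRpos hR2
    (FX d z X') (PX d z X') hF0 hF1 hFR (Xi U) m τ ζ Er hm hEr0 hr hEr hΞ hB δ r0 m0 hδ hδ1 hm0 hr0 hτ hζ hQ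
  set B := (PX d z X').filter (fun x => c0⁻¹ * x ∈ H) with hBdef
  have hBcard : δ / 2 * φ ≤ (B.card : ℝ) := by
    have h6 : B.card + ((PX d z X').filter (fun x => c0⁻¹ * x ∉ H)).card = (PX d z X').card :=
      Finset.card_filter_add_card_filter_not _
    have h7 : (B.card : ℝ) + (((PX d z X').filter (fun x => c0⁻¹ * x ∉ H)).card : ℝ) = ((PX d z X').card : ℝ) := by
      exact_mod_cast h6
    linarith
  have hBH : ∀ x ∈ B, c0⁻¹ * x ∈ H := fun x hx => (mem_filter.1 hx).2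
  have hHcard : δ / 2 * φ ≤ (Nat.card H : ℝ) := by
    refine hBcard.trans ?_
    have h6 : B.card ≤ ((univ : Finset (ZMod d)ˣ).filter (fun x => x ∈ H)).card := by
      refine Finset.card_le_card_of_injOn (fun x => c0⁻¹ * x) ?_ ?_
      · intro x hx
        exact mem_coe.2 (mem_filter.2 ⟨mem_univ _, hBH x hx⟩)
      · intro x _ y _ hxy
        exact mul_left_cancel hxy
    have h7 : Nat.card H = ((univ : Finset (ZMod d)ˣ).filter (fun x => x ∈ H)).card := by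
      rw [Nat.card_eq_fintype_card, Fintype.card_subtype]
    rw [h7]
    exact_mod_cast h6
  have hHφ : δ / 2 ≤ (Nat.card H : ℝ) / φ := by
    rw [le_div_iff₀ hφ0]
    exact hHcard
  have hCg := fun g => hC d (by omega) H hHcard g
  obtain ⟨Λ, hΛ, hΛH, hE⟩ := model (RC d z N) hRpos H ρ (δ ^ 2 / 200) (3 * τ) (by positivity) (by positivity) h2
    (fun g => (hCg g).2.1)
  have hω' : δ ^ 2 / 200 + 3 * τ ≤ δ ^ 2 / 100 := by linarith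
  have hω'0 : 0 ≤ δ ^ 2 / 200 + 3 * τ := by positivity
  have hbad : ∀ g : (ZMod d)ˣ, (((univ : Finset (ZMod d)ˣ).filter (fun c => ¬ ∃ a ∈ (RC d z N).filter
      (fun a : ℕ => g⁻¹ * ucl d a ∈ H), ∃ b ∈ RC d z N, ucl d (a * b) = c ∧ Λ (ucl d a) = lio a ∧
        Λ (ucl d b) = lio b)).card : ℝ) ≤ δ / 8 * φ := by
    intro g
    obtain ⟨hg1, hg2, hg3⟩ := hCg g
    set Ag := (RC d z N).filter (fun a : ℕ => g⁻¹ * ucl d a ∈ H) with hAg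
    have hAgR : Ag ⊆ RC d z N := filter_subset _ _
    have hAgc : δ / 4 * ((RC d z N).card : ℝ) ≤ (Ag.card : ℝ) := by
      refine le_trans ?_ hg1
      refine mul_le_mul_of_nonneg_right ?_ hRcard.le
      have h6 : (1 / 2 : ℝ) ≤ 1 - 3 * τ := by linarith
      calc δ / 4 = 1 / 2 * (δ / 2) := by ring
        _ ≤ (1 - 3 * τ) * ((Nat.card H : ℝ) / φ) := mul_le_mul h6 hHφ (by positivity) (by linarith)
    obtain ⟨m2, Er2, hm2, hEr20, hr2, hEr2⟩ := hP d (by omega) Ag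
      (fun a ha => ⟨(hmem a (hAgR ha)).1.1, (hmem a (hAgR ha)).1.2, (hmem a (hAgR ha)).2.2⟩) hg3
    refine (nonbad (RC d z N) Ag hRpos hAgR Λ m2 τ (δ ^ 2 / 200 + 3 * τ) δ Er2 hm2 hτ0 hτ1 hω'0 hδ hAgc hEr20
      hr2 hEr2 hE).trans ?_
    refine mul_le_mul_of_nonneg_right ?_ hφ0.le
    have h6 : 6 * (δ ^ 2 / 200 + 3 * τ) / δ ≤ 6 * δ / 100 := by
      rw [div_le_iff₀ hδ]
      nlinarith
    linarith
  have hFRB : ∀ a ∈ RC d z N, ∀ b ∈ RC d z N, ucl d (a * b) ∈ B →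
      FX d z X' (ucl d (a * b)) = lio a * lio b :=
    fun a ha b hb hab => hFR a ha b hb (mem_filter.1 hab).1
  obtain ⟨hfe, hFΛ⟩ := func_eq (RC d z N) hRpos H ρ c0 B hBH (FX d z X') hFRB Λ hΛ hΛH δ hδ hBcard hbad
  refine ⟨H, ρ, Λ, hHcard, hΛ, hΛH, ?_⟩
  by_contra hcon
  have hcon' := not_lt.1 hcon
  obtain ⟨m', Er', hm', hEr0', hr', hEr'⟩ := hP d (by omega)
    ((RC d z N).filter (fun a : ℕ => Λ (ucl d a) ≠ lio a))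
    (fun a ha => ⟨(hmem a (mem_filter.1 ha).1).1.1, (hmem a (mem_filter.1 ha).1).1.2,
      (hmem a (mem_filter.1 ha).1).2.2⟩) hcon'
  have h6 := sparse2 (RC d z N) hRpos H c0 B hBH (FX d z X') hFRB Λ hΛ hfe δ τ (δ ^ 2 / 200 + 3 * τ) hτ0 hτ1
    hω'0 hFΛ hE m' Er' hm' hEr0' hr' hEr'
  have h7 : (δ / 8 + (δ ^ 2 / 200 + 3 * τ) + 2 * τ) * φ < δ / 2 * φ := by
    refine mul_lt_mul_of_pos_right ?_ hφ0
    linarith
  linarith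

end Pool.Agent.Lib.MP_42948a_nt.TQ
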