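import Pool.Agent.Lib.MP_42948a_nt.TQ.A2
import Pool.Agent.Lib.MP_42948a_nt.TQ.G12
import Pool.Agent.Lib.MP_42948a_nt.TQ.Z8

/-!
# Almost no pure classes (job G13)

As `structure_final` (`TQ/Z8.lean`, copy). Parameters: `m0` with `2 < 2^m0 δ`; `r0 = δ/(20 * 5^m0)`, `τ = δ^2 r0^2/256 ≤ 1`, `ζ = δ^2 r0^2/64`;
`J = ⌈4/ζ^2⌉ ≥ 1`, `k = ⌈4 J/ε⌉ ≥ 1`, `η = min (1/(20 k)) (ε/2048)`; `K1` from `fund τ`, `K0` from `sieve`; `c1` from `one_scale2`; `K` a natural number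
`≥ max K0 K1` with `η/(16(3K+4)) ≤ c1` (Archimedean), `c = η/(16(3K+4))`; `Fund_mono`, `SieveProp_mono`. The scales and the pigeonhole as in
`structure_final`; for the `j` of the pigeonhole `one_scale2` gives `#P j < δ φ`, and `PX d z ⌊d^(1+ε)⌋ ⊆ P j`.
-/

namespace Pool.Agent.Lib.MP_42948a_nt.TQ

open Finset Pool.Agent.Lib.MP_42948a_nt.OA Pool.Agent.Lib.MP_42948a_nt.AC

open Classical in
theorem few_pure (hBur : BurgessProp) (ε δ : ℝ) (hε : 0 < ε) (hε1 : ε ≤ 1) (hδ : 0 < δ) (hδ1 : δ ≤ 1) :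
    ∃ c : ℝ, 0 < c ∧ ∃ d0 : ℕ, ∀ d : ℕ, d0 ≤ d → ∀ [NeZero d],
      Full d ⌊(d : ℝ) ^ c⌋₊ ⌊(d : ℝ) ^ (1 + ε)⌋₊ ∧
        ((PX d ⌊(d : ℝ) ^ c⌋₊ ⌊(d : ℝ) ^ (1 + ε)⌋₊).card : ℝ) ≤ δ * (Fintype.card (ZMod d)ˣ : ℝ) := by
  -- parameters
  obtain ⟨m0, hm0'⟩ := pow_unbounded_of_one_lt (2 / δ) (one_lt_two (α := ℝ))
  have hm0 : 2 < 2 ^ m0 * δ := by
    rw [div_lt_iff₀ hδ] at hm0'
    exact hm0'
  obtain ⟨r0, hr0⟩ : ∃ r0 : ℝ, r0 = δ / (20 * 5 ^ m0) := ⟨_, rfl⟩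
  have hr0pos : 0 < r0 := by rw [hr0]; positivity
  have hr01 : r0 ≤ 1 := by
    rw [hr0, div_le_one (by positivity)]
    have : (1 : ℝ) ≤ 5 ^ m0 := one_le_pow₀ (by norm_num)
    linarith
  obtain ⟨τ, hτ⟩ : ∃ τ : ℝ, τ = δ ^ 2 * r0 ^ 2 / 256 := ⟨_, rfl⟩
  obtain ⟨ζ, hζ⟩ : ∃ ζ : ℝ, ζ = δ ^ 2 * r0 ^ 2 / 64 := ⟨_, rfl⟩
  have hτ0 : 0 < τ := by rw [hτ]; positivity
  have hτ1 : τ ≤ 1 := by
    rw [hτ]
    have h1 : δ ^ 2 ≤ 1 := pow_le_one₀ hδ.le hδ1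
    have h2 : r0 ^ 2 ≤ 1 := pow_le_one₀ hr0pos.le hr01
    have h3 : δ ^ 2 * r0 ^ 2 ≤ 1 := mul_le_one₀ h1 (by positivity) h2
    linarith
  have hζ0 : 0 < ζ := by rw [hζ]; positivity
  obtain ⟨K1, hK1⟩ := fund τ hτ0 hτ1
  obtain ⟨K2, hK2⟩ := sieve
  obtain ⟨J, hJd⟩ : ∃ J : ℕ, J = ⌈4 / ζ ^ 2⌉₊ := ⟨_, rfl⟩
  have hJle : 4 / ζ ^ 2 ≤ (J : ℝ) := by rw [hJd]; exact Nat.le_ceil _
  have hJ1 : 1 ≤ J := by
    have : 0 < 4 / ζ ^ 2 := by positivity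
    have h2 : (0 : ℝ) < J := lt_of_lt_of_le this hJle
    have h3 : 0 < J := by exact_mod_cast h2
    omega
  have hJR : (1 : ℝ) ≤ J := by exact_mod_cast hJ1
  obtain ⟨k, hkd⟩ : ∃ k : ℕ, k = ⌈4 * (J : ℝ) / ε⌉₊ := ⟨_, rfl⟩
  have hkle : 4 * (J : ℝ) / ε ≤ (k : ℝ) := by rw [hkd]; exact Nat.le_ceil _
  have hk0 : (0 : ℝ) < k := lt_of_lt_of_le (by positivity) hkle
  have hk1 : 1 ≤ k := by
    have h3 : 0 < k := by exact_mod_cast hk0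
    omega
  have hJk : (J : ℝ) / k ≤ ε / 4 := by
    rw [div_le_iff₀ hε] at hkle
    rw [div_le_iff₀ hk0]
    linarith
  obtain ⟨η, hηd⟩ : ∃ η : ℝ, η = min (1 / (20 * (k : ℝ))) (ε / 2048) := ⟨_, rfl⟩
  have hη0 : 0 < η := by rw [hηd]; exact lt_min (by positivity) (by positivity)
  have hη1 : η ≤ 1 / (20 * (k : ℝ)) := by rw [hηd]; exact min_le_left _ _
  have hη2 : η ≤ ε / 2048 := by rw [hηd]; exact min_le_right _ _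
  have hη3 : η ≤ 1 / 1024 := by linarith
  have hkη : 20 * η ≤ 1 / k := by
    have h1 : 20 * (1 / (20 * (k : ℝ))) = 1 / k := by field_simp
    rw [← h1]
    linarith
  obtain ⟨c1, hc1, HS⟩ := one_scale2 hBur δ r0 τ ζ m0 hδ hδ1 hm0 hr0 hτ hζ K2 hK2 η hη0 hη3 k hk1 hkη
  obtain ⟨K3, hK3⟩ := exists_nat_ge (η / c1)
  obtain ⟨K, hKd⟩ : ∃ K : ℕ, K = max (max K1 K2) K3 := ⟨_, rfl⟩
  have hK : SieveProp K := SieveProp_mono (by rw [hKd]; exact (le_max_right _ _).trans (le_max_left _ _)) hK2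
  have hF : ∀ z : ℕ, 2 ≤ z → ∃ u l : Finset ℕ → ℝ, Fund τ K z u l := by
    intro z hz
    obtain ⟨u, l, h⟩ := hK1 z hz
    exact ⟨u, l, Fund_mono (by rw [hKd]; exact (le_max_left _ _).trans (le_max_left _ _)) (by omega) h⟩
  have hKK3 : (K3 : ℝ) ≤ K := by
    rw [hKd]
    exact_mod_cast le_max_right _ _
  obtain ⟨c, hcd⟩ : ∃ c : ℝ, c = η / (16 * (3 * (K : ℝ) + 4)) := ⟨_, rfl⟩
  have hc : c * (16 * (3 * (K : ℝ) + 4)) = η := by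
    rw [hcd]
    have : (16 * (3 * (K : ℝ) + 4)) ≠ 0 := by positivity
    field_simp
  have hc0 : 0 < c := by rw [hcd]; positivity
  have hcη : c ≤ η := by
    rw [← hc]
    have h1 : (1 : ℝ) ≤ 16 * (3 * (K : ℝ) + 4) := by
      have : (0 : ℝ) ≤ K := Nat.cast_nonneg K
      linarith
    exact le_mul_of_one_le_right hc0.le h1
  have hcc1 : c ≤ c1 := by
    rw [hcd, div_le_iff₀ (by positivity)]
    have h1 : η ≤ (K3 : ℝ) * c1 := (div_le_iff₀ hc1).1 hK3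
    have h2 : (K3 : ℝ) ≤ 16 * (3 * (K : ℝ) + 4) := by
      have : (0 : ℝ) ≤ K := Nat.cast_nonneg K
      linarith
    have h3 : (K3 : ℝ) * c1 ≤ 16 * (3 * (K : ℝ) + 4) * c1 := mul_le_mul_of_nonneg_right h2 hc1.le
    linarith
  obtain ⟨d1, hd1⟩ := HS K c hK hF hc hcc1
  obtain ⟨d2, hd2⟩ := full_large K hK η c hη0 hc
  obtain ⟨d3, hd3⟩ := Xi_good k hk1 (1 / 2) (by norm_num) (by norm_num)
  refine ⟨c, hc0, max (max d1 d2) (max d3 1), ?_⟩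
  intro d hd _
  have hdd1 : d1 ≤ d := le_trans (le_trans (le_max_left _ _) (le_max_left _ _)) hd
  have hdd2 : d2 ≤ d := le_trans (le_trans (le_max_right _ _) (le_max_left _ _)) hd
  have hdd3 : d3 ≤ d := le_trans (le_trans (le_max_left _ _) (le_max_right _ _)) hd
  have hdd4 : 1 ≤ d := le_trans (le_trans (le_max_right _ _) (le_max_right _ _)) hd
  have hdR : (1 : ℝ) ≤ d := by exact_mod_cast hdd4
  have hd0 : (0 : ℝ) < d := by linarith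
  have hpow : ∀ {a b : ℝ}, a ≤ b → (d : ℝ) ^ a ≤ (d : ℝ) ^ b := fun hab =>
    Real.rpow_le_rpow_of_exponent_le hdR hab
  -- (A)
  have hA : ∀ X : ℕ, ⌊(d : ℝ) ^ (1 + ε / 4)⌋₊ ≤ X → Full d ⌊(d : ℝ) ^ c⌋₊ X := by
    intro X hX
    apply hd2 d hdd2 X
    exact (Nat.floor_mono (hpow (by linarith))).trans hX
  -- (B)
  have hk1ε : 1 / (k : ℝ) ≤ ε / 4 := le_trans (div_le_div_of_nonneg_right hJR hk0.le) hJk
  have hzk : ((⌊(d : ℝ) ^ c⌋₊ : ℕ) : ℝ) ≤ (d : ℝ) ^ (1 / (2 * (k : ℝ))) := by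
    refine le_trans (Nat.floor_le (by positivity)) (hpow ?_)
    refine hcη.trans (hη1.trans ?_)
    apply one_div_le_one_div_of_le (by positivity)
    linarith
  have hprim : ∀ u ∈ primesOff d ⌊(d : ℝ) ^ c⌋₊ ⌊(d : ℝ) ^ (1 / (k : ℝ))⌋₊,
      u.Prime ∧ Rough ⌊(d : ℝ) ^ c⌋₊ u ∧ u.Coprime d ∧ (u : ℝ) ≤ (d : ℝ) ^ (1 / (k : ℝ)) := by
    intro u hu
    unfold primesOff at hu
    rw [mem_filter, mem_Icc] at hu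
    obtain ⟨⟨h1, h2⟩, h3, h4, h5⟩ := hu
    refine ⟨h3, ⟨h3.pos, fun p hp hpu => ?_⟩, (Nat.Prime.coprime_iff_not_dvd h3).2 h5,
      (Nat.le_floor_iff (by positivity)).1 h2⟩
    rw [(Nat.prime_dvd_prime_iff_eq hp h3).1 hpu]
    exact h4
  refine ⟨hA _ (Nat.floor_mono (hpow (by linarith))), ?_⟩
  -- the scales
  obtain ⟨Xs, hXs⟩ : ∃ Xs : ℕ → ℕ, ∀ j, Xs j = ⌊(d : ℝ) ^ (1 + ε / 4 + (j : ℝ) / k)⌋₊ :=
    ⟨fun j => ⌊(d : ℝ) ^ (1 + ε / 4 + (j : ℝ) / k)⌋₊, fun j => rfl⟩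
  have hXge : ∀ j, ⌊(d : ℝ) ^ (1 + ε / 4)⌋₊ ≤ Xs j := by
    intro j
    rw [hXs]
    apply Nat.floor_mono (hpow _)
    have : (0 : ℝ) ≤ (j : ℝ) / k := by positivity
    linarith
  have hXmono : ∀ j, Xs j ≤ Xs (j + 1) := by
    intro j
    rw [hXs, hXs]
    apply Nat.floor_mono (hpow _)
    have : (j : ℝ) / k ≤ ((j + 1 : ℕ) : ℝ) / k :=
      div_le_div_of_nonneg_right (by push_cast; linarith) hk0.le
    linarith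
  have hfull : ∀ j, Full d ⌊(d : ℝ) ^ c⌋₊ (Xs j) := fun j => hA _ (hXge j)
  obtain ⟨j, hjJ, hj⟩ := pigeon (fun j => PX d ⌊(d : ℝ) ^ c⌋₊ (Xs j))
    (fun j => Z8_subset (hXmono j) (hfull j)) J hJ1
  have hcard : 4 * ((PX d ⌊(d : ℝ) ^ c⌋₊ (Xs j) \ PX d ⌊(d : ℝ) ^ c⌋₊ (Xs (j + 1))).card : ℝ) ≤
      ζ ^ 2 * (Fintype.card (ZMod d)ˣ : ℝ) := by
    have h1 : ((PX d ⌊(d : ℝ) ^ c⌋₊ (Xs j) \ PX d ⌊(d : ℝ) ^ c⌋₊ (Xs (j + 1))).card : ℝ) * J ≤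
        (Fintype.card (ZMod d)ˣ : ℝ) := by exact_mod_cast hj
    have h2 : ((PX d ⌊(d : ℝ) ^ c⌋₊ (Xs j) \ PX d ⌊(d : ℝ) ^ c⌋₊ (Xs (j + 1))).card : ℝ) * (4 / ζ ^ 2) ≤
        ((PX d ⌊(d : ℝ) ^ c⌋₊ (Xs j) \ PX d ⌊(d : ℝ) ^ c⌋₊ (Xs (j + 1))).card : ℝ) * J :=
      mul_le_mul_of_nonneg_left hJle (Nat.cast_nonneg _)
    have h3 := h2.trans h1
    rw [← mul_div_assoc, div_le_iff₀ (by positivity)] at h3
    linarith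
  have hNN : ⌊(d : ℝ) ^ (1 / 2 + 256 * η)⌋₊ * ⌊(d : ℝ) ^ (1 / 2 + 256 * η)⌋₊ ≤ Xs j := by
    rw [hXs]
    apply Nat.le_floor
    push_cast
    have h1 : ((⌊(d : ℝ) ^ (1 / 2 + 256 * η)⌋₊ : ℕ) : ℝ) ≤ (d : ℝ) ^ (1 / 2 + 256 * η) :=
      Nat.floor_le (by positivity)
    have hj0 : (0 : ℝ) ≤ (j : ℝ) / k := by positivity
    calc ((⌊(d : ℝ) ^ (1 / 2 + 256 * η)⌋₊ : ℕ) : ℝ) * ((⌊(d : ℝ) ^ (1 / 2 + 256 * η)⌋₊ : ℕ) : ℝ)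
        ≤ (d : ℝ) ^ (1 / 2 + 256 * η) * (d : ℝ) ^ (1 / 2 + 256 * η) :=
          mul_le_mul h1 h1 (Nat.cast_nonneg _) (by positivity)
      _ = (d : ℝ) ^ ((1 / 2 + 256 * η) + (1 / 2 + 256 * η)) := (Real.rpow_add hd0 _ _).symm
      _ ≤ (d : ℝ) ^ (1 + ε / 4 + (j : ℝ) / k) := hpow (by linarith)
  have hstep : ∀ u ∈ primesOff d ⌊(d : ℝ) ^ c⌋₊ ⌊(d : ℝ) ^ (1 / (k : ℝ))⌋₊, u * Xs j ≤ Xs (j + 1) := by
    intro u hu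
    obtain ⟨_, _, _, h4⟩ := hprim u hu
    rw [hXs (j + 1)]
    apply Nat.le_floor
    push_cast
    have h5 : ((Xs j : ℕ) : ℝ) ≤ (d : ℝ) ^ (1 + ε / 4 + (j : ℝ) / k) := by
      rw [hXs]
      exact Nat.floor_le (by positivity)
    calc (u : ℝ) * (Xs j : ℝ) ≤ (d : ℝ) ^ (1 / (k : ℝ)) * (d : ℝ) ^ (1 + ε / 4 + (j : ℝ) / k) :=
          mul_le_mul h4 h5 (Nat.cast_nonneg _) (by positivity)
      _ = (d : ℝ) ^ (1 / (k : ℝ) + (1 + ε / 4 + (j : ℝ) / k)) := (Real.rpow_add hd0 _ _).symm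
      _ = (d : ℝ) ^ (1 + ε / 4 + ((j : ℝ) + 1) / k) := by
          congr 1
          ring
  have hb := hd1 d hdd1 (Xs (j + 1)) (Xs j) (hfull j) hNN hstep hcard
  have hsub : PX d ⌊(d : ℝ) ^ c⌋₊ ⌊(d : ℝ) ^ (1 + ε)⌋₊ ⊆ PX d ⌊(d : ℝ) ^ c⌋₊ (Xs j) := by
    apply Z8_subset _ (hfull j)
    rw [hXs]
    apply Nat.floor_mono (hpow _)
    have h1 : (j : ℝ) / k ≤ (J : ℝ) / k :=
      div_le_div_of_nonneg_right (by exact_mod_cast hjJ.le) hk0.le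
    linarith
  refine le_trans ?_ hb.le
  exact_mod_cast card_le_card hsub

end Pool.Agent.Lib.MP_42948a_nt.TQ
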