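import Pool.Agent.Lib.MP_42948a_nt.TQ.B2

/-!
# Cosets and characters trivial on a subgroup (job G8)

`φ = card G`, `hH = Nat.card H`. As in `ext_mass` (job G1, with `ρ = 1`): for every `χ`, `∑_{h ∈ H} ev χ h = hH` if `ev χ h = 1` for all `h ∈ H` and `0`
otherwise; with `sum_ev`: (1) `hH * ∑_{χ trivial on H} ev χ g = ∑_{h ∈ H} ∑_χ ev χ (g h) = φ` if `g ∈ H`, `0` otherwise. `coset_char`: for `n` coprime to `d`
apply (1) to `g = q⁻¹ * ucl d n` and sum over `n ≤ M` coprime to `d` (for `n` not coprime to `d` `χ n = 0`):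
`φ * #{..} = hH * ∑_{χ trivial on H} ev χ q⁻¹ * ∑_{n ≤ M} χ n`. The term `χ = 1` is `hH * #{n ≤ M coprime}`; the others are at most
`hH * E` each, and their number is `φ/hH - 1 ≤ φ/hH` (take `g = 1` in (1)), together `≤ φ E`. Divide by `φ`.
`pow_index`: `g^I ∈ H` for `I = H.index` (`Subgroup.pow_index_mem`, `G` commutative so `H` normal), `I * hH = φ ≤ m hH`, so `1 ≤ I ≤ m` and `I ∣ m!`
(`Nat.dvd_factorial`); `ev (χ^(m!)) g = (ev χ g)^(m!) = ev χ (g^(m!)) = 1`, `ev_inj`.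
`coprime_count`: `∑_{k ∣ d} μ(k) [k ∣ n] = [n coprime to d]` (`ArithmeticFunction.sum_eq_iff_sum_mul_moebius_eq`-like, or
`ArithmeticFunction.coe_moebius_mul_coe_zeta` at `gcd n d`; `k ∣ gcd(n, d)`), so the count is `∑_{k ∣ d} μ(k) ⌊M/k⌋`, and
`∑_{k ∣ d} μ(k) M/k = M φ(d)/d`; the error is `≤ ∑_{k ∣ d} 1 = τ(d)`. (A similar computation with sets of primes is in `OA/EG.lean`.)
-/

namespace Pool.Agent.Lib.MP_42948a_nt.TQ

open Finset Pool.Agent.Lib.MP_42948a_nt.OA Pool.Agent.Lib.MP_42948a_nt.AC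

open Classical in
private theorem G8_sumH {d : ℕ} [NeZero d] (H : Subgroup (ZMod d)ˣ) (χ : DirichletCharacter ℂ d) :
    ∑ h : H, ev χ (h : (ZMod d)ˣ) = if ∀ x ∈ H, ev χ x = 1 then (Nat.card H : ℂ) else 0 := by
  by_cases hχ : ∀ x ∈ H, ev χ x = 1
  · rw [if_pos hχ, Finset.sum_congr rfl fun (h : H) _ => hχ h h.2, Finset.sum_const, Finset.card_univ, nsmul_eq_mul,
      mul_one, Nat.card_eq_fintype_card]
  · rw [if_neg hχ]
    push Not at hχ
    obtain ⟨b, hbH, hb⟩ := hχ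
    have h2 : ev χ b * ∑ h : H, ev χ (h : (ZMod d)ˣ) = ∑ h : H, ev χ (h : (ZMod d)ˣ) := by
      rw [Finset.mul_sum]
      have h3 := Equiv.sum_comp (Equiv.mulLeft (⟨b, hbH⟩ : H)) (fun h : H => ev χ (h : (ZMod d)ˣ))
      rw [← h3]
      refine Finset.sum_congr rfl fun c _ => ?_
      rw [Equiv.coe_mulLeft, Subgroup.coe_mul, ev_mul]
    have h4 : (ev χ b - 1) * ∑ h : H, ev χ (h : (ZMod d)ˣ) = 0 := by
      rw [sub_mul, one_mul, h2, sub_self]
    exact (mul_eq_zero.1 h4).resolve_left (sub_ne_zero.2 hb)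

open Classical in
private theorem G8_orth {d : ℕ} [NeZero d] (H : Subgroup (ZMod d)ˣ) (g : (ZMod d)ˣ) :
    (Nat.card H : ℂ) * ∑ χ ∈ (univ : Finset (DirichletCharacter ℂ d)).filter (fun χ => ∀ x ∈ H, ev χ x = 1), ev χ g =
      if g ∈ H then (Fintype.card (ZMod d)ˣ : ℂ) else 0 := by
  have h1 : (Nat.card H : ℂ) * ∑ χ ∈ (univ : Finset (DirichletCharacter ℂ d)).filter (fun χ => ∀ x ∈ H, ev χ x = 1), ev χ g =
      ∑ h : H, ∑ χ : DirichletCharacter ℂ d, ev χ ((h : (ZMod d)ˣ) * g) := by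
    rw [Finset.sum_comm, Finset.mul_sum, Finset.sum_filter]
    refine Finset.sum_congr rfl fun χ _ => ?_
    have h2 : ∑ h : H, ev χ ((h : (ZMod d)ˣ) * g) = (∑ h : H, ev χ (h : (ZMod d)ˣ)) * ev χ g := by
      rw [Finset.sum_mul]
      exact Finset.sum_congr rfl fun h _ => ev_mul _ _ _
    rw [h2, G8_sumH]
    by_cases hχ : ∀ x ∈ H, ev χ x = 1
    · rw [if_pos hχ, if_pos hχ]
    · rw [if_neg hχ, if_neg hχ, zero_mul]
  rw [h1, Finset.sum_congr rfl fun (h : H) _ => sum_ev ((h : (ZMod d)ˣ) * g)]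
  by_cases hg : g ∈ H
  · rw [if_pos hg, Finset.sum_eq_single (⟨g⁻¹, H.inv_mem hg⟩ : H)]
    · rw [if_pos (inv_mul_cancel g)]
    · intro b _ hb
      rw [if_neg]
      intro h
      apply hb
      ext
      rw [eq_inv_of_mul_eq_one_left h]
    · intro h
      exact absurd (Finset.mem_univ _) h
  · rw [if_neg hg]
    refine Finset.sum_eq_zero fun h _ => ?_
    rw [if_neg]
    intro h3
    apply hg
    rw [eq_inv_of_mul_eq_one_right h3]
    exact H.inv_mem h.2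

private theorem G8_not_coprime {d : ℕ} [NeZero d] (χ : DirichletCharacter ℂ d) {n : ℕ} (hn : ¬ n.Coprime d) :
    χ (n : ZMod d) = 0 := by
  apply MulChar.map_nonunit
  rw [ZMod.isUnit_iff_coprime]
  exact hn

private theorem G8_one {d : ℕ} [NeZero d] (M : ℕ) :
    ∑ n ∈ Icc 1 M, (1 : DirichletCharacter ℂ d) (n : ZMod d) = (((Icc 1 M).filter (fun n : ℕ => n.Coprime d)).card : ℂ) := by
  rw [Finset.card_filter, Nat.cast_sum]
  refine Finset.sum_congr rfl fun n _ => ?_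
  by_cases hn : n.Coprime d
  · rw [if_pos hn, MulChar.one_apply ((ZMod.isUnit_iff_coprime n d).2 hn), Nat.cast_one]
  · rw [if_neg hn, G8_not_coprime _ hn, Nat.cast_zero]

open Classical in
theorem coset_char {d : ℕ} [NeZero d] (H : Subgroup (ZMod d)ˣ) (q : (ZMod d)ˣ) (M : ℕ) (E : ℝ) (hE : 0 ≤ E)
    (h : ∀ χ : DirichletCharacter ℂ d, χ ≠ 1 → (∀ x ∈ H, ev χ x = 1) → ‖∑ n ∈ Icc 1 M, χ (n : ZMod d)‖ ≤ E) :
    |(((Icc 1 M).filter (fun n : ℕ => n.Coprime d ∧ q⁻¹ * ucl d n ∈ H)).card : ℝ) -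
      (Nat.card H : ℝ) / (Fintype.card (ZMod d)ˣ : ℝ) * (((Icc 1 M).filter (fun n : ℕ => n.Coprime d)).card : ℝ)| ≤ E := by
  set T : Finset (DirichletCharacter ℂ d) := univ.filter (fun χ => ∀ x ∈ H, ev χ x = 1) with hT
  have hφpos : (0 : ℝ) < (Fintype.card (ZMod d)ˣ : ℝ) := by exact_mod_cast Fintype.card_pos
  have hHnn : (0 : ℝ) ≤ (Nat.card H : ℝ) := Nat.cast_nonneg _
  have hTcard : (Nat.card H : ℝ) * (T.card : ℝ) = (Fintype.card (ZMod d)ˣ : ℝ) := by
    have h1 := G8_orth H (1 : (ZMod d)ˣ)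
    rw [if_pos H.one_mem, Finset.sum_congr rfl fun χ _ => ev_one χ, Finset.sum_const, nsmul_eq_mul, mul_one] at h1
    exact_mod_cast h1
  -- expansion
  have h2 : (Fintype.card (ZMod d)ˣ : ℂ) * (((Icc 1 M).filter (fun n : ℕ => n.Coprime d ∧ q⁻¹ * ucl d n ∈ H)).card : ℂ) =
      (Nat.card H : ℂ) * ∑ χ ∈ T, ev χ q⁻¹ * ∑ n ∈ Icc 1 M, χ (n : ZMod d) := by
    rw [Finset.card_filter, Nat.cast_sum, Finset.mul_sum]
    have h3 : ∑ χ ∈ T, ev χ q⁻¹ * ∑ n ∈ Icc 1 M, χ (n : ZMod d) =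
        ∑ n ∈ Icc 1 M, ∑ χ ∈ T, ev χ q⁻¹ * χ (n : ZMod d) := by
      rw [Finset.sum_comm]
      exact Finset.sum_congr rfl fun χ _ => by rw [Finset.mul_sum]
    rw [h3, Finset.mul_sum]
    refine Finset.sum_congr rfl fun n _ => ?_
    by_cases hn : n.Coprime d
    · have h4 : ∑ χ ∈ T, ev χ q⁻¹ * χ (n : ZMod d) = ∑ χ ∈ T, ev χ (q⁻¹ * ucl d n) := by
        refine Finset.sum_congr rfl fun χ _ => ?_
        rw [ev_mul]
        unfold ev
        rw [ucl_val hn]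
      rw [h4, hT, G8_orth]
      by_cases hq : q⁻¹ * ucl d n ∈ H
      · rw [if_pos ⟨hn, hq⟩, if_pos hq, Nat.cast_one, mul_one]
      · rw [if_neg (fun h => hq h.2), if_neg hq, Nat.cast_zero, mul_zero]
    · rw [if_neg (fun h => hn h.1), Finset.sum_eq_zero, mul_zero, Nat.cast_zero, mul_zero]
      intro χ _
      rw [G8_not_coprime χ hn, mul_zero]
  have h1T : (1 : DirichletCharacter ℂ d) ∈ T := by
    rw [hT, Finset.mem_filter]
    refine ⟨Finset.mem_univ _, fun x _ => ?_⟩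
    unfold ev
    exact MulChar.one_apply_coe x
  have h5 : (Fintype.card (ZMod d)ˣ : ℂ) * (((Icc 1 M).filter (fun n : ℕ => n.Coprime d ∧ q⁻¹ * ucl d n ∈ H)).card : ℂ) -
      (Nat.card H : ℂ) * (((Icc 1 M).filter (fun n : ℕ => n.Coprime d)).card : ℂ) =
      (Nat.card H : ℂ) * ∑ χ ∈ T.erase 1, ev χ q⁻¹ * ∑ n ∈ Icc 1 M, χ (n : ZMod d) := by
    rw [h2, ← Finset.add_sum_erase T _ h1T, G8_one]
    have h6 : ev (1 : DirichletCharacter ℂ d) q⁻¹ = 1 := by
      unfold ev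
      exact MulChar.one_apply_coe _
    rw [h6, one_mul, mul_add]
    ring
  have h7 : ‖(Nat.card H : ℂ) * ∑ χ ∈ T.erase 1, ev χ q⁻¹ * ∑ n ∈ Icc 1 M, χ (n : ZMod d)‖ ≤
      (Fintype.card (ZMod d)ˣ : ℝ) * E := by
    rw [norm_mul, Complex.norm_natCast]
    have h8 : ‖∑ χ ∈ T.erase 1, ev χ q⁻¹ * ∑ n ∈ Icc 1 M, χ (n : ZMod d)‖ ≤ (T.card : ℝ) * E := by
      refine le_trans (norm_sum_le _ _) ?_
      refine le_trans (Finset.sum_le_sum (g := fun _ => E) fun χ hχ => ?_) ?_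
      · rw [norm_mul, norm_ev, one_mul]
        exact h χ (Finset.ne_of_mem_erase hχ) (Finset.mem_filter.1 (Finset.mem_of_mem_erase hχ)).2
      · rw [Finset.sum_const, nsmul_eq_mul]
        exact mul_le_mul_of_nonneg_right (by exact_mod_cast Finset.card_le_card (Finset.erase_subset _ _)) hE
    calc (Nat.card H : ℝ) * ‖∑ χ ∈ T.erase 1, ev χ q⁻¹ * ∑ n ∈ Icc 1 M, χ (n : ZMod d)‖ ≤
        (Nat.card H : ℝ) * ((T.card : ℝ) * E) := mul_le_mul_of_nonneg_left h8 hHnn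
      _ = (Nat.card H : ℝ) * (T.card : ℝ) * E := by ring
      _ = (Fintype.card (ZMod d)ˣ : ℝ) * E := by rw [hTcard]
  rw [← h5] at h7
  have h9 : ‖(Fintype.card (ZMod d)ˣ : ℂ) * (((Icc 1 M).filter (fun n : ℕ => n.Coprime d ∧ q⁻¹ * ucl d n ∈ H)).card : ℂ) -
      (Nat.card H : ℂ) * (((Icc 1 M).filter (fun n : ℕ => n.Coprime d)).card : ℂ)‖ =
      |(Fintype.card (ZMod d)ˣ : ℝ) * (((Icc 1 M).filter (fun n : ℕ => n.Coprime d ∧ q⁻¹ * ucl d n ∈ H)).card : ℝ) -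
      (Nat.card H : ℝ) * (((Icc 1 M).filter (fun n : ℕ => n.Coprime d)).card : ℝ)| := by
    rw [← Real.norm_eq_abs, ← Complex.norm_real]
    congr 1
    push_cast
    ring
  rw [h9] at h7
  have h10 : (Fintype.card (ZMod d)ˣ : ℝ) * (((Icc 1 M).filter (fun n : ℕ => n.Coprime d ∧ q⁻¹ * ucl d n ∈ H)).card : ℝ) -
      (Nat.card H : ℝ) * (((Icc 1 M).filter (fun n : ℕ => n.Coprime d)).card : ℝ) = (Fintype.card (ZMod d)ˣ : ℝ) *
      ((((Icc 1 M).filter (fun n : ℕ => n.Coprime d ∧ q⁻¹ * ucl d n ∈ H)).card : ℝ) -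
      (Nat.card H : ℝ) / (Fintype.card (ZMod d)ˣ : ℝ) * (((Icc 1 M).filter (fun n : ℕ => n.Coprime d)).card : ℝ)) := by
    field_simp
  rw [h10, abs_mul, abs_of_pos hφpos] at h7
  exact le_of_mul_le_mul_left h7 hφpos

theorem pow_index {d : ℕ} [NeZero d] (H : Subgroup (ZMod d)ˣ) (m : ℕ)
    (hm : (Fintype.card (ZMod d)ˣ : ℝ) ≤ m * (Nat.card H : ℝ)) (χ : DirichletCharacter ℂ d)
    (h : ∀ x ∈ H, ev χ x = 1) : χ ^ (m.factorial) = 1 := by
  have h1 : H.index * Nat.card H = Nat.card (ZMod d)ˣ := Subgroup.index_mul_card H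
  have hHpos : 0 < Nat.card H := Nat.card_pos
  have h2 : H.index ≤ m := by
    have h3 : Nat.card (ZMod d)ˣ ≤ m * Nat.card H := by
      rw [Nat.card_eq_fintype_card (α := (ZMod d)ˣ)]
      exact_mod_cast hm
    rw [← h1] at h3
    exact Nat.le_of_mul_le_mul_right h3 hHpos
  have h4 : 0 < H.index := by
    rcases Nat.eq_zero_or_pos H.index with h0 | h0
    · rw [h0, zero_mul] at h1
      have h5 : 0 < Nat.card (ZMod d)ˣ := Nat.card_pos
      omega
    · exact h0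
  obtain ⟨k, hk⟩ := Nat.dvd_factorial h4 h2
  apply ev_inj
  intro a
  have h6 : ev (χ ^ m.factorial) a = ev χ (a ^ m.factorial) := by
    unfold ev
    rw [MulChar.pow_apply_coe, Units.val_pow_eq_pow_val, map_pow]
  rw [h6, hk, pow_mul, h _ (H.pow_mem (Subgroup.pow_index_mem H a) k)]
  unfold ev
  exact (MulChar.one_apply_coe a).symm

private theorem G8_moeb (g : ℕ) :
    ∑ k ∈ g.divisors, (ArithmeticFunction.moebius k : ℝ) = if g = 1 then 1 else 0 := by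
  have h1 := congrArg (fun f : ArithmeticFunction ℝ => f g) (ArithmeticFunction.coe_zeta_mul_coe_moebius (R := ℝ))
  rw [ArithmeticFunction.coe_zeta_mul_apply, ArithmeticFunction.one_apply] at h1
  rw [← h1]
  refine Finset.sum_congr rfl fun k _ => ?_
  rw [ArithmeticFunction.intCoe_apply]

private theorem G8_tot (d : ℕ) (hd : 0 < d) :
    ∑ k ∈ d.divisors, (ArithmeticFunction.moebius k : ℝ) * ((d / k : ℕ) : ℝ) = (d.totient : ℝ) := by
  have h1 := (ArithmeticFunction.sum_eq_iff_sum_mul_moebius_eq (R := ℝ) (f := fun n => (n.totient : ℝ))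
    (g := fun n => (n : ℝ))).1 (fun n _ => by
      rw [← Nat.cast_sum, Nat.sum_totient]) d hd
  rw [Nat.sum_divisorsAntidiagonal (f := fun a b => ((ArithmeticFunction.moebius a : ℤ) : ℝ) * ((b : ℕ) : ℝ))] at h1
  exact h1

theorem coprime_count (d : ℕ) [NeZero d] (M : ℕ) :
    |(((Icc 1 M).filter (fun n : ℕ => n.Coprime d)).card : ℝ) - (Fintype.card (ZMod d)ˣ : ℝ) * M / d| ≤
      (d.divisors.card : ℝ) := by
  have hd : 0 < d := Nat.pos_of_ne_zero (NeZero.ne d)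
  have hdR : (0 : ℝ) < d := by exact_mod_cast hd
  have h1 : (((Icc 1 M).filter (fun n : ℕ => n.Coprime d)).card : ℝ) =
      ∑ k ∈ d.divisors, (ArithmeticFunction.moebius k : ℝ) * ((M / k : ℕ) : ℝ) := by
    rw [Finset.card_filter, Nat.cast_sum]
    have h2 : ∀ n ∈ Icc 1 M, ((if n.Coprime d then 1 else 0 : ℕ) : ℝ) =
        ∑ k ∈ d.divisors, (ArithmeticFunction.moebius k : ℝ) * (if k ∣ n then 1 else 0) := by
      intro n hn
      have hn0 : 0 < n := (Finset.mem_Icc.1 hn).1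
      have h3 : (Nat.gcd n d).divisors = d.divisors.filter (fun k => k ∣ n) := by
        ext k
        rw [Nat.mem_divisors, Finset.mem_filter, Nat.mem_divisors, Nat.dvd_gcd_iff]
        constructor
        · rintro ⟨⟨h4, h5⟩, _⟩
          exact ⟨⟨h5, hd.ne'⟩, h4⟩
        · rintro ⟨⟨h4, _⟩, h5⟩
          exact ⟨⟨h5, h4⟩, (Nat.gcd_pos_of_pos_left d hn0).ne'⟩
      have h4 := G8_moeb (Nat.gcd n d)
      rw [h3, Finset.sum_filter] at h4
      have h5 : ∑ k ∈ d.divisors, (ArithmeticFunction.moebius k : ℝ) * (if k ∣ n then 1 else 0) =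
          ∑ k ∈ d.divisors, (if k ∣ n then (ArithmeticFunction.moebius k : ℝ) else 0) := by
        refine Finset.sum_congr rfl fun k _ => ?_
        rw [mul_ite, mul_one, mul_zero]
      rw [h5, h4]
      by_cases hc : n.Coprime d
      · rw [if_pos hc, if_pos hc, Nat.cast_one]
      · rw [if_neg hc, if_neg hc, Nat.cast_zero]
    rw [Finset.sum_congr rfl h2, Finset.sum_comm]
    refine Finset.sum_congr rfl fun k _ => ?_
    rw [← Finset.mul_sum]
    congr 1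
    have h6 := Nat.Ioc_filter_dvd_card_eq_div M k
    rw [← h6, Finset.card_filter, Nat.cast_sum]
    have h7 : Icc 1 M = Ioc 0 M := by
      ext x
      rw [Finset.mem_Icc, Finset.mem_Ioc]
      omega
    rw [h7]
    refine Finset.sum_congr rfl fun n _ => ?_
    by_cases hc : k ∣ n
    · rw [if_pos hc, if_pos hc, Nat.cast_one]
    · rw [if_neg hc, if_neg hc, Nat.cast_zero]
  have h2 : (Fintype.card (ZMod d)ˣ : ℝ) * M / d =
      ∑ k ∈ d.divisors, (ArithmeticFunction.moebius k : ℝ) * ((M : ℝ) / k) := by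
    rw [ZMod.card_units_eq_totient, ← G8_tot d hd, Finset.sum_mul, Finset.sum_div]
    refine Finset.sum_congr rfl fun k hk => ?_
    obtain ⟨j, hj⟩ := Nat.dvd_of_mem_divisors hk
    have hk0 : 0 < k := Nat.pos_of_mem_divisors hk
    have hk0R : (k : ℝ) ≠ 0 := by exact_mod_cast hk0.ne'
    have hj0 : (j : ℝ) ≠ 0 := by
      intro h
      have h8 : j = 0 := by exact_mod_cast h
      rw [h8, mul_zero] at hj
      omega
    rw [hj, Nat.mul_div_cancel_left j hk0, Nat.cast_mul]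
    field_simp
  rw [h1, h2, ← Finset.sum_sub_distrib]
  refine le_trans (Finset.abs_sum_le_sum_abs _ _) ?_
  have h3 : (d.divisors.card : ℝ) = ∑ _k ∈ d.divisors, (1 : ℝ) := by
    rw [Finset.sum_const, nsmul_eq_mul, mul_one]
  rw [h3]
  refine Finset.sum_le_sum fun k hk => ?_
  rw [← mul_sub, abs_mul]
  have hk0 : 0 < k := Nat.pos_of_mem_divisors hk
  have hk0R : (0 : ℝ) < (k : ℝ) := by exact_mod_cast hk0
  have h4 : |((ArithmeticFunction.moebius k : ℤ) : ℝ)| ≤ 1 := by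
    have h5 := ArithmeticFunction.abs_moebius_le_one (n := k)
    exact_mod_cast h5
  have h6 : |((M / k : ℕ) : ℝ) - (M : ℝ) / k| ≤ 1 := by
    rw [abs_sub_comm, abs_le]
    constructor
    · have h7 : ((M / k : ℕ) : ℝ) ≤ (M : ℝ) / k := Nat.cast_div_le
      linarith
    · have h8 : (M : ℝ) / k < ((M / k : ℕ) : ℝ) + 1 := by
        rw [div_lt_iff₀ hk0R]
        have h9 : M < (M / k + 1) * k := by
          have h10 := Nat.lt_div_mul_add (a := M) hk0
          rw [Nat.add_mul, Nat.one_mul]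
          exact h10
        exact_mod_cast h9
      linarith
  calc |((ArithmeticFunction.moebius k : ℤ) : ℝ)| * |((M / k : ℕ) : ℝ) - (M : ℝ) / k| ≤ 1 * 1 :=
        mul_le_mul h4 h6 (abs_nonneg _) zero_le_one
    _ = 1 := one_mul 1

end Pool.Agent.Lib.MP_42948a_nt.TQ
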