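import Pool.Agent.Lib.MP_42948a_nt.TQ.P1

/-!
# Pigeonhole over the scales, and the correlation with a small prime (job P2)

`pigeon`: the sets `P j \ P (j+1)`, `j < J`, are pairwise disjoint subsets of `univ` (as `P` is decreasing), so the sum of their cards is
`≤ card G` and one of them has `card * J ≤ card G`.

`corr_prime`: `F = FX d z X'`, `Q = PX d z X'`, `P = PX d z X ⊆ Q` (`FX_mono` with `X' ≤ X`; `X' ≤ u X' ≤ X`). For `c ∈ P`: `F c = FX d z X c` and
`F (c * (ucl d u)⁻¹) = lio u * FX d z X c = - F c` (`FX_shift`, `lio_prime`), so the product is `- 1` (`FX_sq`). For `c ∈ Q \ P` the product is `≤ 1`, for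
`c ∉ Q` it is `0`. So the sum is `≤ - #P + #(Q \ P) = - #Q + 2 #(Q \ P)`.
-/

namespace Pool.Agent.Lib.MP_42948a_nt.TQ

open Finset Pool.Agent.Lib.MP_42948a_nt.OA Pool.Agent.Lib.MP_42948a_nt.AC

theorem pigeon {G : Type*} [Fintype G] [DecidableEq G] (P : ℕ → Finset G) (hP : ∀ j, P (j + 1) ⊆ P j) (J : ℕ) (hJ : 1 ≤ J) :
    ∃ j < J, (P j \ P (j + 1)).card * J ≤ Fintype.card G := by
  by_contra hcon
  push Not at hcon
  have h1 : ∑ j ∈ range J, (((P j \ P (j + 1)).card : ℤ)) = ((P 0).card : ℤ) - ((P J).card : ℤ) := by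
    rw [← Finset.sum_range_sub' (fun j => ((P j).card : ℤ)) J]
    apply Finset.sum_congr rfl
    intro j _
    rw [Finset.card_sdiff_of_subset (hP j), Nat.cast_sub (Finset.card_le_card (hP j))]
  have h2 : ((P 0).card : ℤ) ≤ Fintype.card G := by
    exact_mod_cast Finset.card_le_univ (P 0)
  have h3 : ∑ j ∈ range J, ((Fintype.card G : ℤ)) < ∑ j ∈ range J, (((P j \ P (j + 1)).card : ℤ) * J) := by
    apply Finset.sum_lt_sum_of_nonempty
    · exact ⟨0, by rw [mem_range]; omega⟩
    · intro j hj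
      rw [mem_range] at hj
      exact_mod_cast hcon j hj
  rw [← Finset.sum_mul, h1, Finset.sum_const, card_range, nsmul_eq_mul] at h3
  have h4 : (0 : ℤ) ≤ ((P J).card : ℤ) := Nat.cast_nonneg _
  have h5 : (0 : ℤ) < J := by exact_mod_cast hJ
  nlinarith

open Classical in
theorem corr_prime (d z X X' u : ℕ) [NeZero d] (hup : u.Prime) (hu : Rough z u) (hud : u.Coprime d) (hX : u * X' ≤ X)
    (hfull : Full d z X') :
    ∑ c : (ZMod d)ˣ, FX d z X' c * FX d z X' (c * (ucl d u)⁻¹) ≤
      -((PX d z X').card : ℝ) + 2 * ((PX d z X' \ PX d z X).card : ℝ) := by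
  have hXX : X' ≤ X := le_trans (Nat.le_mul_of_pos_left X' hup.pos) hX
  have hsub : PX d z X ⊆ PX d z X' := by
    intro c hc
    unfold PX at hc ⊢
    rw [mem_filter] at hc ⊢
    refine ⟨mem_univ _, ?_⟩
    rw [FX_mono hXX hfull hc.2]
    exact hc.2
  have h1 : ∀ c : (ZMod d)ˣ, FX d z X' c * FX d z X' (c * (ucl d u)⁻¹) ≤
      -(if c ∈ PX d z X then (1 : ℝ) else 0) + (if c ∈ PX d z X' \ PX d z X then (1 : ℝ) else 0) := by
    intro c
    by_cases hc : c ∈ PX d z X
    · have h2 : c ∉ PX d z X' \ PX d z X := fun h => (mem_sdiff.1 h).2 hc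
      rw [if_pos hc, if_neg h2]
      have h3 : FX d z X c ≠ 0 := by
        unfold PX at hc
        exact (mem_filter.1 hc).2
      rw [FX_mono hXX hfull h3, FX_shift hu hud hX hfull h3, lio_prime hup]
      have h4 := FX_sq h3
      nlinarith
    · rw [if_neg hc]
      by_cases hc' : c ∈ PX d z X'
      · rw [if_pos (mem_sdiff.2 ⟨hc', hc⟩)]
        rcases FX_val d z X' c with h5 | h5 | h5 <;>
          rcases FX_val d z X' (c * (ucl d u)⁻¹) with h6 | h6 | h6 <;> rw [h5, h6] <;> norm_num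
      · rw [if_neg (fun h => hc' (mem_sdiff.1 h).1)]
        have h7 : FX d z X' c = 0 := by
          by_contra h8
          apply hc'
          unfold PX
          rw [mem_filter]
          exact ⟨mem_univ _, h8⟩
        rw [h7]
        norm_num
  refine (Finset.sum_le_sum fun c _ => h1 c).trans ?_
  rw [Finset.sum_add_distrib, Finset.sum_neg_distrib]
  simp only [Finset.sum_ite_mem, univ_inter, Finset.sum_const, nsmul_eq_mul, mul_one]
  have h9 := Finset.card_sdiff_add_card_eq_card hsub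
  have h10 : ((PX d z X' \ PX d z X).card : ℝ) + ((PX d z X).card : ℝ) = ((PX d z X').card : ℝ) := by
    exact_mod_cast h9
  linarith

end Pool.Agent.Lib.MP_42948a_nt.TQ
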