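import Mathlib

/-!
# A large ball of a subadditive function contains a subgroup (job S1)

Let `B r = {g : N g ≤ r}`. Claim: there is `i < m` such that `B (2 * (5^i * r0))` is closed under multiplication; it contains `1` and is closed
under inverses, so it is (the carrier of) a subgroup, and `r = 2 * (5^i * r0)` satisfies `r0 ≤ r ≤ 5^m * r0` (`2 * 5^i ≤ 5^(i+1) ≤ 5^m`).
Suppose not. Then for each `i < m`, with `ρ = 5^i * r0`, there are `g, h ∈ B (2ρ)` with `x = g h ∉ B (2ρ)`, `2ρ < N x ≤ 4ρ`. The sets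
`B ρ` and `x B ρ` (image under `x * ·`) are disjoint (if `x b = b'`, `N b, N b' ≤ ρ`, then `x = b' b⁻¹`, `N x ≤ 2ρ`) and both contained in
`B (5ρ)` (`N (x b) ≤ 4ρ + ρ`), so `#B (5ρ) ≥ 2 #B ρ`. By induction `#B (5^i r0) ≥ 2^i #B r0` for `i ≤ m`, and for `i = m`:
`2^m #B r0 ≤ card G`, contradiction.
-/

namespace Pool.Agent.Lib.MP_42948a_nt.TQ

open Finset

open Classical in
private theorem S1_step {G : Type*} [CommGroup G] [Fintype G] (N : G → ℝ) (hinv : ∀ g, N g⁻¹ = N g)
    (hsub : ∀ g h, N (g * h) ≤ N g + N h) (ρ : ℝ) {g h : G} (hg : N g ≤ 2 * ρ) (hh : N h ≤ 2 * ρ)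
    (hgh : 2 * ρ < N (g * h)) :
    2 * (univ.filter (fun g : G => N g ≤ ρ)).card ≤ (univ.filter (fun g : G => N g ≤ 5 * ρ)).card := by
  have hx : N (g * h) ≤ 4 * ρ := by
    have := hsub g h
    linarith
  have hρ : 0 ≤ ρ := by linarith
  have hdis : Disjoint (univ.filter (fun g : G => N g ≤ ρ))
      ((univ.filter (fun g : G => N g ≤ ρ)).image (fun b => g * h * b)) := by
    rw [Finset.disjoint_left]
    intro b' hb' hb
    rw [mem_image] at hb
    obtain ⟨b, hb, he⟩ := hb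
    rw [mem_filter] at hb hb'
    have h1 : g * h = b' * b⁻¹ := by
      rw [← he]
      group
    have h2 := hsub b' b⁻¹
    rw [hinv, ← h1] at h2
    linarith [hb.2, hb'.2]
  have hinj : Function.Injective (fun b : G => g * h * b) := mul_right_injective (g * h)
  have hsubset : (univ.filter (fun g : G => N g ≤ ρ)) ∪
      ((univ.filter (fun g : G => N g ≤ ρ)).image (fun b => g * h * b)) ⊆
      univ.filter (fun g : G => N g ≤ 5 * ρ) := by
    intro b hb
    rw [mem_filter]
    refine ⟨mem_univ _, ?_⟩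
    rcases mem_union.1 hb with h1 | h1
    · have := (mem_filter.1 h1).2
      linarith
    · obtain ⟨c, hc, rfl⟩ := mem_image.1 h1
      have h2 := (mem_filter.1 hc).2
      have h3 := hsub (g * h) c
      linarith
  have hcard := card_le_card hsubset
  rw [card_union_of_disjoint hdis, card_image_of_injective _ hinj] at hcard
  omega

open Classical in
theorem ball_subgroup {G : Type*} [CommGroup G] [Fintype G] (N : G → ℝ) (h1 : N 1 = 0) (hinv : ∀ g, N g⁻¹ = N g)
    (hsub : ∀ g h, N (g * h) ≤ N g + N h) (r0 : ℝ) (hr0 : 0 < r0) (m : ℕ)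
    (hm : Fintype.card G < 2 ^ m * (univ.filter (fun g : G => N g ≤ r0)).card) :
    ∃ (r : ℝ) (H : Subgroup G), r0 ≤ r ∧ r ≤ 5 ^ m * r0 ∧ ∀ g, g ∈ H ↔ N g ≤ r := by
  have key : ∃ i < m, ∀ g h : G, N g ≤ 2 * (5 ^ i * r0) → N h ≤ 2 * (5 ^ i * r0) →
      N (g * h) ≤ 2 * (5 ^ i * r0) := by
    by_contra hcon
    push Not at hcon
    have hind : ∀ i ≤ m, 2 ^ i * (univ.filter (fun g : G => N g ≤ r0)).card ≤
        (univ.filter (fun g : G => N g ≤ 5 ^ i * r0)).card := by
      intro i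
      induction i with
      | zero =>
        intro _
        rw [pow_zero, pow_zero, one_mul, one_mul]
      | succ i ih =>
        intro hi
        obtain ⟨g, h, hg, hh, hgh⟩ := hcon i (by omega)
        have h2 := S1_step N hinv hsub (5 ^ i * r0) hg hh hgh
        have h3 := ih (by omega)
        have h4 : 5 * (5 ^ i * r0) = 5 ^ (i + 1) * r0 := by ring
        rw [h4] at h2
        calc 2 ^ (i + 1) * (univ.filter (fun g : G => N g ≤ r0)).card
            = 2 * (2 ^ i * (univ.filter (fun g : G => N g ≤ r0)).card) := by ring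
          _ ≤ 2 * (univ.filter (fun g : G => N g ≤ 5 ^ i * r0)).card := Nat.mul_le_mul_left 2 h3
          _ ≤ _ := h2
    have h2 := hind m le_rfl
    have h3 : (univ.filter (fun g : G => N g ≤ 5 ^ m * r0)).card ≤ Fintype.card G := card_le_univ _
    omega
  obtain ⟨i, hi, hcl⟩ := key
  have h5 : (1 : ℝ) ≤ 5 ^ i := one_le_pow₀ (by norm_num)
  have h6 : (0 : ℝ) < 5 ^ i * r0 := by positivity
  have h7 : r0 ≤ 5 ^ i * r0 := le_mul_of_one_le_left hr0.le h5
  have h8 : (5 : ℝ) ^ (i + 1) ≤ 5 ^ m := pow_le_pow_right₀ (by norm_num) hi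
  have h9 : (5 : ℝ) ^ (i + 1) * r0 ≤ 5 ^ m * r0 := mul_le_mul_of_nonneg_right h8 hr0.le
  have hone : N 1 ≤ 2 * (5 ^ i * r0) := by
    rw [h1]
    linarith
  have hinv' : ∀ g : G, N g ≤ 2 * (5 ^ i * r0) → N g⁻¹ ≤ 2 * (5 ^ i * r0) := by
    intro g hg
    rw [hinv]
    exact hg
  let H : Subgroup G :=
    { carrier := {g : G | N g ≤ 2 * (5 ^ i * r0)}
      mul_mem' := fun {g h} hg hh => hcl g h hg hh
      one_mem' := hone
      inv_mem' := fun {g} hg => hinv' g hg }
  refine ⟨2 * (5 ^ i * r0), H, by linarith, ?_, fun g => Iff.rfl⟩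
  refine le_trans ?_ h9
  have h10 : (5 : ℝ) ^ (i + 1) * r0 = 5 * (5 ^ i * r0) := by ring
  rw [h10]
  linarith

end Pool.Agent.Lib.MP_42948a_nt.TQ
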