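import Mathlib

/-!
# The distance of a group element to `±1` in the mean of characters (job S2)

`e : X → G → ℂ` unimodular and multiplicative in `G`, weights `μ ≥ 0` on `Ξ`.
`DD σ h = ∑_{χ ∈ Ξ} μ χ ‖1 - σ e χ h‖^2`, `NN h = min (√(DD 1 h)) (√(DD (-1) h))`.
* `DD_nonneg`, `NN_nonneg`: clear. `NN_one`: `DD 1 1 = 0` (`e χ 1 = 1` as `e χ 1 * e χ 1 = e χ 1 ≠ 0`).
* `DD_inv`: for `σ = ±1`, `e χ h * e χ h⁻¹ = 1`, so `‖1 - σ e χ h⁻¹‖ = ‖e χ h - σ‖ = ‖σ e χ h - 1‖` (multiply by `e χ h`, norm one, and by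
  `σ`, `σ^2 = 1`). `NN_inv` follows.
* `DD_mul`: `1 - σ σ' e χ (g h) = (1 - σ e χ g) + σ e χ g (1 - σ' e χ h)`; Minkowski's inequality in the weighted `ℓ^2` norm
  (e.g. `Real.Lp_add_le`-like, or directly: with `a χ = √(μ χ) ‖1 - σ e χ g‖`, `b χ = √(μ χ) ‖1 - σ' e χ h‖` use
  `∑ (a + b)^2 ≤ (√(∑ a^2) + √(∑ b^2))^2` from Cauchy-Schwarz `Finset.sum_mul_sq_le_sq_mul_sq` / `Finset.inner_mul_le_norm_mul_norm`).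
* `NN_mul`: choose `σ, σ' = ±1` with `NN g = √(DD σ g)`, `NN h = √(DD σ' h)`; `σ σ' = ±1`, `NN (g h) ≤ √(DD (σ σ') (g h))`.
* `DD_add`: `‖1 - w‖^2 + ‖1 + w‖^2 = 4` for `‖w‖ = 1`.
-/

namespace Pool.Agent.Lib.MP_42948a_nt.TQ

open Finset

/-- weighted square distance -/
noncomputable def DD {G X : Type*} (e : X → G → ℂ) (Ξ : Finset X) (μ : X → ℝ) (σ : ℝ) (h : G) : ℝ :=
  ∑ χ ∈ Ξ, μ χ * ‖1 - (σ : ℂ) * e χ h‖ ^ 2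

/-- distance to `±1` -/
noncomputable def NN {G X : Type*} (e : X → G → ℂ) (Ξ : Finset X) (μ : X → ℝ) (h : G) : ℝ :=
  min (√(DD e Ξ μ 1 h)) (√(DD e Ξ μ (-1) h))

variable {G X : Type*} [CommGroup G] {e : X → G → ℂ} {Ξ : Finset X} {μ : X → ℝ}

theorem DD_nonneg (hμ : ∀ χ ∈ Ξ, 0 ≤ μ χ) (σ : ℝ) (h : G) : 0 ≤ DD e Ξ μ σ h := by
  exact Finset.sum_nonneg fun χ hχ => mul_nonneg (hμ χ hχ) (sq_nonneg _)

theorem NN_nonneg (h : G) : 0 ≤ NN e Ξ μ h := by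
  exact le_min (Real.sqrt_nonneg _) (Real.sqrt_nonneg _)

private theorem S2_one (he1 : ∀ χ g, ‖e χ g‖ = 1) (hem : ∀ χ g h, e χ (g * h) = e χ g * e χ h) (χ : X) :
    e χ (1 : G) = 1 := by
  have h1 := hem χ 1 1
  rw [mul_one] at h1
  have h2 : e χ (1 : G) ≠ 0 := by
    intro h0
    have h3 := he1 χ 1
    rw [h0, norm_zero] at h3
    exact zero_ne_one h3
  exact (mul_eq_left₀ h2).1 h1.symm

theorem NN_one (he1 : ∀ χ g, ‖e χ g‖ = 1) (hem : ∀ χ g h, e χ (g * h) = e χ g * e χ h) : NN e Ξ μ (1 : G) = 0 := by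
  have h1 : DD e Ξ μ 1 (1 : G) = 0 := by
    refine Finset.sum_eq_zero fun χ _ => ?_
    rw [S2_one he1 hem χ]
    simp
  unfold NN
  rw [h1, Real.sqrt_zero]
  exact min_eq_left (Real.sqrt_nonneg _)

private theorem S2_inv (he1 : ∀ χ g, ‖e χ g‖ = 1) (hem : ∀ χ g h, e χ (g * h) = e χ g * e χ h) (g : G)
    {σ : ℝ} (hσ : σ = 1 ∨ σ = -1) : DD e Ξ μ σ g⁻¹ = DD e Ξ μ σ g := by
  refine Finset.sum_congr rfl fun χ _ => ?_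
  have h1 : e χ g * e χ g⁻¹ = 1 := by
    rw [← hem, mul_inv_cancel]
    exact S2_one he1 hem χ
  have hs : (σ : ℂ) * σ = 1 := by
    rcases hσ with rfl | rfl <;> simp
  have hn : ‖(σ : ℂ)‖ = 1 := by
    rcases hσ with rfl | rfl <;> simp
  have h2 : ‖1 - (σ : ℂ) * e χ g⁻¹‖ = ‖1 - (σ : ℂ) * e χ g‖ := by
    have h3 : (-(σ : ℂ) * e χ g) * (1 - (σ : ℂ) * e χ g⁻¹) = 1 - (σ : ℂ) * e χ g := by
      linear_combination (e χ g * e χ g⁻¹) * hs + h1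
    rw [← h3, norm_mul, norm_mul, norm_neg, hn, he1, one_mul, one_mul]
  rw [h2]

theorem NN_inv (he1 : ∀ χ g, ‖e χ g‖ = 1) (hem : ∀ χ g h, e χ (g * h) = e χ g * e χ h) (g : G) :
    NN e Ξ μ g⁻¹ = NN e Ξ μ g := by
  unfold NN
  rw [S2_inv he1 hem g (Or.inl rfl), S2_inv he1 hem g (Or.inr rfl)]

theorem DD_mul (hμ : ∀ χ ∈ Ξ, 0 ≤ μ χ) (he1 : ∀ χ g, ‖e χ g‖ = 1) (hem : ∀ χ g h, e χ (g * h) = e χ g * e χ h)
    {σ σ' : ℝ} (hσ : σ = 1 ∨ σ = -1) (hσ' : σ' = 1 ∨ σ' = -1) (g h : G) :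
    √(DD e Ξ μ (σ * σ') (g * h)) ≤ √(DD e Ξ μ σ g) + √(DD e Ξ μ σ' h) := by
  have hn : ‖(σ : ℂ)‖ = 1 := by
    rcases hσ with rfl | rfl <;> simp
  have hA := DD_nonneg (e := e) hμ σ g
  have hB := DD_nonneg (e := e) hμ σ' h
  have hA0 := Real.sqrt_nonneg (DD e Ξ μ σ g)
  have hB0 := Real.sqrt_nonneg (DD e Ξ μ σ' h)
  have hAs := Real.sq_sqrt hA
  have hBs := Real.sq_sqrt hB
  rw [Real.sqrt_le_left (by linarith)]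
  have hCS := Finset.sum_mul_sq_le_sq_mul_sq Ξ (fun χ => √(μ χ) * ‖1 - (σ : ℂ) * e χ g‖)
    (fun χ => √(μ χ) * ‖1 - (σ' : ℂ) * e χ h‖)
  have hf : ∑ χ ∈ Ξ, (√(μ χ) * ‖1 - (σ : ℂ) * e χ g‖) ^ 2 = DD e Ξ μ σ g := by
    refine Finset.sum_congr rfl fun χ hχ => ?_
    rw [mul_pow, Real.sq_sqrt (hμ χ hχ)]
  have hg : ∑ χ ∈ Ξ, (√(μ χ) * ‖1 - (σ' : ℂ) * e χ h‖) ^ 2 = DD e Ξ μ σ' h := by
    refine Finset.sum_congr rfl fun χ hχ => ?_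
    rw [mul_pow, Real.sq_sqrt (hμ χ hχ)]
  rw [hf, hg] at hCS
  have hS : ∑ χ ∈ Ξ, (√(μ χ) * ‖1 - (σ : ℂ) * e χ g‖) * (√(μ χ) * ‖1 - (σ' : ℂ) * e χ h‖) ≤
      √(DD e Ξ μ σ g) * √(DD e Ξ μ σ' h) := by
    rw [← Real.sqrt_mul hA]
    exact Real.le_sqrt_of_sq_le hCS
  have hle : DD e Ξ μ (σ * σ') (g * h) ≤ DD e Ξ μ σ g + DD e Ξ μ σ' h +
      2 * ∑ χ ∈ Ξ, (√(μ χ) * ‖1 - (σ : ℂ) * e χ g‖) * (√(μ χ) * ‖1 - (σ' : ℂ) * e χ h‖) := by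
    unfold DD
    rw [Finset.mul_sum, ← Finset.sum_add_distrib, ← Finset.sum_add_distrib]
    refine Finset.sum_le_sum fun χ hχ => ?_
    have hμχ := hμ χ hχ
    have h1 : ‖1 - ((σ * σ' : ℝ) : ℂ) * e χ (g * h)‖ ≤ ‖1 - (σ : ℂ) * e χ g‖ + ‖1 - (σ' : ℂ) * e χ h‖ := by
      have h2 : 1 - ((σ * σ' : ℝ) : ℂ) * e χ (g * h) =
          (1 - (σ : ℂ) * e χ g) + (σ : ℂ) * e χ g * (1 - (σ' : ℂ) * e χ h) := by
        rw [hem]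
        push_cast
        ring
      rw [h2]
      refine (norm_add_le _ _).trans (le_of_eq ?_)
      rw [norm_mul, norm_mul, hn, he1, one_mul, one_mul]
    have h3 := pow_le_pow_left₀ (norm_nonneg _) h1 2
    have h4 := mul_le_mul_of_nonneg_left h3 hμχ
    have h5 : √(μ χ) * √(μ χ) = μ χ := Real.mul_self_sqrt hμχ
    calc μ χ * ‖1 - ((σ * σ' : ℝ) : ℂ) * e χ (g * h)‖ ^ 2
        ≤ μ χ * (‖1 - (σ : ℂ) * e χ g‖ + ‖1 - (σ' : ℂ) * e χ h‖) ^ 2 := h4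
      _ = μ χ * ‖1 - (σ : ℂ) * e χ g‖ ^ 2 + μ χ * ‖1 - (σ' : ℂ) * e χ h‖ ^ 2 +
          2 * (√(μ χ) * ‖1 - (σ : ℂ) * e χ g‖ * (√(μ χ) * ‖1 - (σ' : ℂ) * e χ h‖)) := by
          linear_combination (-2 * ‖1 - (σ : ℂ) * e χ g‖ * ‖1 - (σ' : ℂ) * e χ h‖) * h5
  nlinarith only [hle, hS, hAs, hBs]

theorem NN_mul (hμ : ∀ χ ∈ Ξ, 0 ≤ μ χ) (he1 : ∀ χ g, ‖e χ g‖ = 1) (hem : ∀ χ g h, e χ (g * h) = e χ g * e χ h)
    (g h : G) : NN e Ξ μ (g * h) ≤ NN e Ξ μ g + NN e Ξ μ h := by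
  have hchoose : ∀ g : G, ∃ σ : ℝ, (σ = 1 ∨ σ = -1) ∧ NN e Ξ μ g = √(DD e Ξ μ σ g) := by
    intro g
    rcases min_choice (√(DD e Ξ μ 1 g)) (√(DD e Ξ μ (-1) g)) with h1 | h1
    · exact ⟨1, Or.inl rfl, h1⟩
    · exact ⟨-1, Or.inr rfl, h1⟩
  have hle : ∀ (k : G) (σ : ℝ), (σ = 1 ∨ σ = -1) → NN e Ξ μ k ≤ √(DD e Ξ μ σ k) := by
    intro k σ hσ
    rcases hσ with rfl | rfl
    · exact min_le_left _ _
    · exact min_le_right _ _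
  obtain ⟨σ, hσ, hg⟩ := hchoose g
  obtain ⟨σ', hσ', hh⟩ := hchoose h
  rw [hg, hh]
  refine (hle (g * h) (σ * σ') ?_).trans (DD_mul hμ he1 hem hσ hσ' g h)
  rcases hσ with rfl | rfl <;> rcases hσ' with rfl | rfl <;> norm_num

theorem DD_add (he1 : ∀ χ g, ‖e χ g‖ = 1) (h : G) : DD e Ξ μ 1 h + DD e Ξ μ (-1) h = 4 * ∑ χ ∈ Ξ, μ χ := by
  unfold DD
  rw [← Finset.sum_add_distrib, Finset.mul_sum]
  refine Finset.sum_congr rfl fun χ _ => ?_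
  have h1 := parallelogram_law_with_norm ℝ (1 : ℂ) (e χ h)
  rw [he1, norm_one] at h1
  have h2 : 1 - ((1 : ℝ) : ℂ) * e χ h = 1 - e χ h := by simp
  have h3 : 1 - ((-1 : ℝ) : ℂ) * e χ h = 1 + e χ h := by
    push_cast
    ring
  rw [h2, h3]
  linear_combination (μ χ) * h1

end Pool.Agent.Lib.MP_42948a_nt.TQ
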