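import Pool.Agent.Lib.MP_42948a_nt.TQ.S2

/-!
# Many almost periods (job S3)

Put `A c = ∑_{χ ∈ Ξ} μ χ ‖e χ c - F c θ χ‖^2 ≥ 0`, so `∑_{c ∈ Q} A c ≤ E0` (exchange the sums). For `c, c' ∈ Q` and `σ = F c * F c' = ±1`:
`1 - σ e χ (c⁻¹ * c')` has the norm of `e χ c - σ e χ c'` (multiply by `e χ c`, `e χ c * e χ (c⁻¹ c') = e χ c'`) and
`e χ c - σ e χ c' = (e χ c - F c θ χ) - σ (e χ c' - F c' θ χ)` (as `σ F c' = F c`), so its square norm is `≤ 2 (‖..‖^2 + ‖..‖^2)`. Hence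
`NN (c⁻¹ c')^2 ≤ DD σ (c⁻¹ c') ≤ 2 (A c + A c')` (`NN ≤ √(DD σ)`, both nonnegative) and
`∑_{c ∈ Q} ∑_{c' ∈ Q} NN (c⁻¹ c')^2 ≤ 4 #Q E0`. As `Q` is nonempty some `c ∈ Q` has `∑_{c' ∈ Q} NN (c⁻¹ c')^2 ≤ 4 E0`
(`Finset.exists_le_of_sum_le`-like), and `r0^2 * #{c' ∈ Q : r0 < NN (c⁻¹ c')} ≤ 4 E0`.
-/

namespace Pool.Agent.Lib.MP_42948a_nt.TQ

open Finset

open Classical in
theorem almost_periods {G X : Type*} [CommGroup G] (e : X → G → ℂ) (Ξ : Finset X) (μ : X → ℝ) (hμ : ∀ χ ∈ Ξ, 0 ≤ μ χ)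
    (he1 : ∀ χ g, ‖e χ g‖ = 1) (hem : ∀ χ g h, e χ (g * h) = e χ g * e χ h) (Q : Finset G) (hQ : Q.Nonempty)
    (F : G → ℝ) (hF : ∀ c ∈ Q, F c ^ 2 = 1) (θ : X → ℂ) (E0 r0 : ℝ) (hr0 : 0 < r0)
    (hE : ∑ χ ∈ Ξ, μ χ * ∑ c ∈ Q, ‖e χ c - (F c : ℂ) * θ χ‖ ^ 2 ≤ E0) :
    ∃ c ∈ Q, r0 ^ 2 * ((Q.filter (fun c' => r0 < NN e Ξ μ (c⁻¹ * c'))).card : ℝ) ≤ 4 * E0 := by
  set A : G → ℝ := fun c => ∑ χ ∈ Ξ, μ χ * ‖e χ c - (F c : ℂ) * θ χ‖ ^ 2 with hA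
  have hsum : ∑ c ∈ Q, A c ≤ E0 := by
    refine le_trans (le_of_eq ?_) hE
    simp only [hA]
    rw [Finset.sum_comm]
    refine Finset.sum_congr rfl fun χ _ => ?_
    rw [Finset.mul_sum]
  have he_inv : ∀ χ c c', e χ c * e χ (c⁻¹ * c') = e χ c' := by
    intro χ c c'
    rw [← hem, mul_inv_cancel_left]
  have key : ∀ c ∈ Q, ∀ c' ∈ Q, NN e Ξ μ (c⁻¹ * c') ^ 2 ≤ 2 * (A c + A c') := by
    intro c hc c' hc'
    have hFc := hF c hc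
    have hFc' := hF c' hc'
    have hσ : F c * F c' = 1 ∨ F c * F c' = -1 := by
      have h2 : (F c * F c') ^ 2 = 1 := by rw [mul_pow, hFc, hFc']; ring
      exact sq_eq_one_iff.mp h2
    have hDD : DD e Ξ μ (F c * F c') (c⁻¹ * c') ≤ 2 * (A c + A c') := by
      simp only [DD, hA]
      rw [← Finset.sum_add_distrib, Finset.mul_sum]
      refine Finset.sum_le_sum fun χ hχ => ?_
      have e1 : ‖1 - ((F c * F c' : ℝ) : ℂ) * e χ (c⁻¹ * c')‖ = ‖e χ c - ((F c * F c' : ℝ) : ℂ) * e χ c'‖ := by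
        have h3 : e χ c - ((F c * F c' : ℝ) : ℂ) * e χ c' =
            e χ c * (1 - ((F c * F c' : ℝ) : ℂ) * e χ (c⁻¹ * c')) := by
          rw [← he_inv χ c c']; ring
        rw [h3, norm_mul, he1, one_mul]
      have e2 : e χ c - ((F c * F c' : ℝ) : ℂ) * e χ c' =
          (e χ c - (F c : ℂ) * θ χ) - ((F c * F c' : ℝ) : ℂ) * (e χ c' - (F c' : ℂ) * θ χ) := by
        have h4 : (F c' : ℂ) ^ 2 = 1 := by exact_mod_cast hFc'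
        push_cast
        linear_combination (-(F c : ℂ) * θ χ) * h4
      have hn : ‖((F c * F c' : ℝ) : ℂ)‖ = 1 := by
        rcases hσ with h | h <;> rw [h] <;> simp
      have e3 : ‖e χ c - ((F c * F c' : ℝ) : ℂ) * e χ c'‖ ≤
          ‖e χ c - (F c : ℂ) * θ χ‖ + ‖e χ c' - (F c' : ℂ) * θ χ‖ := by
        rw [e2]
        refine (norm_sub_le _ _).trans ?_
        rw [norm_mul, hn, one_mul]
      have e4 : ‖e χ c - ((F c * F c' : ℝ) : ℂ) * e χ c'‖ ^ 2 ≤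
          2 * (‖e χ c - (F c : ℂ) * θ χ‖ ^ 2 + ‖e χ c' - (F c' : ℂ) * θ χ‖ ^ 2) := by
        have h5 := norm_nonneg (e χ c - ((F c * F c' : ℝ) : ℂ) * e χ c')
        nlinarith [sq_nonneg (‖e χ c - (F c : ℂ) * θ χ‖ - ‖e χ c' - (F c' : ℂ) * θ χ‖)]
      rw [e1]
      calc μ χ * ‖e χ c - ((F c * F c' : ℝ) : ℂ) * e χ c'‖ ^ 2
          ≤ μ χ * (2 * (‖e χ c - (F c : ℂ) * θ χ‖ ^ 2 + ‖e χ c' - (F c' : ℂ) * θ χ‖ ^ 2)) :=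
            mul_le_mul_of_nonneg_left e4 (hμ χ hχ)
        _ = _ := by ring
    refine le_trans ?_ hDD
    have h0 : 0 ≤ DD e Ξ μ (F c * F c') (c⁻¹ * c') := DD_nonneg hμ _ _
    have h1 : NN e Ξ μ (c⁻¹ * c') ≤ √(DD e Ξ μ (F c * F c') (c⁻¹ * c')) := by
      rcases hσ with h | h
      · rw [h]; exact min_le_left _ _
      · rw [h]; exact min_le_right _ _
    calc NN e Ξ μ (c⁻¹ * c') ^ 2 ≤ √(DD e Ξ μ (F c * F c') (c⁻¹ * c')) ^ 2 :=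
          pow_le_pow_left₀ (NN_nonneg _) h1 2
      _ = _ := Real.sq_sqrt h0
  have htot : ∑ c ∈ Q, ∑ c' ∈ Q, NN e Ξ μ (c⁻¹ * c') ^ 2 ≤ ∑ _c ∈ Q, 4 * E0 := by
    calc ∑ c ∈ Q, ∑ c' ∈ Q, NN e Ξ μ (c⁻¹ * c') ^ 2
        ≤ ∑ c ∈ Q, ∑ c' ∈ Q, 2 * (A c + A c') :=
          Finset.sum_le_sum fun c hc => Finset.sum_le_sum fun c' hc' => key c hc c' hc'
      _ = 4 * (Q.card : ℝ) * ∑ c ∈ Q, A c := by
          simp only [mul_add, Finset.sum_add_distrib, Finset.sum_const, nsmul_eq_mul, ← Finset.mul_sum]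
          ring
      _ ≤ 4 * (Q.card : ℝ) * E0 := mul_le_mul_of_nonneg_left hsum (by positivity)
      _ = _ := by rw [Finset.sum_const, nsmul_eq_mul]; ring
  obtain ⟨c, hc, hle⟩ := Finset.exists_le_of_sum_le hQ htot
  refine ⟨c, hc, le_trans ?_ hle⟩
  calc r0 ^ 2 * ((Q.filter (fun c' => r0 < NN e Ξ μ (c⁻¹ * c'))).card : ℝ)
      = ∑ _c' ∈ Q.filter (fun c' => r0 < NN e Ξ μ (c⁻¹ * c')), r0 ^ 2 := by
        rw [Finset.sum_const, nsmul_eq_mul]; ring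
    _ ≤ ∑ c' ∈ Q.filter (fun c' => r0 < NN e Ξ μ (c⁻¹ * c')), NN e Ξ μ (c⁻¹ * c') ^ 2 := by
        refine Finset.sum_le_sum fun c' hc' => ?_
        exact pow_le_pow_left₀ hr0.le (Finset.mem_filter.mp hc').2.le 2
    _ ≤ ∑ c' ∈ Q, NN e Ξ μ (c⁻¹ * c') ^ 2 :=
        Finset.sum_le_sum_of_subset_of_nonneg (Finset.filter_subset _ _) fun _ _ _ => sq_nonneg _

end Pool.Agent.Lib.MP_42948a_nt.TQ
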