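import Pool.Agent.Lib.MP_42948a_nt.TQ.S2

/-!
# The sign character of a group of almost periods (job S4)

For `h ∈ H`: `NN h ≤ r`, so `√(DD σ h) ≤ r`, i.e. `DD σ h ≤ r^2`, for `σ = 1` or `σ = -1`; not for both, since `DD 1 h + DD (-1) h =
4 ∑ μ ≥ 2 > 2 r^2` (`DD_add`; `r ≤ 1/4`). Let `ρ h : ℤˣ` be the sign with `DD (ρ h) h ≤ r^2` (`if DD 1 h ≤ r^2 then 1 else -1`).
Multiplicative: `√(DD (ρ g ρ h) (g h)) ≤ 2 r` (`DD_mul`), so `DD (ρ g ρ h) (g h) ≤ 4 r^2`; if `ρ (g h) ≠ ρ g ρ h` then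
`ρ (g h) = - ρ g ρ h` and `2 ≤ 4 ∑ μ = DD 1 (gh) + DD (-1) (gh) ≤ 5 r^2 ≤ 5/16`, a contradiction.
`MonoidHom.mk'` gives the homomorphism. Mass of the bad characters: let `χ ∈ Ξ` and `h1 ∈ H` with `e χ h1 ≠ ρ h1`. The function
`f h = ρ h * e χ h` on `H` is multiplicative with `f h1 ≠ 1` (`ρ = ±1`), so `∑_{h ∈ H} f h = 0` (replace `h` by `h1 h`), and
`∑_{h ∈ H} ‖1 - ρ h e χ h‖^2 = 2 #H - 2 Re ∑ f = 2 #H` (`‖f h‖ = 1`). Hence
`2 #H * (mass of the bad χ) ≤ ∑_{h ∈ H} DD (ρ h) h ≤ r^2 #H` (the other terms are `≥ 0`), so the mass is `≤ r^2 / 2 ≤ r^2`.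
-/

namespace Pool.Agent.Lib.MP_42948a_nt.TQ

open Finset

private theorem S4_norm (w : ℂ) (hw : ‖w‖ = 1) : ‖1 - w‖ ^ 2 = 2 - 2 * w.re := by
  have h1 : w.re * w.re + w.im * w.im = 1 := by
    rw [← Complex.normSq_apply, ← Complex.sq_norm, hw, one_pow]
  rw [Complex.sq_norm, Complex.normSq_apply]
  simp only [Complex.sub_re, Complex.sub_im, Complex.one_re, Complex.one_im]
  linarith

private theorem S4_unit (u : ℤˣ) : (((u : ℤˣ) : ℤ) : ℂ) = 1 ∨ (((u : ℤˣ) : ℤ) : ℂ) = -1 := by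
  rcases Int.units_eq_one_or u with h | h
  · left; rw [h]; simp
  · right; rw [h]; simp

private theorem S4_sum {H : Type*} [Group H] [Fintype H] (f : H → ℂ) (hm : ∀ g h, f (g * h) = f g * f h)
    (h1 : H) (hne : f h1 ≠ 1) : ∑ h, f h = 0 := by
  have h2 : ∑ h, f h = f h1 * ∑ h, f h := by
    rw [Finset.mul_sum]
    exact (Fintype.sum_equiv (Equiv.mulLeft h1) _ _ fun h => (hm h1 h).symm).symm
  have h3 : (1 - f h1) * ∑ h, f h = 0 := by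
    rw [sub_mul, one_mul, ← h2, sub_self]
  rcases mul_eq_zero.1 h3 with h4 | h4
  · exact absurd (sub_eq_zero.1 h4).symm hne
  · exact h4

open Classical in
theorem sign_hom {G X : Type*} [CommGroup G] [Fintype G] (e : X → G → ℂ) (Ξ : Finset X) (μ : X → ℝ) (hμ : ∀ χ ∈ Ξ, 0 ≤ μ χ)
    (he1 : ∀ χ g, ‖e χ g‖ = 1) (hem : ∀ χ g h, e χ (g * h) = e χ g * e χ h) (hμ1 : 1 / 2 ≤ ∑ χ ∈ Ξ, μ χ)
    (r : ℝ) (hr0 : 0 ≤ r) (hr : r ≤ 1 / 4) (H : Subgroup G) (hH : ∀ g ∈ H, NN e Ξ μ g ≤ r) :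
    ∃ ρ : H →* ℤˣ, ∑ χ ∈ Ξ.filter (fun χ => ∃ h : H, e χ (h : G) ≠ (((ρ h : ℤˣ) : ℤ) : ℂ)), μ χ ≤ r ^ 2 := by
  have hD2 : ∀ g : G, 2 ≤ DD e Ξ μ 1 g + DD e Ξ μ (-1) g := by
    intro g
    rw [DD_add he1 g]
    linarith
  let s : G → ℤˣ := fun h => if DD e Ξ μ 1 h ≤ r ^ 2 then 1 else -1
  have hs : ∀ h ∈ H, DD e Ξ μ (((s h : ℤˣ) : ℤ) : ℝ) h ≤ r ^ 2 := by
    intro h hh
    have h1 := hH h hh
    rw [NN, min_le_iff, Real.sqrt_le_iff, Real.sqrt_le_iff] at h1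
    by_cases h2 : DD e Ξ μ 1 h ≤ r ^ 2
    · have h3 : s h = 1 := if_pos h2
      rw [h3]
      simpa using h2
    · have h3 : s h = -1 := if_neg h2
      rw [h3]
      rcases h1 with h1 | h1
      · exact absurd h1.2 h2
      · simpa using h1.2
  have hsq : ∀ u : ℤˣ, (((u : ℤˣ) : ℤ) : ℝ) = 1 ∨ (((u : ℤˣ) : ℤ) : ℝ) = -1 := by
    intro u
    rcases Int.units_eq_one_or u with h | h
    · left; rw [h]; simp
    · right; rw [h]; simp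
  have hmul : ∀ g ∈ H, ∀ h ∈ H, s (g * h) = s g * s h := by
    intro g hg h hh
    by_contra hne
    have h1 := hs g hg
    have h2 := hs h hh
    have h3 := hs (g * h) (H.mul_mem hg hh)
    have h4 := DD_mul (e := e) (Ξ := Ξ) (μ := μ) hμ he1 hem (hsq (s g)) (hsq (s h)) g h
    have h5 : √(DD e Ξ μ (((s g : ℤˣ) : ℤ) : ℝ) g) ≤ r := Real.sqrt_le_iff.2 ⟨hr0, h1⟩
    have h6 : √(DD e Ξ μ (((s h : ℤˣ) : ℤ) : ℝ) h) ≤ r := Real.sqrt_le_iff.2 ⟨hr0, h2⟩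
    have h7 : √(DD e Ξ μ ((((s g : ℤˣ) : ℤ) : ℝ) * (((s h : ℤˣ) : ℤ) : ℝ)) (g * h)) ≤ 2 * r := by
      linarith
    have h8 := (Real.sqrt_le_iff.1 h7).2
    have h9 : ((((s g : ℤˣ) : ℤ) : ℝ) * (((s h : ℤˣ) : ℤ) : ℝ))
        = (((s g * s h : ℤˣ) : ℤ) : ℝ) := by push_cast; rfl
    rw [h9] at h8
    have h10 := hD2 (g * h)
    have h11 : r ^ 2 ≤ 1 / 16 := by nlinarith
    generalize s (g * h) = u at hne h3
    generalize s g * s h = v at hne h8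
    rcases Int.units_eq_one_or u with hu | hu <;> rcases Int.units_eq_one_or v with hv | hv
    · exact hne (hu.trans hv.symm)
    · rw [hu] at h3; rw [hv] at h8
      simp only [Units.val_one, Int.cast_one, Units.val_neg, Int.cast_neg] at h3 h8
      nlinarith
    · rw [hu] at h3; rw [hv] at h8
      simp only [Units.val_one, Int.cast_one, Units.val_neg, Int.cast_neg] at h3 h8
      nlinarith
    · exact hne (hu.trans hv.symm)
  let ρ : H →* ℤˣ := MonoidHom.mk' (fun h : H => s (h : G)) fun g h => hmul g g.2 h h.2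
  refine ⟨ρ, ?_⟩
  have hFin : Fintype H := Fintype.ofFinite H
  have hcard : (0 : ℝ) < Fintype.card H := Nat.cast_pos.2 Fintype.card_pos
  have hbad : ∀ χ ∈ Ξ.filter (fun χ => ∃ h : H, e χ (h : G) ≠ (((ρ h : ℤˣ) : ℤ) : ℂ)),
      ∑ h : H, ‖1 - (((ρ h : ℤˣ) : ℤ) : ℂ) * e χ (h : G)‖ ^ 2 = 2 * Fintype.card H := by
    intro χ hχ
    obtain ⟨h1, hne⟩ := (Finset.mem_filter.1 hχ).2
    have hsum := S4_sum (fun h : H => (((ρ h : ℤˣ) : ℤ) : ℂ) * e χ (h : G)) (fun g h => by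
      rw [map_mul, Subgroup.coe_mul, hem, Units.val_mul, Int.cast_mul]
      ring) h1 (by
        intro h0
        apply hne
        rcases S4_unit (ρ h1) with h2 | h2
        · rw [h2, one_mul] at h0
          rw [h0, h2]
        · rw [h2] at h0
          rw [h2]
          linear_combination -h0)
    have h3 : ∀ h : H, ‖1 - (((ρ h : ℤˣ) : ℤ) : ℂ) * e χ (h : G)‖ ^ 2
        = 2 - 2 * ((((ρ h : ℤˣ) : ℤ) : ℂ) * e χ (h : G)).re := by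
      intro h
      apply S4_norm
      rw [norm_mul, he1, mul_one]
      rcases S4_unit (ρ h) with h2 | h2 <;> rw [h2] <;> simp
    rw [Finset.sum_congr rfl fun h _ => h3 h, Finset.sum_sub_distrib, ← Finset.mul_sum,
      ← Complex.re_sum, hsum]
    simp
    ring
  have hkey : 2 * (Fintype.card H : ℝ)
      * ∑ χ ∈ Ξ.filter (fun χ => ∃ h : H, e χ (h : G) ≠ (((ρ h : ℤˣ) : ℤ) : ℂ)), μ χ
      ≤ (Fintype.card H : ℝ) * r ^ 2 := by
    calc 2 * (Fintype.card H : ℝ)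
        * ∑ χ ∈ Ξ.filter (fun χ => ∃ h : H, e χ (h : G) ≠ (((ρ h : ℤˣ) : ℤ) : ℂ)), μ χ
        = ∑ χ ∈ Ξ.filter (fun χ => ∃ h : H, e χ (h : G) ≠ (((ρ h : ℤˣ) : ℤ) : ℂ)),
          μ χ * ∑ h : H, ‖1 - (((ρ h : ℤˣ) : ℤ) : ℂ) * e χ (h : G)‖ ^ 2 := by
          rw [Finset.mul_sum]
          refine Finset.sum_congr rfl fun χ hχ => ?_
          rw [hbad χ hχ]
          ring
      _ ≤ ∑ χ ∈ Ξ, μ χ * ∑ h : H, ‖1 - (((ρ h : ℤˣ) : ℤ) : ℂ) * e χ (h : G)‖ ^ 2 :=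
          Finset.sum_le_sum_of_subset_of_nonneg (Finset.filter_subset _ _) fun χ hχ _ =>
            mul_nonneg (hμ χ hχ) (Finset.sum_nonneg fun h _ => sq_nonneg _)
      _ = ∑ h : H, DD e Ξ μ (((s (h : G) : ℤˣ) : ℤ) : ℝ) (h : G) := by
          simp only [Finset.mul_sum]
          rw [Finset.sum_comm]
          refine Finset.sum_congr rfl fun h _ => ?_
          rw [DD]
          refine Finset.sum_congr rfl fun χ _ => ?_
          have h1 : (((((s (h : G) : ℤˣ) : ℤ) : ℝ)) : ℂ) = (((ρ h : ℤˣ) : ℤ) : ℂ) := by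
            rw [Complex.ofReal_intCast]
            rfl
          rw [h1]
      _ ≤ ∑ _h : H, r ^ 2 := Finset.sum_le_sum fun h _ => hs h h.2
      _ = (Fintype.card H : ℝ) * r ^ 2 := by
          rw [Finset.sum_const, Finset.card_univ, nsmul_eq_mul]
  have h12 : 2 * ∑ χ ∈ Ξ.filter (fun χ => ∃ h : H, e χ (h : G) ≠ (((ρ h : ℤˣ) : ℤ) : ℂ)), μ χ
      ≤ r ^ 2 := by
    have h13 : (Fintype.card H : ℝ) * (2 * ∑ χ ∈ Ξ.filter
        (fun χ => ∃ h : H, e χ (h : G) ≠ (((ρ h : ℤˣ) : ℤ) : ℂ)), μ χ)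
        ≤ (Fintype.card H : ℝ) * r ^ 2 := by
      linarith
    exact le_of_mul_le_mul_left h13 hcard
  have h14 : 0 ≤ ∑ χ ∈ Ξ.filter (fun χ => ∃ h : H, e χ (h : G) ≠ (((ρ h : ℤˣ) : ℤ) : ℂ)), μ χ :=
    Finset.sum_nonneg fun χ hχ => hμ χ (Finset.mem_filter.1 hχ).1
  have h15 : ∑ χ ∈ Ξ.filter (fun χ => ∃ h : H, e χ (h : G) ≠ (((ρ h : ℤˣ) : ℤ) : ℂ)), μ χ
      ≤ r ^ 2 := by
    linarith
  convert h15

end Pool.Agent.Lib.MP_42948a_nt.TQ
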