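import Pool.Agent.Lib.MP_42948a_nt.TQ.S1
import Pool.Agent.Lib.MP_42948a_nt.TQ.S3
import Pool.Agent.Lib.MP_42948a_nt.TQ.S4

/-!
# Structure of the support (job S5)

`Q` is nonempty (`δ card G ≤ #Q`, `δ > 0`, `card G > 0`). `almost_periods` gives `c0 ∈ Q` with
`#{c' ∈ Q : r0 < NN (c0⁻¹ c')} ≤ 4 E0 / r0^2 ≤ (δ/2) card G` (`h8`). The map `c' ↦ c0⁻¹ c'` is injective, so
`#{g : NN g ≤ r0} ≥ #Q - (δ/2) card G ≥ (δ/2) card G` and `card G < 2^m0 (δ/2) card G ≤ 2^m0 #{NN ≤ r0}` (`hm`). `ball_subgroup` (`NN_one`,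
`NN_inv`, `NN_mul`) gives `r ∈ [r0, 5^m0 r0]` and `H = {NN ≤ r}`; `{c ∈ Q : c0⁻¹ c ∉ H} ⊆ {c ∈ Q : r0 < NN (c0⁻¹ c)}`. `sign_hom` for `H`
(`r ≤ 5^m0 r0 ≤ 1/4`) gives `ρ`, and `r^2 ≤ (5^m0 r0)^2`.
-/

namespace Pool.Agent.Lib.MP_42948a_nt.TQ

open Finset

open Classical in
theorem structure_abs {G X : Type*} [CommGroup G] [Fintype G] (e : X → G → ℂ) (Ξ : Finset X) (μ : X → ℝ)
    (hμ : ∀ χ ∈ Ξ, 0 ≤ μ χ) (he1 : ∀ χ g, ‖e χ g‖ = 1) (hem : ∀ χ g h, e χ (g * h) = e χ g * e χ h)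
    (hμ1 : 1 / 2 ≤ ∑ χ ∈ Ξ, μ χ) (Q : Finset G) (F : G → ℝ) (hF : ∀ c ∈ Q, F c ^ 2 = 1) (θ : X → ℂ)
    (E0 δ r0 : ℝ) (m0 : ℕ) (hδ : 0 < δ) (hr0 : 0 < r0)
    (hE : ∑ χ ∈ Ξ, μ χ * ∑ c ∈ Q, ‖e χ c - (F c : ℂ) * θ χ‖ ^ 2 ≤ E0)
    (hQ : δ * (Fintype.card G : ℝ) ≤ (Q.card : ℝ)) (hm : 2 < 2 ^ m0 * δ) (hr : 5 ^ m0 * r0 ≤ 1 / 4)
    (h8 : 8 * E0 ≤ δ * r0 ^ 2 * (Fintype.card G : ℝ)) :
    ∃ (H : Subgroup G) (ρ : H →* ℤˣ) (c0 : G), c0 ∈ Q ∧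
      ((Q.filter (fun c => c0⁻¹ * c ∉ H)).card : ℝ) ≤ δ / 2 * (Fintype.card G : ℝ) ∧
      ∑ χ ∈ Ξ.filter (fun χ => ∃ h : H, e χ (h : G) ≠ (((ρ h : ℤˣ) : ℤ) : ℂ)), μ χ ≤ (5 ^ m0 * r0) ^ 2 := by
  have hG : (0 : ℝ) < (Fintype.card G : ℝ) := by
    have : 0 < Fintype.card G := Fintype.card_pos
    exact_mod_cast this
  have hQne : Q.Nonempty := by
    rw [← card_pos]
    have h1 : (0 : ℝ) < (Q.card : ℝ) := lt_of_lt_of_le (mul_pos hδ hG) hQ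
    exact_mod_cast h1
  obtain ⟨c0, hc0, hper⟩ := almost_periods e Ξ μ hμ he1 hem Q hQne F hF θ E0 r0 hr0 hE
  set B : Finset G := Q.filter (fun c' => r0 < NN e Ξ μ (c0⁻¹ * c')) with hB
  have hr02 : 0 < r0 ^ 2 := by positivity
  have hBcard : (B.card : ℝ) ≤ δ / 2 * (Fintype.card G : ℝ) := by
    have h2 : r0 ^ 2 * (B.card : ℝ) ≤ r0 ^ 2 * (δ / 2 * (Fintype.card G : ℝ)) := by
      linarith
    exact le_of_mul_le_mul_left h2 hr02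
  have hsplit : Q.card = (Q.filter (fun c' => NN e Ξ μ (c0⁻¹ * c') ≤ r0)).card + B.card := by
    have h3 := card_filter_add_card_filter_not (s := Q) (fun c' => NN e Ξ μ (c0⁻¹ * c') ≤ r0)
    rw [← h3, hB]
    congr 2
    apply filter_congr
    intro x _
    exact not_le
  have hinj : (Q.filter (fun c' => NN e Ξ μ (c0⁻¹ * c') ≤ r0)).card ≤
      (univ.filter (fun g : G => NN e Ξ μ g ≤ r0)).card := by
    apply card_le_card_of_injOn (fun c => c0⁻¹ * c)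
    · intro c hc
      have h4 := (mem_filter.1 hc).2
      exact mem_filter.2 ⟨mem_univ _, h4⟩
    · intro a _ b _ hab
      exact mul_left_cancel hab
  have hball : Fintype.card G < 2 ^ m0 * (univ.filter (fun g : G => NN e Ξ μ g ≤ r0)).card := by
    have h5 : (Q.card : ℝ) ≤ ((univ.filter (fun g : G => NN e Ξ μ g ≤ r0)).card : ℝ) + (B.card : ℝ) := by
      have : Q.card ≤ (univ.filter (fun g : G => NN e Ξ μ g ≤ r0)).card + B.card := by omega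
      exact_mod_cast this
    have h6 : δ / 2 * (Fintype.card G : ℝ) ≤ ((univ.filter (fun g : G => NN e Ξ μ g ≤ r0)).card : ℝ) := by
      linarith
    have h7 : (Fintype.card G : ℝ) < 2 ^ m0 * ((univ.filter (fun g : G => NN e Ξ μ g ≤ r0)).card : ℝ) := by
      calc (Fintype.card G : ℝ) < (2 ^ m0 * δ) / 2 * (Fintype.card G : ℝ) := by
            have h9 : (1 : ℝ) < (2 ^ m0 * δ) / 2 := by linarith
            have h10 := mul_lt_mul_of_pos_right h9 hG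
            linarith
        _ = 2 ^ m0 * (δ / 2 * (Fintype.card G : ℝ)) := by ring
        _ ≤ _ := mul_le_mul_of_nonneg_left h6 (by positivity)
    exact_mod_cast h7
  obtain ⟨r, H, hr1, hr2, hH⟩ := ball_subgroup (NN e Ξ μ) (NN_one he1 hem) (NN_inv he1 hem) (NN_mul hμ he1 hem) r0 hr0 m0 hball
  obtain ⟨ρ, hρ⟩ := sign_hom e Ξ μ hμ he1 hem hμ1 r (by linarith) (by linarith) H (fun g hg => (hH g).1 hg)
  refine ⟨H, ρ, c0, hc0, ?_, ?_⟩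
  · refine le_trans ?_ hBcard
    have h11 : (Q.filter (fun c => c0⁻¹ * c ∉ H)).card ≤ B.card := by
      apply card_le_card
      intro c hc
      obtain ⟨h12, h13⟩ := mem_filter.1 hc
      refine mem_filter.2 ⟨h12, ?_⟩
      by_contra h14
      exact h13 ((hH _).2 (le_trans (not_lt.1 h14) hr1))
    exact_mod_cast h11
  · refine hρ.trans ?_
    exact pow_le_pow_left₀ (by linarith) hr2 2

end Pool.Agent.Lib.MP_42948a_nt.TQ
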