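import Pool.Agent.Lib.MP_42948a_nt.TQ.Z9

/-!
# Three quarters of the classes (job Z10)

Apply `quarter` with `min ε 1`, `min δ 1`. Let `σ = 1` if `s = 0` and `σ = -1` if `s = 1`; `lio n = σ` iff `Ω(n) % 2 = s` (`lio n = (-1)^Ω(n)`). For a unit
`x`, if no rough `n ≤ X = ⌊d^(1 + min ε 1)⌋` of class `x` has `lio n = σ`, then (by `Full` and `lio_val`) `att d z X (-σ) x` holds and `att d z X σ x` does not, so
`FX d z X x = -σ`. Hence the number of units `x` with a rough `n ≤ X` of class `x`, `Ω(n) % 2 = s`, is `≥ φ - (1/4 + min δ 1) φ ≥ (3/4 - δ) φ`.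
Every such unit `x` gives `a = (x : ZMod d).val ∈ range d`, coprime to `d` (`ZMod.val_coe_unit_coprime`), in the set of the claim: `n ≡ a [MOD d]`
(`ZMod.natCast_eq_natCast_iff`, `ZMod.natCast_zmod_val`), `n ≤ X` gives `(n : ℝ) ≤ d^(1 + min ε 1) ≤ d^(1+ε)`, `⌊d^c⌋ < p` gives `d^c < p` (`Nat.lt_of_floor_lt`).
The map `x ↦ a` is injective (`ZMod.val_injective`, `Units.ext`); `Fintype.card (ZMod d)ˣ = φ(d)` (`ZMod.card_units_eq_totient`).
-/

namespace Pool.Agent.Lib.MP_42948a_nt.TQ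

open Finset Pool.Agent.Lib.MP_42948a_nt.OA Pool.Agent.Lib.MP_42948a_nt.AC

theorem Z10_lio {n s : ℕ} (hs : s < 2) (h : lio n = (-1 : ℝ) ^ s) :
    ArithmeticFunction.cardFactors n % 2 = s := by
  unfold lio at h
  rcases Nat.even_or_odd (ArithmeticFunction.cardFactors n) with h1 | h1
  · rw [h1.neg_one_pow] at h
    have h2 : s = 0 := by
      by_contra hne
      have : s = 1 := by omega
      rw [this] at h
      norm_num at h
    rw [h2]
    exact Nat.even_iff.1 h1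
  · rw [h1.neg_one_pow] at h
    have h2 : s = 1 := by
      by_contra hne
      have : s = 0 := by omega
      rw [this] at h
      norm_num at h
    rw [h2]
    exact Nat.odd_iff.1 h1

open Classical in
theorem three_quarters (ε δ : ℝ) (hε : 0 < ε) (hδ : 0 < δ) : ∃ c : ℝ, 0 < c ∧ ∃ d₀ : ℕ, ∀ d : ℕ, d₀ ≤ d →
    ∀ s : ℕ, s < 2 → (3 / 4 - δ) * (d.totient : ℝ) ≤
      (((Finset.range d).filter (fun a : ℕ => a.Coprime d ∧ ∃ n : ℕ, 0 < n ∧ (n : ℝ) ≤ (d : ℝ) ^ (1 + ε) ∧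
        n ≡ a [MOD d] ∧ (∀ p : ℕ, p.Prime → p ∣ n → (d : ℝ) ^ c < p) ∧
        ArithmeticFunction.cardFactors n % 2 = s)).card : ℝ) := by
  obtain ⟨c, hc, d0, H⟩ := quarter (min ε 1) (min δ 1) (lt_min hε one_pos) (min_le_right _ _)
    (lt_min hδ one_pos) (min_le_right _ _)
  refine ⟨c, hc, max d0 1, fun d hd s hs => ?_⟩
  have hd1 : 1 ≤ d := le_trans (le_max_right _ _) hd
  have hne : NeZero d := ⟨by omega⟩
  obtain ⟨hfull, hq⟩ := H d (le_trans (le_max_left _ _) hd)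
  set z := ⌊(d : ℝ) ^ c⌋₊ with hz
  set X := ⌊(d : ℝ) ^ (1 + min ε 1)⌋₊ with hX
  set σ : ℝ := (-1 : ℝ) ^ s with hσ
  have hσ1 : σ = 1 ∨ σ = -1 := neg_one_pow_eq_or ℝ s
  have hdR : (1 : ℝ) ≤ d := by exact_mod_cast hd1
  -- claim 1
  have h1 : ((univ : Finset (ZMod d)ˣ).filter (fun x => ¬ att d z X σ x)) ⊆
      (univ : Finset (ZMod d)ˣ).filter (fun x => FX d z X x = -σ) := by
    intro x hx
    have hx' := (mem_filter.1 hx).2
    refine mem_filter.2 ⟨mem_univ _, ?_⟩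
    obtain ⟨n, hn1, hn2, hn3⟩ := hfull x
    have hval := lio_val n
    unfold FX
    rcases hσ1 with h | h
    · rw [h] at hx' ⊢
      have h2 : lio n = -1 := by
        rcases hval with h3 | h3
        · exact absurd ⟨n, hn1, hn2, hn3, h3⟩ hx'
        · exact h3
      rw [if_neg hx', if_pos ⟨n, hn1, hn2, hn3, h2⟩]
      ring
    · rw [h] at hx' ⊢
      have h2 : lio n = 1 := by
        rcases hval with h3 | h3
        · exact h3
        · exact absurd ⟨n, hn1, hn2, hn3, h3⟩ hx'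
      rw [if_neg hx', if_pos ⟨n, hn1, hn2, hn3, h2⟩]
      ring
  have h2 : (((univ : Finset (ZMod d)ˣ).filter (fun x => ¬ att d z X σ x)).card : ℝ) ≤
      (1 / 4 + min δ 1) * (Fintype.card (ZMod d)ˣ : ℝ) := by
    refine le_trans (by exact_mod_cast card_le_card h1) (hq (-σ) ?_)
    rcases hσ1 with h | h
    · right; rw [h]
    · left; rw [h]; ring
  have h3 : ((univ : Finset (ZMod d)ˣ).filter (fun x => att d z X σ x)).card +
      ((univ : Finset (ZMod d)ˣ).filter (fun x => ¬ att d z X σ x)).card = Fintype.card (ZMod d)ˣ := by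
    rw [Finset.card_filter_add_card_filter_not, Finset.card_univ]
  have h3' : (((univ : Finset (ZMod d)ˣ).filter (fun x => att d z X σ x)).card : ℝ) +
      (((univ : Finset (ZMod d)ˣ).filter (fun x => ¬ att d z X σ x)).card : ℝ) =
      (Fintype.card (ZMod d)ˣ : ℝ) := by exact_mod_cast h3
  -- claim 2
  have h4 : ((univ : Finset (ZMod d)ˣ).filter (fun x => att d z X σ x)).card ≤
      ((Finset.range d).filter (fun a : ℕ => a.Coprime d ∧ ∃ n : ℕ, 0 < n ∧ (n : ℝ) ≤ (d : ℝ) ^ (1 + ε) ∧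
        n ≡ a [MOD d] ∧ (∀ p : ℕ, p.Prime → p ∣ n → (d : ℝ) ^ c < p) ∧
        ArithmeticFunction.cardFactors n % 2 = s)).card := by
    refine Finset.card_le_card_of_injOn (fun x : (ZMod d)ˣ => (x : ZMod d).val) ?_ ?_
    · intro x hx
      obtain ⟨n, hn1, hn2, hn3, hn4⟩ := (mem_filter.1 hx).2
      refine mem_coe.2 (mem_filter.2 ⟨mem_range.2 (ZMod.val_lt _), ZMod.val_coe_unit_coprime x,
        n, hn1.pos, ?_, ?_, ?_, Z10_lio hs hn4⟩)
      · have e1 : (n : ℝ) ≤ (d : ℝ) ^ (1 + min ε 1) :=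
          (Nat.le_floor_iff (by positivity)).1 hn2
        refine e1.trans (Real.rpow_le_rpow_of_exponent_le hdR ?_)
        have := min_le_left ε 1
        linarith
      · rw [← ZMod.natCast_eq_natCast_iff, ZMod.natCast_zmod_val]
        exact hn3
      · intro p hp hpn
        exact Nat.lt_of_floor_lt (hn1.2 p hp hpn)
    · intro x _ y _ hxy
      exact Units.ext (ZMod.val_injective d hxy)
  have h4' : (((univ : Finset (ZMod d)ˣ).filter (fun x => att d z X σ x)).card : ℝ) ≤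
      ((((Finset.range d).filter (fun a : ℕ => a.Coprime d ∧ ∃ n : ℕ, 0 < n ∧ (n : ℝ) ≤ (d : ℝ) ^ (1 + ε) ∧
        n ≡ a [MOD d] ∧ (∀ p : ℕ, p.Prime → p ∣ n → (d : ℝ) ^ c < p) ∧
        ArithmeticFunction.cardFactors n % 2 = s)).card : ℕ) : ℝ) := by exact_mod_cast h4
  have h5 : (d.totient : ℝ) = (Fintype.card (ZMod d)ˣ : ℝ) := by
    rw [ZMod.card_units_eq_totient]
  rw [h5]
  refine le_trans ?_ h4'
  have h6 : min δ 1 ≤ δ := min_le_left _ _
  have h7 : (0 : ℝ) ≤ (Fintype.card (ZMod d)ˣ : ℝ) := Nat.cast_nonneg _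
  have h8 : min δ 1 * (Fintype.card (ZMod d)ˣ : ℝ) ≤ δ * (Fintype.card (ZMod d)ˣ : ℝ) :=
    mul_le_mul_of_nonneg_right h6 h7
  linarith

end Pool.Agent.Lib.MP_42948a_nt.TQ
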