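import Pool.Agent.Lib.MP_42948a_nt.TQ.A4
import Pool.Agent.Lib.MP_42948a_nt.TQ.Z1
import Pool.Agent.Lib.MP_42948a_nt.OA.ZA

/-!
# Numerics for the pair count and for Bessel's inequality (job Z2)

`z = ⌊d^c⌋`, `c (3K+4) = η/16`, so `c ≤ η/64`, `K c ≤ η/48`, `z^(2K) ≤ d^(η/24)`, `z^2 ≤ d^(η/32)`; `N = ⌊d^(1/2+256η)⌋ ≥ d^(1/2+256η)/2`, `N ≤ d`.
`VV_ge`: `VV ≥ 1/(2 z^2) ≥ d^(-η/32)/2` (`2 ≤ z` by `num_E1`). `phi_lower η`: `φ ≥ d^(1-η)`.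
`num_pair`: the left side is `≤ d^(η/24) * 18 (log2 N + 2)^2 N^2 d^η ≤ N^2 d^(3η)` for large `d`. The right side is
`≥ τ^2 (N d^(-64η) N d^(-1) d^(-η/32)/2)^2 d^(1-η) = (τ^2/4) N^4 d^(-128η - 1 - η/16 - η) ≥ (τ^2/16) N^2 d^(512η - 130η)`
(`N^2 ≥ d^(1+512η)/4`), which is `≥ N^2 d^(3η)` for large `d`.
`num_bessel`: the left side is `≤ 3 d^η d^(η/48) d^(1/2+η) ≤ d^(1/2 + 4η)` for large `d` (`BB_le η`); the right side is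
`≥ (τ/20) (d^(-η/32)/2) d^(-η) d^(1/2+256η)/2 ≥ d^(1/2+4η)` for large `d`.
-/

namespace Pool.Agent.Lib.MP_42948a_nt.TQ

open Finset Pool.Agent.Lib.MP_42948a_nt.OA Pool.Agent.Lib.MP_42948a_nt.AC

private theorem Z2_pow (x c : ℝ) (hx : 1 ≤ x) (n : ℕ) (e : ℝ) (h : c * n ≤ e) :
    ((⌊x ^ c⌋₊ : ℕ) : ℝ) ^ n ≤ x ^ e := by
  have hx0 : (0 : ℝ) ≤ x := by linarith
  calc ((⌊x ^ c⌋₊ : ℕ) : ℝ) ^ n ≤ (x ^ c) ^ n :=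
        pow_le_pow_left₀ (Nat.cast_nonneg _) (Nat.floor_le (Real.rpow_nonneg hx0 c)) n
    _ = x ^ (c * n) := by rw [← Real.rpow_natCast, ← Real.rpow_mul hx0]
    _ ≤ x ^ e := Real.rpow_le_rpow_of_exponent_le hx h

private theorem Z2_half (x : ℝ) (hx : 2 ≤ x) : x / 2 ≤ ((⌊x⌋₊ : ℕ) : ℝ) := by
  have := Nat.sub_one_lt_floor x
  linarith

private theorem Z2_c (K : ℕ) (η c : ℝ) (hη : 0 < η) (hc : c * (16 * (3 * K + 4)) = η) :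
    0 < c ∧ c * ((2 : ℕ) : ℝ) ≤ η / 32 ∧ c * ((2 * K : ℕ) : ℝ) ≤ η / 24 ∧ c * (K : ℝ) ≤ η / 48 := by
  have hK0 : (0:ℝ) ≤ K := Nat.cast_nonneg K
  have hden : (0:ℝ) < 16 * (3 * K + 4) := by positivity
  have hc0 : 0 < c := by
    by_contra hcon
    push Not at hcon
    have : c * (16 * (3 * K + 4)) ≤ 0 := mul_nonpos_of_nonpos_of_nonneg hcon hden.le
    linarith
  have h1 : 0 ≤ c * K := mul_nonneg hc0.le hK0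
  have h2 : 48 * (c * K) + 64 * c = η := by rw [← hc]; ring
  refine ⟨hc0, ?_, ?_, ?_⟩
  · push_cast
    linarith
  · push_cast
    linarith
  · linarith

/-- the facts for large `d` used in both statements -/
private theorem Z2_facts (K : ℕ) (η c : ℝ) (hη : 0 < η) (hη1 : η ≤ 1 / 1024) (hc : c * (16 * (3 * K + 4)) = η) (C : ℝ) :
    ∃ d0 : ℕ, ∀ d : ℕ, d0 ≤ d → ∀ [NeZero d], (1 : ℝ) ≤ d ∧
      (⌊(d : ℝ) ^ c⌋₊ : ℝ) ^ (2 * K) ≤ (d : ℝ) ^ (η / 24) ∧ (⌊(d : ℝ) ^ c⌋₊ : ℝ) ^ K ≤ (d : ℝ) ^ (η / 48) ∧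
      (d : ℝ) ^ (-(η / 32)) / 2 ≤ VV d ⌊(d : ℝ) ^ c⌋₊ ∧
      (d : ℝ) ^ (1 / 2 + 256 * η) / 2 ≤ (⌊(d : ℝ) ^ (1 / 2 + 256 * η)⌋₊ : ℝ) ∧
      ((⌊(d : ℝ) ^ (1 / 2 + 256 * η)⌋₊ : ℝ)) ≤ d ∧
      (d : ℝ) ^ (1 - η) ≤ (Fintype.card (ZMod d)ˣ : ℝ) ∧ C ≤ (d : ℝ) ^ η ∧
      2 * Real.log d + 2 ≤ (d : ℝ) ^ (η / 8) := by
  obtain ⟨hc0, hc2, hcK2, hcK⟩ := Z2_c K η c hη hc
  obtain ⟨d1, hd1⟩ := num_E1 K η c hη hc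
  obtain ⟨d2, hd2⟩ := phi_lower η hη (by linarith)
  have h1 : ∀ᶠ x : ℝ in Filter.atTop, C ≤ x ^ η := (tendsto_rpow_atTop hη).eventually_ge_atTop _
  have h2 : ∀ᶠ x : ℝ in Filter.atTop, (2 : ℝ) ≤ x ^ (1 / 2 + 256 * η) :=
    (tendsto_rpow_atTop (by positivity : (0 : ℝ) < 1 / 2 + 256 * η)).eventually_ge_atTop _
  have h3 : ∀ᶠ x : ℝ in Filter.atTop, ‖Real.log x‖ ≤ 1 / 4 * ‖x ^ (η / 8)‖ :=
    (isLittleO_log_rpow_atTop (by positivity : 0 < η / 8)).bound (by norm_num)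
  have h4 : ∀ᶠ x : ℝ in Filter.atTop, (4 : ℝ) ≤ x ^ (η / 8) :=
    (tendsto_rpow_atTop (by positivity : (0 : ℝ) < η / 8)).eventually_ge_atTop _
  have hT := tendsto_natCast_atTop_atTop (R := ℝ)
  have h5 : ∀ᶠ d : ℕ in Filter.atTop, 1 ≤ d ∧ C ≤ (d : ℝ) ^ η ∧ (2 : ℝ) ≤ (d : ℝ) ^ (1 / 2 + 256 * η) ∧
      ‖Real.log (d : ℝ)‖ ≤ 1 / 4 * ‖(d : ℝ) ^ (η / 8)‖ ∧ (4 : ℝ) ≤ (d : ℝ) ^ (η / 8) := by
    filter_upwards [Filter.eventually_ge_atTop 1, hT.eventually h1, hT.eventually h2, hT.eventually h3,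
      hT.eventually h4] with d a b c e f
    exact ⟨a, b, c, e, f⟩
  obtain ⟨d3, hd3⟩ := Filter.eventually_atTop.mp h5
  refine ⟨max (max d1 d2) d3, fun d hd _ => ?_⟩
  have hda : d1 ≤ d := (le_max_left _ _).trans ((le_max_left _ _).trans hd)
  have hdb : d2 ≤ d := (le_max_right _ _).trans ((le_max_left _ _).trans hd)
  obtain ⟨f1, f2, f3, f4, f5⟩ := hd3 d ((le_max_right _ _).trans hd)
  obtain ⟨g1, _⟩ := hd1 d hda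
  have hx1 : (1 : ℝ) ≤ d := by exact_mod_cast f1
  have hx0 : (0 : ℝ) < d := by linarith
  refine ⟨hx1, Z2_pow _ _ hx1 _ _ hcK2, Z2_pow _ _ hx1 _ _ hcK, ?_, Z2_half _ f3, ?_, hd2 d hdb, f2, ?_⟩
  · refine le_trans ?_ (VV_ge d _ g1)
    have e1 := Z2_pow (d : ℝ) c hx1 2 (η / 32) hc2
    have e2 : (0 : ℝ) < (⌊(d : ℝ) ^ c⌋₊ : ℝ) ^ 2 := by
      have : (2 : ℝ) ≤ (⌊(d : ℝ) ^ c⌋₊ : ℝ) := by exact_mod_cast g1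
      positivity
    rw [Real.rpow_neg hx0.le, inv_eq_one_div, div_div, one_div_le_one_div (by positivity) (by positivity)]
    linarith
  · refine (Nat.floor_le (by positivity)).trans ?_
    calc (d : ℝ) ^ (1 / 2 + 256 * η) ≤ (d : ℝ) ^ (1 : ℝ) := Real.rpow_le_rpow_of_exponent_le hx1 (by linarith)
      _ = d := Real.rpow_one _
  · have hp : 0 < (d : ℝ) ^ (η / 8) := by positivity
    rw [Real.norm_eq_abs, Real.norm_eq_abs, abs_of_pos hp] at f4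
    have := (le_abs_self _).trans f4
    linarith

theorem num_pair (τ : ℝ) (hτ : 0 < τ) (K : ℕ) (η c : ℝ) (hη : 0 < η) (hη1 : η ≤ 1 / 1024)
    (hc : c * (16 * (3 * K + 4)) = η) : ∃ d0 : ℕ, ∀ d : ℕ, d0 ≤ d → ∀ [NeZero d], ∀ α : ℝ,
      (⌊(d : ℝ) ^ (1 / 2 + 256 * η)⌋₊ : ℝ) * (d : ℝ) ^ (-(64 * η)) ≤ α →
      (⌊(d : ℝ) ^ c⌋₊ : ℝ) ^ (2 * K) * (18 * ((Nat.log 2 ⌊(d : ℝ) ^ (1 / 2 + 256 * η)⌋₊ : ℝ) + 2) ^ 2 *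
          (⌊(d : ℝ) ^ (1 / 2 + 256 * η)⌋₊ : ℝ) ^ 2 * (⌊(d : ℝ) ^ η⌋₊ : ℝ)) ≤
        (τ * (α * (⌊(d : ℝ) ^ (1 / 2 + 256 * η)⌋₊ : ℝ) / d * VV d ⌊(d : ℝ) ^ c⌋₊)) ^ 2 *
          (Fintype.card (ZMod d)ˣ : ℝ) := by
  obtain ⟨d0, hd0⟩ := Z2_facts K η c hη hη1 hc (max 18 (16 / τ ^ 2))
  refine ⟨d0, fun d hd _ α hα => ?_⟩
  obtain ⟨hx1, hz2, _, hV, hN, hNd, hφ, hC, hL⟩ := hd0 d hd
  have hx0 : (0 : ℝ) < d := by linarith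
  obtain ⟨z, hzd⟩ : ∃ z : ℕ, ⌊(d : ℝ) ^ c⌋₊ = z := ⟨_, rfl⟩
  obtain ⟨N, hNe⟩ : ∃ N : ℕ, ⌊(d : ℝ) ^ (1 / 2 + 256 * η)⌋₊ = N := ⟨_, rfl⟩
  rw [hzd] at hz2 hV ⊢
  rw [hNe] at hN hNd hα ⊢
  have hC1 : (18 : ℝ) ≤ (d : ℝ) ^ η := (le_max_left _ _).trans hC
  have hC2 : 16 / τ ^ 2 ≤ (d : ℝ) ^ η := (le_max_right _ _).trans hC
  have hN0 : (0 : ℝ) ≤ (N : ℝ) := Nat.cast_nonneg _
  have hE : (0 : ℝ) < (d : ℝ) ^ (1 / 2 + 256 * η) := by positivity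
  have hNpos : (0 : ℝ) < (N : ℝ) := by linarith
  -- the logarithm
  have hlog : ((Nat.log 2 N : ℝ) + 2) ≤ (d : ℝ) ^ (η / 8) := by
    refine le_trans ?_ hL
    have hNn : N ≠ 0 := by
      intro h0
      rw [h0] at hNpos
      simp at hNpos
    have e1 : 2 ^ Nat.log 2 N ≤ N := Nat.pow_log_le_self 2 hNn
    have e2 : ((2 : ℝ) ^ Nat.log 2 N) ≤ d := by
      refine le_trans ?_ hNd
      exact_mod_cast e1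
    have e3 : (Nat.log 2 N : ℝ) * Real.log 2 ≤ Real.log d := by
      rw [← Real.log_pow]
      exact Real.log_le_log (by positivity) e2
    have e4 : (0.69 : ℝ) < Real.log 2 := by linarith [Real.log_two_gt_d9]
    have e5 : (0 : ℝ) ≤ (Nat.log 2 N : ℝ) := Nat.cast_nonneg _
    have e6 : (Nat.log 2 N : ℝ) * (1 / 2) ≤ (Nat.log 2 N : ℝ) * Real.log 2 :=
      mul_le_mul_of_nonneg_left (by linarith) e5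
    linarith
  have hlog0 : (0 : ℝ) ≤ ((Nat.log 2 N : ℝ) + 2) := by positivity
  have hfl : (⌊(d : ℝ) ^ η⌋₊ : ℝ) ≤ (d : ℝ) ^ η := Nat.floor_le (by positivity)
  -- left side
  have hleft : (z : ℝ) ^ (2 * K) * (18 * ((Nat.log 2 N : ℝ) + 2) ^ 2 * (N : ℝ) ^ 2 * (⌊(d : ℝ) ^ η⌋₊ : ℝ)) ≤
      (N : ℝ) ^ 2 * (d : ℝ) ^ (3 * η) := by
    have e1 : ((Nat.log 2 N : ℝ) + 2) ^ 2 ≤ (d : ℝ) ^ (η / 4) := by
      calc ((Nat.log 2 N : ℝ) + 2) ^ 2 ≤ ((d : ℝ) ^ (η / 8)) ^ 2 := pow_le_pow_left₀ hlog0 hlog 2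
        _ = (d : ℝ) ^ (η / 4) := by
            rw [← Real.rpow_natCast, ← Real.rpow_mul hx0.le]
            congr 1
            push_cast
            ring
    calc (z : ℝ) ^ (2 * K) * (18 * ((Nat.log 2 N : ℝ) + 2) ^ 2 * (N : ℝ) ^ 2 * (⌊(d : ℝ) ^ η⌋₊ : ℝ)) ≤
          (d : ℝ) ^ (η / 24) * ((d : ℝ) ^ η * (d : ℝ) ^ (η / 4) * (N : ℝ) ^ 2 * (d : ℝ) ^ η) := by gcongr
      _ = (N : ℝ) ^ 2 * ((d : ℝ) ^ (η / 24) * (d : ℝ) ^ η * (d : ℝ) ^ (η / 4) * (d : ℝ) ^ η) := by ring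
      _ = (N : ℝ) ^ 2 * (d : ℝ) ^ (η / 24 + η + η / 4 + η) := by
          rw [← Real.rpow_add hx0, ← Real.rpow_add hx0, ← Real.rpow_add hx0]
      _ ≤ (N : ℝ) ^ 2 * (d : ℝ) ^ (3 * η) := by
          gcongr
          linarith
  refine hleft.trans ?_
  -- right side
  have hV0 : (0 : ℝ) < (d : ℝ) ^ (-(η / 32)) / 2 := by positivity
  have hα0 : 0 ≤ α := le_trans (by positivity) hα
  have hVn : 0 ≤ VV d z := (VV_pos d z).le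
  have hB : τ * ((N : ℝ) * (d : ℝ) ^ (-(64 * η)) * N / d * ((d : ℝ) ^ (-(η / 32)) / 2)) ≤
      τ * (α * (N : ℝ) / d * VV d z) := by gcongr
  have hB0 : 0 ≤ τ * ((N : ℝ) * (d : ℝ) ^ (-(64 * η)) * N / d * ((d : ℝ) ^ (-(η / 32)) / 2)) := by positivity
  have hright : (τ * ((N : ℝ) * (d : ℝ) ^ (-(64 * η)) * N / d * ((d : ℝ) ^ (-(η / 32)) / 2))) ^ 2 * (d : ℝ) ^ (1 - η) ≤
      (τ * (α * (N : ℝ) / d * VV d z)) ^ 2 * (Fintype.card (ZMod d)ˣ : ℝ) := by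
    gcongr
  refine le_trans ?_ hright
  have hN2 : (d : ℝ) ^ (1 + 512 * η) / 4 ≤ (N : ℝ) ^ 2 := by
    have e1 : ((d : ℝ) ^ (1 / 2 + 256 * η) / 2) ^ 2 ≤ (N : ℝ) ^ 2 := pow_le_pow_left₀ (by positivity) hN 2
    have e2 : (d : ℝ) ^ (1 / 2 + 256 * η) * (d : ℝ) ^ (1 / 2 + 256 * η) = (d : ℝ) ^ (1 + 512 * η) := by
      rw [← Real.rpow_add hx0]
      congr 1
      ring
    calc (d : ℝ) ^ (1 + 512 * η) / 4 = ((d : ℝ) ^ (1 / 2 + 256 * η) / 2) ^ 2 := by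
          rw [← e2]
          ring
      _ ≤ (N : ℝ) ^ 2 := e1
  have hid : (τ * ((N : ℝ) * (d : ℝ) ^ (-(64 * η)) * N / d * ((d : ℝ) ^ (-(η / 32)) / 2))) ^ 2 * (d : ℝ) ^ (1 - η) =
      τ ^ 2 / 4 * ((N : ℝ) ^ 2 * ((N : ℝ) ^ 2 * (d : ℝ) ^ (-1 - 129 * η - η / 16))) := by
    have e1 : (d : ℝ) ^ (-1 - 129 * η - η / 16) = (d : ℝ) ^ (-(64 * η)) * (d : ℝ) ^ (-(64 * η)) *
        ((d : ℝ) ^ (-(η / 32)) * (d : ℝ) ^ (-(η / 32))) * (d : ℝ) ^ (1 - η) * (d : ℝ) ^ (-2 : ℝ) := by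
      rw [← Real.rpow_add hx0, ← Real.rpow_add hx0, ← Real.rpow_add hx0, ← Real.rpow_add hx0, ← Real.rpow_add hx0]
      congr 1
      ring
    have e2 : (d : ℝ) ^ (-2 : ℝ) = 1 / (d : ℝ) ^ 2 := by
      rw [Real.rpow_neg hx0.le, Real.rpow_two, one_div]
    rw [e1, e2]
    field_simp
    try ring
  rw [hid]
  have hlast : (d : ℝ) ^ (3 * η) ≤ τ ^ 2 / 4 * ((N : ℝ) ^ 2 * (d : ℝ) ^ (-1 - 129 * η - η / 16)) := by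
    have e1 : (d : ℝ) ^ (1 + 512 * η) * (d : ℝ) ^ (-1 - 129 * η - η / 16) = (d : ℝ) ^ (383 * η - η / 16) := by
      rw [← Real.rpow_add hx0]
      congr 1
      ring
    calc (d : ℝ) ^ (3 * η) = τ ^ 2 / 16 * (16 / τ ^ 2 * (d : ℝ) ^ (3 * η)) := by
          field_simp
      _ ≤ τ ^ 2 / 16 * ((d : ℝ) ^ η * (d : ℝ) ^ (3 * η)) := by gcongr
      _ = τ ^ 2 / 16 * ((d : ℝ) ^ (η + 3 * η)) := by rw [← Real.rpow_add hx0]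
      _ ≤ τ ^ 2 / 16 * ((d : ℝ) ^ (383 * η - η / 16)) := by
          gcongr
          linarith
      _ = τ ^ 2 / 4 * ((d : ℝ) ^ (1 + 512 * η) / 4 * (d : ℝ) ^ (-1 - 129 * η - η / 16)) := by
          rw [← e1]
          ring
      _ ≤ τ ^ 2 / 4 * ((N : ℝ) ^ 2 * (d : ℝ) ^ (-1 - 129 * η - η / 16)) := by gcongr
  calc (N : ℝ) ^ 2 * (d : ℝ) ^ (3 * η) ≤
        (N : ℝ) ^ 2 * (τ ^ 2 / 4 * ((N : ℝ) ^ 2 * (d : ℝ) ^ (-1 - 129 * η - η / 16))) := by gcongr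
    _ = τ ^ 2 / 4 * ((N : ℝ) ^ 2 * ((N : ℝ) ^ 2 * (d : ℝ) ^ (-1 - 129 * η - η / 16))) := by ring

theorem num_bessel (τ : ℝ) (hτ : 0 < τ) (K : ℕ) (η c : ℝ) (hη : 0 < η) (hη1 : η ≤ 1 / 1024)
    (hc : c * (16 * (3 * K + 4)) = η) : ∃ d0 : ℕ, ∀ d : ℕ, d0 ≤ d → ∀ [NeZero d],
      (⌊(d : ℝ) ^ c⌋₊ : ℝ) ^ K * (1 + BB d) + (d : ℝ) ^ η * ((⌊(d : ℝ) ^ c⌋₊ : ℝ) ^ K * BB d) ≤
        τ / 20 * (VV d ⌊(d : ℝ) ^ c⌋₊ * ((Fintype.card (ZMod d)ˣ : ℝ) * (⌊(d : ℝ) ^ (1 / 2 + 256 * η)⌋₊ : ℝ) / d)) := by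
  obtain ⟨d0, hd0⟩ := Z2_facts K η c hη hη1 hc (240 / τ)
  obtain ⟨d1, hd1⟩ := BB_le η hη
  refine ⟨max d0 d1, fun d hd _ => ?_⟩
  obtain ⟨hx1, _, hzK, hV, hN, _, hφ, hC, _⟩ := hd0 d ((le_max_left _ _).trans hd)
  obtain ⟨hBB, _⟩ := hd1 d ((le_max_right _ _).trans hd)
  have hx0 : (0 : ℝ) < d := by linarith
  obtain ⟨z, hzd⟩ : ∃ z : ℕ, ⌊(d : ℝ) ^ c⌋₊ = z := ⟨_, rfl⟩
  obtain ⟨N, hNe⟩ : ∃ N : ℕ, ⌊(d : ℝ) ^ (1 / 2 + 256 * η)⌋₊ = N := ⟨_, rfl⟩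
  rw [hzd] at hzK hV ⊢
  rw [hNe] at hN ⊢
  have hBB0 : 0 ≤ BB d := by
    unfold BB
    have := Real.log_natCast_nonneg d
    positivity
  have hx12 : (1 : ℝ) ≤ (d : ℝ) ^ (1 / 2 + η) := Real.one_le_rpow hx1 (by positivity)
  have hxη : (1 : ℝ) ≤ (d : ℝ) ^ η := Real.one_le_rpow hx1 hη.le
  have hzK0 : (0 : ℝ) ≤ (z : ℝ) ^ K := by positivity
  have hleft : (z : ℝ) ^ K * (1 + BB d) + (d : ℝ) ^ η * ((z : ℝ) ^ K * BB d) ≤ 3 * (d : ℝ) ^ (1 / 2 + 3 * η) := by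
    have e1 : (z : ℝ) ^ K * (1 + BB d) ≤ (d : ℝ) ^ (η / 48) * (2 * (d : ℝ) ^ (1 / 2 + η)) := by
      gcongr
      linarith
    have e2 : (d : ℝ) ^ η * ((z : ℝ) ^ K * BB d) ≤ (d : ℝ) ^ η * ((d : ℝ) ^ (η / 48) * (d : ℝ) ^ (1 / 2 + η)) := by
      gcongr
    have e3 : (d : ℝ) ^ (η / 48) * (d : ℝ) ^ (1 / 2 + η) ≤ (d : ℝ) ^ (1 / 2 + 3 * η) := by
      rw [← Real.rpow_add hx0]
      exact Real.rpow_le_rpow_of_exponent_le hx1 (by linarith)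
    have e4 : (d : ℝ) ^ η * ((d : ℝ) ^ (η / 48) * (d : ℝ) ^ (1 / 2 + η)) ≤ (d : ℝ) ^ (1 / 2 + 3 * η) := by
      rw [← Real.rpow_add hx0, ← Real.rpow_add hx0]
      exact Real.rpow_le_rpow_of_exponent_le hx1 (by linarith)
    linarith
  refine hleft.trans ?_
  have hV0 : (0 : ℝ) < (d : ℝ) ^ (-(η / 32)) / 2 := by positivity
  have hVn : 0 ≤ VV d z := (VV_pos d z).le
  have hright : τ / 20 * ((d : ℝ) ^ (-(η / 32)) / 2 * ((d : ℝ) ^ (1 - η) * ((d : ℝ) ^ (1 / 2 + 256 * η) / 2) / d)) ≤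
      τ / 20 * (VV d z * ((Fintype.card (ZMod d)ˣ : ℝ) * (N : ℝ) / d)) := by gcongr
  refine le_trans ?_ hright
  have hid : τ / 20 * ((d : ℝ) ^ (-(η / 32)) / 2 * ((d : ℝ) ^ (1 - η) * ((d : ℝ) ^ (1 / 2 + 256 * η) / 2) / d)) =
      τ / 80 * (d : ℝ) ^ (1 / 2 + 255 * η - η / 32) := by
    have e1 : (d : ℝ) ^ (1 / 2 + 255 * η - η / 32) =
        (d : ℝ) ^ (-(η / 32)) * (d : ℝ) ^ (1 - η) * (d : ℝ) ^ (1 / 2 + 256 * η) * (d : ℝ) ^ (-1 : ℝ) := by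
      rw [← Real.rpow_add hx0, ← Real.rpow_add hx0, ← Real.rpow_add hx0]
      congr 1
      ring
    rw [e1, Real.rpow_neg_one]
    field_simp
    norm_num
  rw [hid]
  calc 3 * (d : ℝ) ^ (1 / 2 + 3 * η) = τ / 80 * (240 / τ * (d : ℝ) ^ (1 / 2 + 3 * η)) := by
        field_simp
        norm_num
    _ ≤ τ / 80 * ((d : ℝ) ^ η * (d : ℝ) ^ (1 / 2 + 3 * η)) := by gcongr
    _ = τ / 80 * (d : ℝ) ^ (η + (1 / 2 + 3 * η)) := by rw [← Real.rpow_add hx0]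
    _ ≤ τ / 80 * (d : ℝ) ^ (1 / 2 + 255 * η - η / 32) := by
        gcongr
        linarith

end Pool.Agent.Lib.MP_42948a_nt.TQ
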