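import Pool.Agent.Lib.MP_42948a_nt.TQ.P1
import Pool.Agent.Lib.MP_42948a_nt.TQ.Z8

/-!
# At most a quarter of the classes have constant sign `σ` (job Z9)

`structure_final` with `ε/2` and `δ`: let `X'' = ⌊d^(1+ε/2)⌋`, `X = ⌊d^(1+ε)⌋`, `z = ⌊d^c⌋`. `#PX d z X'' ≤ #{x : c0⁻¹ x ∈ H} + δ φ = #H + δ φ ≤ φ/2 + δ φ`
(`H ≠ ⊤`, so `2 * Nat.card H ≤ Nat.card G`, e.g. `Subgroup.card_mul_index`, index `≥ 2`). `Full d z X''` (`1 + ε/8 ≤ 1 + ε/2`). Let `u` be the prime,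
`u X'' ≤ d^(ε/8) d^(1+ε/2) ≤ d^(1+ε)`, so `u X'' ≤ X`. For `σ = ±1` let `Pσ = {x : FX d z X x = σ}`. For `x ∈ Pσ`: `FX d z X'' x = σ` (`FX_mono`) and
`FX d z X'' (x * (ucl d u)⁻¹) = lio u * σ = -σ` (`FX_shift`, `lio_prime`). So `Pσ` and its image under the injection `· * (ucl d u)⁻¹` are disjoint
subsets of `PX d z X''`, `2 #Pσ ≤ (1/2 + δ) φ`, `#Pσ ≤ (1/4 + δ) φ`.
-/

namespace Pool.Agent.Lib.MP_42948a_nt.TQ

open Finset Pool.Agent.Lib.MP_42948a_nt.OA Pool.Agent.Lib.MP_42948a_nt.AC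

open Classical in
private theorem two_mul_card_le {G : Type*} [Group G] (S T : Finset G) (g : G) (hST : S ⊆ T)
    (himg : ∀ x ∈ S, x * g ∈ T) (hdisj : ∀ x ∈ S, x * g ∉ S) : 2 * S.card ≤ T.card := by
  have h1 : (S.image (fun x => x * g)).card = S.card :=
    Finset.card_image_of_injective _ (mul_left_injective g)
  have h2 : Disjoint S (S.image (fun x => x * g)) := by
    rw [Finset.disjoint_left]
    intro y hy hy2
    obtain ⟨x, hx, rfl⟩ := Finset.mem_image.mp hy2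
    exact hdisj x hx hy
  have h3 : S ∪ S.image (fun x => x * g) ⊆ T := by
    refine Finset.union_subset hST ?_
    intro y hy
    obtain ⟨x, hx, rfl⟩ := Finset.mem_image.mp hy
    exact himg x hx
  have h4 := Finset.card_le_card h3
  rw [Finset.card_union_of_disjoint h2, h1] at h4
  omega

open Classical in
theorem quarter (ε δ : ℝ) (hε : 0 < ε) (hε1 : ε ≤ 1) (hδ : 0 < δ) (hδ1 : δ ≤ 1) :
    ∃ c : ℝ, 0 < c ∧ ∃ d0 : ℕ, ∀ d : ℕ, d0 ≤ d → ∀ [NeZero d], Full d ⌊(d : ℝ) ^ c⌋₊ ⌊(d : ℝ) ^ (1 + ε)⌋₊ ∧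
      ∀ σ : ℝ, (σ = 1 ∨ σ = -1) →
        (((univ : Finset (ZMod d)ˣ).filter (fun x => FX d ⌊(d : ℝ) ^ c⌋₊ ⌊(d : ℝ) ^ (1 + ε)⌋₊ x = σ)).card : ℝ) ≤
          (1 / 4 + δ) * (Fintype.card (ZMod d)ˣ : ℝ) := by
  obtain ⟨c, hc, d0, h0⟩ := structure_final (ε / 2) δ (by linarith) (by linarith) hδ hδ1
  refine ⟨c, hc, max d0 1, fun d hd => ?_⟩
  intro _
  obtain ⟨hfull, ⟨u, hup, hur, huc, hule⟩, H, c0, hH, hcard⟩ := h0 d ((le_max_left _ _).trans hd)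
  have hd1 : (1 : ℝ) ≤ (d : ℝ) := by exact_mod_cast (le_max_right d0 1).trans hd
  have hd0 : (0 : ℝ) < (d : ℝ) := by linarith
  set z := ⌊(d : ℝ) ^ c⌋₊ with hz
  set X := ⌊(d : ℝ) ^ (1 + ε)⌋₊ with hX
  set X' := ⌊(d : ℝ) ^ (1 + ε / 2)⌋₊ with hX'
  have hmono : ∀ {a b : ℝ}, a ≤ b → ⌊(d : ℝ) ^ a⌋₊ ≤ ⌊(d : ℝ) ^ b⌋₊ := fun hab =>
    Nat.floor_le_floor (Real.rpow_le_rpow_of_exponent_le hd1 hab)
  have hF : Full d z X := hfull X (hmono (by linarith))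
  have hF' : Full d z X' := hfull X' (hmono (by linarith))
  have hXX : X' ≤ X := hmono (by linarith)
  have huX : u * X' ≤ X := by
    apply Nat.le_floor
    push_cast
    have h1 : (X' : ℝ) ≤ (d : ℝ) ^ (1 + ε / 2) := Nat.floor_le (Real.rpow_nonneg hd0.le _)
    calc (u : ℝ) * (X' : ℝ) ≤ (d : ℝ) ^ (ε / 2 / 4) * (d : ℝ) ^ (1 + ε / 2) :=
          mul_le_mul hule h1 (Nat.cast_nonneg _) (Real.rpow_nonneg hd0.le _)
      _ = (d : ℝ) ^ (ε / 2 / 4 + (1 + ε / 2)) := (Real.rpow_add hd0 _ _).symm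
      _ ≤ (d : ℝ) ^ (1 + ε) := Real.rpow_le_rpow_of_exponent_le hd1 (by linarith)
  refine ⟨hF, fun σ hσ => ?_⟩
  obtain ⟨g, hg⟩ : ∃ g, g ∉ H := by
    by_contra hcon
    push Not at hcon
    exact hH (eq_top_iff.mpr fun x _ => hcon x)
  have hS : 2 * ((univ : Finset (ZMod d)ˣ).filter (fun x => c0⁻¹ * x ∈ H)).card ≤
      (univ : Finset (ZMod d)ˣ).card := by
    refine two_mul_card_le _ _ g (Finset.subset_univ _) (fun _ _ => Finset.mem_univ _) ?_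
    intro x hx hx2
    rw [Finset.mem_filter] at hx hx2
    apply hg
    have h1 := H.mul_mem (H.inv_mem hx.2) hx2.2
    have h2 : (c0⁻¹ * x)⁻¹ * (c0⁻¹ * (x * g)) = g := by group
    rwa [h2] at h1
  have hPX : (PX d z X').card ≤ ((PX d z X').filter (fun x => c0⁻¹ * x ∉ H)).card +
      ((univ : Finset (ZMod d)ˣ).filter (fun x => c0⁻¹ * x ∈ H)).card := by
    refine (Finset.card_le_card ?_).trans (Finset.card_union_le _ _)
    intro x hx
    rw [Finset.mem_union, Finset.mem_filter, Finset.mem_filter]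
    by_cases h : c0⁻¹ * x ∈ H
    · exact Or.inr ⟨Finset.mem_univ _, h⟩
    · exact Or.inl ⟨hx, h⟩
  have hσ0 : σ ≠ 0 := by rcases hσ with h | h <;> rw [h] <;> norm_num
  have hP : 2 * ((univ : Finset (ZMod d)ˣ).filter (fun x => FX d z X x = σ)).card ≤ (PX d z X').card := by
    refine two_mul_card_le _ _ (ucl d u)⁻¹ ?_ ?_ ?_
    · intro x hx
      rw [Finset.mem_filter] at hx
      rw [PX, Finset.mem_filter]
      refine ⟨Finset.mem_univ _, ?_⟩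
      rw [FX_mono hXX hF' (by rw [hx.2]; exact hσ0), hx.2]
      exact hσ0
    · intro x hx
      rw [Finset.mem_filter] at hx
      rw [PX, Finset.mem_filter]
      refine ⟨Finset.mem_univ _, ?_⟩
      rw [FX_shift hur huc huX hF' (by rw [hx.2]; exact hσ0), hx.2, lio_prime hup]
      simpa using hσ0
    · intro x hx hx2
      rw [Finset.mem_filter] at hx hx2
      have h1 := FX_shift hur huc huX hF' (c := x) (by rw [hx.2]; exact hσ0)
      rw [FX_mono hXX hF' (by rw [hx2.2]; exact hσ0), hx2.2, hx.2, lio_prime hup] at h1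
      apply hσ0
      linarith
  have e1 : (2 : ℝ) * (((univ : Finset (ZMod d)ˣ).filter (fun x => c0⁻¹ * x ∈ H)).card : ℝ) ≤
      (Fintype.card (ZMod d)ˣ : ℝ) := by
    rw [← Finset.card_univ]
    exact_mod_cast hS
  have e2 : ((PX d z X').card : ℝ) ≤ (((PX d z X').filter (fun x => c0⁻¹ * x ∉ H)).card : ℝ) +
      (((univ : Finset (ZMod d)ˣ).filter (fun x => c0⁻¹ * x ∈ H)).card : ℝ) := by exact_mod_cast hPX
  have e3 : (2 : ℝ) * (((univ : Finset (ZMod d)ˣ).filter (fun x => FX d z X x = σ)).card : ℝ) ≤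
      ((PX d z X').card : ℝ) := by exact_mod_cast hP
  have e4 : (0 : ℝ) ≤ δ * (Fintype.card (ZMod d)ˣ : ℝ) := by positivity
  linarith

end Pool.Agent.Lib.MP_42948a_nt.TQ
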